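import Mathlib

/-! Thin lens with two tunnels (MP_49383f_gt): definitions. -/

set_option autoImplicit false

namespace Pool.Agent.Helper676.TL

open Set Metric
open scoped ContDiff

/-- conjugation -/
noncomputable abbrev cj (z : ℂ) : ℂ := starRingEnd ℂ z

/-- `∂f/∂z` for real differentiable `f : ℂ → ℂ`. -/
noncomputable def dz (f : ℂ → ℂ) (z : ℂ) : ℂ :=
  (fderiv ℝ f z 1 - Complex.I * fderiv ℝ f z Complex.I) / 2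

/-- `∂f/∂z̄` for real differentiable `f : ℂ → ℂ`. -/
noncomputable def dzb (f : ℂ → ℂ) (z : ℂ) : ℂ :=
  (fderiv ℝ f z 1 + Complex.I * fderiv ℝ f z Complex.I) / 2

/-- Cauchy transform. -/
noncomputable def CT (F : ℂ → ℂ) (z : ℂ) : ℂ := (Real.pi : ℂ)⁻¹ * ∫ w, F w / (z - w)

/-- `κ(ζ) = 1 + t² / conj(ζ-1)` for `‖ζ-1‖ ≥ t`, and `κ(ζ) = ζ` for `‖ζ-1‖ ≤ t`. -/
noncomputable def kap (t : ℝ) (ζ : ℂ) : ℂ := 1 + ((t ^ 2 / (max ‖ζ - 1‖ t) ^ 2 : ℝ) : ℂ) * (ζ - 1)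

/-- `τ(ζ) = t/(ζ-1)` for `‖ζ-1‖ ≥ t`. -/
noncomputable def tau (t : ℝ) (ζ : ℂ) : ℂ := ((t / (max ‖ζ - 1‖ t) ^ 2 : ℝ) : ℂ) * cj (ζ - 1)

/-- radial retraction onto `closedBall 1 t`. -/
noncomputable def ret (t : ℝ) (ζ : ℂ) : ℂ := 1 + ((t / max ‖ζ - 1‖ t : ℝ) : ℂ) * (ζ - 1)

/-- the domain: ball of radius 16 minus the two holes. -/
def G (t : ℝ) : Set ℂ := {ζ | ‖ζ‖ < 16 ∧ t ≤ ‖ζ - 1‖ ∧ t ≤ ‖ζ + 1‖}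

noncomputable def sS (t : ℝ) (β : ℂ → ℂ) (ζ : ℂ) : ℂ := cj (β (kap t ζ)) * tau t ζ

noncomputable def fa (t : ℝ) (u β : ℂ → ℂ) (ζ : ℂ) : ℂ := 1 + u ζ + sS t β ζ + sS t β (-ζ)

noncomputable def fb (t : ℝ) (v α : ℂ → ℂ) (ζ : ℂ) : ℂ := v ζ + sS t α ζ - sS t α (-ζ)

/-- `p = (H/2) (|a|²+|b|²)` with `H = t h`. -/
noncomputable def pp (t h : ℝ) (a b : ℂ → ℂ) (ζ : ℂ) : ℝ := t * h / 2 * (‖a ζ‖ ^ 2 + ‖b ζ‖ ^ 2)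

noncomputable def FF (t h : ℝ) (a b : ℂ → ℂ) : ℂ → ℂ :=
  (G t).indicator fun ζ => (pp t h a b ζ : ℂ) * cj (b ζ)

noncomputable def KK (t h : ℝ) (a b : ℂ → ℂ) : ℂ → ℂ :=
  (G t).indicator fun ζ => - ((pp t h a b ζ : ℂ) * cj (a ζ))

/-- The fixed point system. -/
structure Sol (C t h : ℝ) (u v α β : ℂ → ℂ) : Prop where
  hu : ∀ ζ, u ζ = CT (FF t h (fa t u β) (fb t v α)) ζ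
  hv : ∀ ζ, v ζ = CT (KK t h (fa t u β) (fb t v α)) ζ
  hα : ∀ ζ, α ζ = 1 + u (ret t ζ) + sS t β (-(ret t ζ))
  hβ : ∀ ζ, β ζ = v (ret t ζ) - sS t α (-(ret t ζ))
  cu : Continuous u
  cv : Continuous v
  cα : Continuous α
  cβ : Continuous β
  bu : ∀ ζ, ‖u ζ‖ ≤ C * t
  bv : ∀ ζ, ‖v ζ‖ ≤ C * t
  bα : ∀ ζ, ‖α ζ - 1‖ ≤ C * t
  bβ : ∀ ζ, ‖β ζ‖ ≤ C * t
  nu : ∀ ζ, u (-ζ) = u ζ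
  nv : ∀ ζ, v (-ζ) = - v ζ
  ju : ∀ ζ, u (cj ζ) = cj (u ζ)
  jv : ∀ ζ, v (cj ζ) = cj (v ζ)
  jα : ∀ ζ, α (cj ζ) = cj (α ζ)
  jβ : ∀ ζ, β (cj ζ) = cj (β ζ)
  dα : DifferentiableOn ℂ α (ball 1 t)
  dβ : DifferentiableOn ℂ β (ball 1 t)

/-- open domain of the extended fields -/
def Ut (t : ℝ) : Set ℂ := {ζ | ‖ζ‖ < 12 ∧ t / 2 < ‖ζ - 1‖ ∧ t / 2 < ‖ζ + 1‖}

/-- the closed upper sheet region -/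
def Gc (t : ℝ) : Set ℂ := {ζ | ‖ζ‖ < 12 ∧ t ≤ ‖ζ - 1‖ ∧ t ≤ ‖ζ + 1‖}

/-- the Dirac (spinor) system of surfaces with mean curvature `H`. -/
def Dirac (H : ℝ) (a b : ℂ → ℂ) (V : Set ℂ) : Prop :=
  ContDiffOn ℝ ∞ a V ∧ ContDiffOn ℝ ∞ b V ∧
  (∀ ζ ∈ V, dzb a ζ = ((H / 2 * (‖a ζ‖ ^ 2 + ‖b ζ‖ ^ 2) : ℝ) : ℂ) * cj (b ζ)) ∧
  (∀ ζ ∈ V, dzb b ζ = - (((H / 2 * (‖a ζ‖ ^ 2 + ‖b ζ‖ ^ 2) : ℝ) : ℂ) * cj (a ζ)))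

/-- Output of the analytic part (A): the two spinor fields. -/
structure Fields (C t h : ℝ) (a b : ℂ → ℂ) : Prop where
  ht : 0 < t
  h1 : 1 / 2 ≤ h
  h2 : h ≤ 2
  dirac : Dirac (t * h) a b (Ut t)
  refl : ∀ ζ, t / 2 < ‖ζ - 1‖ → ‖ζ - 1‖ < 2 * t →
    b ζ = cj (a (1 + t ^ 2 / cj (ζ - 1))) * (t / (ζ - 1))
  ea : ∀ ζ ∈ Ut t, a (-ζ) = a ζ
  ob : ∀ ζ ∈ Ut t, b (-ζ) = - b ζ
  ja : ∀ ζ ∈ Ut t, a (cj ζ) = cj (a ζ)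
  jb : ∀ ζ ∈ Ut t, b (cj ζ) = cj (b ζ)
  period : ∫ θ in (0 : ℝ)..(2 * Real.pi),
    a (1 + t * Complex.exp (θ * Complex.I)) ^ 2 * Complex.exp (θ * Complex.I) = 0
  est_a : ∀ ζ ∈ Gc t, ‖a ζ - 1‖ ≤ C * t
  est_b : ∀ ζ ∈ Gc t, ‖b ζ - (t / (ζ - 1) + t / (ζ + 1) - (t * h / 2 : ℝ) * cj ζ)‖ ≤
    C * t * (Real.sqrt t + t / ‖ζ - 1‖ + t / ‖ζ + 1‖)
  est_da : ∀ ζ, 17 / 2 < ‖ζ‖ → ‖ζ‖ < 23 / 2 → ‖fderiv ℝ a ζ‖ ≤ C * t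
  est_db : ∀ ζ, 17 / 2 < ‖ζ‖ → ‖ζ‖ < 23 / 2 →
    ‖fderiv ℝ (fun ζ => b ζ - (t / (ζ - 1) + t / (ζ + 1) - (t * h / 2 : ℝ) * cj ζ)) ζ‖ ≤
      C * t * Real.sqrt t

/-- PART A: existence of the fields. -/
def PartA : Prop := ∃ C t₀ : ℝ, 0 < C ∧ 0 < t₀ ∧ t₀ < 1 / 100 ∧
  ∀ t ∈ Ioo 0 t₀, ∃ (h : ℝ) (a b : ℂ → ℂ), Fields C t h a b

end Pool.Agent.Helper676.TL
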