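import Mathlib
import Pool.Agent.Helper676.TL.Defs

/-! Thin lens with two tunnels (MP_49383f_gt): geometric interface and final statement. -/

set_option autoImplicit false

namespace Pool.Agent.Helper676.TL

open Set Metric
open scoped ContDiff

abbrev E3 := EuclideanSpace ℝ (Fin 3)

/-- the map `(f, z)` into `ℝ³`. -/
noncomputable def Xmap (f : ℂ → ℂ) (z : ℂ → ℝ) (ζ : ℂ) : E3 := !₂[(f ζ).re, (f ζ).im, z ζ]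

/-- `φ` is, on the open set `V`, a smooth immersion with constant mean curvature `H`. -/
def CmcImmersion (φ : ℂ → E3) (V : Set ℂ) (H : ℝ) : Prop :=
  ContDiffOn ℝ ∞ φ V ∧ (∀ w ∈ V, Function.Injective (fderiv ℝ φ w)) ∧
    ∃ n : ℂ → E3, ContDiffOn ℝ ∞ n V ∧ ∀ w ∈ V, ‖n w‖ = 1 ∧
      (∀ v : ℂ, inner ℝ (fderiv ℝ φ w v) (n w) = 0) ∧
        ∃ S : ℂ →L[ℝ] ℂ, (∀ v : ℂ, fderiv ℝ n w v = - fderiv ℝ φ w (S v)) ∧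
          LinearMap.trace ℝ ℂ (S : ℂ →ₗ[ℝ] ℂ) = 2 * H

/-- `S` is a smooth embedded surface in `ℝ³` with boundary exactly `C`, of constant mean
curvature `H`. -/
def IsCmcSurface (S C : Set E3) (H : ℝ) : Prop :=
  C ⊆ S ∧ ∀ p ∈ S, ∃ (U : Set E3) (V : Set ℂ) (φ : ℂ → E3) (ρ : ℂ → ℝ),
    IsOpen U ∧ p ∈ U ∧ IsOpen V ∧ CmcImmersion φ V H ∧
    Topology.IsEmbedding (fun w : V => φ w) ∧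
    ContDiffOn ℝ ∞ ρ V ∧ (∀ w ∈ V, ρ w = 0 → fderiv ℝ ρ w ≠ 0) ∧
    S ∩ U = φ '' {w | w ∈ V ∧ 0 ≤ ρ w} ∧ C ∩ U = φ '' {w | w ∈ V ∧ ρ w = 0}

/-- `C` is a convex curve in the plane `{x₃ = c}`: a smooth regular simple closed curve which is
the boundary of a compact convex set with interior points. -/
def IsConvexCurve (C : Set E3) (c : ℝ) : Prop :=
  ∃ (K : Set ℂ) (γ : ℝ → ℂ), Convex ℝ K ∧ IsCompact K ∧ (interior K).Nonempty ∧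
    ContDiff ℝ ∞ γ ∧ (∀ θ, γ (θ + 2 * Real.pi) = γ θ) ∧ InjOn γ (Ico 0 (2 * Real.pi)) ∧
    (∀ θ, deriv γ θ ≠ 0) ∧ range γ = frontier K ∧
    C = {x : E3 | x 2 = c ∧ (⟨x 0, x 1⟩ : ℂ) ∈ frontier K}

/-- FINAL STATEMENT -/
def Final : Prop := ∃ (C₁ C₂ S : Set E3) (c₁ c₂ H : ℝ), c₁ ≠ c₂ ∧ IsConvexCurve C₁ c₁ ∧
  IsConvexCurve C₂ c₂ ∧ H ≠ 0 ∧ IsCompact S ∧ IsConnected S ∧ IsCmcSurface S (C₁ ∪ C₂) H ∧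
  ¬ Nonempty (S ≃ₜ (Circle × unitInterval))

/-- the compact parameter region of the upper sheet -/
def Dc (t z₀ : ℝ) (z : ℂ → ℝ) : Set ℂ :=
  {ζ | t ≤ ‖ζ - 1‖ ∧ t ≤ ‖ζ + 1‖ ∧ (‖ζ‖ ≤ 9 ∨ (‖ζ‖ ≤ 11 ∧ z₀ ≤ z ζ))}

/-- Output of part (B). -/
structure LensData (t H z₀ : ℝ) (f : ℂ → ℂ) (z : ℂ → ℝ) : Prop where
  ht : 0 < t
  ht1 : t < 1 / 100
  hH : H ≠ 0
  hz₀ : 0 < z₀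
  cmc : CmcImmersion (Xmap f z) (Ut t) H
  cf : ContDiffOn ℝ ∞ f (Ut t)
  cz : ContDiffOn ℝ ∞ z (Ut t)
  inj : ∀ ζ₁ ∈ Gc t, ∀ ζ₂ ∈ Gc t, ‖ζ₁‖ ≤ 11 → ‖ζ₂‖ ≤ 11 → f ζ₁ = f ζ₂ → z ζ₁ = z ζ₂ → ζ₁ = ζ₂
  pos : ∀ ζ ∈ Gc t, ‖ζ‖ ≤ 11 → ‖ζ - 1‖ ≠ t → ‖ζ + 1‖ ≠ t → 0 < z ζ
  zero_p : ∀ ζ, ‖ζ - 1‖ = t → z ζ = 0
  zero_m : ∀ ζ, ‖ζ + 1‖ = t → z ζ = 0
  refl_p : ∀ ζ, t / 2 < ‖ζ - 1‖ → ‖ζ - 1‖ < 2 * t →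
    f (1 + t ^ 2 / cj (ζ - 1)) = f ζ ∧ z (1 + t ^ 2 / cj (ζ - 1)) = - z ζ
  refl_m : ∀ ζ, t / 2 < ‖ζ + 1‖ → ‖ζ + 1‖ < 2 * t →
    f (-1 + t ^ 2 / cj (ζ + 1)) = f ζ ∧ z (-1 + t ^ 2 / cj (ζ + 1)) = - z ζ
  out1 : ∀ ζ, 9 ≤ ‖ζ‖ → ‖ζ‖ ≤ 19 / 2 → z₀ < z ζ
  out2 : ∀ ζ, 21 / 2 ≤ ‖ζ‖ → ‖ζ‖ ≤ 11 → z ζ < z₀
  dec : ∀ ζ, 9 ≤ ‖ζ‖ → ‖ζ‖ ≤ 11 → fderiv ℝ z ζ ζ < 0
  conv : ∃ (K : Set ℂ) (γ : ℝ → ℂ), Convex ℝ K ∧ IsCompact K ∧ (interior K).Nonempty ∧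
    ContDiff ℝ ∞ γ ∧ (∀ θ, γ (θ + 2 * Real.pi) = γ θ) ∧ InjOn γ (Ico 0 (2 * Real.pi)) ∧
    (∀ θ, deriv γ θ ≠ 0) ∧ range γ = frontier K ∧
    frontier K = f '' {ζ | 9 ≤ ‖ζ‖ ∧ ‖ζ‖ ≤ 11 ∧ z ζ = z₀}

/-- PART B -/
def PartB : Prop := PartA → ∃ (t H z₀ : ℝ) (f : ℂ → ℂ) (z : ℂ → ℝ), LensData t H z₀ f z

/-- PART C -/
def PartC : Prop := ∀ (t H z₀ : ℝ) (f : ℂ → ℂ) (z : ℂ → ℝ), LensData t H z₀ f z → Final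

end Pool.Agent.Helper676.TL
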