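import Mathlib
import Pool.Agent.Helper676.TL.Defs

set_option autoImplicit false

namespace Pool.Agent.Helper676.TL

/-- measurable, bounded by `M`, supported in `closedBall 0 ρ`. -/
def Adm (F : ℂ → ℂ) (M ρ : ℝ) : Prop :=
  Measurable F ∧ (∀ w, ‖F w‖ ≤ M) ∧ (∀ w, ρ < ‖w‖ → F w = 0)

end Pool.Agent.Helper676.TL
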