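import Mathlib
import Pool.Agent.Helper676.TL.Defs
import Pool.Agent.Helper676.TL.Base

set_option autoImplicit false

namespace Pool.Agent.Helper676.TL

open Set Metric
open scoped ContDiff



/-- the truncated kernel -/
noncomputable def kern22846 (r s : ℝ) : ℝ := if s < r then s⁻¹ else 0

theorem kern22846_nonneg (r : ℝ) (x : ℂ) : 0 ≤ kern22846 r ‖x‖ := by
  unfold kern22846
  split_ifs
  · positivity
  · exact le_refl _

theorem kern22846_eqOn (r : ℝ) :
    Set.EqOn (fun y : ℝ => y ^ (Module.finrank ℝ ℂ - 1) • kern22846 r y)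
      ((Set.Ioo 0 r).indicator (fun _ => (1 : ℝ))) (Set.Ioi 0) := by
  intro y hy
  have hy0 : 0 < y := hy
  have h1 : Module.finrank ℝ ℂ - 1 = 1 := by rw [Complex.finrank_real_complex]
  simp only [h1, pow_one, smul_eq_mul]
  unfold kern22846
  by_cases h : y < r
  · rw [if_pos h, Set.indicator_of_mem (show y ∈ Set.Ioo 0 r from ⟨hy0, h⟩)]
    exact mul_inv_cancel₀ hy0.ne'
  · rw [if_neg h, Set.indicator_of_notMem (fun h' => h h'.2), mul_zero]

theorem kern22846_integrable (r : ℝ) :
    MeasureTheory.Integrable (fun x : ℂ => kern22846 r ‖x‖) := by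
  rw [MeasureTheory.integrable_fun_norm_addHaar]
  refine MeasureTheory.IntegrableOn.congr_fun ?_ (kern22846_eqOn r).symm measurableSet_Ioi
  apply MeasureTheory.Integrable.integrableOn
  rw [MeasureTheory.integrable_indicator_iff measurableSet_Ioo]
  exact MeasureTheory.integrableOn_const (by
    rw [Real.volume_Ioo]; exact ENNReal.ofReal_ne_top)

theorem kern22846_integral (r : ℝ) (hr : 0 < r) :
    ∫ x : ℂ, kern22846 r ‖x‖ = 2 * Real.pi * r := by
  rw [MeasureTheory.integral_fun_norm_addHaar]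
  rw [MeasureTheory.setIntegral_congr_fun measurableSet_Ioi (kern22846_eqOn r)]
  rw [MeasureTheory.setIntegral_indicator measurableSet_Ioo]
  have h1 : Set.Ioi (0 : ℝ) ∩ Set.Ioo 0 r = Set.Ioo 0 r :=
    Set.inter_eq_right.2 (fun y hy => hy.1)
  rw [h1, MeasureTheory.setIntegral_const, Complex.finrank_real_complex]
  rw [MeasureTheory.Measure.real, MeasureTheory.Measure.real, Complex.volume_ball,
    Real.volume_Ioo]
  simp [hr.le, NNReal.coe_real_pi]
  ring

theorem kern22846_shift_integrable (r : ℝ) (z : ℂ) :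
    MeasureTheory.Integrable (fun w : ℂ => kern22846 r ‖z - w‖) :=
  (kern22846_integrable r).comp_sub_left z

theorem kern22846_shift_integral (r : ℝ) (hr : 0 < r) (z : ℂ) :
    ∫ w : ℂ, kern22846 r ‖z - w‖ = 2 * Real.pi * r := by
  rw [MeasureTheory.integral_sub_left_eq_self (fun x : ℂ => kern22846 r ‖x‖)
    MeasureTheory.volume z]
  exact kern22846_integral r hr

theorem adm22846_integrable (F : ℂ → ℂ) (M ρ : ℝ) (h : Adm F M ρ) :
    MeasureTheory.Integrable F := by
  have hsupp : Function.support F ⊆ Metric.closedBall 0 ρ := by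
    intro w hw
    rw [mem_closedBall_zero_iff]
    by_contra hcon
    exact hw (h.2.2 w (not_le.1 hcon))
  rw [← MeasureTheory.integrableOn_iff_integrable_of_support_subset hsupp]
  apply MeasureTheory.Measure.integrableOn_of_bounded (M := M)
  · exact (isCompact_closedBall (0 : ℂ) ρ).measure_lt_top.ne
  · exact h.1.aestronglyMeasurable
  · exact Filter.Eventually.of_forall (fun w => h.2.1 w)

theorem point22846 (F : ℂ → ℂ) (M ρ : ℝ) (h : Adm F M ρ) (z : ℂ) (r : ℝ) (hr : 0 < r) (w : ℂ) :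
    ‖F w / (z - w)‖ ≤ M * kern22846 r ‖z - w‖ + ‖F w‖ / r := by
  rw [norm_div]
  unfold kern22846
  by_cases h1 : ‖z - w‖ < r
  · rw [if_pos h1]
    have h2 : ‖F w‖ / ‖z - w‖ ≤ M * ‖z - w‖⁻¹ := by
      rw [div_eq_mul_inv]
      exact mul_le_mul_of_nonneg_right (h.2.1 w) (by positivity)
    have h3 : 0 ≤ ‖F w‖ / r := by positivity
    linarith
  · rw [if_neg h1, mul_zero, zero_add]
    exact div_le_div_of_nonneg_left (norm_nonneg _) hr (not_lt.1 h1)

theorem bound22846_integrable (F : ℂ → ℂ) (M ρ : ℝ) (h : Adm F M ρ) (z : ℂ) (r : ℝ) :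
    MeasureTheory.Integrable (fun w => M * kern22846 r ‖z - w‖ + ‖F w‖ / r) :=
  ((kern22846_shift_integrable r z).const_mul M).add
    ((adm22846_integrable F M ρ h).norm.div_const r)

theorem CT_integrable (F : ℂ → ℂ) (M ρ : ℝ) (h : Adm F M ρ) (z : ℂ) :
    MeasureTheory.Integrable (fun w => F w / (z - w)) := by
  refine MeasureTheory.Integrable.mono' (bound22846_integrable F M ρ h z 1) ?_ ?_
  · exact (h.1.div (measurable_const.sub measurable_id)).aestronglyMeasurable
  · exact Filter.Eventually.of_forall (fun w => point22846 F M ρ h z 1 one_pos w)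

theorem CT_interp (F : ℂ → ℂ) (M ρ : ℝ) (h : Adm F M ρ) (z : ℂ) (r : ℝ) (hr : 0 < r) :
    ‖CT F z‖ ≤ 2 * r * M + (∫ w, ‖F w‖) / (Real.pi * r) := by
  have hpi := Real.pi_pos
  have h1 : ‖∫ w, F w / (z - w)‖ ≤ ∫ w, (M * kern22846 r ‖z - w‖ + ‖F w‖ / r) :=
    MeasureTheory.norm_integral_le_of_norm_le (bound22846_integrable F M ρ h z r)
      (Filter.Eventually.of_forall (fun w => point22846 F M ρ h z r hr w))
  have h2 : ∫ w, (M * kern22846 r ‖z - w‖ + ‖F w‖ / r) =
      M * (2 * Real.pi * r) + (∫ w, ‖F w‖) / r := by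
    rw [MeasureTheory.integral_add ((kern22846_shift_integrable r z).const_mul M)
      ((adm22846_integrable F M ρ h).norm.div_const r)]
    rw [MeasureTheory.integral_const_mul, kern22846_shift_integral r hr z,
      MeasureTheory.integral_div]
  rw [h2] at h1
  unfold CT
  rw [norm_mul, norm_inv, Complex.norm_real, Real.norm_eq_abs, abs_of_pos hpi]
  calc Real.pi⁻¹ * ‖∫ w, F w / (z - w)‖
      ≤ Real.pi⁻¹ * (M * (2 * Real.pi * r) + (∫ w, ‖F w‖) / r) :=
        mul_le_mul_of_nonneg_left h1 (by positivity)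
    _ = 2 * r * M + (∫ w, ‖F w‖) / (Real.pi * r) := by
        field_simp

theorem CT_bound (F : ℂ → ℂ) (M ρ : ℝ) (h : Adm F M ρ) (hρ : 0 < ρ) (z : ℂ) :
    ‖CT F z‖ ≤ 3 * ρ * M := by
  have hpi := Real.pi_pos
  have h1 := CT_interp F M ρ h z ρ hρ
  have hM : 0 ≤ M := le_trans (norm_nonneg _) (h.2.1 0)
  have hvol : (MeasureTheory.volume : MeasureTheory.Measure ℂ).real (Metric.closedBall (0 : ℂ) ρ)
      = ρ ^ 2 * Real.pi := by
    rw [MeasureTheory.Measure.real, Complex.volume_closedBall]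
    simp [hρ.le, NNReal.coe_real_pi]
  have h2 : ∫ w, ‖F w‖ ≤ ∫ w, (Metric.closedBall (0 : ℂ) ρ).indicator (fun _ => M) w := by
    apply MeasureTheory.integral_mono (adm22846_integrable F M ρ h).norm
    · rw [MeasureTheory.integrable_indicator_iff Metric.isClosed_closedBall.measurableSet]
      exact MeasureTheory.integrableOn_const (isCompact_closedBall (0 : ℂ) ρ).measure_lt_top.ne
    · intro w
      show ‖F w‖ ≤ (Metric.closedBall (0 : ℂ) ρ).indicator (fun _ => M) w
      by_cases hw : w ∈ Metric.closedBall (0 : ℂ) ρ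
      · rw [Set.indicator_of_mem hw]; exact h.2.1 w
      · rw [Set.indicator_of_notMem hw]
        rw [mem_closedBall_zero_iff, not_le] at hw
        rw [h.2.2 w hw, norm_zero]
  rw [MeasureTheory.integral_indicator Metric.isClosed_closedBall.measurableSet,
    MeasureTheory.setIntegral_const, hvol, smul_eq_mul] at h2
  have h3 : (∫ w, ‖F w‖) / (Real.pi * ρ) ≤ ρ * M := by
    rw [div_le_iff₀ (by positivity)]
    calc ∫ w, ‖F w‖ ≤ ρ ^ 2 * Real.pi * M := h2
      _ = ρ * M * (Real.pi * ρ) := by ring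
  linarith

theorem CT_add (F K : ℂ → ℂ) (M ρ M' ρ' : ℝ) (h : Adm F M ρ) (h' : Adm K M' ρ') (z : ℂ) :
    CT (fun w => F w + K w) z = CT F z + CT K z := by
  unfold CT
  rw [← mul_add, ← MeasureTheory.integral_add (CT_integrable F M ρ h z)
    (CT_integrable K M' ρ' h' z)]
  congr 2
  funext w
  exact add_div _ _ _

/-- the mollified kernel -/
noncomputable def kr22846 (r : ℝ) (x : ℂ) : ℂ := cj x * (((max ‖x‖ r) ^ 2 : ℝ) : ℂ)⁻¹

theorem kr22846_norm (r : ℝ) (hr : 0 < r) (x : ℂ) :
    ‖kr22846 r x‖ = ‖x‖ / (max ‖x‖ r) ^ 2 := by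
  have h1 : 0 < max ‖x‖ r := lt_of_lt_of_le hr (le_max_right _ _)
  unfold kr22846
  rw [norm_mul, norm_inv, Complex.norm_real, Real.norm_eq_abs, abs_of_pos (by positivity)]
  rw [RCLike.norm_conj, div_eq_mul_inv]

theorem kr22846_le (r : ℝ) (hr : 0 < r) (x : ℂ) : ‖kr22846 r x‖ ≤ 1 / r := by
  rw [kr22846_norm r hr]
  have h1 : 0 < max ‖x‖ r := lt_of_lt_of_le hr (le_max_right _ _)
  rw [div_le_div_iff₀ (by positivity) hr]
  have h2 : ‖x‖ ≤ max ‖x‖ r := le_max_left _ _
  have h3 : r ≤ max ‖x‖ r := le_max_right _ _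
  calc ‖x‖ * r ≤ max ‖x‖ r * max ‖x‖ r := mul_le_mul h2 h3 hr.le h1.le
    _ = 1 * max ‖x‖ r ^ 2 := by ring

theorem kr22846_cont (r : ℝ) (hr : 0 < r) : Continuous (kr22846 r) := by
  unfold kr22846
  apply Continuous.mul Complex.continuous_conj
  apply Continuous.inv₀
  · exact Complex.continuous_ofReal.comp ((continuous_norm.max continuous_const).pow 2)
  · intro x
    have h1 : 0 < max ‖x‖ r := lt_of_lt_of_le hr (le_max_right _ _)
    have h2 : 0 < (max ‖x‖ r) ^ 2 := by positivity
    exact_mod_cast h2.ne'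

theorem kr22846_diff (r : ℝ) (hr : 0 < r) (x : ℂ) :
    ‖x⁻¹ - kr22846 r x‖ ≤ 2 * kern22846 r ‖x‖ := by
  by_cases h : ‖x‖ < r
  · have h1 : kern22846 r ‖x‖ = ‖x‖⁻¹ := by unfold kern22846; rw [if_pos h]
    rw [h1]
    refine le_trans (norm_sub_le _ _) ?_
    rw [norm_inv, kr22846_norm r hr, max_eq_right h.le]
    have h2 : ‖x‖ / r ^ 2 ≤ ‖x‖⁻¹ := by
      rcases (norm_nonneg x).eq_or_lt with h0 | h0
      · rw [← h0]; simp
      · rw [div_le_iff₀ (by positivity), inv_mul_eq_div, le_div_iff₀ h0]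
        nlinarith
    linarith
  · have h1 : kern22846 r ‖x‖ = 0 := by unfold kern22846; rw [if_neg h]
    rw [h1, mul_zero]
    have h2 : x⁻¹ = kr22846 r x := by
      unfold kr22846
      rw [max_eq_left (not_lt.1 h), Complex.inv_def, Complex.normSq_eq_norm_sq]
      push_cast
      rfl
    rw [h2, sub_self, norm_zero]

theorem CT_cont (F : ℂ → ℂ) (M ρ : ℝ) (h : Adm F M ρ) : Continuous (CT F) := by
  have hpi := Real.pi_pos
  have hM : 0 ≤ M := le_trans (norm_nonneg _) (h.2.1 0)
  have hFi := adm22846_integrable F M ρ h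
  apply continuous_of_uniform_approx_of_continuous
  intro u hu
  obtain ⟨ε, hε, hεu⟩ := Metric.mem_uniformity_dist.1 hu
  obtain ⟨r, hr⟩ : ∃ r, r = ε / (8 * (M + 1)) := ⟨_, rfl⟩
  have hr0 : 0 < r := by rw [hr]; positivity
  have hrM : 4 * r * M < ε := by
    have h1 : 8 * r * (M + 1) = ε := by rw [hr]; field_simp
    nlinarith
  have hmeas : ∀ z : ℂ, MeasureTheory.AEStronglyMeasurable (fun w => F w * kr22846 r (z - w))
      MeasureTheory.volume := by
    intro z
    exact (h.1.mul ((kr22846_cont r hr0).measurable.comp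
      (measurable_const.sub measurable_id))).aestronglyMeasurable
  have hbd : ∀ z w : ℂ, ‖F w * kr22846 r (z - w)‖ ≤ ‖F w‖ * (1 / r) := by
    intro z w
    rw [norm_mul]
    exact mul_le_mul_of_nonneg_left (kr22846_le r hr0 _) (norm_nonneg _)
  have hbi : MeasureTheory.Integrable (fun w => ‖F w‖ * (1 / r)) := hFi.norm.mul_const _
  refine ⟨fun z => (Real.pi : ℂ)⁻¹ * ∫ w, F w * kr22846 r (z - w), ?_, ?_⟩
  · apply Continuous.mul continuous_const
    apply MeasureTheory.continuous_of_dominated (bound := fun w => ‖F w‖ * (1 / r)) hmeas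
    · intro z
      exact Filter.Eventually.of_forall (fun w => hbd z w)
    · exact hbi
    · refine Filter.Eventually.of_forall (fun w => ?_)
      exact continuous_const.mul ((kr22846_cont r hr0).comp (continuous_id.sub continuous_const))
  · intro z
    apply hεu
    rw [dist_eq_norm]
    unfold CT
    have hi2 : MeasureTheory.Integrable (fun w => F w * kr22846 r (z - w)) :=
      MeasureTheory.Integrable.mono' hbi (hmeas z)
        (Filter.Eventually.of_forall (fun w => hbd z w))
    rw [← mul_sub, ← MeasureTheory.integral_sub (CT_integrable F M ρ h z) hi2]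
    have h1 : ‖∫ w, (F w / (z - w) - F w * kr22846 r (z - w))‖ ≤
        ∫ w, (M * 2) * kern22846 r ‖z - w‖ := by
      apply MeasureTheory.norm_integral_le_of_norm_le
        ((kern22846_shift_integrable r z).const_mul (M * 2))
      refine Filter.Eventually.of_forall (fun w => ?_)
      have e1 : F w / (z - w) - F w * kr22846 r (z - w) =
          F w * ((z - w)⁻¹ - kr22846 r (z - w)) := by rw [div_eq_mul_inv]; ring
      rw [e1, norm_mul]
      calc ‖F w‖ * ‖(z - w)⁻¹ - kr22846 r (z - w)‖ ≤ M * (2 * kern22846 r ‖z - w‖) :=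
            mul_le_mul (h.2.1 w) (kr22846_diff r hr0 _) (norm_nonneg _) hM
        _ = M * 2 * kern22846 r ‖z - w‖ := by ring
    rw [MeasureTheory.integral_const_mul, kern22846_shift_integral r hr0 z] at h1
    rw [norm_mul, norm_inv, Complex.norm_real, Real.norm_eq_abs, abs_of_pos hpi]
    calc Real.pi⁻¹ * ‖∫ w, (F w / (z - w) - F w * kr22846 r (z - w))‖
        ≤ Real.pi⁻¹ * (M * 2 * (2 * Real.pi * r)) :=
          mul_le_mul_of_nonneg_left h1 (by positivity)
      _ = 4 * r * M := by field_simp; ring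
      _ < ε := hrM


end Pool.Agent.Helper676.TL
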