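import Mathlib
import Pool.Agent.Helper676.TL.Defs
import Pool.Agent.Helper676.TL.Base

set_option autoImplicit false

namespace Pool.Agent.Helper676.TL

open Set Metric
open scoped ContDiff



theorem CT_hol_at (F : ℂ → ℂ) (M ρ : ℝ) (h : Adm F M ρ) (U : Set ℂ) (hU : IsOpen U)
    (h0 : ∀ w ∈ U, F w = 0) (z0 : ℂ) (hz0 : z0 ∈ U) : DifferentiableAt ℂ (CT F) z0 := by
  obtain ⟨hFm, hFM, hFρ⟩ := h
  obtain ⟨ε, hε, hball⟩ := Metric.isOpen_iff.1 hU z0 hz0
  obtain ⟨r, hr, hr2⟩ : ∃ r : ℝ, 0 < r ∧ 2 * r = ε := ⟨ε / 2, by positivity, by ring⟩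
  have hM : 0 ≤ M := (norm_nonneg _).trans (hFM 0)
  have hdist : ∀ z ∈ ball z0 r, ∀ w, F w ≠ 0 → r ≤ ‖z - w‖ := by
    intro z hz w hw
    by_contra hcon
    push Not at hcon
    apply hw
    apply h0
    apply hball
    rw [mem_ball, dist_eq_norm] at hz ⊢
    have h1 : w - z0 = (z - z0) - (z - w) := by ring
    rw [h1]
    have h2 := norm_sub_le (z - z0) (z - w)
    linarith
  have hbd : ∀ c : ℝ, MeasureTheory.Integrable ((closedBall (0 : ℂ) ρ).indicator fun _ => c) :=
    fun c => (continuousOn_const.integrableOn_compact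
      (isCompact_closedBall (0 : ℂ) ρ)).integrable_indicator measurableSet_closedBall
  have hle : ∀ z ∈ ball z0 r, ∀ (n : ℕ) (w : ℂ), ‖F w‖ / ‖z - w‖ ^ n ≤
      (closedBall (0 : ℂ) ρ).indicator (fun _ => M / r ^ n) w := by
    intro z hz n w
    by_cases hw : F w = 0
    · rw [hw, norm_zero, zero_div]
      exact Set.indicator_nonneg (fun _ _ => by positivity) w
    · have hw2 : w ∈ closedBall (0 : ℂ) ρ := by
        rw [mem_closedBall_zero_iff]
        by_contra hcon
        push Not at hcon
        exact hw (hFρ w hcon)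
      rw [Set.indicator_of_mem hw2]
      have h1 := hdist z hz w hw
      exact div_le_div₀ hM (hFM w) (by positivity) (pow_le_pow_left₀ hr.le h1 n)
  have hmeas : ∀ z : ℂ, MeasureTheory.AEStronglyMeasurable (fun w => F w / (z - w)) := by
    intro z
    exact (hFm.div (measurable_const.sub measurable_id)).aestronglyMeasurable
  have hmeas' : ∀ z : ℂ, MeasureTheory.AEStronglyMeasurable (fun w => -F w / (z - w) ^ 2) := by
    intro z
    exact (hFm.neg.div ((measurable_const.sub measurable_id).pow_const 2)).aestronglyMeasurable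
  have key := hasDerivAt_integral_of_dominated_loc_of_deriv_le (𝕜 := ℂ)
    (μ := MeasureTheory.volume) (F := fun z w => F w / (z - w))
    (F' := fun z w => -F w / (z - w) ^ 2) (x₀ := z0) (s := ball z0 r)
    (bound := (closedBall (0 : ℂ) ρ).indicator (fun _ => M / r ^ 2))
    (ball_mem_nhds z0 hr) (Filter.Eventually.of_forall hmeas)
    ((hbd (M / r ^ 1)).mono' (hmeas z0) (Filter.Eventually.of_forall fun w => by
      have h1 := hle z0 (mem_ball_self hr) 1 w
      rw [pow_one] at h1
      rw [norm_div]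
      exact h1))
    (hmeas' z0)
    (Filter.Eventually.of_forall fun w z hz => by
      have h1 := hle z hz 2 w
      rw [norm_div, norm_neg, norm_pow]
      exact h1)
    (hbd _)
    (Filter.Eventually.of_forall fun w z hz => by
      by_cases hw : F w = 0
      · simp only [hw, zero_div, neg_zero]
        exact hasDerivAt_const _ _
      · have h1 := hdist z hz w hw
        have h2 : z - w ≠ 0 := by
          intro h3
          rw [h3, norm_zero] at h1
          linarith
        have h4 := ((hasDerivAt_id z).sub_const w).inv h2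
        have h5 := h4.const_mul (F w)
        have h6 : F w * (-1 / (id z - w) ^ 2) = -F w / (z - w) ^ 2 := by
          rw [id]; ring
        rw [h6] at h5
        exact h5)
  exact (key.2.differentiableAt.const_mul _)

theorem CT_hol (F : ℂ → ℂ) (M ρ : ℝ) (h : Adm F M ρ) (U : Set ℂ) (hU : IsOpen U)
    (h0 : ∀ w ∈ U, F w = 0) : DifferentiableOn ℂ (CT F) U := by
  intro z hz
  exact (CT_hol_at F M ρ h U hU h0 z hz).differentiableWithinAt

theorem CT_neg (F : ℂ → ℂ) (z : ℂ) : CT (fun w => F (-w)) z = - CT F (-z) := by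
  unfold CT
  have h1 := MeasureTheory.integral_neg_eq_self (fun w => F w / (z + w)) MeasureTheory.volume
  have h2 : ∀ w, F (-w) / (z - w) = F (-w) / (z + -w) := fun w => by rw [sub_eq_add_neg]
  have h3 : ∀ w, F w / (-z - w) = -(F w / (z + w)) := fun w => by
    rw [← div_neg]
    congr 1
    ring
  simp only [h2, h3]
  rw [h1, MeasureTheory.integral_neg]
  ring

theorem CT_cj (F : ℂ → ℂ) (z : ℂ) : CT (fun w => cj (F (cj w))) z = cj (CT F (cj z)) := by
  unfold CT
  have h1 := (Complex.conjLIE.measurePreserving).integral_comp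
    Complex.conjLIE.toHomeomorph.measurableEmbedding (fun w => cj (F w) / (z - cj w))
  have h2 : ∀ w : ℂ, Complex.conjLIE w = cj w := fun w => rfl
  simp only [h2, Complex.conj_conj] at h1
  have h3 : cj ((Real.pi : ℂ)⁻¹) = (Real.pi : ℂ)⁻¹ := by
    change (starRingEnd ℂ) ((Real.pi : ℂ)⁻¹) = (Real.pi : ℂ)⁻¹
    rw [map_inv₀, Complex.conj_ofReal]
  have h4 : cj ((Real.pi : ℂ)⁻¹ * ∫ w, F w / (cj z - w)) =
      (Real.pi : ℂ)⁻¹ * ∫ w, cj (F w / (cj z - w)) := by
    have h5 : cj ((Real.pi : ℂ)⁻¹ * ∫ w, F w / (cj z - w)) =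
      cj ((Real.pi : ℂ)⁻¹) * cj (∫ w, F w / (cj z - w)) := map_mul (starRingEnd ℂ) _ _
    rw [h5, h3]
    congr 1
    exact integral_conj.symm
  rw [h1, h4]
  congr 1
  refine MeasureTheory.integral_congr_ae (Filter.Eventually.of_forall fun w => ?_)
  simp only [map_div₀, map_sub, Complex.conj_conj]

theorem CT_scale (F : ℂ → ℂ) (c : ℂ) (r : ℝ) (hr : 0 < r) (w : ℂ) :
    CT F (c + r * w) = r * CT (fun w' => F (c + r * w')) w := by
  unfold CT
  have hrc : (r : ℂ) ≠ 0 := by exact_mod_cast hr.ne'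
  have h1 := MeasureTheory.integral_add_left_eq_self (μ := MeasureTheory.volume)
    (fun u => F u / (c + r * w - u)) c
  have h2 := MeasureTheory.Measure.integral_comp_smul MeasureTheory.volume
    (fun u : ℂ => F (c + u) / (c + r * w - (c + u))) r
  rw [h1, Complex.finrank_real_complex, abs_of_pos (by positivity)] at h2
  have h3 : ∀ w' : ℂ, F (c + r • w') / (c + r * w - (c + r • w')) =
      (r : ℂ)⁻¹ * (F (c + r * w') / (w - w')) := by
    intro w'
    rw [Complex.real_smul]
    have h4 : c + r * w - (c + r * w') = r * (w - w') := by ring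
    rw [h4, div_mul_eq_div_div, div_right_comm, div_eq_inv_mul]
  simp only [h3] at h2
  rw [MeasureTheory.integral_const_mul] at h2
  have h5 : ∫ u, F u / (c + r * w - u) = (r : ℂ) ^ 2 * ((r : ℂ)⁻¹ *
      ∫ w', F (c + r * w') / (w - w')) := by
    rw [h2, Complex.real_smul]
    push_cast
    rw [← mul_assoc, mul_inv_cancel₀ (pow_ne_zero 2 hrc), one_mul]
  rw [h5]
  field_simp


end Pool.Agent.Helper676.TL
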