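import Mathlib
import Pool.Agent.Helper676.TL.Defs
import Pool.Agent.Helper676.TL.Base

set_option autoImplicit false

namespace Pool.Agent.Helper676.TL

open Set Metric
open scoped ContDiff



open MeasureTheory in
theorem j22849_int (R : ℝ) (hR : 0 < R) (z : ℂ) (hz : ‖z‖ < R) (F : ℂ → ℂ)
    (hF : Continuous F) : Integrable (fun w => (ball (0 : ℂ) R).indicator F w / (z - w)) := by
  obtain ⟨C, hC⟩ := (isCompact_closedBall (0 : ℂ) R).exists_bound_of_continuousOn hF.continuousOn
  have hC0 : 0 ≤ C := (norm_nonneg _).trans (hC 0 (by simp [hR.le]))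
  have h1 : IntegrableOn (fun x : ℂ => (fun y : ℝ => y⁻¹) ‖x‖) (ball (0 : ℂ) (2 * R)) := by
    rw [integrableOn_fun_norm_addHaar]
    have h0 : IntegrableOn (fun _ : ℝ => (1 : ℝ)) (Ioo 0 (2 * R)) :=
      integrableOn_const (by
        rw [Real.volume_Ioo]
        exact ENNReal.ofReal_ne_top)
    refine h0.congr_fun (fun y hy => ?_) measurableSet_Ioo
    have hy0 : y ≠ 0 := hy.1.ne'
    simp [Complex.finrank_real_complex, hy0]
  have h2 : Integrable ((ball (0 : ℂ) (2 * R)).indicator (fun x : ℂ => ‖x‖⁻¹)) :=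
    h1.integrable_indicator measurableSet_ball
  have h3 := (h2.comp_sub_left z).const_mul C
  refine h3.mono' ?_ (ae_of_all _ fun w => ?_)
  · exact ((hF.measurable.indicator measurableSet_ball).div
      (measurable_const.sub measurable_id)).aestronglyMeasurable
  · by_cases hw : w ∈ ball (0 : ℂ) R
    · have hw' : ‖w‖ < R := by simpa using hw
      have hzw : z - w ∈ ball (0 : ℂ) (2 * R) := by
        rw [mem_ball_zero_iff]
        have := norm_sub_le z w
        linarith
      rw [indicator_of_mem hw, indicator_of_mem hzw, norm_div, div_eq_mul_inv]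
      exact mul_le_mul_of_nonneg_right (hC w (ball_subset_closedBall hw))
        (inv_nonneg.2 (norm_nonneg _))
    · rw [indicator_of_notMem hw, zero_div, norm_zero]
      exact mul_nonneg hC0 (indicator_nonneg (fun x _ => inv_nonneg.2 (norm_nonneg x)) _)

open MeasureTheory in
theorem j22849_polar_int (h : ℂ → ℂ) (hh : Integrable h) :
    IntegrableOn (fun p : ℝ × ℝ => p.1 • h (Complex.polarCoord.symm p))
      (Ioi (0 : ℝ) ×ˢ Ioo (-Real.pi) Real.pi) := by
  have h1 : Integrable (fun p : ℝ × ℝ => h (Complex.measurableEquivRealProd.symm p)) :=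
    (Complex.volume_preserving_equiv_real_prod.symm).integrable_comp_of_integrable hh
  have hms : MeasurableSet polarCoord.target := measurableSet_Ioi.prod measurableSet_Ioo
  have h2 := (integrableOn_image_iff_integrableOn_abs_det_fderiv_smul volume hms
    (fun p _ => (hasFDerivAt_polarCoord_symm p).hasFDerivWithinAt) polarCoord.symm.injOn
    (fun p => h (Complex.measurableEquivRealProd.symm p))).1 h1.integrableOn
  refine h2.congr_fun (fun p hp => ?_) hms
  have hp1 : 0 < p.1 := hp.1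
  show |(fderivPolarCoordSymm p).det| • h (Complex.measurableEquivRealProd.symm
    (polarCoord.symm p)) = p.1 • h (Complex.polarCoord.symm p)
  rw [det_fderivPolarCoordSymm, abs_of_pos hp1,
    Complex.measurableEquivRealProd_symm_polarCoord_symm_apply]

theorem j22849_symm (r θ : ℝ) : Complex.polarCoord.symm (r, θ) = circleMap 0 r θ := by
  rw [Complex.polarCoord_symm_apply, circleMap, zero_add, Complex.exp_mul_I,
    Complex.ofReal_cos, Complex.ofReal_sin]

open MeasureTheory in
theorem j22849_angle (g : ℂ → ℂ) (r : ℝ) :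
    ∫ θ in Ioo (-Real.pi) Real.pi, g (circleMap 0 r θ) =
      ∫ θ in (0 : ℝ)..(2 * Real.pi), g (circleMap 0 r θ) := by
  have hper : Function.Periodic (fun θ : ℝ => g (circleMap 0 r θ)) (2 * Real.pi) := by
    intro θ
    show g (circleMap 0 r (θ + 2 * Real.pi)) = g (circleMap 0 r θ)
    rw [periodic_circleMap 0 r θ]
  have h1 := hper.intervalIntegral_add_eq (-Real.pi) 0
  rw [zero_add] at h1
  have h2 : -Real.pi + 2 * Real.pi = Real.pi := by ring
  rw [h2] at h1
  rw [← h1, intervalIntegral.integral_of_le (by linarith [Real.pi_pos]),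
    integral_Ioc_eq_integral_Ioo]

open MeasureTheory in
theorem j22849_polar (R : ℝ) (hR : 0 < R) (z : ℂ) (hz : ‖z‖ < R) (F : ℂ → ℂ)
    (hF : Continuous F) :
    ∫ w, (ball (0 : ℂ) R).indicator F w / (z - w) =
      ∫ r in (0 : ℝ)..R, (r : ℂ) * ∫ θ in (0 : ℝ)..(2 * Real.pi),
        F (circleMap 0 r θ) / (z - circleMap 0 r θ) := by
  have hint := j22849_int R hR z hz F hF
  have hpol := j22849_polar_int _ hint
  rw [← Complex.integral_comp_polarCoord_symm]
  have ht : polarCoord.target = Ioi (0 : ℝ) ×ˢ Ioo (-Real.pi) Real.pi := rfl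
  rw [ht, Measure.volume_eq_prod, setIntegral_prod _ (by
    rw [← Measure.volume_eq_prod]
    exact hpol)]
  have h1 : ∀ r ∈ Ioi (0 : ℝ), (∫ θ in Ioo (-Real.pi) Real.pi,
      (r, θ).1 • ((ball (0 : ℂ) R).indicator F (Complex.polarCoord.symm (r, θ)) /
        (z - Complex.polarCoord.symm (r, θ)))) =
      (Ioo (0 : ℝ) R).indicator (fun r => (r : ℂ) * ∫ θ in (0 : ℝ)..(2 * Real.pi),
        F (circleMap 0 r θ) / (z - circleMap 0 r θ)) r := by
    intro r hr
    have hr' : 0 < r := hr
    simp only [j22849_symm]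
    by_cases hrR : r < R
    · rw [indicator_of_mem (show r ∈ Ioo (0 : ℝ) R from ⟨hr', hrR⟩)]
      rw [← j22849_angle (fun w => F w / (z - w)) r, ← integral_const_mul]
      refine integral_congr_ae (ae_of_all _ fun θ => ?_)
      have hmem : circleMap 0 r θ ∈ ball (0 : ℂ) R := by
        rw [mem_ball_zero_iff]
        simpa [abs_of_pos hr'] using hrR
      show r • ((ball (0 : ℂ) R).indicator F (circleMap 0 r θ) / (z - circleMap 0 r θ)) =
        (r : ℂ) * (F (circleMap 0 r θ) / (z - circleMap 0 r θ))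
      rw [indicator_of_mem hmem, Complex.real_smul]
    · rw [indicator_of_notMem (fun h => hrR h.2)]
      have h0 : ∀ θ : ℝ, r • ((ball (0 : ℂ) R).indicator F (circleMap 0 r θ) /
          (z - circleMap 0 r θ)) = 0 := by
        intro θ
        have hmem : circleMap 0 r θ ∉ ball (0 : ℂ) R := by
          rw [mem_ball_zero_iff]
          simpa [abs_of_pos hr'] using hrR
        rw [indicator_of_notMem hmem, zero_div, smul_zero]
      simp only [h0, integral_zero]
  rw [setIntegral_congr_fun measurableSet_Ioi h1, setIntegral_indicator measurableSet_Ioo]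
  have h2 : Ioi (0 : ℝ) ∩ Ioo 0 R = Ioo 0 R := by
    ext x
    simp only [mem_inter_iff, mem_Ioi, mem_Ioo]
    tauto
  rw [h2, intervalIntegral.integral_of_le hR.le, integral_Ioc_eq_integral_Ioo]

/-- circle integrals -/
noncomputable def j22849_I (r : ℝ) (z : ℂ) (j : ℤ) : ℂ := ∮ w in C(0, r), w ^ j * (w - z)⁻¹

theorem j22849_rec (r : ℝ) (hr : 0 < r) (z : ℂ) (hz : ‖z‖ ≠ r) (j : ℤ) :
    j22849_I r z (j + 1) = z * j22849_I r z j + if j = -1 then 2 * Real.pi * Complex.I else 0 := by
  have hne : ∀ w ∈ sphere (0 : ℂ) r, w ≠ 0 ∧ w - z ≠ 0 := by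
    intro w hw
    have hw' : ‖w‖ = r := by simpa using hw
    constructor
    · rintro rfl
      rw [norm_zero] at hw'
      exact hr.ne hw'
    · intro h
      apply hz
      rw [← sub_eq_zero.1 h, hw']
  have hc1 : ContinuousOn (fun w : ℂ => w ^ j) (sphere (0 : ℂ) |r|) := by
    rw [abs_of_pos hr]
    intro w hw
    exact (continuousAt_zpow₀ w j (Or.inl (hne w hw).1)).continuousWithinAt
  have hc2 : ContinuousOn (fun w : ℂ => w ^ j * (w - z)⁻¹) (sphere (0 : ℂ) |r|) := by
    refine hc1.mul ?_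
    rw [abs_of_pos hr]
    intro w hw
    have h0 := (hne w hw).2
    have : ContinuousAt (fun w : ℂ => (w - z)⁻¹) w := by
      fun_prop (disch := assumption)
    exact this.continuousWithinAt
  have hi1 : CircleIntegrable (fun w : ℂ => w ^ j) 0 r := hc1.circleIntegrable'
  have hi2 : CircleIntegrable (fun w : ℂ => z * (w ^ j * (w - z)⁻¹)) 0 r :=
    (continuousOn_const.mul hc2).circleIntegrable'
  have h1 : j22849_I r z (j + 1) = ∮ w in C(0, r), (z * (w ^ j * (w - z)⁻¹) + w ^ j) := by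
    unfold j22849_I
    refine circleIntegral.integral_congr hr.le fun w hw => ?_
    obtain ⟨h0, h1⟩ := hne w hw
    show w ^ (j + 1) * (w - z)⁻¹ = z * (w ^ j * (w - z)⁻¹) + w ^ j
    rw [zpow_add_one₀ h0]
    field_simp
    ring
  have h2 : (∮ w in C(0, r), w ^ j) = if j = -1 then 2 * Real.pi * Complex.I else 0 := by
    split_ifs with hj
    · subst hj
      have := circleIntegral.integral_sub_center_inv (0 : ℂ) hr.ne'
      rw [← this]
      refine circleIntegral.integral_congr hr.le fun w hw => ?_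
      show w ^ (-1 : ℤ) = (w - 0)⁻¹
      rw [zpow_neg_one, sub_zero]
    · have := circleIntegral.integral_sub_zpow_of_ne hj (0 : ℂ) 0 r
      refine Eq.trans ?_ this
      refine circleIntegral.integral_congr hr.le fun w hw => ?_
      show w ^ j = (w - 0) ^ j
      rw [sub_zero]
  rw [h1, circleIntegral.integral_add hi2 hi1, h2]
  congr 1
  unfold j22849_I
  exact circleIntegral.integral_const_mul z (fun w : ℂ => w ^ j * (w - z)⁻¹) 0 r

theorem j22849_in0 (r : ℝ) (hr : 0 < r) (z : ℂ) (hz : ‖z‖ < r) :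
    j22849_I r z 0 = 2 * Real.pi * Complex.I := by
  have := circleIntegral.integral_sub_inv_of_mem_ball (c := 0) (w := z) (R := r) (by simpa using hz)
  rw [← this]
  unfold j22849_I
  simp

theorem j22849_out0 (r : ℝ) (hr : 0 < r) (z : ℂ) (hz : r < ‖z‖) :
    j22849_I r z 0 = 0 := by
  have hne : ∀ w ∈ closedBall (0 : ℂ) r, w - z ≠ 0 := by
    intro w hw h
    have hw' : ‖w‖ ≤ r := by simpa using hw
    rw [sub_eq_zero.1 h] at hw'
    linarith
  have := Complex.circleIntegral_eq_zero_of_differentiable_on_off_countable hr.le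
    (Set.countable_empty) (f := fun w : ℂ => (w - z)⁻¹) (c := 0) (by
      intro w hw
      have h0 := hne w hw
      have : ContinuousAt (fun w : ℂ => (w - z)⁻¹) w := by
        fun_prop (disch := assumption)
      exact this.continuousWithinAt) (by
      intro w hw
      have h0 := hne w (ball_subset_closedBall hw.1)
      fun_prop (disch := assumption))
  unfold j22849_I
  simpa using this

theorem j22849_in_nat (r : ℝ) (hr : 0 < r) (z : ℂ) (hz : ‖z‖ < r) (j : ℕ) :
    j22849_I r z j = 2 * Real.pi * Complex.I * z ^ j := by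
  induction j with
  | zero =>
    rw [Nat.cast_zero, j22849_in0 r hr z hz]
    simp
  | succ j ih =>
    rw [Nat.cast_succ, j22849_rec r hr z hz.ne, ih, if_neg (by omega)]
    ring

theorem j22849_out_nat (r : ℝ) (hr : 0 < r) (z : ℂ) (hz : r < ‖z‖) (j : ℕ) :
    j22849_I r z j = 0 := by
  induction j with
  | zero =>
    rw [Nat.cast_zero, j22849_out0 r hr z hz]
  | succ j ih =>
    rw [Nat.cast_succ, j22849_rec r hr z hz.ne', ih, if_neg (by omega)]
    ring

theorem j22849_in_neg (r : ℝ) (hr : 0 < r) (z : ℂ) (hz : ‖z‖ < r) (j : ℕ) :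
    j22849_I r z (-((j : ℤ) + 1)) = 0 := by
  by_cases hz0 : z = 0
  · subst hz0
    have h1 := circleIntegral.integral_sub_zpow_of_ne (n := -((j : ℤ) + 2)) (by omega)
      (0 : ℂ) 0 r
    refine Eq.trans ?_ h1
    unfold j22849_I
    refine circleIntegral.integral_congr hr.le fun w hw => ?_
    have hw' : ‖w‖ = r := by simpa using hw
    have hw0 : w ≠ 0 := by
      rintro rfl
      rw [norm_zero] at hw'
      exact hr.ne hw'
    show w ^ (-((j : ℤ) + 1)) * (w - 0)⁻¹ = (w - 0) ^ (-((j : ℤ) + 2))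
    rw [sub_zero, ← zpow_neg_one, ← zpow_add₀ hw0]
    congr 1
  · induction j with
    | zero =>
      have h1 := j22849_rec r hr z hz.ne (-1)
      rw [if_pos rfl, show (-1 : ℤ) + 1 = 0 by norm_num, j22849_in0 r hr z hz] at h1
      have h2 : z * j22849_I r z (-1) = 0 := by linear_combination -h1
      rcases mul_eq_zero.1 h2 with h | h
      · exact absurd h hz0
      · simpa using h
    | succ j ih =>
      have h1 := j22849_rec r hr z hz.ne (-((j : ℤ) + 1 + 1))
      rw [if_neg (by omega), show (-((j : ℤ) + 1 + 1)) + 1 = -((j : ℤ) + 1) by ring, ih] at h1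
      have h2 : z * j22849_I r z (-((j : ℤ) + 1 + 1)) = 0 := by linear_combination -h1
      rcases mul_eq_zero.1 h2 with h | h
      · exact absurd h hz0
      · rw [Nat.cast_succ]
        exact h

theorem j22849_out_neg (r : ℝ) (hr : 0 < r) (z : ℂ) (hz : r < ‖z‖) (j : ℕ) :
    j22849_I r z (-((j : ℤ) + 1)) * z ^ (j + 1) = -(2 * Real.pi * Complex.I) := by
  induction j with
  | zero =>
    have h1 := j22849_rec r hr z hz.ne' (-1)
    rw [if_pos rfl, show (-1 : ℤ) + 1 = 0 by norm_num, j22849_out0 r hr z hz] at h1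
    simp only [Nat.cast_zero, zero_add, pow_one]
    linear_combination -h1
  | succ j ih =>
    have h1 := j22849_rec r hr z hz.ne' (-((j : ℤ) + 1 + 1))
    rw [if_neg (by omega), show (-((j : ℤ) + 1 + 1)) + 1 = -((j : ℤ) + 1) by ring] at h1
    rw [Nat.cast_succ, ← ih, h1]
    ring

theorem j22849_J (r : ℝ) (hr : 0 < r) (z : ℂ) (hz : ‖z‖ ≠ r) (m n : ℕ) :
    ∫ θ in (0 : ℝ)..(2 * Real.pi), (circleMap 0 r θ ^ m * cj (circleMap 0 r θ) ^ n) /
      (z - circleMap 0 r θ) = (r : ℂ) ^ (2 * n) * Complex.I *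
        j22849_I r z ((m : ℤ) - n - 1) := by
  unfold j22849_I circleIntegral
  rw [← intervalIntegral.integral_const_mul]
  refine intervalIntegral.integral_congr fun θ _ => ?_
  have hw : ‖circleMap 0 r θ‖ = r := by simp [abs_of_pos hr]
  have hw0 : circleMap 0 r θ ≠ 0 := by
    intro h
    rw [h, norm_zero] at hw
    exact hr.ne hw
  have hwz : circleMap 0 r θ - z ≠ 0 := by
    intro h
    apply hz
    rw [← sub_eq_zero.1 h, hw]
  have hwz' : z - circleMap 0 r θ ≠ 0 := by
    intro h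
    apply hwz
    linear_combination -h
  show circleMap 0 r θ ^ m * cj (circleMap 0 r θ) ^ n / (z - circleMap 0 r θ) =
    (r : ℂ) ^ (2 * n) * Complex.I * (deriv (circleMap 0 r) θ •
      (circleMap 0 r θ ^ ((m : ℤ) - n - 1) * (circleMap 0 r θ - z)⁻¹))
  rw [deriv_circleMap, smul_eq_mul]
  set w := circleMap 0 r θ with hwdef
  have hcj : cj w * w = (r : ℂ) ^ 2 := by
    have h1 := Complex.conj_mul' w
    rw [hw] at h1
    exact_mod_cast h1
  have hcj' : cj w = (r : ℂ) ^ 2 / w := by
    rw [eq_div_iff hw0]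
    exact hcj
  rw [hcj', zpow_sub_one₀ hw0, zpow_sub₀ hw0, zpow_natCast, zpow_natCast, div_pow, ← pow_mul]
  have hI : Complex.I * Complex.I = -1 := Complex.I_mul_I
  field_simp
  linear_combination (r : ℂ) ^ (2 * n) * (w - z) * hI

open MeasureTheory in
theorem j22849_piece (c : ℂ) (n : ℕ) (a b : ℝ) (hab : a ≤ b) (J : ℝ → ℂ)
    (h : ∀ r ∈ Ioo a b, J r = c * (r : ℂ) ^ (2 * n)) :
    IntervalIntegrable (fun r => (r : ℂ) * J r) volume a b ∧
    ∫ r in a..b, (r : ℂ) * J r = c * ((b : ℂ) ^ (2 * n + 2) - (a : ℂ) ^ (2 * n + 2)) /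
      (2 * n + 2) := by
  have hc : Continuous (fun r : ℝ => c * ((r ^ (2 * n + 1) : ℝ) : ℂ)) := by fun_prop
  have hcongr : EqOn (fun r : ℝ => c * ((r ^ (2 * n + 1) : ℝ) : ℂ))
      (fun r => (r : ℂ) * J r) (Ioo a b) := by
    intro r hr
    show c * ((r ^ (2 * n + 1) : ℝ) : ℂ) = (r : ℂ) * J r
    rw [h r hr]
    push_cast
    ring
  constructor
  · rw [intervalIntegrable_iff_integrableOn_Ioo_of_le hab]
    refine IntegrableOn.congr_fun ?_ hcongr measurableSet_Ioo
    exact ((intervalIntegrable_iff_integrableOn_Ioo_of_le hab).1 (hc.intervalIntegrable a b))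
  · rw [intervalIntegral.integral_of_le hab, integral_Ioc_eq_integral_Ioo,
      ← setIntegral_congr_fun measurableSet_Ioo hcongr, ← integral_Ioc_eq_integral_Ioo,
      ← intervalIntegral.integral_of_le hab, intervalIntegral.integral_const_mul,
      intervalIntegral.integral_ofReal, integral_pow]
    push_cast
    ring

theorem j22849_radial (c1 c2 : ℂ) (n : ℕ) (a R : ℝ) (ha : 0 ≤ a) (haR : a < R) (J : ℝ → ℂ)
    (h1 : ∀ r ∈ Ioo 0 a, J r = c1 * (r : ℂ) ^ (2 * n))
    (h2 : ∀ r ∈ Ioo a R, J r = c2 * (r : ℂ) ^ (2 * n)) :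
    ∫ r in (0 : ℝ)..R, (r : ℂ) * J r = (c1 * (a : ℂ) ^ (2 * n + 2) +
      c2 * ((R : ℂ) ^ (2 * n + 2) - (a : ℂ) ^ (2 * n + 2))) / (2 * n + 2) := by
  obtain ⟨hi1, he1⟩ := j22849_piece c1 n 0 a ha J h1
  obtain ⟨hi2, he2⟩ := j22849_piece c2 n a R haR.le J h2
  rw [← intervalIntegral.integral_add_adjacent_intervals hi1 hi2, he1, he2, Complex.ofReal_zero,
    zero_pow (by omega)]
  ring

theorem j22849_main (R : ℝ) (hR : 0 < R) (m n : ℕ) (z : ℂ) (hz : ‖z‖ < R) :
    CT ((ball (0 : ℂ) R).indicator fun w => w ^ m * cj w ^ n) z =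
      (z ^ m * cj z ^ (n + 1) -
        if n + 1 ≤ m then (R : ℂ) ^ (2 * n + 2) * z ^ (m - (n + 1)) else 0) / (n + 1) := by
  have hF : Continuous (fun w : ℂ => w ^ m * cj w ^ n) := by
    have := Complex.continuous_conj
    fun_prop
  unfold CT
  rw [j22849_polar R hR z hz _ hF]
  have hpi : (Real.pi : ℂ) ≠ 0 := by exact_mod_cast Real.pi_ne_zero
  have hn : (n : ℂ) + 1 ≠ 0 := by exact_mod_cast Nat.succ_ne_zero n
  have hn2 : (2 * (n : ℂ) + 2) ≠ 0 := by
    have : (2 * (n : ℂ) + 2) = 2 * (n + 1) := by ring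
    rw [this]
    exact mul_ne_zero two_ne_zero hn
  have hzz : ((‖z‖ : ℝ) : ℂ) ^ (2 * n + 2) = z ^ (n + 1) * cj z ^ (n + 1) := by
    have h1 := Complex.conj_mul' z
    have h2 : 2 * n + 2 = 2 * (n + 1) := by ring
    rw [h2, pow_mul, ← h1, mul_pow]
    ring
  have hI : Complex.I * Complex.I = -1 := Complex.I_mul_I
  by_cases hmn : n + 1 ≤ m
  · rw [if_pos hmn]
    obtain ⟨k, rfl⟩ : ∃ k, m = k + (n + 1) := ⟨m - (n + 1), by omega⟩
    have hk : (((k + (n + 1) : ℕ) : ℤ) - n - 1) = (k : ℤ) := by push_cast; ring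
    have hk' : k + (n + 1) - (n + 1) = k := by omega
    rw [hk']
    rw [j22849_radial 0 (-(2 * Real.pi * z ^ k)) n ‖z‖ R (norm_nonneg z) hz
      (fun r => ∫ θ in (0 : ℝ)..(2 * Real.pi),
        (circleMap 0 r θ ^ (k + (n + 1)) * cj (circleMap 0 r θ) ^ n) / (z - circleMap 0 r θ))
      (fun r hr => by
        rw [j22849_J r hr.1 z hr.2.ne', hk, j22849_out_nat r hr.1 z hr.2]
        ring)
      (fun r hr => by
        have hr0 : 0 < r := lt_of_le_of_lt (norm_nonneg z) hr.1
        rw [j22849_J r hr0 z hr.1.ne, hk, j22849_in_nat r hr0 z hr.1]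
        linear_combination (r : ℂ) ^ (2 * n) * 2 * Real.pi * z ^ k * hI)]
    rw [hzz]
    field_simp
    ring
  · rw [if_neg hmn]
    obtain ⟨k, rfl⟩ : ∃ k, n = m + k := ⟨n - m, by omega⟩
    have hk : ((m : ℤ) - ((m + k : ℕ) : ℤ) - 1) = -((k : ℤ) + 1) := by push_cast; ring
    rw [j22849_radial (2 * Real.pi / z ^ (k + 1)) 0 (m + k) ‖z‖ R (norm_nonneg z) hz
      (fun r => ∫ θ in (0 : ℝ)..(2 * Real.pi),
        (circleMap 0 r θ ^ m * cj (circleMap 0 r θ) ^ (m + k)) / (z - circleMap 0 r θ))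
      (fun r hr => by
        have hz0 : z ≠ 0 := by
          intro h
          rw [h, norm_zero] at hr
          exact absurd (hr.1.trans hr.2) (lt_irrefl _)
        have hzk : z ^ (k + 1) ≠ 0 := pow_ne_zero _ hz0
        have h1 := j22849_out_neg r hr.1 z hr.2 k
        rw [j22849_J r hr.1 z hr.2.ne', hk]
        rw [div_mul_eq_mul_div, eq_div_iff hzk]
        linear_combination (r : ℂ) ^ (2 * (m + k)) * Complex.I * h1 -
          (r : ℂ) ^ (2 * (m + k)) * 2 * Real.pi * hI)
      (fun r hr => by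
        have hr0 : 0 < r := lt_of_le_of_lt (norm_nonneg z) hr.1
        rw [j22849_J r hr0 z hr.1.ne, hk, j22849_in_neg r hr0 z hr.1]
        ring)]
    rw [hzz]
    by_cases hz0 : z = 0
    · subst hz0
      simp
    · have hzk : z ^ (k + 1) ≠ 0 := pow_ne_zero _ hz0
      field_simp
      ring

theorem CT_disc (R : ℝ) (hR : 0 < R) (z : ℂ) (hz : ‖z‖ < R) :
    CT ((ball (0 : ℂ) R).indicator fun _ => 1) z = cj z := by
  have h := j22849_main R hR 0 0 z hz
  simpa using h

theorem CT_monomial (m n : ℕ) (z : ℂ) (hz : ‖z‖ < 1) :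
    CT ((ball (0 : ℂ) 1).indicator fun w => w ^ m * cj w ^ n) z =
      (z ^ m * cj z ^ (n + 1) - if n + 1 ≤ m then z ^ (m - (n + 1)) else 0) / (n + 1) := by
  have h := j22849_main 1 one_pos m n z hz
  rw [h]
  simp


end Pool.Agent.Helper676.TL
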