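import Mathlib
import Pool.Agent.Helper676.TL.Defs
import Pool.Agent.Helper676.TL.Base

set_option autoImplicit false

namespace Pool.Agent.Helper676.TL

open Set Metric
open scoped ContDiff



section CTaSection

open MeasureTheory

/-- the annulus -/
def CTa_A (ρ : ℝ) : Set ℂ := {w | 1 < ‖w‖ ∧ ‖w‖ ≤ ρ}

lemma CTa_A_meas (ρ : ℝ) : MeasurableSet (CTa_A ρ) :=
  (measurableSet_lt measurable_const measurable_norm).inter
    (measurableSet_le measurable_norm measurable_const)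

lemma CTa_A_fin (ρ : ℝ) : volume (CTa_A ρ) < ⊤ := by
  refine lt_of_le_of_lt (measure_mono ?_) (isCompact_closedBall (0 : ℂ) ρ).measure_lt_top
  intro w hw
  simpa using hw.2

noncomputable def CTa_om (w : ℂ) : ℝ := √(‖w‖ ^ 2 - 1)

lemma CTa_om_meas : Measurable CTa_om := by
  unfold CTa_om
  fun_prop

lemma CTa_int {E : Type} [NormedAddCommGroup E] (ρ C : ℝ) (f : ℂ → E)
    (hf : AEStronglyMeasurable f (volume.restrict (CTa_A ρ))) (hb : ∀ w ∈ CTa_A ρ, ‖f w‖ ≤ C) :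
    IntegrableOn f (CTa_A ρ) := by
  have : IsFiniteMeasure (volume.restrict (CTa_A ρ)) :=
    ⟨by rw [Measure.restrict_apply_univ]; exact CTa_A_fin ρ⟩
  exact Integrable.of_bound hf C
    ((ae_restrict_iff' (CTa_A_meas ρ)).2 (Filter.Eventually.of_forall hb))

lemma CTa_g1 (ρ : ℝ) (hρ : 1 ≤ ρ) :
    IntegrableOn (fun s : ℝ => s * (√(s ^ 2 - 1))⁻¹) (Ioc 1 ρ) ∧
    ∫ s in Ioc 1 ρ, s * (√(s ^ 2 - 1))⁻¹ = √(ρ ^ 2 - 1) := by
  have hcont : ContinuousOn (fun s : ℝ => √(s ^ 2 - 1)) (Icc 1 ρ) := by fun_prop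
  have hder : ∀ x ∈ Ioo 1 ρ, HasDerivAt (fun s : ℝ => √(s ^ 2 - 1)) (x * (√(x ^ 2 - 1))⁻¹) x := by
    intro x hx
    have hpos : 0 < x ^ 2 - 1 := by nlinarith [hx.1]
    have h1 : HasDerivAt (fun s : ℝ => s ^ 2 - 1) (2 * x) x := by
      simpa using ((hasDerivAt_id x).pow 2).sub_const 1
    have h2 := h1.sqrt hpos.ne'
    convert h2 using 1
    have : √(x ^ 2 - 1) ≠ 0 := (Real.sqrt_pos.2 hpos).ne'
    field_simp
  have hint : IntegrableOn (fun s : ℝ => s * (√(s ^ 2 - 1))⁻¹) (Ioc 1 ρ) :=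
    intervalIntegral.integrableOn_deriv_of_nonneg hcont hder
      (fun x hx => mul_nonneg (by linarith [hx.1]) (inv_nonneg.2 (Real.sqrt_nonneg _)))
  refine ⟨hint, ?_⟩
  have := intervalIntegral.integral_eq_sub_of_hasDerivAt_of_le hρ hcont hder
    ((intervalIntegrable_iff_integrableOn_Ioc_of_le hρ).2 hint)
  rw [intervalIntegral.integral_of_le hρ] at this
  rw [this]
  simp

lemma CTa_J (ρ : ℝ) (hρ : 1 ≤ ρ) :
    IntegrableOn (fun w : ℂ => (CTa_om w)⁻¹) (CTa_A ρ) ∧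
    ∫ w in CTa_A ρ, (CTa_om w)⁻¹ = 2 * Real.pi * √(ρ ^ 2 - 1) := by
  set g : ℝ → ℝ := (Ioc 1 ρ).indicator (fun s => (√(s ^ 2 - 1))⁻¹) with hg
  have hgi : (CTa_A ρ).indicator (fun w : ℂ => (CTa_om w)⁻¹) = fun w : ℂ => g ‖w‖ := by
    funext w
    by_cases hw : w ∈ CTa_A ρ
    · rw [Set.indicator_of_mem hw, hg, Set.indicator_of_mem (show ‖w‖ ∈ Ioc 1 ρ from hw)]
      rfl
    · rw [Set.indicator_of_notMem hw, hg, Set.indicator_of_notMem (show ‖w‖ ∉ Ioc 1 ρ from hw)]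
  have hmul : (fun y : ℝ => y ^ (Module.finrank ℝ ℂ - 1) • g y) =
      (Ioc 1 ρ).indicator (fun s : ℝ => s * (√(s ^ 2 - 1))⁻¹) := by
    funext y
    rw [Complex.finrank_real_complex, hg]
    by_cases hy : y ∈ Ioc 1 ρ
    · simp [Set.indicator_of_mem hy]
    · simp [Set.indicator_of_notMem hy]
  have hsub : Ioi (0 : ℝ) ∩ Ioc 1 ρ = Ioc 1 ρ := by
    apply Set.inter_eq_self_of_subset_right
    intro y hy
    exact lt_trans zero_lt_one hy.1
  constructor
  · rw [← integrable_indicator_iff (CTa_A_meas ρ), hgi, integrable_fun_norm_addHaar, hmul]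
    exact ((CTa_g1 ρ hρ).1.integrable_indicator measurableSet_Ioc).integrableOn
  · rw [← integral_indicator (CTa_A_meas ρ), hgi, integral_fun_norm_addHaar, hmul,
      setIntegral_indicator measurableSet_Ioc, hsub, (CTa_g1 ρ hρ).2]
    have hv : (volume : Measure ℂ).real (ball 0 1) = Real.pi := by
      rw [Measure.real, Complex.volume_ball]
      simp
    rw [hv, Complex.finrank_real_complex]
    simp
    ring

lemma CTa_rot (u : Circle) (f : ℂ → ℂ) : ∫ w, f ((u : ℂ) * w) = ∫ w, f w := by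
  have h := (rotation u).measurePreserving
  have h2 := h.integral_comp (rotation u).toHomeomorph.measurableEmbedding f
  simpa using h2

lemma CTa_orth_aux (ρ : ℝ) (n k : ℕ) :
    ∫ w in CTa_A ρ, (w ^ (n + 1))⁻¹ * cj ((w ^ (n + k + 1 + 1))⁻¹) * (CTa_om w : ℂ) = 0 := by
  rw [← integral_indicator (CTa_A_meas ρ)]
  set f : ℂ → ℂ := (CTa_A ρ).indicator
    (fun w => (w ^ (n + 1))⁻¹ * cj ((w ^ (n + k + 1 + 1))⁻¹) * (CTa_om w : ℂ)) with hf
  set u : Circle := Circle.exp (Real.pi / ((k : ℝ) + 1)) with hu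
  have hupow : (u : ℂ) ^ (k + 1) = -1 := by
    rw [hu, Circle.coe_exp, ← Complex.exp_nat_mul]
    rw [← Complex.exp_pi_mul_I]
    congr 1
    push_cast
    have : ((k : ℂ) + 1) ≠ 0 := by exact_mod_cast Nat.succ_ne_zero k
    field_simp
  have hun : ‖(u : ℂ)‖ = 1 := Circle.norm_coe u
  have hu0 : (u : ℂ) ≠ 0 := by
    intro h
    rw [h] at hun
    simp at hun
  have hcj : cj ((((u : ℂ)) ^ (n + k + 1 + 1))⁻¹) = (u : ℂ) ^ (n + k + 1 + 1) := by
    have h1 : starRingEnd ℂ (u : ℂ) = (u : ℂ)⁻¹ := by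
      rw [← Circle.coe_inv_eq_conj, Circle.coe_inv]
    show starRingEnd ℂ ((((u : ℂ)) ^ (n + k + 1 + 1))⁻¹) = _
    rw [map_inv₀, map_pow, h1, inv_pow, inv_inv]
  have hrot : ∀ w, f ((u : ℂ) * w) = - f w := by
    intro w
    have hnw : ‖(u : ℂ) * w‖ = ‖w‖ := by rw [norm_mul, hun, one_mul]
    have hmem : (u : ℂ) * w ∈ CTa_A ρ ↔ w ∈ CTa_A ρ := by
      unfold CTa_A
      simp only [Set.mem_ofPred_eq, hnw]
    by_cases hw : w ∈ CTa_A ρ
    · rw [hf, Set.indicator_of_mem hw, Set.indicator_of_mem (hmem.2 hw)]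
      have h1 : CTa_om ((u : ℂ) * w) = CTa_om w := by
        unfold CTa_om
        rw [hnw]
      have h2 : cj (((((u : ℂ)) * w) ^ (n + k + 1 + 1))⁻¹) =
          (u : ℂ) ^ (n + k + 1 + 1) * cj ((w ^ (n + k + 1 + 1))⁻¹) := by
        rw [mul_pow, mul_inv]
        show starRingEnd ℂ _ = _
        rw [map_mul]
        congr 1
      rw [h1, h2, mul_pow, mul_inv]
      have h3 : (u : ℂ) ^ (n + k + 1 + 1) = (u : ℂ) ^ (n + 1) * (-1) := by
        rw [← hupow, ← pow_add]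
        congr 1
        ring
      rw [h3]
      have h4 : (u : ℂ) ^ (n + 1) ≠ 0 := pow_ne_zero _ hu0
      field_simp
    · rw [hf, Set.indicator_of_notMem hw, Set.indicator_of_notMem (fun h => hw (hmem.1 h))]
      simp
  have h5 := CTa_rot u f
  simp only [hrot] at h5
  rw [integral_neg] at h5
  linear_combination (-1 / 2 : ℂ) * h5

lemma CTa_orth (ρ : ℝ) (n m : ℕ) (h : n ≠ m) :
    ∫ w in CTa_A ρ, (w ^ (n + 1))⁻¹ * cj ((w ^ (m + 1))⁻¹) * (CTa_om w : ℂ) = 0 := by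
  rcases lt_or_gt_of_ne h with h | h
  · obtain ⟨k, rfl⟩ := Nat.exists_eq_add_of_lt h
    exact CTa_orth_aux ρ n k
  · obtain ⟨k, rfl⟩ := Nat.exists_eq_add_of_lt h
    have h1 := congrArg (starRingEnd ℂ) (CTa_orth_aux ρ m k)
    rw [← integral_conj, map_zero] at h1
    rw [← h1]
    refine integral_congr_ae (Filter.Eventually.of_forall fun w => ?_)
    show _ = starRingEnd ℂ ((w ^ (m + 1))⁻¹ * starRingEnd ℂ ((w ^ (m + k + 1 + 1))⁻¹) * (CTa_om w : ℂ))
    rw [map_mul, map_mul, Complex.conj_conj, Complex.conj_ofReal]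
    show (w ^ (m + k + 1 + 1))⁻¹ * starRingEnd ℂ ((w ^ (m + 1))⁻¹) * _ = _
    ring

lemma CTa_geom (x : ℝ) (hx0 : 0 ≤ x) (hx : x < 1) (N : ℕ) :
    ∑ n ∈ Finset.range N, x ^ (n + 1) ≤ x / (1 - x) := by
  have h1 : ∀ N, ∑ n ∈ Finset.range N, x ^ (n + 1) = x * (1 - x ^ N) / (1 - x) := by
    intro N
    have hne : (1 - x) ≠ 0 := by linarith
    induction N with
    | zero => simp
    | succ N ih =>
      rw [Finset.sum_range_succ, ih]
      field_simp
      ring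
  rw [h1 N]
  have hpos : 0 < 1 - x := by linarith
  have : 0 ≤ x ^ N := pow_nonneg hx0 N
  apply div_le_div_of_nonneg_right _ hpos.le
  nlinarith

lemma CTa_meas_inv (n : ℕ) : Measurable (fun w : ℂ => (w ^ (n + 1))⁻¹) := by fun_prop

lemma CTa_inv_le (ρ : ℝ) (n : ℕ) (w : ℂ) (hw : w ∈ CTa_A ρ) : ‖(w ^ (n + 1))⁻¹‖ ≤ 1 := by
  rw [norm_inv, norm_pow]
  exact inv_le_one_of_one_le₀ (one_le_pow₀ hw.1.le)

lemma CTa_om_le (ρ : ℝ) (w : ℂ) (hw : w ∈ CTa_A ρ) : CTa_om w ≤ ρ := by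
  unfold CTa_om
  have h0 : 0 ≤ ρ := le_trans (norm_nonneg w) hw.2
  rw [Real.sqrt_le_left h0]
  have := hw.2
  nlinarith [norm_nonneg w]

lemma CTa_om_nonneg (w : ℂ) : 0 ≤ CTa_om w := Real.sqrt_nonneg _

/-- Bessel on the annulus -/
lemma CTa_bessel (ρ : ℝ) (hρ : 1 ≤ ρ) (N : ℕ) (a : ℕ → ℂ) (ha : ∀ n, ‖a n‖ ≤ 1) :
    ∫ w in CTa_A ρ, ‖∑ n ∈ Finset.range N, a n * (w ^ (n + 1))⁻¹‖ ^ 2 * CTa_om w ≤
      ∫ w in CTa_A ρ, (CTa_om w)⁻¹ := by
  set e : ℕ → ℂ → ℂ := fun n w => (w ^ (n + 1))⁻¹ with he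
  have hem : ∀ n, Measurable (e n) := fun n => CTa_meas_inv n
  have hee : ∀ n m, IntegrableOn (fun w => e n w * cj (e m w) * (CTa_om w : ℂ)) (CTa_A ρ) := by
    intro n m
    apply CTa_int ρ ρ
    · refine Measurable.aestronglyMeasurable ?_
      have h1 := hem n
      have h2 : Measurable (fun w => cj (e m w)) := Complex.continuous_conj.measurable.comp (hem m)
      have h3 : Measurable (fun w => (CTa_om w : ℂ)) := Complex.measurable_ofReal.comp CTa_om_meas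
      exact (h1.mul h2).mul h3
    · intro w hw
      have h1 := CTa_inv_le ρ n w hw
      have h2 := CTa_inv_le ρ m w hw
      have h3 := CTa_om_le ρ w hw
      have h4 := CTa_om_nonneg w
      rw [norm_mul, norm_mul, Complex.norm_real, Real.norm_of_nonneg h4]
      have h5 : ‖cj (e m w)‖ = ‖e m w‖ := Complex.norm_conj _
      rw [h5]
      calc ‖e n w‖ * ‖e m w‖ * CTa_om w ≤ 1 * 1 * ρ := by
            apply mul_le_mul _ h3 h4 (by norm_num)
            exact mul_le_mul h1 h2 (norm_nonneg _) (by norm_num)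
        _ = ρ := by ring
  have hee2 : ∀ n, IntegrableOn (fun w => ‖e n w‖ ^ 2 * CTa_om w) (CTa_A ρ) := by
    intro n
    apply CTa_int ρ ρ
    · refine Measurable.aestronglyMeasurable ?_
      exact (((hem n).norm).pow_const 2).mul CTa_om_meas
    · intro w hw
      have h1 := CTa_inv_le ρ n w hw
      have h3 := CTa_om_le ρ w hw
      have h4 := CTa_om_nonneg w
      rw [Real.norm_of_nonneg (by positivity)]
      calc ‖e n w‖ ^ 2 * CTa_om w ≤ 1 ^ 2 * ρ := by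
            apply mul_le_mul _ h3 h4 (by norm_num)
            exact pow_le_pow_left₀ (norm_nonneg _) h1 2
        _ = ρ := by ring
  -- the complex identity
  have hpt : ∀ w, ((‖∑ n ∈ Finset.range N, a n * e n w‖ ^ 2 * CTa_om w : ℝ) : ℂ) =
      ∑ n ∈ Finset.range N, ∑ m ∈ Finset.range N,
        (a n * cj (a m)) * (e n w * cj (e m w) * (CTa_om w : ℂ)) := by
    intro w
    rw [Complex.ofReal_mul]
    have h1 : ((‖∑ n ∈ Finset.range N, a n * e n w‖ ^ 2 : ℝ) : ℂ) =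
        (∑ n ∈ Finset.range N, a n * e n w) * starRingEnd ℂ (∑ n ∈ Finset.range N, a n * e n w) := by
      rw [Complex.mul_conj, Complex.normSq_eq_norm_sq]
    rw [h1, map_sum, Finset.sum_mul_sum, Finset.sum_mul]
    refine Finset.sum_congr rfl fun n _ => ?_
    rw [Finset.sum_mul]
    refine Finset.sum_congr rfl fun m _ => ?_
    rw [map_mul]
    show _ = a n * starRingEnd ℂ (a m) * (e n w * starRingEnd ℂ (e m w) * _)
    ring
  have hdiag : ∀ n, ∫ w in CTa_A ρ, e n w * cj (e n w) * (CTa_om w : ℂ) =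
      ((∫ w in CTa_A ρ, ‖e n w‖ ^ 2 * CTa_om w : ℝ) : ℂ) := by
    intro n
    rw [← integral_complex_ofReal]
    refine integral_congr_ae (Filter.Eventually.of_forall fun w => ?_)
    show e n w * starRingEnd ℂ (e n w) * _ = ((‖e n w‖ ^ 2 * CTa_om w : ℝ) : ℂ)
    rw [Complex.mul_conj, Complex.normSq_eq_norm_sq, Complex.ofReal_mul]
  have hI : ((∫ w in CTa_A ρ, ‖∑ n ∈ Finset.range N, a n * e n w‖ ^ 2 * CTa_om w : ℝ) : ℂ) =
      ((∑ n ∈ Finset.range N, ‖a n‖ ^ 2 * ∫ w in CTa_A ρ, ‖e n w‖ ^ 2 * CTa_om w : ℝ) : ℂ) := by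
    rw [← integral_complex_ofReal]
    simp only [hpt]
    rw [integral_finsetSum _ (fun n _ => integrable_finsetSum _ (fun m _ => (hee n m).const_mul _))]
    rw [Complex.ofReal_sum]
    refine Finset.sum_congr rfl fun n hn => ?_
    rw [integral_finsetSum _ (fun m _ => (hee n m).const_mul _)]
    rw [Finset.sum_eq_single n]
    · rw [integral_const_mul, hdiag n, Complex.ofReal_mul]
      congr 1
      show a n * starRingEnd ℂ (a n) = _
      rw [Complex.mul_conj, Complex.normSq_eq_norm_sq]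
    · intro m _ hmn
      rw [integral_const_mul, CTa_orth ρ n m hmn.symm, mul_zero]
    · intro h
      exact absurd hn h
  have hI2 := Complex.ofReal_injective hI
  rw [hI2]
  have hstep : ∑ n ∈ Finset.range N, ‖a n‖ ^ 2 * ∫ w in CTa_A ρ, ‖e n w‖ ^ 2 * CTa_om w ≤
      ∑ n ∈ Finset.range N, ∫ w in CTa_A ρ, ‖e n w‖ ^ 2 * CTa_om w := by
    refine Finset.sum_le_sum fun n _ => ?_
    have h1 : 0 ≤ ∫ w in CTa_A ρ, ‖e n w‖ ^ 2 * CTa_om w :=
      integral_nonneg fun w => mul_nonneg (by positivity) (CTa_om_nonneg w)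
    have h2 : ‖a n‖ ^ 2 ≤ 1 := by
      have := ha n
      nlinarith [norm_nonneg (a n)]
    nlinarith
  refine hstep.trans ?_
  rw [← integral_finsetSum _ (fun n _ => hee2 n)]
  refine setIntegral_mono_on ?_ (CTa_J ρ hρ).1 (CTa_A_meas ρ) ?_
  · exact integrable_finsetSum _ (fun n _ => hee2 n)
  · intro w hw
    have hw1 : 1 < ‖w‖ := hw.1
    have hpos : 0 < ‖w‖ ^ 2 - 1 := by nlinarith
    have hom : CTa_om w ^ 2 = ‖w‖ ^ 2 - 1 := Real.sq_sqrt hpos.le
    have hompos : 0 < CTa_om w := Real.sqrt_pos.2 hpos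
    rw [← Finset.sum_mul]
    have h1 : ∀ n ∈ Finset.range N, ‖e n w‖ ^ 2 = ((‖w‖ ^ 2)⁻¹) ^ (n + 1) := by
      intro n _
      rw [he]
      simp only [norm_inv, norm_pow, inv_pow]
      rw [← pow_mul, ← pow_mul, mul_comm]
    rw [Finset.sum_congr rfl h1]
    have hx0 : 0 ≤ (‖w‖ ^ 2)⁻¹ := by positivity
    have hx1 : (‖w‖ ^ 2)⁻¹ < 1 := inv_lt_one_of_one_lt₀ (by linarith)
    have h2 := CTa_geom _ hx0 hx1 N
    have h3 : (‖w‖ ^ 2)⁻¹ / (1 - (‖w‖ ^ 2)⁻¹) = (CTa_om w ^ 2)⁻¹ := by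
      rw [hom]
      have : ‖w‖ ^ 2 ≠ 0 := by positivity
      have h5 : ‖w‖ ^ 2 - 1 ≠ 0 := hpos.ne'
      field_simp
    rw [h3] at h2
    calc (∑ n ∈ Finset.range N, (‖w‖ ^ 2)⁻¹ ^ (n + 1)) * CTa_om w ≤ (CTa_om w ^ 2)⁻¹ * CTa_om w :=
          mul_le_mul_of_nonneg_right h2 hompos.le
      _ = (CTa_om w)⁻¹ := by field_simp

lemma CTa_L1 (ρ : ℝ) (hρ : 1 ≤ ρ) (N : ℕ) (a : ℕ → ℂ) (ha : ∀ n, ‖a n‖ ≤ 1) :
    ∫ w in CTa_A ρ, ‖∑ n ∈ Finset.range N, a n * (w ^ (n + 1))⁻¹‖ ≤ 2 * Real.pi * ρ := by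
  have hb := CTa_bessel ρ hρ N a ha
  obtain ⟨hJi, hJ⟩ := CTa_J ρ hρ
  set P : ℂ → ℂ := fun w => ∑ n ∈ Finset.range N, a n * (w ^ (n + 1))⁻¹ with hP
  have hPm : Measurable P := by
    refine Finset.measurable_sum _ fun n _ => ?_
    exact (CTa_meas_inv n).const_mul _
  have hPb : ∀ w ∈ CTa_A ρ, ‖P w‖ ≤ N := by
    intro w hw
    rw [hP]
    refine (norm_sum_le _ _).trans ?_
    calc ∑ n ∈ Finset.range N, ‖a n * (w ^ (n + 1))⁻¹‖ ≤ ∑ n ∈ Finset.range N, (1 : ℝ) := by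
          refine Finset.sum_le_sum fun n _ => ?_
          rw [norm_mul]
          exact mul_le_one₀ (ha n) (norm_nonneg _) (CTa_inv_le ρ n w hw)
      _ = N := by simp
  have hi1 : IntegrableOn (fun w => ‖P w‖) (CTa_A ρ) := by
    apply CTa_int ρ N _ hPm.norm.aestronglyMeasurable
    intro w hw
    rw [norm_norm]
    exact hPb w hw
  have hi2 : IntegrableOn (fun w => ‖P w‖ ^ 2 * CTa_om w) (CTa_A ρ) := by
    apply CTa_int ρ (N ^ 2 * ρ) _ ((hPm.norm.pow_const 2).mul CTa_om_meas).aestronglyMeasurable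
    intro w hw
    have h3 := CTa_om_le ρ w hw
    have h4 := CTa_om_nonneg w
    show ‖‖P w‖ ^ 2 * CTa_om w‖ ≤ _
    rw [Real.norm_of_nonneg (mul_nonneg (by positivity) h4)]
    refine mul_le_mul ?_ h3 h4 (by positivity)
    exact pow_le_pow_left₀ (norm_nonneg _) (hPb w hw) 2
  have hle : ∫ w in CTa_A ρ, ‖P w‖ ≤ ∫ w in CTa_A ρ, (1 / 2 * (CTa_om w)⁻¹ + 1 / 2 * (‖P w‖ ^ 2 * CTa_om w)) := by
    refine setIntegral_mono_on hi1 ((hJi.const_mul _).add (hi2.const_mul _)) (CTa_A_meas ρ) ?_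
    intro w hw
    have hw1 : 1 < ‖w‖ := hw.1
    have hpos : 0 < ‖w‖ ^ 2 - 1 := by nlinarith
    have hompos : 0 < CTa_om w := Real.sqrt_pos.2 hpos
    have h5 : 0 ≤ (1 - ‖P w‖ * CTa_om w) ^ 2 * (CTa_om w)⁻¹ := by positivity
    have h6 : (1 - ‖P w‖ * CTa_om w) ^ 2 * (CTa_om w)⁻¹ =
        (CTa_om w)⁻¹ - 2 * ‖P w‖ + ‖P w‖ ^ 2 * CTa_om w := by
      field_simp
      ring
    rw [h6] at h5
    linarith
  rw [integral_add (hJi.const_mul _) (hi2.const_mul _), integral_const_mul, integral_const_mul] at hle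
  have h7 : √(ρ ^ 2 - 1) ≤ ρ := by
    rw [Real.sqrt_le_left (by linarith)]
    linarith
  have h8 : 2 * Real.pi * √(ρ ^ 2 - 1) ≤ 2 * Real.pi * ρ :=
    mul_le_mul_of_nonneg_left h7 (by positivity)
  have h9 : ∫ w in CTa_A ρ, ‖P w‖ ^ 2 * CTa_om w ≤ ∫ w in CTa_A ρ, (CTa_om w)⁻¹ := hb
  linarith

theorem CTa_main (F : ℂ → ℂ) (M ρ : ℝ) (hF : Measurable F) (hM : ∀ w, ‖F w‖ ≤ M)
    (hρ : 1 ≤ ρ) (h1 : ∀ w, ρ < ‖w‖ → F w = 0) (h2 : ∀ w, ‖w‖ < 1 → F w = 0) :
    ∃ c : ℕ → ℂ, Summable (fun n => ‖c n‖) ∧ (∑' n, ‖c n‖) ≤ 10 * M * ρ ∧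
      ∀ z : ℂ, ‖z‖ < 1 → CT F z = ∑' n, c n * z ^ n := by
  have hM0 : 0 ≤ M := (norm_nonneg _).trans (hM 0)
  have hpi : (0 : ℝ) < Real.pi := Real.pi_pos
  -- integrals live on A
  have hA : ∀ g : ℂ → ℂ, ∫ w, F w * g w = ∫ w in CTa_A ρ, F w * g w := by
    intro g
    rw [← integral_indicator (CTa_A_meas ρ)]
    refine integral_congr_ae ?_
    have hs : (volume : Measure ℂ) (sphere 0 1) = 0 := Measure.addHaar_sphere _ _ _
    have hs' : ∀ᵐ w : ℂ, w ∉ sphere (0 : ℂ) 1 := measure_eq_zero_iff_ae_notMem.1 hs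
    filter_upwards [hs'] with w hw
    by_cases hwA : w ∈ CTa_A ρ
    · rw [Set.indicator_of_mem hwA]
    · rw [Set.indicator_of_notMem hwA]
      have hw' : ‖w‖ ≠ 1 := by simpa using hw
      have : F w = 0 := by
        rcases lt_or_gt_of_ne hw' with h | h
        · exact h2 w h
        · apply h1
          by_contra hcon
          exact hwA ⟨h, not_lt.1 hcon⟩
      rw [this, zero_mul]
  set c : ℕ → ℂ := fun n => -((Real.pi : ℂ)⁻¹ * ∫ w in CTa_A ρ, F w * (w ^ (n + 1))⁻¹) with hc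
  have hFi : ∀ n, IntegrableOn (fun w => F w * (w ^ (n + 1))⁻¹) (CTa_A ρ) := by
    intro n
    have hm : AEStronglyMeasurable (fun w => F w * (w ^ (n + 1))⁻¹) (volume.restrict (CTa_A ρ)) :=
      (hF.mul (CTa_meas_inv n)).aestronglyMeasurable
    apply CTa_int ρ M _ hm
    intro w hw
    rw [norm_mul]
    calc ‖F w‖ * ‖(w ^ (n + 1))⁻¹‖ ≤ M * 1 :=
          mul_le_mul (hM w) (CTa_inv_le ρ n w hw) (norm_nonneg _) hM0
      _ = M := mul_one _
  have hpart : ∀ N, ∑ n ∈ Finset.range N, ‖c n‖ ≤ 2 * M * ρ := by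
    intro N
    -- unimodular multipliers
    have hη : ∀ n, ∃ η : ℂ, ‖η‖ ≤ 1 ∧ η * c n = (‖c n‖ : ℂ) := by
      intro n
      by_cases h0 : c n = 0
      · exact ⟨0, by simp, by simp [h0]⟩
      · refine ⟨(‖c n‖ : ℂ) / c n, ?_, ?_⟩
        · rw [norm_div, Complex.norm_real, norm_norm, div_self (norm_ne_zero_iff.2 h0)]
        · field_simp
    choose η hη1 hη2 using hη
    have hsum : ((∑ n ∈ Finset.range N, ‖c n‖ : ℝ) : ℂ) =
        -((Real.pi : ℂ)⁻¹ * ∫ w in CTa_A ρ, F w * ∑ n ∈ Finset.range N, η n * (w ^ (n + 1))⁻¹) := by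
      rw [Complex.ofReal_sum]
      have e1 : ∀ w, F w * ∑ n ∈ Finset.range N, η n * (w ^ (n + 1))⁻¹ =
          ∑ n ∈ Finset.range N, η n * (F w * (w ^ (n + 1))⁻¹) := by
        intro w
        rw [Finset.mul_sum]
        exact Finset.sum_congr rfl fun n _ => by ring
      simp only [e1]
      rw [integral_finsetSum _ (fun n _ => (hFi n).const_mul _), Finset.mul_sum, ← Finset.sum_neg_distrib]
      refine Finset.sum_congr rfl fun n _ => ?_
      rw [← hη2 n, integral_const_mul, hc]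
      ring
    have hnorm := congrArg norm hsum
    rw [Complex.norm_real, Real.norm_of_nonneg (Finset.sum_nonneg fun n _ => norm_nonneg _),
      norm_neg, norm_mul, norm_inv, Complex.norm_real, Real.norm_of_nonneg hpi.le] at hnorm
    rw [hnorm]
    have hL := CTa_L1 ρ hρ N η hη1
    have hPm : Measurable (fun w : ℂ => ∑ n ∈ Finset.range N, η n * (w ^ (n + 1))⁻¹) := by
      refine Finset.measurable_sum _ fun n _ => ?_
      exact (CTa_meas_inv n).const_mul _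
    have hPb : ∀ w ∈ CTa_A ρ, ‖∑ n ∈ Finset.range N, η n * (w ^ (n + 1))⁻¹‖ ≤ N := by
      intro w hw
      refine (norm_sum_le _ _).trans ?_
      calc ∑ n ∈ Finset.range N, ‖η n * (w ^ (n + 1))⁻¹‖ ≤ ∑ n ∈ Finset.range N, (1 : ℝ) := by
            refine Finset.sum_le_sum fun n _ => ?_
            rw [norm_mul]
            exact mul_le_one₀ (hη1 n) (norm_nonneg _) (CTa_inv_le ρ n w hw)
        _ = N := by simp
    have hi1 : IntegrableOn (fun w : ℂ => M * ‖∑ n ∈ Finset.range N, η n * (w ^ (n + 1))⁻¹‖)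
        (CTa_A ρ) := by
      apply Integrable.const_mul
      apply CTa_int ρ N _ hPm.norm.aestronglyMeasurable
      intro w hw
      rw [norm_norm]
      exact hPb w hw
    have hI : ‖∫ w in CTa_A ρ, F w * ∑ n ∈ Finset.range N, η n * (w ^ (n + 1))⁻¹‖ ≤
        ∫ w in CTa_A ρ, M * ‖∑ n ∈ Finset.range N, η n * (w ^ (n + 1))⁻¹‖ := by
      apply norm_integral_le_of_norm_le hi1
      refine Filter.Eventually.of_forall fun w => ?_
      rw [norm_mul]
      exact mul_le_mul_of_nonneg_right (hM w) (norm_nonneg _)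
    rw [integral_const_mul] at hI
    have hI2 := hI.trans (mul_le_mul_of_nonneg_left hL hM0)
    calc Real.pi⁻¹ * ‖∫ w in CTa_A ρ, F w * ∑ n ∈ Finset.range N, η n * (w ^ (n + 1))⁻¹‖
        ≤ Real.pi⁻¹ * (M * (2 * Real.pi * ρ)) :=
          mul_le_mul_of_nonneg_left hI2 (inv_nonneg.2 hpi.le)
      _ = 2 * M * ρ := by field_simp
  have hsm : Summable (fun n => ‖c n‖) := summable_of_sum_range_le (fun n => norm_nonneg _) hpart
  refine ⟨c, hsm, ?_, ?_⟩
  · refine (Real.tsum_le_of_sum_range_le (fun n => norm_nonneg _) hpart).trans ?_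
    have : 0 ≤ M * ρ := mul_nonneg hM0 (by linarith)
    nlinarith
  · intro z hz
    have e1 : CT F z = (Real.pi : ℂ)⁻¹ * ∫ w in CTa_A ρ, F w * (z - w)⁻¹ := by
      unfold CT
      simp only [div_eq_mul_inv]
      rw [hA]
    have hFi2 : ∀ n, IntegrableOn (fun w => -(z ^ n * (F w * (w ^ (n + 1))⁻¹))) (CTa_A ρ) :=
      fun n => ((hFi n).const_mul _).neg
    have hsumm : Summable (fun n : ℕ => ∫ w in CTa_A ρ, ‖-(z ^ n * (F w * (w ^ (n + 1))⁻¹))‖) := by
      have hgeo : Summable (fun n : ℕ => ‖z‖ ^ n * (M * (volume (CTa_A ρ)).toReal)) :=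
        (summable_geometric_of_lt_one (norm_nonneg z) hz).mul_right _
      refine Summable.of_nonneg_of_le (fun n => integral_nonneg fun w => norm_nonneg _) ?_ hgeo
      intro n
      have hb : ∀ w ∈ CTa_A ρ, ‖-(z ^ n * (F w * (w ^ (n + 1))⁻¹))‖ ≤ ‖z‖ ^ n * M := by
        intro w hw
        rw [norm_neg, norm_mul, norm_mul, norm_pow]
        refine mul_le_mul_of_nonneg_left ?_ (by positivity)
        calc ‖F w‖ * ‖(w ^ (n + 1))⁻¹‖ ≤ M * 1 :=
              mul_le_mul (hM w) (CTa_inv_le ρ n w hw) (norm_nonneg _) hM0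
          _ = M := mul_one _
      calc ∫ w in CTa_A ρ, ‖-(z ^ n * (F w * (w ^ (n + 1))⁻¹))‖
          ≤ ∫ w in CTa_A ρ, ‖z‖ ^ n * M :=
            setIntegral_mono_on (hFi2 n).norm (integrableOn_const (CTa_A_fin ρ).ne) (CTa_A_meas ρ) hb
        _ = ‖z‖ ^ n * (M * (volume (CTa_A ρ)).toReal) := by
            rw [setIntegral_const, Measure.real, smul_eq_mul]
            ring
    have hhas := hasSum_integral_of_summable_integral_norm hFi2 hsumm
    have e2 : ∫ w in CTa_A ρ, ∑' n, -(z ^ n * (F w * (w ^ (n + 1))⁻¹)) =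
        ∫ w in CTa_A ρ, F w * (z - w)⁻¹ := by
      refine setIntegral_congr_fun (CTa_A_meas ρ) ?_
      intro w hw
      have hw1 : 1 < ‖w‖ := hw.1
      have hw0 : w ≠ 0 := by
        intro h
        rw [h, norm_zero] at hw1
        linarith
      have hq : ‖z / w‖ < 1 := by
        rw [norm_div, div_lt_one (by linarith)]
        linarith
      have hg := (hasSum_geometric_of_norm_lt_one hq).mul_left (-(F w * w⁻¹))
      have hzw : z - w ≠ 0 := by
        intro h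
        have : z = w := sub_eq_zero.1 h
        rw [this] at hz
        linarith
      have hval : -(F w * w⁻¹) * (1 - z / w)⁻¹ = F w * (z - w)⁻¹ := by
        have : 1 - z / w ≠ 0 := by
          intro h
          apply hzw
          field_simp at h
          linear_combination -h
        have h3 : 1 - z / w = -(z - w) / w := by
          field_simp
          ring
        rw [h3]
        field_simp
      rw [hval] at hg
      show ∑' n, -(z ^ n * (F w * (w ^ (n + 1))⁻¹)) = F w * (z - w)⁻¹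
      rw [← hg.tsum_eq]
      refine tsum_congr fun n => ?_
      rw [div_pow, pow_succ]
      field_simp
    rw [e2] at hhas
    have hhas2 := (hhas.mul_left (Real.pi : ℂ)⁻¹).tsum_eq
    rw [e1, ← hhas2]
    refine tsum_congr fun n => ?_
    rw [integral_neg, integral_const_mul, hc]
    ring

end CTaSection

theorem CT_annulus (F : ℂ → ℂ) (M ρ : ℝ) (hF : Measurable F) (hM : ∀ w, ‖F w‖ ≤ M)
    (hρ : 1 ≤ ρ) (h1 : ∀ w, ρ < ‖w‖ → F w = 0) (h2 : ∀ w, ‖w‖ < 1 → F w = 0) :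
    ∃ c : ℕ → ℂ, Summable (fun n => ‖c n‖) ∧ (∑' n, ‖c n‖) ≤ 10 * M * ρ ∧
      ∀ z : ℂ, ‖z‖ < 1 → CT F z = ∑' n, c n * z ^ n := by
  exact CTa_main F M ρ hF hM hρ h1 h2


end Pool.Agent.Helper676.TL
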