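import Mathlib
import Pool.Agent.Helper676.TL.Defs
import Pool.Agent.Helper676.TL.Base

set_option autoImplicit false

namespace Pool.Agent.Helper676.TL

open Set Metric
open scoped ContDiff



theorem CT_inv_det (c : ℂ) :
    ((ContinuousLinearMap.toSpanSingleton ℂ c).restrictScalars ℝ : ℂ →L[ℝ] ℂ).det =
      Complex.normSq c := by
  rw [← Algebra.norm_complex_apply, Algebra.norm_apply]
  unfold ContinuousLinearMap.det
  congr 1
  refine LinearMap.ext fun x => ?_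
  show x • c = c * x
  rw [smul_eq_mul, mul_comm]

theorem CT_inv_pt (t : ℝ) (ht : 0 < t) (a b k : ℂ) (ha : a ≠ 0) :
    cj ((Complex.normSq (-((t : ℂ) ^ 2) / b ^ 2)) •
      (k / ((t : ℂ) ^ 2 / cj a - (t : ℂ) ^ 2 / cj b))) * ((t : ℂ) / a) =
      -(cj k * (t : ℂ) ^ 3 / (b * cj b ^ 2)) / (a - b) := by
  have ht' : (t : ℂ) ≠ 0 := by exact_mod_cast ht.ne'
  rw [Complex.real_smul, ← Complex.mul_conj]
  simp only [map_mul, map_div₀, map_neg, map_pow, map_sub, Complex.conj_ofReal,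
    Complex.conj_conj]
  by_cases hb : b = 0
  · subst hb
    simp
  · by_cases hab : a = b
    · subst hab
      simp
    · have hcb : (starRingEnd ℂ) b ≠ 0 := by
        intro h
        exact hb ((map_eq_zero (starRingEnd ℂ)).1 h)
      obtain ⟨b', hb'⟩ : ∃ b', b' = (starRingEnd ℂ) b := ⟨_, rfl⟩
      obtain ⟨k', hk'⟩ : ∃ k', k' = (starRingEnd ℂ) k := ⟨_, rfl⟩
      rw [← hb'] at hcb
      simp only [← hb', ← hk']
      have hab1 : a - b ≠ 0 := sub_ne_zero.2 hab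
      have hab2 : b - a ≠ 0 := sub_ne_zero.2 (Ne.symm hab)
      have h1 : (t : ℂ) ^ 2 / a - (t : ℂ) ^ 2 / b = (t : ℂ) ^ 2 * (b - a) / (a * b) := by
        field_simp
      rw [h1]
      rw [eq_div_iff hab1]
      field_simp
      ring

theorem CT_inv_cv (t : ℝ) (ht : 0 < t) (H : ℂ → ℂ) : ∫ w, H w =
    ∫ v, (Complex.normSq (-((t : ℂ) ^ 2) / (v - 1) ^ 2)) • H (1 + (t : ℂ) ^ 2 / cj (v - 1)) := by
  have ht' : (t : ℂ) ≠ 0 := by exact_mod_cast ht.ne'
  have hae : ∀ᵐ w : ℂ, w ∈ ({1}ᶜ : Set ℂ) :=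
    MeasureTheory.compl_mem_ae_iff.2
      (MeasureTheory.measure_singleton (μ := (MeasureTheory.volume : MeasureTheory.Measure ℂ))
        (1 : ℂ))
  have hr : (MeasureTheory.volume : MeasureTheory.Measure ℂ).restrict ({1}ᶜ : Set ℂ) =
      MeasureTheory.volume := MeasureTheory.Measure.restrict_eq_self_of_ae_mem hae
  have e1 : ∫ w, H w = ∫ w, H (cj w) :=
    (MeasureTheory.MeasurePreserving.integral_comp Complex.conjLIE.measurePreserving
      Complex.conjLIE.toHomeomorph.measurableEmbedding H).symm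
  have e2 := MeasureTheory.integral_image_eq_integral_abs_det_fderiv_smul
    (MeasureTheory.volume : MeasureTheory.Measure ℂ) (s := ({1}ᶜ : Set ℂ))
    (f := fun v => 1 + (t : ℂ) ^ 2 / (v - 1))
    (f' := fun v => (ContinuousLinearMap.toSpanSingleton ℂ
      (-((t : ℂ) ^ 2) / (v - 1) ^ 2)).restrictScalars ℝ)
    (measurableSet_singleton 1).compl (by
      intro v hv
      have hv1 : v - 1 ≠ 0 := sub_ne_zero.2 hv
      have h1 : HasDerivAt (fun v : ℂ => 1 + (t : ℂ) ^ 2 / (v - 1))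
          (-((t : ℂ) ^ 2) / (v - 1) ^ 2) v := by
        have h2 : HasDerivAt (fun v : ℂ => 1 + (t : ℂ) ^ 2 / (v - 1))
            ((0 * (v - 1) - (t : ℂ) ^ 2 * 1) / (v - 1) ^ 2) v :=
          (((hasDerivAt_const v ((t : ℂ) ^ 2)).div
          ((hasDerivAt_id v).sub_const 1) hv1).const_add 1)
        have e : -((t : ℂ) ^ 2) / (v - 1) ^ 2 =
            (0 * (v - 1) - (t : ℂ) ^ 2 * 1) / (v - 1) ^ 2 := by ring
        rw [e]
        exact h2
      exact (h1.hasFDerivAt.restrictScalars ℝ).hasFDerivWithinAt) (by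
      intro v hv w hw h
      have hv1 : v - 1 ≠ 0 := sub_ne_zero.2 hv
      have hw1 : w - 1 ≠ 0 := sub_ne_zero.2 hw
      simp only [add_right_inj] at h
      rw [div_eq_div_iff hv1 hw1] at h
      have h2 := mul_left_cancel₀ (pow_ne_zero 2 ht') h
      have h3 : w = v := by linear_combination h2
      exact h3.symm) (fun w => H (cj w))
  have e3 : (fun v : ℂ => 1 + (t : ℂ) ^ 2 / (v - 1)) '' ({1}ᶜ : Set ℂ) = {1}ᶜ := by
    ext w
    constructor
    · rintro ⟨v, hv, rfl⟩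
      have hv1 : v - 1 ≠ 0 := sub_ne_zero.2 hv
      intro h
      have h' : 1 + (t : ℂ) ^ 2 / (v - 1) = 1 := h
      rw [add_eq_left] at h'
      exact (div_ne_zero (pow_ne_zero 2 ht') hv1) h'
    · intro hw
      have hw1 : w - 1 ≠ 0 := sub_ne_zero.2 hw
      refine ⟨1 + (t : ℂ) ^ 2 / (w - 1), ?_, ?_⟩
      · intro h
        have h' : 1 + (t : ℂ) ^ 2 / (w - 1) = 1 := h
        rw [add_eq_left] at h'
        exact (div_ne_zero (pow_ne_zero 2 ht') hw1) h'
      · show 1 + (t : ℂ) ^ 2 / (1 + (t : ℂ) ^ 2 / (w - 1) - 1) = w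
        rw [add_sub_cancel_left]
        field_simp
        ring
  rw [e3, hr] at e2
  rw [e1, e2]
  refine MeasureTheory.integral_congr_ae (Filter.Eventually.of_forall fun v => ?_)
  simp only [CT_inv_det, abs_of_nonneg (Complex.normSq_nonneg _)]
  congr 2
  simp only [map_add, map_one, map_div₀, map_pow, map_sub, Complex.conj_ofReal]

theorem CT_inv (t : ℝ) (ht : 0 < t) (K : ℂ → ℂ) (M : ℝ) (hK : Measurable K)
    (hM : ∀ w, ‖K w‖ ≤ M) (hs : ∀ w, ‖w - 1‖ < t ∨ 2 * t < ‖w - 1‖ → K w = 0)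
    (ζ : ℂ) (hζ : ζ ≠ 1) :
    cj (CT K (1 + t ^ 2 / cj (ζ - 1))) * (t / (ζ - 1)) =
      CT (fun v => - (cj (K (1 + t ^ 2 / cj (v - 1))) * t ^ 3 / ((v - 1) * cj (v - 1) ^ 2))) ζ := by
  have hζ1 : ζ - 1 ≠ 0 := sub_ne_zero.2 hζ
  unfold CT
  rw [CT_inv_cv t ht (fun w => K w / (1 + (t : ℂ) ^ 2 / cj (ζ - 1) - w))]
  unfold cj
  rw [map_mul, map_inv₀, Complex.conj_ofReal, ← integral_conj, mul_assoc,
    ← MeasureTheory.integral_mul_const]
  congr 1
  refine MeasureTheory.integral_congr_ae (Filter.Eventually.of_forall fun v => ?_)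
  have h1 := CT_inv_pt t ht (ζ - 1) (v - 1) (K (1 + (t : ℂ) ^ 2 / cj (v - 1))) hζ1
  rw [sub_sub_sub_cancel_right] at h1
  simp only [add_sub_add_left_eq_sub]
  exact h1


end Pool.Agent.Helper676.TL
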