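import Mathlib
import Pool.Agent.Helper676.TL.Geo
import Pool.Agent.Helper785.TL.Defs

/-! Thin lens (MP_49383f_gt): block B1 + B2, primitives and reflection. -/

set_option autoImplicit false

namespace Pool.Agent.Helper676.TL.B12

open Set Metric Pool.Agent.Helper676.TL Pool.Agent.Helper785.TL
open scoped ContDiff

/-- the form `a² dζ - conj(b)² dζ̄` -/
noncomputable def omF (a b : ℂ → ℂ) (ζ : ℂ) : ℂ →L[ℝ] ℂ :=
  (a ζ) ^ 2 • (ContinuousLinearMap.id ℝ ℂ) - (cj (b ζ)) ^ 2 • (Complex.conjCLE : ℂ →L[ℝ] ℂ)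

/-- the form `2 Re (a b dζ)` -/
noncomputable def omZ (a b : ℂ → ℂ) (ζ : ℂ) : ℂ →L[ℝ] ℝ :=
  (2 : ℝ) • (Complex.reCLM.comp ((a ζ * b ζ) • (ContinuousLinearMap.id ℝ ℂ)))

theorem omF_apply (a b : ℂ → ℂ) (ζ v : ℂ) :
    omF a b ζ v = a ζ ^ 2 * v - cj (b ζ) ^ 2 * cj v := by
  simp [omF]

theorem omZ_apply (a b : ℂ → ℂ) (ζ v : ℂ) :
    omZ a b ζ v = 2 * (a ζ * b ζ * v).re := by
  simp [omZ]


section S_prim_ann
/-- P1: primitive on a round annulus -/
theorem prim_ann {E : Type*} [NormedAddCommGroup E] [NormedSpace ℝ E] [CompleteSpace E]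
    (c : ℂ) {r₁ r₂ s : ℝ} (h0 : 0 < r₁) (h1 : r₁ < s) (h2 : s < r₂) (W : ℂ → ℂ →L[ℝ] E)
    (hW : ContDiffOn ℝ ∞ W {ζ : ℂ | r₁ < ‖ζ - c‖ ∧ ‖ζ - c‖ < r₂})
    (hs : ∀ ζ : ℂ, r₁ < ‖ζ - c‖ → ‖ζ - c‖ < r₂ → ∀ x y, fderiv ℝ W ζ x y = fderiv ℝ W ζ y x)
    (hp : ∫ θ in (0 : ℝ)..(2 * Real.pi), W (c + s * Complex.exp (θ * Complex.I))
      (s * Complex.exp (θ * Complex.I) * Complex.I) = 0) :
    ∃ f : ℂ → E, ∀ ζ : ℂ, r₁ < ‖ζ - c‖ → ‖ζ - c‖ < r₂ → HasFDerivAt f (W ζ) ζ := by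
  have hs0 : 0 < s := h0.trans h1
  have hr2 : 0 < r₂ := hs0.trans h2
  have hAo : IsOpen {ζ : ℂ | r₁ < ‖ζ - c‖ ∧ ‖ζ - c‖ < r₂} := by
    have hc : Continuous fun ζ : ℂ => ‖ζ - c‖ := by fun_prop
    exact (isOpen_lt continuous_const hc).inter (isOpen_lt hc continuous_const)
  have hWd : ∀ ζ : ℂ, r₁ < ‖ζ - c‖ → ‖ζ - c‖ < r₂ → HasFDerivAt W (fderiv ℝ W ζ) ζ := by
    intro ζ ha hb
    exact ((hW.differentiableOn (by simp)).differentiableAt (hAo.mem_nhds ⟨ha, hb⟩)).hasFDerivAt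
  obtain ⟨S, hS⟩ : ∃ S : Set ℂ, S = {w : ℂ | Real.log r₁ < w.re ∧ w.re < Real.log r₂} := ⟨_, rfl⟩
  have hSo : IsOpen S := by
    rw [hS]
    exact (isOpen_lt continuous_const Complex.continuous_re).inter
      (isOpen_lt Complex.continuous_re continuous_const)
  have hSc : Convex ℝ S := by
    rw [hS]
    have : {w : ℂ | Real.log r₁ < w.re ∧ w.re < Real.log r₂} =
        Complex.reCLM ⁻¹' (Ioo (Real.log r₁) (Real.log r₂)) := by
      ext w; rfl
    rw [this]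
    exact (convex_Ioo _ _).linear_preimage Complex.reCLM.toLinearMap
  have hSE : ∀ w ∈ S, r₁ < ‖(c + Complex.exp w) - c‖ ∧ ‖(c + Complex.exp w) - c‖ < r₂ := by
    intro w hw
    rw [hS] at hw
    rw [add_sub_cancel_left, Complex.norm_exp]
    refine ⟨?_, ?_⟩
    · rw [← Real.log_lt_iff_lt_exp h0]; exact hw.1
    · rw [← Real.lt_log_iff_exp_lt hr2]; exact hw.2
  have hES : ∀ w : ℂ, r₁ < ‖Complex.exp w‖ → ‖Complex.exp w‖ < r₂ → w ∈ S := by
    intro w ha hb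
    rw [hS]
    rw [Complex.norm_exp] at ha hb
    exact ⟨(Real.log_lt_iff_lt_exp h0).2 ha, (Real.lt_log_iff_exp_lt hr2).2 hb⟩
  have hEd : ∀ w : ℂ, HasFDerivAt (fun w => c + Complex.exp w)
      (Complex.exp w • (1 : ℂ →L[ℝ] ℂ)) w := by
    intro w
    exact ((Complex.hasDerivAt_exp w).const_add c).complexToReal_fderiv
  obtain ⟨W', hW'⟩ : ∃ W' : ℂ → ℂ →L[ℝ] E, ∀ w, W' w =
      (W (c + Complex.exp w)).comp (Complex.exp w • (1 : ℂ →L[ℝ] ℂ)) := ⟨_, fun w => rfl⟩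
  have hW'f : W' = fun w => (W (c + Complex.exp w)).comp (Complex.exp w • (1 : ℂ →L[ℝ] ℂ)) :=
    funext hW'
  have hW'a : ∀ w y, W' w y = W (c + Complex.exp w) (Complex.exp w * y) := by
    intro w y
    rw [hW']
    simp
  have hDd : ∀ w : ℂ, HasFDerivAt (fun w : ℂ => Complex.exp w • (1 : ℂ →L[ℝ] ℂ))
      ((Complex.exp w • (1 : ℂ →L[ℝ] ℂ)).smulRight (1 : ℂ →L[ℝ] ℂ)) w := by
    intro w
    exact ((Complex.hasDerivAt_exp w).complexToReal_fderiv).smul_const (1 : ℂ →L[ℝ] ℂ)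
  have hW'd : ∀ w ∈ S, HasFDerivAt W'
      ((ContinuousLinearMap.compL ℝ ℂ ℂ E (W (c + Complex.exp w))).comp
        ((Complex.exp w • (1 : ℂ →L[ℝ] ℂ)).smulRight (1 : ℂ →L[ℝ] ℂ)) +
      ((ContinuousLinearMap.compL ℝ ℂ ℂ E).flip (Complex.exp w • (1 : ℂ →L[ℝ] ℂ))).comp
        ((fderiv ℝ W (c + Complex.exp w)).comp (Complex.exp w • (1 : ℂ →L[ℝ] ℂ)))) w := by
    intro w hw
    rw [hW'f]
    have h3 := hSE w hw
    exact ((hWd _ h3.1 h3.2).comp w (hEd w)).clm_comp (hDd w)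
  obtain ⟨F, hF⟩ : ∃ F : ℂ → E, ∀ w ∈ S, HasFDerivAt F (W' w) w := by
    apply hSc.exists_forall_hasFDerivAt_of_fderiv_symmetric hSo
    · intro w hw
      exact (hW'd w hw).differentiableAt.differentiableWithinAt
    · intro w hw x y
      have h3 := hSE w hw
      rw [(hW'd w hw).fderiv]
      simp only [ContinuousLinearMap.add_apply, ContinuousLinearMap.comp_apply,
        ContinuousLinearMap.compL_apply, ContinuousLinearMap.flip_apply,
        ContinuousLinearMap.smulRight_apply, ContinuousLinearMap.smul_apply,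
        ContinuousLinearMap.one_apply, smul_eq_mul]
      rw [hs _ h3.1 h3.2 (Complex.exp w * x) (Complex.exp w * y)]
      congr 2
      ring
  -- periodicity
  have hper1 : ∀ w, W' (w + 2 * Real.pi * Complex.I) = W' w := by
    intro w
    rw [hW', hW', Complex.exp_add, Complex.exp_two_pi_mul_I, mul_one]
  have hS1 : ∀ w ∈ S, ∀ k : ℤ, w + k * (2 * Real.pi * Complex.I) ∈ S := by
    intro w hw k
    rw [hS] at hw ⊢
    have : (w + k * (2 * Real.pi * Complex.I)).re = w.re := by simp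
    show Real.log r₁ < (w + k * (2 * Real.pi * Complex.I)).re ∧
      (w + k * (2 * Real.pi * Complex.I)).re < Real.log r₂
    rw [this]; exact hw
  have hS2 : ∀ w ∈ S, w + 2 * Real.pi * Complex.I ∈ S := by
    intro w hw
    have := hS1 w hw 1
    simpa using this
  have hDiff : ∀ w ∈ S, HasFDerivWithinAt (fun w => F (w + 2 * Real.pi * Complex.I) - F w)
      ((fun _ => (0 : ℂ →L[ℝ] E)) w) S w := by
    intro w hw
    have h3 : HasFDerivAt (fun w : ℂ => w + 2 * Real.pi * Complex.I) (1 : ℂ →L[ℝ] ℂ) w :=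
      (hasFDerivAt_id w).add_const _
    have h4 := ((hF _ (hS2 w hw)).comp w h3).sub (hF w hw)
    rw [hper1] at h4
    have h5 : (W' w).comp (1 : ℂ →L[ℝ] ℂ) - W' w = 0 := by
      ext; simp
    rw [h5] at h4
    exact h4.hasFDerivWithinAt
  have hls : ((Real.log s : ℝ) : ℂ) ∈ S := by
    rw [hS]
    exact ⟨by rw [Complex.ofReal_re]; exact Real.log_lt_log h0 h1,
      by rw [Complex.ofReal_re]; exact Real.log_lt_log hs0 h2⟩
  have hcurve : ∀ θ : ℝ, HasDerivAt (fun θ : ℝ => F ((Real.log s : ℝ) + θ * Complex.I))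
      (W (c + s * Complex.exp (θ * Complex.I)) (s * Complex.exp (θ * Complex.I) * Complex.I)) θ := by
    intro θ
    have h3 : ((Real.log s : ℝ) : ℂ) + θ * Complex.I ∈ S := by
      rw [hS] at hls ⊢
      have : (((Real.log s : ℝ) : ℂ) + θ * Complex.I).re = Real.log s := by simp
      show Real.log r₁ < (((Real.log s : ℝ) : ℂ) + θ * Complex.I).re ∧
        (((Real.log s : ℝ) : ℂ) + θ * Complex.I).re < Real.log r₂
      rw [this]
      simpa using hls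
    have h4 : HasDerivAt (fun θ : ℝ => ((Real.log s : ℝ) : ℂ) + θ * Complex.I) Complex.I θ := by
      have := ((hasDerivAt_id θ).ofReal_comp.mul_const Complex.I).const_add ((Real.log s : ℝ) : ℂ)
      simpa using this
    have h5 := (hF _ h3).comp_hasDerivAt θ h4
    rw [hW'a] at h5
    have h6 : Complex.exp (((Real.log s : ℝ) : ℂ) + θ * Complex.I) =
        s * Complex.exp (θ * Complex.I) := by
      rw [Complex.exp_add, ← Complex.ofReal_exp, Real.exp_log hs0]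
    rw [h6] at h5
    exact h5
  have hcont : Continuous (fun θ : ℝ => W (c + s * Complex.exp (θ * Complex.I))
      (s * Complex.exp (θ * Complex.I) * Complex.I)) := by
    have h3 : Continuous (fun θ : ℝ => c + s * Complex.exp (θ * Complex.I)) := by fun_prop
    have h4 : Continuous (fun θ : ℝ => W (c + s * Complex.exp (θ * Complex.I))) := by
      apply hW.continuousOn.comp_continuous h3
      intro θ
      have : ‖c + s * Complex.exp (θ * Complex.I) - c‖ = s := by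
        rw [add_sub_cancel_left, norm_mul, Complex.norm_exp_ofReal_mul_I, mul_one,
          Complex.norm_real, Real.norm_eq_abs, abs_of_pos hs0]
      show r₁ < ‖c + s * Complex.exp (θ * Complex.I) - c‖ ∧
        ‖c + s * Complex.exp (θ * Complex.I) - c‖ < r₂
      rw [this]; exact ⟨h1, h2⟩
    exact h4.clm_apply (by fun_prop)
  have hint := intervalIntegral.integral_eq_sub_of_hasDerivAt (a := 0) (b := 2 * Real.pi)
    (fun θ _ => hcurve θ) (hcont.intervalIntegrable _ _)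
  rw [hp] at hint
  have hF0 : F (((Real.log s : ℝ) : ℂ) + 2 * Real.pi * Complex.I) - F ((Real.log s : ℝ) : ℂ) = 0 := by
    rw [hint]
    congr 2
    · push_cast; ring
    · simp
  have hF1 : ∀ w ∈ S, F (w + 2 * Real.pi * Complex.I) = F w := by
    intro w hw
    have h3 := hSc.norm_image_sub_le_of_norm_hasFDerivWithin_le (C := 0) hDiff
      (fun x _ => by simp) hls hw
    rw [zero_mul] at h3
    have h4 := norm_le_zero_iff.1 h3
    have h5 : F (w + 2 * Real.pi * Complex.I) - F w = 0 := by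
      have h6 : (F (w + 2 * Real.pi * Complex.I) - F w) -
        (F (((Real.log s : ℝ) : ℂ) + 2 * Real.pi * Complex.I) - F ((Real.log s : ℝ) : ℂ)) = 0 := h4
      rw [hF0, sub_zero] at h6
      exact h6
    exact sub_eq_zero.1 h5
  have hFn : ∀ (n : ℕ) (w : ℂ), w ∈ S → F (w + n * (2 * Real.pi * Complex.I)) = F w := by
    intro n
    induction n with
    | zero => intro w _; simp
    | succ n ih =>
      intro w hw
      have h3 := hS1 w hw n
      have h4 : w + ((n + 1 : ℕ) : ℂ) * (2 * Real.pi * Complex.I) =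
          (w + ((n : ℤ) : ℂ) * (2 * Real.pi * Complex.I)) + 2 * Real.pi * Complex.I := by
        push_cast; ring
      rw [h4, hF1 _ h3]
      have := ih w hw
      simpa using this
  have hFk : ∀ (k : ℤ) (w : ℂ), w ∈ S → F (w + k * (2 * Real.pi * Complex.I)) = F w := by
    intro k w hw
    rcases k with n | n
    · simpa using hFn n w hw
    · have h3 := hS1 w hw (Int.negSucc n)
      have h4 := hFn (n + 1) _ h3
      rw [← h4]
      congr 1
      push_cast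
      ring
  -- the primitive
  refine ⟨fun z => F (Complex.log (z - c)), ?_⟩
  have main : ∀ (L : ℂ → ℂ) (z : ℂ), r₁ < ‖z - c‖ → ‖z - c‖ < r₂ →
      HasDerivAt L ((z - c)⁻¹) z → (∀ z', z' ≠ c → Complex.exp (L z') = z' - c) →
      HasFDerivAt (fun z => F (Complex.log (z - c))) (W z) z := by
    intro L z ha hb hL hexp
    have hmem : ∀ z', r₁ < ‖z' - c‖ → ‖z' - c‖ < r₂ → L z' ∈ S := by
      intro z' ha' hb'
      have hne : z' ≠ c := by
        rintro rfl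
        simp at ha'
        linarith
      apply hES
      · rw [hexp z' hne]; exact ha'
      · rw [hexp z' hne]; exact hb'
    have hne : z ≠ c := by
      rintro rfl
      simp at ha
      linarith
    have h3 := (hF _ (hmem z ha hb)).comp z hL.complexToReal_fderiv
    have h4 : (W' (L z)).comp ((z - c)⁻¹ • (1 : ℂ →L[ℝ] ℂ)) = W z := by
      ext y
      rw [ContinuousLinearMap.comp_apply, hW'a, hexp z hne]
      simp only [ContinuousLinearMap.smul_apply, ContinuousLinearMap.one_apply, smul_eq_mul]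
      rw [mul_inv_cancel_left₀ (sub_ne_zero.2 hne), add_sub_cancel]
    rw [h4] at h3
    refine h3.congr_of_eventuallyEq ?_
    filter_upwards [hAo.mem_nhds (show z ∈ {ζ : ℂ | r₁ < ‖ζ - c‖ ∧ ‖ζ - c‖ < r₂} from ⟨ha, hb⟩)]
      with z' hz'
    have hne' : z' ≠ c := by
      rintro rfl
      have := hz'.1
      simp at this
      linarith
    have h5 : Complex.exp (Complex.log (z' - c)) = Complex.exp (L z') := by
      rw [hexp z' hne', Complex.exp_log (sub_ne_zero.2 hne')]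
    obtain ⟨k, hk⟩ := Complex.exp_eq_exp_iff_exists_int.1 h5
    show F (Complex.log (z' - c)) = F (L z')
    rw [hk]
    exact hFk k _ (hmem z' hz'.1 hz'.2)
  intro z ha hb
  have hne : z ≠ c := by
    rintro rfl
    simp at ha
    linarith
  by_cases hsl : z - c ∈ Complex.slitPlane
  · apply main (fun z => Complex.log (z - c)) z ha hb
    · have := (Complex.hasDerivAt_log hsl).comp z ((hasDerivAt_id z).sub_const c)
      rw [mul_one] at this
      exact this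
    · intro z' hz'
      exact Complex.exp_log (sub_ne_zero.2 hz')
  · have hsl' : -(z - c) ∈ Complex.slitPlane := by
      rw [Complex.mem_slitPlane_iff] at hsl ⊢
      push Not at hsl
      left
      rw [Complex.neg_re]
      rcases lt_or_eq_of_le hsl.1 with h | h
      · linarith
      · exfalso
        apply hne
        rw [← sub_eq_zero]
        exact Complex.ext h hsl.2
    apply main (fun z => Complex.log (-(z - c)) + Real.pi * Complex.I) z ha hb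
    · have := ((Complex.hasDerivAt_log hsl').comp z (((hasDerivAt_id z).sub_const c).neg)).add_const
        ((Real.pi : ℂ) * Complex.I)
      have h5 : (-(z - c))⁻¹ * -1 = (z - c)⁻¹ := by
        rw [inv_neg]; ring
      rw [← h5]
      exact this
    · intro z' hz'
      rw [Complex.exp_add, Complex.exp_pi_mul_I,
        Complex.exp_log (neg_ne_zero.2 (sub_ne_zero.2 hz'))]
      ring


end S_prim_ann

section S_prim_Ut
/-- cut-off primitive near one hole -/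
theorem prim_Ut_aux1 {E : Type*} [NormedAddCommGroup E] [NormedSpace ℝ E] [CompleteSpace E]
    (c : ℂ) {t : ℝ} (ht : 0 < t) (ht1 : t < 1 / 100) (W : ℂ → ℂ →L[ℝ] E)
    (hW : ContDiffOn ℝ ∞ W {ζ : ℂ | t / 2 < ‖ζ - c‖ ∧ ‖ζ - c‖ < 1 / 2})
    (hs : ∀ ζ : ℂ, t / 2 < ‖ζ - c‖ → ‖ζ - c‖ < 1 / 2 →
      ∀ x y, fderiv ℝ W ζ x y = fderiv ℝ W ζ y x)
    (hp : ∫ θ in (0 : ℝ)..(2 * Real.pi), W (c + t * Complex.exp (θ * Complex.I))
      (t * Complex.exp (θ * Complex.I) * Complex.I) = 0) :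
    ∃ g : ℂ → E, (∀ ζ : ℂ, t / 2 < ‖ζ - c‖ → ContDiffAt ℝ ∞ g ζ) ∧
      (∀ ζ : ℂ, t / 2 < ‖ζ - c‖ → ‖ζ - c‖ < 1 / 4 → fderiv ℝ g ζ = W ζ) ∧
      (∀ ζ : ℂ, 3 / 8 < ‖ζ - c‖ → fderiv ℝ g ζ = 0) := by
  obtain ⟨f, hf⟩ := prim_ann c (r₁ := t / 2) (r₂ := 1 / 2) (s := t) (by linarith) (by linarith)
    (by linarith) W hW hs hp
  have hcn : Continuous fun ζ : ℂ => ‖ζ - c‖ := by fun_prop
  have hA : IsOpen {ζ : ℂ | t / 2 < ‖ζ - c‖ ∧ ‖ζ - c‖ < 1 / 2} := by
    have : {ζ : ℂ | t / 2 < ‖ζ - c‖ ∧ ‖ζ - c‖ < 1 / 2} =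
        {ζ : ℂ | t / 2 < ‖ζ - c‖} ∩ {ζ : ℂ | ‖ζ - c‖ < 1 / 2} := by ext ζ; rfl
    rw [this]
    exact (isOpen_lt continuous_const hcn).inter (isOpen_lt hcn continuous_const)
  have hfs : ContDiffOn ℝ ∞ f {ζ : ℂ | t / 2 < ‖ζ - c‖ ∧ ‖ζ - c‖ < 1 / 2} := by
    rw [contDiffOn_infty_iff_fderiv_of_isOpen hA]
    refine ⟨fun ζ hζ => (hf ζ hζ.1 hζ.2).differentiableAt.differentiableWithinAt, ?_⟩
    exact hW.congr fun ζ hζ => (hf ζ hζ.1 hζ.2).fderiv
  let χ : ContDiffBump c := ⟨1 / 4, 3 / 8, by norm_num, by norm_num⟩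
  have hzero : ∀ ζ : ℂ, 3 / 8 < ‖ζ - c‖ → (fun z => χ z • f z) =ᶠ[nhds ζ] fun _ => (0 : E) := by
    intro ζ hζ
    have ho : IsOpen {z : ℂ | 3 / 8 < ‖z - c‖} := isOpen_lt continuous_const hcn
    filter_upwards [ho.mem_nhds hζ] with z hz
    have : χ z = 0 := χ.zero_of_le_dist (by
      show (3 / 8 : ℝ) ≤ dist z c
      rw [Complex.dist_eq]; exact le_of_lt hz)
    rw [this, zero_smul]
  refine ⟨fun z => χ z • f z, ?_, ?_, ?_⟩
  · intro ζ hζ
    by_cases h : ‖ζ - c‖ < 1 / 2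
    · have h1 : ContDiffAt ℝ ∞ f ζ := hfs.contDiffAt (hA.mem_nhds ⟨hζ, h⟩)
      exact χ.contDiffAt.smul h1
    · have h2 := hzero ζ (by linarith)
      exact contDiffAt_const.congr_of_eventuallyEq h2
  · intro ζ h1 h2
    have h3 : (fun z => χ z • f z) =ᶠ[nhds ζ] f := by
      have hb : ζ ∈ ball c χ.rIn := by
        rw [mem_ball, Complex.dist_eq]; exact h2
      filter_upwards [χ.eventuallyEq_one_of_mem_ball hb] with z hz
      rw [hz, Pi.one_apply, one_smul]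
    rw [h3.fderiv_eq]
    exact (hf ζ h1 (by linarith)).fderiv
  · intro ζ hζ
    rw [(hzero ζ hζ).fderiv_eq]
    simp


/-- P2: primitive on `Ut t` -/
theorem prim_Ut {E : Type*} [NormedAddCommGroup E] [NormedSpace ℝ E] [CompleteSpace E]
    {t : ℝ} (ht : 0 < t) (ht1 : t < 1 / 100) (W : ℂ → ℂ →L[ℝ] E)
    (hW : ContDiffOn ℝ ∞ W (Ut t))
    (hs : ∀ ζ ∈ Ut t, ∀ x y, fderiv ℝ W ζ x y = fderiv ℝ W ζ y x)
    (hp : ∫ θ in (0 : ℝ)..(2 * Real.pi), W (1 + t * Complex.exp (θ * Complex.I))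
      (t * Complex.exp (θ * Complex.I) * Complex.I) = 0)
    (hm : ∫ θ in (0 : ℝ)..(2 * Real.pi), W (-1 + t * Complex.exp (θ * Complex.I))
      (t * Complex.exp (θ * Complex.I) * Complex.I) = 0) :
    ∃ f : ℂ → E, ContDiffOn ℝ ∞ f (Ut t) ∧ ∀ ζ ∈ Ut t, HasFDerivAt f (W ζ) ζ := by
  have hU := isOpen_Ut t
  have n2 : ‖(2 : ℂ)‖ = 2 := by simp
  have tri : ∀ ζ : ℂ, 2 ≤ ‖ζ - 1‖ + ‖ζ + 1‖ := by
    intro ζ
    have := norm_sub_le (ζ + 1) (ζ - 1)
    rw [show ζ + 1 - (ζ - 1) = 2 by ring, n2] at this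
    linarith
  have hsub1 : {ζ : ℂ | t / 2 < ‖ζ - 1‖ ∧ ‖ζ - 1‖ < 1 / 2} ⊆ Ut t := by
    intro ζ hζ
    refine ⟨?_, hζ.1, ?_⟩
    · have := norm_add_le (ζ - 1) 1
      rw [sub_add_cancel, norm_one] at this
      have h2 : ‖ζ - 1‖ < 1 / 2 := hζ.2
      linarith
    · have := tri ζ
      have h2 : ‖ζ - 1‖ < 1 / 2 := hζ.2
      linarith
  have hsub2 : {ζ : ℂ | t / 2 < ‖ζ - (-1)‖ ∧ ‖ζ - (-1)‖ < 1 / 2} ⊆ Ut t := by
    intro ζ hζ
    simp only [sub_neg_eq_add, mem_ofPred_eq] at hζ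
    refine ⟨?_, ?_, hζ.1⟩
    · have := norm_sub_le (ζ + 1) 1
      rw [add_sub_cancel_right, norm_one] at this
      linarith [hζ.2]
    · have := tri ζ
      linarith [hζ.2]
  obtain ⟨g1, a1, b1, c1⟩ := prim_Ut_aux1 1 ht ht1 W (hW.mono hsub1)
    (fun ζ h h' => hs ζ (hsub1 ⟨h, h'⟩)) hp
  obtain ⟨g2, a2, b2, c2⟩ := prim_Ut_aux1 (-1) ht ht1 W (hW.mono hsub2)
    (fun ζ h h' => hs ζ (hsub2 ⟨h, h'⟩)) hm
  simp only [sub_neg_eq_add] at a2 b2 c2
  have hg : ∀ ζ ∈ Ut t, ContDiffAt ℝ ∞ (fun z => g1 z + g2 z) ζ := fun ζ hζ =>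
    (a1 ζ hζ.2.1).add (a2 ζ hζ.2.2)
  have hgo : ContDiffOn ℝ ∞ (fun z => g1 z + g2 z) (Ut t) := fun ζ hζ =>
    (hg ζ hζ).contDiffWithinAt
  have hne : (∞ : WithTop ℕ∞) ≠ 0 := by simp
  have hfd : ∀ ζ ∈ Ut t, fderiv ℝ (fun z => g1 z + g2 z) ζ = fderiv ℝ g1 ζ + fderiv ℝ g2 ζ := by
    intro ζ hζ
    exact fderiv_fun_add ((a1 ζ hζ.2.1).differentiableAt hne)
      ((a2 ζ hζ.2.2).differentiableAt hne)
  have hDg : ContDiffOn ℝ ∞ (fderiv ℝ (fun z => g1 z + g2 z)) (Ut t) :=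
    ((contDiffOn_infty_iff_fderiv_of_isOpen hU).1 hgo).2
  classical
  let Wh : ℂ → ℂ →L[ℝ] E := fun ζ => if ‖ζ - 1‖ < 1 / 4 ∨ ‖ζ + 1‖ < 1 / 4 then 0
    else W ζ - fderiv ℝ (fun z => g1 z + g2 z) ζ
  have hWh : ∀ ζ ∈ Ut t, Wh ζ = W ζ - fderiv ℝ (fun z => g1 z + g2 z) ζ := by
    intro ζ hζ
    simp only [Wh]
    split_ifs with h
    · rw [hfd ζ hζ]
      rcases h with h | h
      · rw [b1 ζ hζ.2.1 h, c2 ζ (by have := tri ζ; linarith)]
        simp
      · rw [b2 ζ hζ.2.2 h, c1 ζ (by have := tri ζ; linarith)]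
        simp
    · rfl
  have hloc : ∀ ζ ∈ Ut t, Wh =ᶠ[nhds ζ] fun z => W z - fderiv ℝ (fun z => g1 z + g2 z) z := by
    intro ζ hζ
    filter_upwards [hU.mem_nhds hζ] with z hz using hWh z hz
  have hloc0 : ∀ ζ : ℂ, (‖ζ - 1‖ < 1 / 4 ∨ ‖ζ + 1‖ < 1 / 4) → Wh =ᶠ[nhds ζ] fun _ => 0 := by
    intro ζ hζ
    have ho : IsOpen {z : ℂ | ‖z - 1‖ < 1 / 4 ∨ ‖z + 1‖ < 1 / 4} := by
      have h1 : Continuous fun ζ : ℂ => ‖ζ - 1‖ := by fun_prop
      have h2 : Continuous fun ζ : ℂ => ‖ζ + 1‖ := by fun_prop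
      have : {z : ℂ | ‖z - 1‖ < 1 / 4 ∨ ‖z + 1‖ < 1 / 4} =
        {z : ℂ | ‖z - 1‖ < 1 / 4} ∪ {z : ℂ | ‖z + 1‖ < 1 / 4} := by ext ζ; rfl
      rw [this]
      exact (isOpen_lt h1 continuous_const).union (isOpen_lt h2 continuous_const)
    filter_upwards [ho.mem_nhds hζ] with z hz
    simp only [Wh]
    rw [if_pos hz]
  have hcase : ∀ ζ ∈ ball (0 : ℂ) 12, ζ ∈ Ut t ∨ (‖ζ - 1‖ < 1 / 4 ∨ ‖ζ + 1‖ < 1 / 4) := by
    intro ζ hζ
    rw [mem_ball_zero_iff] at hζ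
    by_cases h1 : ‖ζ - 1‖ < 1 / 4
    · exact Or.inr (Or.inl h1)
    · by_cases h2 : ‖ζ + 1‖ < 1 / 4
      · exact Or.inr (Or.inr h2)
      · exact Or.inl ⟨hζ, by linarith, by linarith⟩
  have hWd : ∀ ζ ∈ Ut t, DifferentiableAt ℝ W ζ := fun ζ hζ =>
    (hW.contDiffAt (hU.mem_nhds hζ)).differentiableAt hne
  have hDgd : ∀ ζ ∈ Ut t, DifferentiableAt ℝ (fderiv ℝ (fun z => g1 z + g2 z)) ζ := fun ζ hζ =>
    (hDg.contDiffAt (hU.mem_nhds hζ)).differentiableAt hne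
  obtain ⟨F, hF⟩ := (convex_ball (0 : ℂ) 12).exists_forall_hasFDerivAt_of_fderiv_symmetric
    isOpen_ball (show DifferentiableOn ℝ Wh (ball (0 : ℂ) 12) by
      intro ζ hζ
      refine DifferentiableAt.differentiableWithinAt ?_
      rcases hcase ζ hζ with h | h
      · exact (((hWd ζ h).sub (hDgd ζ h)).congr_of_eventuallyEq (hloc ζ h))
      · exact ((differentiableAt_const _).congr_of_eventuallyEq (hloc0 ζ h)))
    (by
      intro ζ hζ x y
      rcases hcase ζ hζ with h | h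
      · rw [(hloc ζ h).fderiv_eq, fderiv_fun_sub (hWd ζ h) (hDgd ζ h)]
        have e1 := hs ζ h x y
        have e2 : fderiv ℝ (fderiv ℝ (fun z => g1 z + g2 z)) ζ x y =
            fderiv ℝ (fderiv ℝ (fun z => g1 z + g2 z)) ζ y x :=
          (hg ζ h).isSymmSndFDerivAt (by simp only [minSmoothness_of_isRCLikeNormedField]; exact WithTop.coe_le_coe.2 le_top) x y
        simp only [_root_.sub_apply, e1, e2]
      · rw [(hloc0 ζ h).fderiv_eq]
        simp)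
  have hfin : ∀ ζ ∈ Ut t, HasFDerivAt (fun z => F z + (g1 z + g2 z)) (W ζ) ζ := by
    intro ζ hζ
    have e1 := hF ζ (by rw [mem_ball_zero_iff]; exact hζ.1)
    have e2 := ((hg ζ hζ).differentiableAt hne).hasFDerivAt
    have e3 := e1.fun_add e2
    rw [hWh ζ hζ, sub_add_cancel] at e3
    exact e3
  refine ⟨fun z => F z + (g1 z + g2 z), ?_, hfin⟩
  rw [contDiffOn_infty_iff_fderiv_of_isOpen hU]
  exact ⟨fun ζ hζ => (hfin ζ hζ).differentiableAt.differentiableWithinAt,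
    hW.congr fun ζ hζ => (hfin ζ hζ).fderiv⟩


end S_prim_Ut

section S_omF_smooth
theorem omF_smooth {H : ℝ} {a b : ℂ → ℂ} {V : Set ℂ} (hd : Dirac H a b V) :
    ContDiffOn ℝ ∞ (omF a b) V := by
  have ha : ContDiffOn ℝ ∞ a V := hd.1
  have hb : ContDiffOn ℝ ∞ b V := hd.2.1
  have hcb : ContDiffOn ℝ ∞ (fun ζ => cj (b ζ)) V :=
    (Complex.conjCLE.contDiff (n := ∞)).comp_contDiffOn hb
  unfold omF
  exact ((ha.pow 2).smul contDiffOn_const).sub ((hcb.pow 2).smul contDiffOn_const)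


end S_omF_smooth

section S_omZ_smooth
theorem omZ_smooth {H : ℝ} {a b : ℂ → ℂ} {V : Set ℂ} (hd : Dirac H a b V) :
    ContDiffOn ℝ ∞ (omZ a b) V := by
  obtain ⟨ha, hb, -, -⟩ := hd
  have h1 : ContDiffOn ℝ ∞ (fun ζ => a ζ * b ζ) V := ha.mul hb
  have h2 : ContDiffOn ℝ ∞ (fun ζ => (a ζ * b ζ) • (ContinuousLinearMap.id ℝ ℂ)) V :=
    h1.smul contDiffOn_const
  have h3 : ContDiffOn ℝ ∞ (fun ζ => Complex.reCLM.comp
      ((a ζ * b ζ) • (ContinuousLinearMap.id ℝ ℂ))) V :=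
    contDiffOn_const.clm_comp h2
  have h4 : ContDiffOn ℝ ∞ (fun _ : ℂ => (2 : ℝ)) V := contDiffOn_const
  exact h4.smul h3


end S_omZ_smooth

section S_omF_closed
theorem omF_closed_aux (f : ℂ → ℂ) (ζ x : ℂ) :
    fderiv ℝ f ζ x = dz f ζ * x + dzb f ζ * cj x := by
  have h1 : fderiv ℝ f ζ x = (x.re : ℂ) * fderiv ℝ f ζ 1 + (x.im : ℂ) * fderiv ℝ f ζ Complex.I := by
    have h2 : x = x.re • (1 : ℂ) + x.im • Complex.I := by
      apply Complex.ext <;> simp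
    conv_lhs => rw [h2]
    rw [map_add, map_smul, map_smul, Complex.real_smul, Complex.real_smul]
  have h3 : x = (x.re : ℂ) + (x.im : ℂ) * Complex.I := (Complex.re_add_im x).symm
  have h4 : cj x = (x.re : ℂ) - (x.im : ℂ) * Complex.I := by
    apply Complex.ext <;> simp [cj]
  rw [h1, h4]
  unfold dz dzb
  generalize fderiv ℝ f ζ 1 = p
  generalize fderiv ℝ f ζ Complex.I = q
  conv_rhs => rw [h3]
  have hI := Complex.I_mul_I
  simp only [Complex.add_re, Complex.ofReal_re, Complex.mul_re, Complex.I_re, mul_zero,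
    Complex.ofReal_im, Complex.I_im, mul_one, sub_self, add_zero, Complex.add_im, Complex.mul_im,
    zero_add]
  linear_combination ((x.im : ℂ) * q) * hI

theorem omF_closed {H : ℝ} {a b : ℂ → ℂ} {V : Set ℂ} (hV : IsOpen V) (hd : Dirac H a b V) :
    ∀ ζ ∈ V, ∀ x y, fderiv ℝ (omF a b) ζ x y = fderiv ℝ (omF a b) ζ y x := by
  obtain ⟨hca, hcb, hda, hdb⟩ := hd
  intro ζ hζ
  have ha : DifferentiableAt ℝ a ζ :=
    (hca.differentiableOn (by simp)).differentiableAt (hV.mem_nhds hζ)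
  have hb : DifferentiableAt ℝ b ζ :=
    (hcb.differentiableOn (by simp)).differentiableAt (hV.mem_nhds hζ)
  have hbc : HasFDerivAt (fun w => cj (b w)) ((Complex.conjCLE : ℂ →L[ℝ] ℂ).comp (fderiv ℝ b ζ)) ζ :=
    (Complex.conjCLE : ℂ →L[ℝ] ℂ).hasFDerivAt.comp ζ hb.hasFDerivAt
  have hF : DifferentiableAt ℝ (omF a b) ζ := by
    unfold omF
    exact ((ha.pow 2).smul_const _).sub ((hbc.differentiableAt.pow 2).smul_const _)
  have key : ∀ x y, fderiv ℝ (omF a b) ζ x y =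
      2 * a ζ * fderiv ℝ a ζ x * y - 2 * cj (b ζ) * cj (fderiv ℝ b ζ x) * cj y := by
    intro x y
    have h1 : HasFDerivAt (fun w => omF a b w y)
        ((ContinuousLinearMap.apply ℝ ℂ y).comp (fderiv ℝ (omF a b) ζ)) ζ :=
      (ContinuousLinearMap.apply ℝ ℂ y).hasFDerivAt.comp ζ hF.hasFDerivAt
    have h2 : HasFDerivAt (fun w => a w * a w * y - cj (b w) * cj (b w) * cj y) _ ζ :=
      ((ha.hasFDerivAt.mul ha.hasFDerivAt).mul_const y).sub ((hbc.mul hbc).mul_const (cj y))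
    have h3 : (fun w => omF a b w y) = fun w => a w * a w * y - cj (b w) * cj (b w) * cj y := by
      funext w
      rw [omF_apply]
      ring
    rw [h3] at h1
    have h4 := congrArg (fun L : ℂ →L[ℝ] ℂ => L x) (h1.unique h2)
    simp only [ContinuousLinearMap.comp_apply, ContinuousLinearMap.apply_apply] at h4
    rw [h4]
    simp
    ring
  intro x y
  rw [key, key, omF_closed_aux a ζ x, omF_closed_aux a ζ y, omF_closed_aux b ζ x,
    omF_closed_aux b ζ y, hda ζ hζ, hdb ζ hζ]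
  simp only [map_add, map_mul, map_neg, Complex.conj_conj, Complex.conj_ofReal, cj]
  ring


end S_omF_closed

section S_omZ_closed
theorem aux_fderiv_apply (g : ℂ → ℂ) (z x : ℂ) :
    fderiv ℝ g z x = dz g z * x + dzb g z * cj x := by
  have h1 : fderiv ℝ g z x = (x.re : ℂ) * fderiv ℝ g z 1 + (x.im : ℂ) * fderiv ℝ g z Complex.I := by
    have h2 : x = x.re • (1 : ℂ) + x.im • Complex.I := by
      apply Complex.ext <;> simp
    conv_lhs => rw [h2]
    rw [map_add, map_smul, map_smul, Complex.real_smul, Complex.real_smul]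
  have h3 : cj x = (x.re : ℂ) - (x.im : ℂ) * Complex.I := by
    apply Complex.ext <;> simp
  have h4 : x = (x.re : ℂ) + (x.im : ℂ) * Complex.I := (Complex.re_add_im x).symm
  obtain ⟨p, hp⟩ : ∃ p : ℂ, p = fderiv ℝ g z 1 := ⟨_, rfl⟩
  obtain ⟨q, hq⟩ : ∃ q : ℂ, q = fderiv ℝ g z Complex.I := ⟨_, rfl⟩
  rw [h1, h3]
  unfold dz dzb
  rw [← hp, ← hq]
  obtain ⟨r, hr⟩ : ∃ r : ℂ, r = (x.re : ℂ) := ⟨_, rfl⟩
  obtain ⟨s, hs⟩ : ∃ s : ℂ, s = (x.im : ℂ) := ⟨_, rfl⟩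
  rw [← hr, ← hs] at h4 ⊢
  rw [h4]
  linear_combination (s * q) * Complex.I_sq

theorem aux_dzb_mul (a b : ℂ → ℂ) (z : ℂ) (ha : DifferentiableAt ℝ a z)
    (hb : DifferentiableAt ℝ b z) :
    dzb (fun w => a w * b w) z = dzb a z * b z + a z * dzb b z := by
  have h1 := fderiv_fun_mul ha hb
  unfold dzb
  rw [h1]
  simp only [ContinuousLinearMap.add_apply, ContinuousLinearMap.smul_apply, smul_eq_mul]
  ring

theorem omZ_closed {H : ℝ} {a b : ℂ → ℂ} {V : Set ℂ} (hV : IsOpen V) (hd : Dirac H a b V) :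
    ∀ ζ ∈ V, ∀ x y, fderiv ℝ (omZ a b) ζ x y = fderiv ℝ (omZ a b) ζ y x := by
  intro ζ hζ x y
  have ha : DifferentiableAt ℝ a ζ :=
    (hd.1.contDiffAt (hV.mem_nhds hζ)).differentiableAt (by simp)
  have hb : DifferentiableAt ℝ b ζ :=
    (hd.2.1.contDiffAt (hV.mem_nhds hζ)).differentiableAt (by simp)
  obtain ⟨L, hL⟩ : ∃ L : ℂ →L[ℝ] (ℂ →L[ℝ] ℝ), ∀ c v, L c v = 2 * (c * v).re := by
    refine ⟨(2 : ℝ) • ((ContinuousLinearMap.compL ℝ ℂ ℂ ℝ Complex.reCLM).comp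
      (ContinuousLinearMap.mul ℝ ℂ)), ?_⟩
    intro c v
    simp
  have h1 : omZ a b = fun w => L (a w * b w) := by
    funext w
    ext v
    rw [hL, omZ_apply]
  have hg : DifferentiableAt ℝ (fun w => a w * b w) ζ := ha.fun_mul hb
  have h2 : HasFDerivAt (omZ a b) (L.comp (fderiv ℝ (fun w => a w * b w) ζ)) ζ := by
    rw [h1]
    exact L.hasFDerivAt.comp ζ hg.hasFDerivAt
  rw [h2.fderiv, ContinuousLinearMap.comp_apply, ContinuousLinearMap.comp_apply, hL, hL,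
    aux_fderiv_apply, aux_fderiv_apply, aux_dzb_mul a b ζ ha hb, hd.2.2.1 ζ hζ, hd.2.2.2 ζ hζ]
  obtain ⟨P, hP⟩ : ∃ P : ℂ, P = dz (fun w => a w * b w) ζ := ⟨_, rfl⟩
  rw [← hP]
  obtain ⟨r, hr⟩ : ∃ r : ℝ, r = H / 2 * (‖a ζ‖ ^ 2 + ‖b ζ‖ ^ 2) := ⟨_, rfl⟩
  rw [← hr]
  have h3 : ((r : ℂ) * cj (b ζ) * b ζ + a ζ * -((r : ℂ) * cj (a ζ)))
      = ((r * (‖b ζ‖ ^ 2 - ‖a ζ‖ ^ 2) : ℝ) : ℂ) := by
    have e1 : cj (b ζ) * b ζ = ((‖b ζ‖ ^ 2 : ℝ) : ℂ) := by
      rw [mul_comm, Complex.mul_conj, Complex.normSq_eq_norm_sq]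
    have e2 : a ζ * cj (a ζ) = ((‖a ζ‖ ^ 2 : ℝ) : ℂ) := by
      rw [Complex.mul_conj, Complex.normSq_eq_norm_sq]
    rw [Complex.ofReal_mul, Complex.ofReal_sub, ← e1, ← e2]
    ring
  rw [h3]
  obtain ⟨q, hq⟩ : ∃ q : ℝ, q = r * (‖b ζ‖ ^ 2 - ‖a ζ‖ ^ 2) := ⟨_, rfl⟩
  rw [← hq]
  have h4 : (cj x * y).re = (cj y * x).re := by
    simp only [Complex.mul_re, Complex.conj_re, Complex.conj_im]
    ring
  have h5 : ∀ s t : ℂ, ((P * s + (q : ℂ) * cj s) * t).re = (P * (s * t)).re + q * (cj s * t).re := by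
    intro s t
    have : (P * s + (q : ℂ) * cj s) * t = P * (s * t) + (q : ℂ) * (cj s * t) := by ring
    rw [this, Complex.add_re, Complex.re_ofReal_mul]
  rw [h5, h5, h4, mul_comm x y]


end S_omZ_closed

section S_omF_per
theorem omF_per_mul (x y : ℂ) : cj (x * y) = cj x * cj y := map_mul _ x y

theorem omF_per_cneg (x : ℂ) : cj (-x) = - cj x := map_neg _ x

theorem omF_per_inv (x : ℂ) : cj (x⁻¹) = (cj x)⁻¹ := map_inv₀ _ x

theorem omF_per_cc (x : ℂ) : cj (cj x) = x := Complex.conj_conj x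

theorem omF_per_re (x : ℝ) : cj (x : ℂ) = x := Complex.conj_ofReal x

theorem omF_per_I : cj Complex.I = -Complex.I := Complex.conj_I

theorem omF_per_val {C t h : ℝ} {a b : ℂ → ℂ} (hF : Fields C t h a b) (θ : ℝ) :
    omF a b (1 + t * Complex.exp (θ * Complex.I)) (t * Complex.exp (θ * Complex.I) * Complex.I) =
      2 * Complex.I * t * (a (1 + t * Complex.exp (θ * Complex.I)) ^ 2 *
        Complex.exp (θ * Complex.I)) := by
  have ht := hF.ht
  have htc : (t : ℂ) ≠ 0 := by exact_mod_cast ht.ne'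
  set e := Complex.exp (θ * Complex.I) with he
  have he0 : e ≠ 0 := Complex.exp_ne_zero _
  have hen : ‖e‖ = 1 := Complex.norm_exp_ofReal_mul_I θ
  have hcj : cj e = e⁻¹ := by
    rw [Complex.inv_def, Complex.normSq_eq_norm_sq, hen]
    simp
  have hd : (1 + (t : ℂ) * e) - 1 = t * e := by ring
  have hn : ‖(1 + (t : ℂ) * e) - 1‖ = t := by
    rw [hd, norm_mul, hen, mul_one, Complex.norm_real, Real.norm_eq_abs, abs_of_pos ht]
  have hcd : cj ((1 + (t : ℂ) * e) - 1) = t * e⁻¹ := by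
    rw [hd, omF_per_mul, hcj, omF_per_re]
  have hr := hF.refl (1 + t * e) (by rw [hn]; linarith) (by rw [hn]; linarith)
  rw [hcd, hd] at hr
  have h1 : (1 : ℂ) + t ^ 2 / (t * e⁻¹) = 1 + t * e := by
    field_simp
  have h2 : (t : ℂ) / (t * e) = e⁻¹ := by
    field_simp
  rw [h1, h2] at hr
  have h3 : cj (b (1 + t * e)) = a (1 + t * e) * e := by
    rw [hr, omF_per_mul, omF_per_cc, omF_per_inv, hcj, inv_inv]
  rw [omF_apply, h3]
  have h4 : cj (t * e * Complex.I) = - (t * e⁻¹ * Complex.I) := by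
    rw [omF_per_mul, omF_per_mul, hcj, omF_per_re, omF_per_I]
    ring
  rw [h4]
  field_simp
  ring

theorem omF_per_neg {C t h : ℝ} {a b : ℂ → ℂ} (hF : Fields C t h a b) (ht1 : t < 1 / 100) (θ : ℝ) :
    omF a b (-1 + t * Complex.exp (θ * Complex.I)) (t * Complex.exp (θ * Complex.I) * Complex.I) =
      - omF a b (1 + t * Complex.exp ((θ + Real.pi : ℝ) * Complex.I))
        (t * Complex.exp ((θ + Real.pi : ℝ) * Complex.I) * Complex.I) := by
  have ht := hF.ht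
  have hexp : Complex.exp ((θ + Real.pi : ℝ) * Complex.I) = - Complex.exp (θ * Complex.I) := by
    rw [Complex.ofReal_add, add_mul, Complex.exp_add, Complex.exp_pi_mul_I]
    ring
  rw [hexp]
  set e := Complex.exp (θ * Complex.I) with he
  have hen : ‖e‖ = 1 := Complex.norm_exp_ofReal_mul_I θ
  have hte : ‖(t : ℂ) * e‖ = t := by
    rw [norm_mul, hen, mul_one, Complex.norm_real, Real.norm_eq_abs, abs_of_pos ht]
  have hU : 1 + (t : ℂ) * -e ∈ Ut t := by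
    refine ⟨?_, ?_, ?_⟩
    · have h1 := norm_sub_le (1 : ℂ) ((t : ℂ) * e)
      rw [hte, norm_one] at h1
      have h2 : 1 + (t : ℂ) * -e = 1 - t * e := by ring
      rw [h2]
      linarith
    · have h2 : 1 + (t : ℂ) * -e - 1 = - (t * e) := by ring
      rw [h2, norm_neg, hte]
      linarith
    · have h2 : 1 + (t : ℂ) * -e + 1 = 2 - t * e := by ring
      have h1 := norm_sub_norm_le (2 : ℂ) ((t : ℂ) * e)
      have h3 : ‖(2 : ℂ)‖ = 2 := by norm_num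
      rw [hte, h3] at h1
      rw [h2]
      linarith
  have hneg : -1 + (t : ℂ) * e = -(1 + (t : ℂ) * -e) := by ring
  rw [omF_apply, omF_apply, hneg, hF.ea _ hU, hF.ob _ hU]
  have h5 : (t : ℂ) * -e * Complex.I = -(t * e * Complex.I) := by ring
  rw [h5, omF_per_cneg, omF_per_cneg]
  ring

theorem omF_per {C t h : ℝ} {a b : ℂ → ℂ} (hF : Fields C t h a b) (ht1 : t < 1 / 100) :
    ∫ θ in (0 : ℝ)..(2 * Real.pi), omF a b (1 + t * Complex.exp (θ * Complex.I))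
      (t * Complex.exp (θ * Complex.I) * Complex.I) = 0 ∧
    ∫ θ in (0 : ℝ)..(2 * Real.pi), omF a b (-1 + t * Complex.exp (θ * Complex.I))
      (t * Complex.exp (θ * Complex.I) * Complex.I) = 0 := by
  have h1 : ∫ θ in (0 : ℝ)..(2 * Real.pi), omF a b (1 + t * Complex.exp (θ * Complex.I))
      (t * Complex.exp (θ * Complex.I) * Complex.I) = 0 := by
    simp_rw [omF_per_val hF]
    rw [intervalIntegral.integral_const_mul, hF.period, mul_zero]
  refine ⟨h1, ?_⟩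
  simp_rw [omF_per_neg hF ht1]
  rw [intervalIntegral.integral_neg, neg_eq_zero]
  have h2 := intervalIntegral.integral_comp_add_right (a := (0 : ℝ)) (b := 2 * Real.pi)
    (fun θ : ℝ => omF a b (1 + t * Complex.exp (θ * Complex.I))
      (t * Complex.exp (θ * Complex.I) * Complex.I)) Real.pi
  have hper : Function.Periodic (fun θ : ℝ => omF a b (1 + t * Complex.exp (θ * Complex.I))
      (t * Complex.exp (θ * Complex.I) * Complex.I)) (2 * Real.pi) := by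
    intro θ
    have : Complex.exp ((θ + 2 * Real.pi : ℝ) * Complex.I) = Complex.exp (θ * Complex.I) := by
      rw [Complex.ofReal_add, add_mul, Complex.exp_add]
      push_cast
      rw [Complex.exp_two_pi_mul_I, mul_one]
    simp only
    rw [this]
  have h3 := hper.intervalIntegral_add_eq Real.pi 0
  rw [zero_add] at h2 h3
  rw [add_comm (2 * Real.pi) Real.pi] at h2
  rw [h2, h3, h1]


end S_omF_per

section S_omZ_per
theorem omZ_key {C t h : ℝ} {a b : ℂ → ℂ} (hF : Fields C t h a b) (w : ℂ) (hw : ‖w‖ = t) :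
    (a (1 + w) * b (1 + w) * (w * Complex.I)).re = 0 := by
  have ht := hF.ht
  have hw0 : w ≠ 0 := by
    intro h0
    rw [h0, norm_zero] at hw
    linarith
  have h1 : (1 + w) - 1 = w := by ring
  have h2 := hF.refl (1 + w) (by rw [h1, hw]; linarith) (by rw [h1, hw]; linarith)
  rw [h1] at h2
  have hcw : cj w ≠ 0 := (map_ne_zero _).2 hw0
  have h3 : (t : ℂ) ^ 2 / cj w = w := by
    rw [div_eq_iff hcw]
    have := Complex.mul_conj w
    rw [this, Complex.normSq_eq_norm_sq, hw]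
    push_cast
    rfl
  rw [h3] at h2
  have h4 : a (1 + w) * b (1 + w) * (w * Complex.I) =
      ((‖a (1 + w)‖ ^ 2 * t : ℝ) : ℂ) * Complex.I := by
    rw [h2]
    have h5 : a (1 + w) * cj (a (1 + w)) = ((‖a (1 + w)‖ ^ 2 : ℝ) : ℂ) := by
      have := Complex.mul_conj (a (1 + w))
      rw [this, Complex.normSq_eq_norm_sq]
    calc a (1 + w) * (cj (a (1 + w)) * (t / w)) * (w * Complex.I)
        = (a (1 + w) * cj (a (1 + w))) * t * Complex.I := by field_simp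
      _ = _ := by rw [h5]; push_cast; ring
  rw [h4, Complex.re_ofReal_mul, Complex.I_re, mul_zero]

theorem omZ_nexp {t : ℝ} (ht : 0 < t) (θ : ℝ) : ‖(t : ℂ) * Complex.exp (θ * Complex.I)‖ = t := by
  rw [norm_mul, Complex.norm_exp_ofReal_mul_I, mul_one, Complex.norm_real, Real.norm_eq_abs,
    abs_of_pos ht]

theorem omZ_per {C t h : ℝ} {a b : ℂ → ℂ} (hF : Fields C t h a b) (ht1 : t < 1 / 100) :
    ∫ θ in (0 : ℝ)..(2 * Real.pi), omZ a b (1 + t * Complex.exp (θ * Complex.I))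
      (t * Complex.exp (θ * Complex.I) * Complex.I) = 0 ∧
    ∫ θ in (0 : ℝ)..(2 * Real.pi), omZ a b (-1 + t * Complex.exp (θ * Complex.I))
      (t * Complex.exp (θ * Complex.I) * Complex.I) = 0 := by
  have ht := hF.ht
  constructor
  · rw [intervalIntegral.integral_congr (g := fun _ => (0 : ℝ)), intervalIntegral.integral_zero]
    intro θ _
    change omZ a b (1 + t * Complex.exp (θ * Complex.I))
      (t * Complex.exp (θ * Complex.I) * Complex.I) = 0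
    rw [omZ_apply, omZ_key hF _ (omZ_nexp ht θ), mul_zero]
  · rw [intervalIntegral.integral_congr (g := fun _ => (0 : ℝ)), intervalIntegral.integral_zero]
    intro θ _
    change omZ a b (-1 + t * Complex.exp (θ * Complex.I))
      (t * Complex.exp (θ * Complex.I) * Complex.I) = 0
    rw [omZ_apply]
    set w : ℂ := (t : ℂ) * Complex.exp (θ * Complex.I) with hw
    have hwn : ‖w‖ = t := omZ_nexp ht θ
    have hx : (1 + -w) ∈ Ut t := by
      refine ⟨?_, ?_, ?_⟩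
      · have h1 := norm_add_le (1 : ℂ) (-w)
        rw [norm_neg, hwn, norm_one] at h1
        linarith
      · have : (1 + -w) - 1 = -w := by ring
        rw [this, norm_neg, hwn]
        linarith
      · have h2 : ‖(2 : ℂ)‖ ≤ ‖(1 + -w) + 1‖ + ‖w‖ := by
          have : (2 : ℂ) = ((1 + -w) + 1) + w := by ring
          calc ‖(2 : ℂ)‖ = ‖((1 + -w) + 1) + w‖ := by rw [← this]
            _ ≤ _ := norm_add_le _ _
        rw [hwn, Complex.norm_ofNat] at h2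
        linarith
    have e1 : (-1 + w) = -(1 + -w) := by ring
    have ha := hF.ea _ hx
    have hb := hF.ob _ hx
    rw [e1, ha, hb]
    have h3 := omZ_key hF (-w) (by rw [norm_neg, hwn])
    have h4 : a (1 + -w) * -b (1 + -w) * (w * Complex.I) =
      a (1 + -w) * b (1 + -w) * (-w * Complex.I) := by ring
    rw [h4, h3, mul_zero]


end S_omZ_per

section S_refl_f
theorem refl_f_aux_open (t : ℝ) : IsOpen {ζ : ℂ | t / 2 < ‖ζ - 1‖ ∧ ‖ζ - 1‖ < 2 * t} := by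
  have h2 : Continuous fun ζ : ℂ => ‖ζ - 1‖ := by fun_prop
  exact (isOpen_lt continuous_const h2).inter (isOpen_lt h2 continuous_const)

theorem refl_f_aux_conn {t : ℝ} (ht : 0 < t) :
    IsPreconnected {ζ : ℂ | t / 2 < ‖ζ - 1‖ ∧ ‖ζ - 1‖ < 2 * t} := by
  have himg : {ζ : ℂ | t / 2 < ‖ζ - 1‖ ∧ ‖ζ - 1‖ < 2 * t} =
      (fun w : ℂ => 1 + Complex.exp w) '' {w : ℂ | Real.log (t / 2) < w.re ∧ w.re < Real.log (2 * t)} := by
    ext ζ
    constructor
    · rintro ⟨h1, h2⟩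
      have hpos : 0 < ‖ζ - 1‖ := by linarith
      have hne : ζ - 1 ≠ 0 := norm_pos_iff.1 hpos
      refine ⟨Complex.log (ζ - 1), ⟨?_, ?_⟩, ?_⟩
      · rw [Complex.log_re]
        exact Real.log_lt_log (by positivity) h1
      · rw [Complex.log_re]
        exact Real.log_lt_log hpos h2
      · simp only
        rw [Complex.exp_log hne]; ring
    · rintro ⟨w, ⟨h1, h2⟩, rfl⟩
      simp only [Set.mem_setOf_eq, add_sub_cancel_left, Complex.norm_exp]
      exact ⟨(Real.log_lt_iff_lt_exp (by positivity)).1 h1,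
        (Real.lt_log_iff_exp_lt (by positivity)).1 h2⟩
  rw [himg]
  apply IsPreconnected.image
  · have hconv : Convex ℝ {w : ℂ | Real.log (t / 2) < w.re ∧ w.re < Real.log (2 * t)} := by
      have e : {w : ℂ | Real.log (t / 2) < w.re ∧ w.re < Real.log (2 * t)} =
          Complex.reCLM ⁻¹' (Set.Ioo (Real.log (t / 2)) (Real.log (2 * t))) := by
        ext w; simp
      rw [e]
      exact (convex_Ioo _ _).linear_preimage Complex.reCLM.toLinearMap
    exact hconv.isPreconnected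
  · exact (continuous_const.add Complex.continuous_exp).continuousOn

theorem refl_f_aux_norm {t : ℝ} (ht : 0 < t) {z : ℂ} (h1 : t / 2 < ‖z - 1‖) (h2 : ‖z - 1‖ < 2 * t) :
    t / 2 < ‖(1 + t ^ 2 / cj (z - 1)) - 1‖ ∧ ‖(1 + t ^ 2 / cj (z - 1)) - 1‖ < 2 * t := by
  have hpos : 0 < ‖z - 1‖ := by linarith
  have e : ‖(1 + (t : ℂ) ^ 2 / cj (z - 1)) - 1‖ = t ^ 2 / ‖z - 1‖ := by
    rw [add_sub_cancel_left, norm_div, norm_pow, Complex.norm_real, Real.norm_of_nonneg ht.le]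
    simp only [cj, RCLike.norm_conj]
  rw [e]
  constructor
  · rw [lt_div_iff₀ hpos]; nlinarith
  · rw [div_lt_iff₀ hpos]; nlinarith

/-- reflection: on the annulus around `1` -/
theorem refl_f {C t h : ℝ} {a b : ℂ → ℂ} (hF : Fields C t h a b) (ht1 : t < 1 / 100)
    {f : ℂ → ℂ} (hf : ∀ ζ ∈ Ut t, HasFDerivAt f (omF a b ζ) ζ) :
    ∀ ζ : ℂ, t / 2 < ‖ζ - 1‖ → ‖ζ - 1‖ < 2 * t → f (1 + t ^ 2 / cj (ζ - 1)) = f ζ := by
  have ht := hF.ht
  set A : Set ℂ := {ζ : ℂ | t / 2 < ‖ζ - 1‖ ∧ ‖ζ - 1‖ < 2 * t} with hA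
  have hAU : A ⊆ Ut t := by
    rintro ζ ⟨h1, h2⟩
    refine ⟨?_, h1, ?_⟩
    · have : ‖ζ‖ ≤ ‖ζ - 1‖ + 1 := by
        have := norm_add_le (ζ - 1) 1
        simpa using this
      linarith
    · have : (2 : ℝ) ≤ ‖ζ + 1‖ + ‖ζ - 1‖ := by
        have h3 := norm_sub_le (ζ + 1) (ζ - 1)
        have e : (ζ + 1) - (ζ - 1) = 2 := by ring
        rw [e] at h3
        simpa using h3
      linarith
  have hder : ∀ z ∈ A, HasFDerivAt (fun z => f (1 + (t : ℂ) ^ 2 / cj (z - 1)) - f z)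
      (0 : ℂ →L[ℝ] ℂ) z := by
    rintro z ⟨h1, h2⟩
    have hpos : 0 < ‖z - 1‖ := by linarith
    have hne : z - 1 ≠ 0 := norm_pos_iff.1 hpos
    have hqne : cj (z - 1) ≠ 0 := by
      intro h0; exact hne ((map_eq_zero _).1 h0)
    obtain ⟨n1, n2⟩ := refl_f_aux_norm ht h1 h2
    have hsA : (1 + (t : ℂ) ^ 2 / cj (z - 1)) ∈ A := ⟨n1, n2⟩
    have hc : HasFDerivAt (fun z : ℂ => cj (z - 1)) (Complex.conjCLE : ℂ →L[ℝ] ℂ) z := by
      have h3 : HasFDerivAt (fun z : ℂ => z - 1) (ContinuousLinearMap.id ℝ ℂ) z :=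
        (hasFDerivAt_id z).sub_const 1
      have h4 := (Complex.conjCLE : ℂ →L[ℝ] ℂ).hasFDerivAt (x := z - 1)
      have h5 := h4.comp z h3
      have h5' : HasFDerivAt (fun z : ℂ => cj (z - 1))
        ((Complex.conjCLE : ℂ →L[ℝ] ℂ).comp (ContinuousLinearMap.id ℝ ℂ)) z := h5
      rw [ContinuousLinearMap.comp_id] at h5'
      exact h5'
    have hi : HasFDerivAt (fun z : ℂ => (cj (z - 1))⁻¹)
        ((-(cj (z - 1) ^ 2)⁻¹) • (Complex.conjCLE : ℂ →L[ℝ] ℂ)) z := by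
      have h6 := ((hasDerivAt_inv hqne).hasFDerivAt.restrictScalars ℝ).comp z hc
      refine HasFDerivAt.congr_fderiv h6 ?_
      apply ContinuousLinearMap.ext
      intro v
      simp [mul_comm]
    have hs : HasFDerivAt (fun z : ℂ => 1 + (t : ℂ) ^ 2 / cj (z - 1))
        ((-((t : ℂ) ^ 2 * (cj (z - 1) ^ 2)⁻¹)) • (Complex.conjCLE : ℂ →L[ℝ] ℂ)) z := by
      have h7 := (hi.const_mul ((t : ℂ) ^ 2)).const_add 1
      have e1 : (fun z : ℂ => 1 + (t : ℂ) ^ 2 / cj (z - 1)) =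
          (fun z : ℂ => 1 + (t : ℂ) ^ 2 * (cj (z - 1))⁻¹) := by
        funext z; rw [div_eq_mul_inv]
      rw [e1]
      refine HasFDerivAt.congr_fderiv h7 ?_
      apply ContinuousLinearMap.ext
      intro v
      simp [mul_assoc]
    have hcomp := (hf _ (hAU hsA)).comp z hs
    have hsub := hcomp.sub (hf z (hAU ⟨h1, h2⟩))
    have hzero : (omF a b (1 + (t : ℂ) ^ 2 / cj (z - 1))).comp
        ((-((t : ℂ) ^ 2 * (cj (z - 1) ^ 2)⁻¹)) • (Complex.conjCLE : ℂ →L[ℝ] ℂ)) - omF a b z = 0 := by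
      have tne : (t : ℂ) ≠ 0 := by exact_mod_cast ht.ne'
      have r1 := hF.refl z h1 h2
      have r2 := hF.refl (1 + (t : ℂ) ^ 2 / cj (z - 1)) n1 n2
      have e2 : 1 + (t : ℂ) ^ 2 / cj ((1 + (t : ℂ) ^ 2 / cj (z - 1)) - 1) = z := by
        rw [add_sub_cancel_left]
        have : cj ((t : ℂ) ^ 2 / cj (z - 1)) = (t : ℂ) ^ 2 / (z - 1) := by
          simp [cj]
        rw [this]
        field_simp
        ring
      rw [e2, add_sub_cancel_left] at r2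
      apply ContinuousLinearMap.ext
      intro v
      have hbz : cj (b z) = a (1 + (t : ℂ) ^ 2 / cj (z - 1)) * ((t : ℂ) / cj (z - 1)) := by
        rw [r1]; simp [cj]
      have hbs : cj (b (1 + (t : ℂ) ^ 2 / cj (z - 1))) = a z * ((t : ℂ) / ((t : ℂ) ^ 2 / (z - 1))) := by
        rw [r2]; simp [cj]
      have hcv : (Complex.conjCLE : ℂ →L[ℝ] ℂ) v = cj v := rfl
      have e5 : ((-((t : ℂ) ^ 2 * (cj (z - 1) ^ 2)⁻¹)) • (Complex.conjCLE : ℂ →L[ℝ] ℂ)) v =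
          -((t : ℂ) ^ 2 * (cj (z - 1) ^ 2)⁻¹) * cj v := by
        rw [ContinuousLinearMap.smul_apply, hcv, smul_eq_mul]
      have e6 : cj (-((t : ℂ) ^ 2 * (cj (z - 1) ^ 2)⁻¹) * cj v) =
          -((t : ℂ) ^ 2 * ((z - 1) ^ 2)⁻¹) * v := by
        simp [cj]
      rw [sub_apply, ContinuousLinearMap.comp_apply, e5, omF_apply, omF_apply, e6, hbz, hbs,
        zero_apply]
      generalize cj (z - 1) = q at *
      generalize cj v = w at *
      generalize z - 1 = p at *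
      field_simp
      ring
    rw [hzero] at hsub
    exact hsub
  intro ζ h1 h2
  have hmem : ζ ∈ A := ⟨h1, h2⟩
  have h0mem : (1 + (t : ℂ)) ∈ A := by
    have : ‖(1 + (t : ℂ)) - 1‖ = t := by
      rw [add_sub_cancel_left, Complex.norm_real, Real.norm_of_nonneg ht.le]
    refine ⟨?_, ?_⟩ <;> rw [this] <;> linarith
  have hconst := (refl_f_aux_open t).is_const_of_fderiv_eq_zero (𝕜 := ℝ) (refl_f_aux_conn ht)
    (f := fun z => f (1 + (t : ℂ) ^ 2 / cj (z - 1)) - f z)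
    (fun z hz => (hder z hz).differentiableAt.differentiableWithinAt)
    (fun z hz => (hder z hz).fderiv) hmem h0mem
  have e3 : (1 + (t : ℂ) ^ 2 / cj ((1 + (t : ℂ)) - 1)) = 1 + (t : ℂ) := by
    have tne : (t : ℂ) ≠ 0 := by exact_mod_cast ht.ne'
    rw [add_sub_cancel_left]
    simp only [cj, Complex.conj_ofReal]
    field_simp
  rw [e3, sub_self] at hconst
  exact sub_eq_zero.1 hconst


end S_refl_f

section S_refl_z
/-- the annulus around the hole -/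
def refl_z_A (t : ℝ) : Set ℂ := {ζ | t / 2 < ‖ζ - 1‖ ∧ ‖ζ - 1‖ < 2 * t}

theorem refl_z_A_open (t : ℝ) : IsOpen (refl_z_A t) := by
  have h2 : Continuous fun ζ : ℂ => ‖ζ - 1‖ := by fun_prop
  exact (isOpen_lt continuous_const h2).inter (isOpen_lt h2 continuous_const)

theorem refl_z_A_sub (t : ℝ) (ht : 0 < t) (ht1 : t < 1 / 100) : refl_z_A t ⊆ Ut t := by
  rintro ζ ⟨h1, h2⟩
  refine ⟨?_, h1, ?_⟩
  · have h3 : ‖ζ‖ ≤ ‖ζ - 1‖ + ‖(1 : ℂ)‖ := by
      have := norm_add_le (ζ - 1) 1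
      rwa [sub_add_cancel] at this
    rw [norm_one] at h3
    linarith
  · have h3 : ‖(2 : ℂ)‖ ≤ ‖ζ + 1‖ + ‖ζ - 1‖ := by
      have := norm_sub_le (ζ + 1) (ζ - 1)
      have e : ζ + 1 - (ζ - 1) = 2 := by ring
      rwa [e] at this
    have h4 : ‖(2 : ℂ)‖ = 2 := by norm_num
    linarith

theorem refl_z_A_preconn (t : ℝ) (ht : 0 < t) : IsPreconnected (refl_z_A t) := by
  have himg : refl_z_A t = (fun p : ℝ × ℝ => 1 + (p.1 : ℂ) * Complex.exp ((p.2 : ℂ) * Complex.I)) ''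
      (Ioo (t / 2) (2 * t) ×ˢ (univ : Set ℝ)) := by
    ext ζ
    constructor
    · rintro ⟨h1, h2⟩
      refine ⟨(‖ζ - 1‖, Complex.arg (ζ - 1)), ⟨⟨h1, h2⟩, mem_univ _⟩, ?_⟩
      show 1 + ((‖ζ - 1‖ : ℝ) : ℂ) * Complex.exp ((Complex.arg (ζ - 1) : ℂ) * Complex.I) = ζ
      rw [Complex.norm_mul_exp_arg_mul_I]
      ring
    · rintro ⟨⟨r, θ⟩, ⟨⟨h1, h2⟩, _⟩, rfl⟩
      have hr : 0 < r := by linarith
      have hn : ‖1 + (r : ℂ) * Complex.exp ((θ : ℂ) * Complex.I) - 1‖ = r := by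
        rw [add_sub_cancel_left, norm_mul, Complex.norm_exp_ofReal_mul_I, mul_one,
          Complex.norm_real, Real.norm_eq_abs, abs_of_pos hr]
      show t / 2 < ‖1 + (r : ℂ) * Complex.exp ((θ : ℂ) * Complex.I) - 1‖ ∧
        ‖1 + (r : ℂ) * Complex.exp ((θ : ℂ) * Complex.I) - 1‖ < 2 * t
      rw [hn]
      exact ⟨h1, h2⟩
  rw [himg]
  apply IsPreconnected.image
  · exact ((convex_Ioo _ _).prod convex_univ).isPreconnected
  · exact (by fun_prop : Continuous fun p : ℝ × ℝ =>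
      1 + (p.1 : ℂ) * Complex.exp ((p.2 : ℂ) * Complex.I)).continuousOn

theorem refl_z {C t h : ℝ} {a b : ℂ → ℂ} (hF : Fields C t h a b) (ht1 : t < 1 / 100)
    {z : ℂ → ℝ} (hz : ∀ ζ ∈ Ut t, HasFDerivAt z (omZ a b ζ) ζ) (hz1 : z (1 + t) = 0) :
    ∀ ζ : ℂ, t / 2 < ‖ζ - 1‖ → ‖ζ - 1‖ < 2 * t → z (1 + t ^ 2 / cj (ζ - 1)) = - z ζ := by
  have ht : 0 < t := hF.ht
  have htc : (t : ℂ) ≠ 0 := by exact_mod_cast ht.ne'
  have hne : ∀ x ∈ refl_z_A t, x - 1 ≠ 0 := by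
    intro x hx h0
    have h1 := hx.1
    rw [h0, norm_zero] at h1
    linarith
  have hcne : ∀ x ∈ refl_z_A t, cj (x - 1) ≠ 0 := by
    intro x hx h0
    exact hne x hx ((map_eq_zero (starRingEnd ℂ)).1 h0)
  -- the reflection
  have hs1 : ∀ x : ℂ, (1 + (t : ℂ) ^ 2 / cj (x - 1)) - 1 = (t : ℂ) ^ 2 / cj (x - 1) := by
    intro x
    ring
  have hsA : ∀ x ∈ refl_z_A t, (1 + (t : ℂ) ^ 2 / cj (x - 1)) ∈ refl_z_A t := by
    intro x hx
    have hpos : 0 < ‖x - 1‖ := norm_pos_iff.2 (hne x hx)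
    have hn : ‖(1 + (t : ℂ) ^ 2 / cj (x - 1)) - 1‖ = t ^ 2 / ‖x - 1‖ := by
      rw [hs1, norm_div, norm_pow, Complex.norm_real, Real.norm_eq_abs, abs_of_pos ht,
        RCLike.norm_conj]
    show t / 2 < ‖(1 + (t : ℂ) ^ 2 / cj (x - 1)) - 1‖ ∧
      ‖(1 + (t : ℂ) ^ 2 / cj (x - 1)) - 1‖ < 2 * t
    rw [hn, lt_div_iff₀ hpos, div_lt_iff₀ hpos]
    have h1 : t / 2 < ‖x - 1‖ := hx.1
    have h2 : ‖x - 1‖ < 2 * t := hx.2
    constructor
    · nlinarith
    · nlinarith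
  have hss : ∀ x ∈ refl_z_A t,
      1 + (t : ℂ) ^ 2 / cj ((1 + (t : ℂ) ^ 2 / cj (x - 1)) - 1) = x := by
    intro x hx
    have h1 := hne x hx
    have e : cj ((t : ℂ) ^ 2 / cj (x - 1)) = (t : ℂ) ^ 2 / (x - 1) := by
      simp
    rw [hs1, e]
    field_simp
    ring
  have hds : ∀ x ∈ refl_z_A t, HasFDerivAt (fun x : ℂ => 1 + (t : ℂ) ^ 2 / cj (x - 1))
      ((-((t : ℂ) ^ 2) / (cj (x - 1)) ^ 2) • (Complex.conjCLE : ℂ →L[ℝ] ℂ)) x := by
    intro x hx
    have h1 : HasDerivAt (fun w : ℂ => 1 + (t : ℂ) ^ 2 / w) (-((t : ℂ) ^ 2) / (cj (x - 1)) ^ 2)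
        (cj (x - 1)) := by
      have h2 := ((hasDerivAt_inv (hcne x hx)).const_mul ((t : ℂ) ^ 2)).const_add (1 : ℂ)
      simp only [div_eq_mul_inv]
      refine h2.congr_deriv ?_
      ring
    have h3 : HasFDerivAt (fun x : ℂ => cj (x - 1)) (Complex.conjCLE : ℂ →L[ℝ] ℂ) x := by
      have h4 := (Complex.conjCLE : ℂ →L[ℝ] ℂ).hasFDerivAt (x := x - 1)
      have h5 := h4.comp x ((hasFDerivAt_id x).sub_const (1 : ℂ))
      exact h5
    have h6 := (h1.hasFDerivAt.restrictScalars ℝ).comp x h3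
    refine HasFDerivAt.congr_fderiv (f := fun x : ℂ => 1 + (t : ℂ) ^ 2 / cj (x - 1)) h6 ?_
    apply ContinuousLinearMap.ext
    intro v
    simp [mul_comm]
  have hg : ∀ x ∈ refl_z_A t, HasFDerivAt (fun x : ℂ => z (1 + (t : ℂ) ^ 2 / cj (x - 1)) + z x)
      (0 : ℂ →L[ℝ] ℝ) x := by
    intro x hx
    have h1 := (hz _ (refl_z_A_sub t ht ht1 (hsA x hx))).comp x (hds x hx)
    have h2 := h1.add (hz x (refl_z_A_sub t ht ht1 hx))
    have h3 : (omZ a b (1 + (t : ℂ) ^ 2 / cj (x - 1))).comp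
        ((-((t : ℂ) ^ 2) / (cj (x - 1)) ^ 2) • (Complex.conjCLE : ℂ →L[ℝ] ℂ)) + omZ a b x = 0 := by
      apply ContinuousLinearMap.ext
      intro v
      have hx1 := hne x hx
      have hcx := hcne x hx
      have hbs := hF.refl _ (hsA x hx).1 (hsA x hx).2
      rw [hss x hx, hs1] at hbs
      have hbx := hF.refl x hx.1 hx.2
      have has : a (1 + (t : ℂ) ^ 2 / cj (x - 1)) = cj (b x) * (cj (x - 1) / t) := by
        rw [hbx]
        simp only [map_mul, map_div₀, Complex.conj_conj, Complex.conj_ofReal]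
        field_simp
      rw [add_apply, ContinuousLinearMap.comp_apply, omZ_apply, omZ_apply,
        zero_apply]
      have e1 : a (1 + (t : ℂ) ^ 2 / cj (x - 1)) * b (1 + (t : ℂ) ^ 2 / cj (x - 1)) *
          (((-((t : ℂ) ^ 2) / (cj (x - 1)) ^ 2) • (Complex.conjCLE : ℂ →L[ℝ] ℂ)) v) =
          - cj (a x * b x * v) := by
        rw [hbs, has]
        simp only [smul_apply, smul_eq_mul, map_mul,
          ContinuousLinearEquiv.coe_coe, Complex.conjCLE_apply]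
        field_simp
      rw [e1, Complex.neg_re, Complex.conj_re]
      ring
    rw [h3] at h2
    exact h2
  have hconst : ∀ x ∈ refl_z_A t, z (1 + (t : ℂ) ^ 2 / cj (x - 1)) + z x = 0 := by
    intro x hx
    have hmem : (1 + (t : ℂ)) ∈ refl_z_A t := by
      show t / 2 < ‖1 + (t : ℂ) - 1‖ ∧ ‖1 + (t : ℂ) - 1‖ < 2 * t
      rw [add_sub_cancel_left, Complex.norm_real, Real.norm_eq_abs, abs_of_pos ht]
      constructor <;> linarith
    have h1 := (refl_z_A_open t).is_const_of_fderiv_eq_zero (𝕜 := ℝ) (refl_z_A_preconn t ht)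
      (fun y hy => (hg y hy).differentiableAt.differentiableWithinAt)
      (fun y hy => (hg y hy).fderiv) hx hmem
    beta_reduce at h1
    rw [h1]
    have e : 1 + (t : ℂ) ^ 2 / cj (1 + (t : ℂ) - 1) = 1 + t := by
      rw [add_sub_cancel_left]
      have : cj (t : ℂ) = t := Complex.conj_ofReal t
      rw [this, pow_two, mul_div_assoc, div_self htc, mul_one]
    rw [e, hz1, add_zero]
  intro ζ h1 h2
  have := hconst ζ ⟨h1, h2⟩
  linarith


end S_refl_z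

section S_b12
theorem Ut_neg {t : ℝ} {ζ : ℂ} (h : ζ ∈ Ut t) : -ζ ∈ Ut t := by
  obtain ⟨h1, h2, h3⟩ := h
  refine ⟨by rwa [norm_neg], ?_, ?_⟩
  · have : ‖-ζ - 1‖ = ‖ζ + 1‖ := by rw [← norm_neg]; congr 1; ring
    rw [this]; exact h3
  · have : ‖-ζ + 1‖ = ‖ζ - 1‖ := by rw [← norm_neg]; congr 1; ring
    rw [this]; exact h2

theorem omF_neg {C t h : ℝ} {a b : ℂ → ℂ} (hF : Fields C t h a b) {ζ : ℂ} (hζ : ζ ∈ Ut t) :
    omF a b (-ζ) = omF a b ζ := by
  apply ContinuousLinearMap.ext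
  intro v
  rw [omF_apply, omF_apply, hF.ea ζ hζ, hF.ob ζ hζ]
  simp only [map_neg]
  ring

theorem omZ_neg {C t h : ℝ} {a b : ℂ → ℂ} (hF : Fields C t h a b) {ζ : ℂ} (hζ : ζ ∈ Ut t) :
    omZ a b (-ζ) = - omZ a b ζ := by
  apply ContinuousLinearMap.ext
  intro v
  rw [ContinuousLinearMap.neg_apply, omZ_apply, omZ_apply, hF.ea ζ hζ, hF.ob ζ hζ]
  have : a ζ * -b ζ * v = -(a ζ * b ζ * v) := by ring
  rw [this, Complex.neg_re]
  ring

theorem comp_neg_deriv {E : Type*} [NormedAddCommGroup E] [NormedSpace ℝ E]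
    {g : ℂ → E} {L : ℂ →L[ℝ] E} {ζ : ℂ} (hg : HasFDerivAt g L (-ζ)) :
    HasFDerivAt (fun w => g (-w)) (-L) ζ := by
  have h1 : HasFDerivAt (fun w : ℂ => -w) (-(ContinuousLinearMap.id ℝ ℂ)) ζ :=
    (hasFDerivAt_id ζ).neg
  have h2 : HasFDerivAt (fun w => g (-w)) (L.comp (-(ContinuousLinearMap.id ℝ ℂ))) ζ :=
    HasFDerivAt.comp (x := ζ) (g := g) (f := fun w : ℂ => -w) hg h1
  have h3 : L.comp (-(ContinuousLinearMap.id ℝ ℂ)) = -L := by
    apply ContinuousLinearMap.ext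
    intro v
    simp
  rw [h3] at h2
  exact h2

theorem refl_pt {t : ℝ} {ζ : ℂ} (ht : 0 < t) (h : ‖ζ - 1‖ = t) :
    1 + (t : ℂ) ^ 2 / cj (ζ - 1) = ζ := by
  have h0 : ζ - 1 ≠ 0 := by
    intro h0
    rw [h0, norm_zero] at h
    exact absurd h.symm (ne_of_gt ht)
  have hc : cj (ζ - 1) ≠ 0 := by
    rw [cj]
    exact (map_ne_zero (starRingEnd ℂ)).2 h0
  have h1 : (ζ - 1) * cj (ζ - 1) = (t : ℂ) ^ 2 := by
    rw [cj, Complex.mul_conj, Complex.normSq_eq_norm_sq, h]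
    push_cast
    ring
  rw [← h1, mul_div_assoc, div_self hc]
  ring

/-- B1 + B2 -/
theorem b12 {C t h : ℝ} {a b : ℂ → ℂ} (hF : Fields C t h a b) (ht1 : t < 1 / 100) :
    ∃ (f : ℂ → ℂ) (z : ℂ → ℝ), SheetEq t a b f z ∧
      (∀ ζ : ℂ, t / 2 < ‖ζ - 1‖ → ‖ζ - 1‖ < 2 * t →
        f (1 + t ^ 2 / cj (ζ - 1)) = f ζ ∧ z (1 + t ^ 2 / cj (ζ - 1)) = - z ζ) ∧
      (∀ ζ : ℂ, t / 2 < ‖ζ + 1‖ → ‖ζ + 1‖ < 2 * t →
        f (-1 + t ^ 2 / cj (ζ + 1)) = f ζ ∧ z (-1 + t ^ 2 / cj (ζ + 1)) = - z ζ) ∧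
      (∀ ζ, f (-ζ) = - f ζ) ∧ (∀ ζ, z (-ζ) = z ζ) := by
  have ht := hF.ht
  obtain ⟨f1, cf1, hf1⟩ := prim_Ut ht ht1 (omF a b) (omF_smooth hF.dirac)
    (omF_closed (isOpen_Ut t) hF.dirac) (omF_per hF ht1).1 (omF_per hF ht1).2
  obtain ⟨z1, cz1, hz1⟩ := prim_Ut ht ht1 (omZ a b) (omZ_smooth hF.dirac)
    (omZ_closed (isOpen_Ut t) hF.dirac) (omZ_per hF ht1).1 (omZ_per hF ht1).2
  set c : ℝ := (z1 (1 + t) + z1 (-(1 + t))) / 2 with hc
  obtain ⟨f, hf⟩ : ∃ f : ℂ → ℂ, ∀ ζ, f ζ = (1 / 2 : ℝ) • (f1 ζ - f1 (-ζ)) := ⟨_, fun _ => rfl⟩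
  obtain ⟨z, hz⟩ : ∃ z : ℂ → ℝ, ∀ ζ, z ζ = (1 / 2 : ℝ) • (z1 ζ + z1 (-ζ)) - c :=
    ⟨_, fun _ => rfl⟩
  have ff : f = fun ζ => (1 / 2 : ℝ) • (f1 ζ - f1 (-ζ)) := funext hf
  have zz : z = fun ζ => (1 / 2 : ℝ) • (z1 ζ + z1 (-ζ)) - c := funext hz
  have dF : ∀ ζ ∈ Ut t, HasFDerivAt f (omF a b ζ) ζ := by
    intro ζ hζ
    have h1 := hf1 ζ hζ
    have h2 := comp_neg_deriv (hf1 (-ζ) (Ut_neg hζ))
    rw [omF_neg hF hζ] at h2
    have h3 := (h1.sub h2).const_smul (1 / 2 : ℝ)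
    have h4 : (1 / 2 : ℝ) • (omF a b ζ - -omF a b ζ) = omF a b ζ := by
      rw [sub_neg_eq_add, ← two_smul ℝ, smul_smul]
      norm_num
    rw [h4] at h3
    rw [ff]
    exact h3
  have dZ : ∀ ζ ∈ Ut t, HasFDerivAt z (omZ a b ζ) ζ := by
    intro ζ hζ
    have h1 := hz1 ζ hζ
    have h2 := comp_neg_deriv (hz1 (-ζ) (Ut_neg hζ))
    rw [omZ_neg hF hζ, neg_neg] at h2
    have h3 := ((h1.add h2).const_smul (1 / 2 : ℝ)).sub_const c
    have h4 : (1 / 2 : ℝ) • (omZ a b ζ + omZ a b ζ) = omZ a b ζ := by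
      rw [← two_smul ℝ, smul_smul]
      norm_num
    rw [h4] at h3
    rw [zz]
    exact h3
  have oddf : ∀ ζ, f (-ζ) = - f ζ := by
    intro ζ
    rw [hf, hf, neg_neg, ← smul_neg, neg_sub]
  have evz : ∀ ζ, z (-ζ) = z ζ := by
    intro ζ
    rw [hz, hz, neg_neg, add_comm]
  have z0 : z (1 + t) = 0 := by
    rw [hz, hc, smul_eq_mul]
    ring
  have rf := refl_f hF ht1 dF
  have rz := refl_z hF ht1 dZ z0
  have zp : ∀ ζ : ℂ, ‖ζ - 1‖ = t → z ζ = 0 := by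
    intro ζ hζ
    have h1 := rz ζ (by rw [hζ]; linarith) (by rw [hζ]; linarith)
    rw [refl_pt ht hζ] at h1
    linarith
  have cneg : ContDiffOn ℝ ∞ (fun w : ℂ => -w) (Ut t) := contDiff_neg.contDiffOn
  have mneg : MapsTo (fun w : ℂ => -w) (Ut t) (Ut t) := fun w hw => Ut_neg hw
  refine ⟨f, z, ⟨?_, ?_, ?_, ?_, ?_, zp, ?_⟩, fun ζ h1 h2 => ⟨rf ζ h1 h2, rz ζ h1 h2⟩, ?_,
    oddf, evz⟩
  · rw [ff]
    exact (cf1.sub (cf1.comp cneg mneg)).const_smul (1 / 2 : ℝ)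
  · rw [zz]
    exact ((cz1.add (cz1.comp cneg mneg)).const_smul (1 / 2 : ℝ)).sub contDiffOn_const
  · intro ζ hζ
    rw [dz, (dF ζ hζ).fderiv, omF_apply, omF_apply]
    simp only [cj, map_one, Complex.conj_I]
    linear_combination (-(a ζ ^ 2) / 2 - (starRingEnd ℂ) (b ζ) ^ 2 / 2) * Complex.I_sq
  · intro ζ hζ
    rw [dzb, (dF ζ hζ).fderiv, omF_apply, omF_apply]
    simp only [cj, map_one, Complex.conj_I]
    linear_combination ((a ζ ^ 2) / 2 + (starRingEnd ℂ) (b ζ) ^ 2 / 2) * Complex.I_sq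
  · intro ζ hζ
    have h1 : HasFDerivAt (fun w => (z w : ℂ)) (Complex.ofRealCLM.comp (omZ a b ζ)) ζ :=
      Complex.ofRealCLM.hasFDerivAt.comp ζ (dZ ζ hζ)
    rw [dz, h1.fderiv, ContinuousLinearMap.comp_apply, ContinuousLinearMap.comp_apply,
      omZ_apply, omZ_apply, Complex.ofRealCLM_apply, Complex.ofRealCLM_apply]
    apply Complex.ext
    · simp
    · simp
      ring
  · intro ζ hζ
    rw [← evz]
    apply zp
    rw [← hζ, ← norm_neg]
    congr 1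
    ring
  · intro ζ h1 h2
    have e1 : ‖-ζ - 1‖ = ‖ζ + 1‖ := by rw [← norm_neg]; congr 1; ring
    have e2 : -1 + (t : ℂ) ^ 2 / cj (ζ + 1) = -(1 + (t : ℂ) ^ 2 / cj (-ζ - 1)) := by
      have : cj (-ζ - 1) = - cj (ζ + 1) := by
        rw [← map_neg]; congr 1; ring
      rw [this, div_neg]
      ring
    have r1 := rf (-ζ) (by rw [e1]; exact h1) (by rw [e1]; exact h2)
    have r2 := rz (-ζ) (by rw [e1]; exact h1) (by rw [e1]; exact h2)
    rw [e2, oddf, evz, r1, r2, oddf, evz, neg_neg]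
    exact ⟨rfl, rfl⟩


end S_b12

end Pool.Agent.Helper676.TL.B12
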