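import Mathlib
import Pool.Agent.Helper676.TL.Defs
import Pool.Agent.Helper676.TL.Base

set_option autoImplicit false

namespace Pool.Agent.Helper676.TL

open Set Metric
open scoped ContDiff



/-- extension of the fields across the circles by reflection -/
noncomputable def exa (t : ℝ) (a b : ℂ → ℂ) (ζ : ℂ) : ℂ :=
  if ‖ζ - 1‖ < t then cj (b (1 + t ^ 2 / cj (ζ - 1))) * (t / (ζ - 1))
  else if ‖ζ + 1‖ < t then cj (b (-1 + t ^ 2 / cj (ζ + 1))) * (t / (ζ + 1))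
  else a ζ


/-! ### helper lemmas for `DBL` -/

theorem DBL_add (x y : ℂ) : cj (x + y) = cj x + cj y := map_add _ _ _
theorem DBL_sub (x y : ℂ) : cj (x - y) = cj x - cj y := map_sub _ _ _
theorem DBL_mul (x y : ℂ) : cj (x * y) = cj x * cj y := map_mul _ _ _
theorem DBL_div (x y : ℂ) : cj (x / y) = cj x / cj y := map_div₀ _ _ _
theorem DBL_neg (x : ℂ) : cj (-x) = -cj x := map_neg _ _
theorem DBL_pow (x : ℂ) (n : ℕ) : cj (x ^ n) = cj x ^ n := map_pow _ _ _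
theorem DBL_one : cj 1 = 1 := map_one _
theorem DBL_cjcj (x : ℂ) : cj (cj x) = x := Complex.conj_conj x
theorem DBL_ne (x : ℂ) (hx : x ≠ 0) : cj x ≠ 0 := by
  intro h
  apply hx
  rw [← DBL_cjcj x, h]
  exact map_zero _

theorem DBL_cjt (t : ℝ) : cj (t : ℂ) = (t : ℂ) := Complex.conj_ofReal t

theorem DBL_norm_cj (z : ℂ) : ‖cj z‖ = ‖z‖ := RCLike.norm_conj z

theorem DBL_kst_norm (t : ℝ) (z : ℂ) :
    ‖(1 + (t : ℂ) ^ 2 / cj (z - 1)) - 1‖ = t ^ 2 / ‖z - 1‖ := by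
  rw [add_sub_cancel_left, norm_div, norm_pow, DBL_norm_cj, Complex.norm_real, Real.norm_eq_abs,
    sq_abs]

theorem DBL_kst_kst (t : ℝ) (ht : t ≠ 0) (z : ℂ) (hz : z ≠ 1) :
    (1 + (t : ℂ) ^ 2 / cj ((1 + (t : ℂ) ^ 2 / cj (z - 1)) - 1)) = z := by
  have h1 : z - 1 ≠ 0 := sub_ne_zero.2 hz
  have h2 : (t : ℂ) ≠ 0 := by exact_mod_cast ht
  have h3 := DBL_ne _ h1
  rw [add_sub_cancel_left, DBL_div, DBL_pow, DBL_cjt, DBL_cjcj]
  field_simp
  ring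

theorem DBL_wcw (z : ℂ) : cj z * z = ((‖z‖ ^ 2 : ℝ) : ℂ) := by
  rw [Complex.conj_mul']
  push_cast
  rfl

theorem DBL_kap_eq (t : ℝ) (ht : 0 < t) (z : ℂ) (hz : t ≤ ‖z - 1‖) :
    kap t z = 1 + (t : ℂ) ^ 2 / cj (z - 1) := by
  have h0 : 0 < ‖z - 1‖ := ht.trans_le hz
  have h1 : z - 1 ≠ 0 := norm_pos_iff.1 h0
  have h2 : cj (z - 1) ≠ 0 := DBL_ne _ h1
  unfold kap
  rw [max_eq_left hz]
  congr 1
  rw [Complex.ofReal_div, ← DBL_wcw]
  push_cast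
  field_simp

theorem DBL_tau_eq (t : ℝ) (ht : 0 < t) (z : ℂ) (hz : t ≤ ‖z - 1‖) :
    tau t z = t / (z - 1) := by
  have h0 : 0 < ‖z - 1‖ := ht.trans_le hz
  have h1 : z - 1 ≠ 0 := norm_pos_iff.1 h0
  have h2 : cj (z - 1) ≠ 0 := DBL_ne _ h1
  unfold tau
  rw [max_eq_left hz]
  rw [Complex.ofReal_div, ← DBL_wcw]
  field_simp

theorem DBL_ret_eq (t : ℝ) (ht : 0 < t) (z : ℂ) (hz : ‖z - 1‖ ≤ t) : ret t z = z := by
  unfold ret
  rw [max_eq_right hz, div_self ht.ne']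
  push_cast
  ring

theorem DBL_max_pos (t : ℝ) (ht : 0 < t) (z : ℂ) : 0 < max ‖z - 1‖ t := lt_max_of_lt_right ht

theorem DBL_kap_cont (t : ℝ) (ht : 0 < t) : Continuous (kap t) := by
  unfold kap
  have h1 : Continuous fun z : ℂ => max ‖z - 1‖ t :=
    (continuous_norm.comp (continuous_id.sub continuous_const)).max continuous_const
  have h2 : Continuous fun z : ℂ => (t ^ 2 / (max ‖z - 1‖ t) ^ 2 : ℝ) :=
    continuous_const.div (h1.pow 2) (fun z => (pow_pos (DBL_max_pos t ht z) 2).ne')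
  exact continuous_const.add ((Complex.continuous_ofReal.comp h2).mul
    (continuous_id.sub continuous_const))

theorem DBL_tau_cont (t : ℝ) (ht : 0 < t) : Continuous (tau t) := by
  unfold tau
  have h1 : Continuous fun z : ℂ => max ‖z - 1‖ t :=
    (continuous_norm.comp (continuous_id.sub continuous_const)).max continuous_const
  have h2 : Continuous fun z : ℂ => (t / (max ‖z - 1‖ t) ^ 2 : ℝ) :=
    continuous_const.div (h1.pow 2) (fun z => (pow_pos (DBL_max_pos t ht z) 2).ne')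
  exact (Complex.continuous_ofReal.comp h2).mul
    (Complex.continuous_conj.comp (continuous_id.sub continuous_const))

theorem DBL_tau_norm (t : ℝ) (ht : 0 < t) (z : ℂ) : ‖tau t z‖ ≤ 1 := by
  unfold tau
  have hm := DBL_max_pos t ht z
  rw [norm_mul, DBL_norm_cj, Complex.norm_real, Real.norm_eq_abs, abs_of_nonneg (by positivity),
    div_mul_eq_mul_div, div_le_one (by positivity), sq]
  exact mul_le_mul (le_max_right _ _) (le_max_left _ _) (norm_nonneg _) hm.le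

theorem DBL_cjsub (z : ℂ) : cj z - 1 = cj (z - 1) := by
  rw [DBL_sub, DBL_one]

theorem DBL_kap_cj (t : ℝ) (z : ℂ) : kap t (cj z) = cj (kap t z) := by
  unfold kap
  rw [DBL_cjsub, DBL_norm_cj, DBL_add, DBL_mul, DBL_one, DBL_cjt]

theorem DBL_tau_cj (t : ℝ) (z : ℂ) : tau t (cj z) = cj (tau t z) := by
  unfold tau
  rw [DBL_cjsub, DBL_norm_cj, DBL_mul, DBL_cjt]

theorem DBL_sS_cont (t : ℝ) (ht : 0 < t) (β : ℂ → ℂ) (hβ : Continuous β) :
    Continuous (sS t β) := by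
  unfold sS
  exact (Complex.continuous_conj.comp (hβ.comp (DBL_kap_cont t ht))).mul (DBL_tau_cont t ht)

theorem DBL_sS_norm (t : ℝ) (ht : 0 < t) (β : ℂ → ℂ) (M : ℝ) (hβ : ∀ z, ‖β z‖ ≤ M) (z : ℂ) :
    ‖sS t β z‖ ≤ M := by
  unfold sS
  rw [norm_mul, DBL_norm_cj]
  have h1 := DBL_tau_norm t ht z
  have h2 := hβ (kap t z)
  have h3 := norm_nonneg (β (kap t z))
  have h4 := norm_nonneg (tau t z)
  nlinarith

theorem DBL_sS_cj (t : ℝ) (β : ℂ → ℂ) (hβ : ∀ z, β (cj z) = cj (β z)) (z : ℂ) :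
    sS t β (cj z) = cj (sS t β z) := by
  unfold sS
  rw [DBL_kap_cj, DBL_tau_cj, hβ, DBL_mul]

theorem DBL_negcj (z : ℂ) : -(cj z) = cj (-z) := (DBL_neg z).symm

/-- `z ↦ conj (f (kst z)) t/(z-1)` is holomorphic -/
theorem DBL_hol (t : ℝ) (f : ℂ → ℂ) (V : Set ℂ) (hV : IsOpen V) (hf : DifferentiableOn ℂ f V)
    (z : ℂ) (hz : z ≠ 1) (hzV : (1 + (t : ℂ) ^ 2 / cj (z - 1)) ∈ V) :
    DifferentiableAt ℂ (fun z => cj (f (1 + (t : ℂ) ^ 2 / cj (z - 1))) * (t / (z - 1))) z := by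
  have h1 : z - 1 ≠ 0 := sub_ne_zero.2 hz
  have hg : DifferentiableAt ℂ (fun z : ℂ => 1 + (t : ℂ) ^ 2 / (z - 1)) z :=
    (differentiableAt_const _).add ((differentiableAt_const _).div
      (differentiableAt_id.sub (differentiableAt_const _)) h1)
  have hg2 : DifferentiableAt ℂ (fun z : ℂ => (t : ℂ) / (z - 1)) z :=
    (differentiableAt_const _).div (differentiableAt_id.sub (differentiableAt_const _)) h1
  have hcj : cj (1 + (t : ℂ) ^ 2 / (z - 1)) = 1 + (t : ℂ) ^ 2 / cj (z - 1) := by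
    rw [DBL_add, DBL_div, DBL_pow, DBL_one, DBL_cjt]
  have hfd : DifferentiableAt ℂ f (cj (1 + (t : ℂ) ^ 2 / (z - 1))) := by
    rw [hcj]
    exact (hf _ hzV).differentiableAt (hV.mem_nhds hzV)
  have hfd2 : DifferentiableAt ℂ (cj ∘ f ∘ cj) (1 + (t : ℂ) ^ 2 / (z - 1)) :=
    differentiableAt_conj_conj_iff.2 hfd
  have h3 : DifferentiableAt ℂ (fun z : ℂ => (cj ∘ f ∘ cj) (1 + (t : ℂ) ^ 2 / (z - 1))) z :=
    DifferentiableAt.comp (g := cj ∘ f ∘ cj) z hfd2 hg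
  have h4 : (fun z => cj (f (1 + (t : ℂ) ^ 2 / cj (z - 1))) * (t / (z - 1))) =
      fun z : ℂ => (cj ∘ f ∘ cj) (1 + (t : ℂ) ^ 2 / (z - 1)) * (t / (z - 1)) := by
    funext x
    simp only [Function.comp_apply]
    rw [DBL_add, DBL_div, DBL_pow, DBL_one, DBL_cjt]
  rw [h4]
  exact h3.mul hg2

theorem DBL_sS_eq (t : ℝ) (ht : 0 < t) (β : ℂ → ℂ) (z : ℂ) (hz : t ≤ ‖z - 1‖) :
    sS t β z = cj (β (1 + (t : ℂ) ^ 2 / cj (z - 1))) * (t / (z - 1)) := by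
  unfold sS
  rw [DBL_kap_eq t ht z hz, DBL_tau_eq t ht z hz]

theorem DBL_open_out (t : ℝ) : IsOpen {z : ℂ | t < ‖z - 1‖} :=
  isOpen_lt continuous_const (continuous_norm.comp (continuous_id.sub continuous_const))

theorem DBL_sS_hol (t : ℝ) (ht : 0 < t) (β : ℂ → ℂ) (hβ : DifferentiableOn ℂ β (ball 1 t))
    (z : ℂ) (hz : t < ‖z - 1‖) : DifferentiableAt ℂ (sS t β) z := by
  have hz0 : 0 < ‖z - 1‖ := ht.trans hz
  have h1 : z ≠ 1 := by
    rintro rfl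
    simp at hz0
  have hV : (1 + (t : ℂ) ^ 2 / cj (z - 1)) ∈ ball (1:ℂ) t := by
    rw [mem_ball, dist_eq_norm, DBL_kst_norm, div_lt_iff₀ hz0]
    nlinarith
  have h2 := DBL_hol t β (ball 1 t) isOpen_ball hβ z h1 hV
  refine h2.congr_of_eventuallyEq ?_
  filter_upwards [(DBL_open_out t).mem_nhds hz] with x hx
  exact DBL_sS_eq t ht β x (le_of_lt hx)

theorem DBL_sS_hol_neg (t : ℝ) (ht : 0 < t) (β : ℂ → ℂ) (hβ : DifferentiableOn ℂ β (ball 1 t))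
    (z : ℂ) (hz : t < ‖z + 1‖) : DifferentiableAt ℂ (fun z => sS t β (-z)) z := by
  have h1 : t < ‖-z - 1‖ := by
    have h2 : -z - 1 = -(z + 1) := by ring
    rw [h2, norm_neg]
    exact hz
  exact DifferentiableAt.comp z (DBL_sS_hol t ht β hβ (-z) h1) differentiableAt_id.neg

/-- the circle is negligible for the Cauchy transform -/
theorem DBL_CT_ae (t : ℝ) (F K : ℂ → ℂ) (h : ∀ w, ‖w - 1‖ ≠ t → F w = K w) (z : ℂ) :
    CT F z = CT K z := by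
  unfold CT
  congr 1
  apply MeasureTheory.integral_congr_ae
  have h0 : MeasureTheory.volume (sphere (1:ℂ) t) = 0 := MeasureTheory.Measure.addHaar_sphere _ _ _
  have h1 : ∀ᵐ w : ℂ, w ∉ sphere (1:ℂ) t := MeasureTheory.measure_eq_zero_iff_ae_notMem.1 h0
  filter_upwards [h1] with w hw
  have : ‖w - 1‖ ≠ t := by
    intro h2
    apply hw
    rw [mem_sphere, dist_eq_norm]
    exact h2
  rw [h w this]

theorem DBL_G_meas (t : ℝ) : MeasurableSet (G t) := by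
  have h1 : MeasurableSet {ζ : ℂ | ‖ζ‖ < 16} := measurableSet_lt measurable_norm measurable_const
  have h2 : MeasurableSet {ζ : ℂ | t ≤ ‖ζ - 1‖} :=
    measurableSet_le measurable_const (measurable_norm.comp (measurable_id.sub_const 1))
  have h3 : MeasurableSet {ζ : ℂ | t ≤ ‖ζ + 1‖} :=
    measurableSet_le measurable_const (measurable_norm.comp (measurable_id.add_const 1))
  exact h1.inter (h2.inter h3)

theorem DBL_FF_apply (t h : ℝ) (a b : ℂ → ℂ) (z : ℂ) (hz : z ∈ G t) :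
    FF t h a b z = (pp t h a b z : ℂ) * cj (b z) := Set.indicator_of_mem hz _

theorem DBL_FF_zero (t h : ℝ) (a b : ℂ → ℂ) (z : ℂ) (hz : z ∉ G t) :
    FF t h a b z = 0 := Set.indicator_of_notMem hz _

theorem DBL_KK_apply (t h : ℝ) (a b : ℂ → ℂ) (z : ℂ) (hz : z ∈ G t) :
    KK t h a b z = - ((pp t h a b z : ℂ) * cj (a z)) := Set.indicator_of_mem hz _

theorem DBL_KK_zero (t h : ℝ) (a b : ℂ → ℂ) (z : ℂ) (hz : z ∉ G t) :
    KK t h a b z = 0 := Set.indicator_of_notMem hz _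

theorem DBL_pp_norm (t h : ℝ) (ht : 0 < t) (ht1 : t < 1 / 100) (h1 : 1 / 2 ≤ h) (h2 : h ≤ 2)
    (a b : ℂ → ℂ) (ha : ∀ z, ‖a z‖ ≤ 4) (hb : ∀ z, ‖b z‖ ≤ 5) (z : ℂ) :
    0 ≤ pp t h a b z ∧ pp t h a b z ≤ 1 / 2 := by
  unfold pp
  have h3 := ha z
  have h4 := hb z
  have h5 := norm_nonneg (a z)
  have h6 := norm_nonneg (b z)
  have h7 : ‖a z‖ ^ 2 + ‖b z‖ ^ 2 ≤ 41 := by nlinarith
  have h8 : t * h / 2 ≤ 1 / 100 := by nlinarith
  have h9 : 0 ≤ t * h / 2 := by positivity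
  constructor
  · positivity
  · calc t * h / 2 * (‖a z‖ ^ 2 + ‖b z‖ ^ 2) ≤ 1 / 100 * 41 :=
        mul_le_mul h8 h7 (by positivity) (by norm_num)
      _ ≤ 1 / 2 := by norm_num

theorem DBL_FF_adm (t h : ℝ) (ht : 0 < t) (ht1 : t < 1 / 100) (h1 : 1 / 2 ≤ h) (h2 : h ≤ 2)
    (a b : ℂ → ℂ) (ha : ∀ z, ‖a z‖ ≤ 4) (hb : ∀ z, ‖b z‖ ≤ 5) (ca : Continuous a)
    (cb : Continuous b) : Adm (FF t h a b) 3 16 := by
  refine ⟨?_, ?_, ?_⟩
  · unfold FF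
    apply Measurable.indicator _ (DBL_G_meas t)
    apply Continuous.measurable
    unfold pp
    exact (Complex.continuous_ofReal.comp (continuous_const.mul
      ((ca.norm.pow 2).add (cb.norm.pow 2)))).mul (Complex.continuous_conj.comp cb)
  · intro z
    by_cases hz : z ∈ G t
    · rw [DBL_FF_apply _ _ _ _ _ hz, norm_mul, DBL_norm_cj, Complex.norm_real, Real.norm_eq_abs]
      obtain ⟨p1, p2⟩ := DBL_pp_norm t h ht ht1 h1 h2 a b ha hb z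
      rw [abs_of_nonneg p1]
      have h4 := hb z
      have h6 := norm_nonneg (b z)
      nlinarith
    · rw [DBL_FF_zero _ _ _ _ _ hz, norm_zero]
      norm_num
  · intro z hz
    apply DBL_FF_zero
    intro h
    have := h.1
    linarith

theorem DBL_KK_adm (t h : ℝ) (ht : 0 < t) (ht1 : t < 1 / 100) (h1 : 1 / 2 ≤ h) (h2 : h ≤ 2)
    (a b : ℂ → ℂ) (ha : ∀ z, ‖a z‖ ≤ 4) (hb : ∀ z, ‖b z‖ ≤ 5) (ca : Continuous a)
    (cb : Continuous b) : Adm (KK t h a b) 3 16 := by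
  refine ⟨?_, ?_, ?_⟩
  · unfold KK
    apply Measurable.indicator _ (DBL_G_meas t)
    apply Continuous.measurable
    unfold pp
    exact ((Complex.continuous_ofReal.comp (continuous_const.mul
      ((ca.norm.pow 2).add (cb.norm.pow 2)))).mul (Complex.continuous_conj.comp ca)).neg
  · intro z
    by_cases hz : z ∈ G t
    · rw [DBL_KK_apply _ _ _ _ _ hz, norm_neg, norm_mul, DBL_norm_cj, Complex.norm_real,
        Real.norm_eq_abs]
      obtain ⟨p1, p2⟩ := DBL_pp_norm t h ht ht1 h1 h2 a b ha hb z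
      rw [abs_of_nonneg p1]
      have h4 := ha z
      have h6 := norm_nonneg (a z)
      nlinarith
    · rw [DBL_KK_zero _ _ _ _ _ hz, norm_zero]
      norm_num
  · intro z hz
    apply DBL_KK_zero
    intro h
    have := h.1
    linarith

theorem DBL_fa_cont (t : ℝ) (ht : 0 < t) (u β : ℂ → ℂ) (hu : Continuous u) (hβ : Continuous β) :
    Continuous (fa t u β) := by
  unfold fa
  have h1 := DBL_sS_cont t ht β hβ
  exact ((continuous_const.add hu).add h1).add (h1.comp continuous_neg)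

theorem DBL_fb_cont (t : ℝ) (ht : 0 < t) (v α : ℂ → ℂ) (hv : Continuous v) (hα : Continuous α) :
    Continuous (fb t v α) := by
  unfold fb
  have h1 := DBL_sS_cont t ht α hα
  exact (hv.add h1).sub (h1.comp continuous_neg)

theorem DBL_fa_norm (C t h : ℝ) (ht : 0 < t) (hCt : C * t < 1 / 10) (u v α β : ℂ → ℂ)
    (hS : Sol C t h u v α β) (z : ℂ) : ‖fa t u β z‖ ≤ 4 := by
  unfold fa
  have h1 := (hS.bu z).trans hCt.le
  have h2 := DBL_sS_norm t ht β (1 / 10) (fun z => (hS.bβ z).trans hCt.le) z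
  have h3 := DBL_sS_norm t ht β (1 / 10) (fun z => (hS.bβ z).trans hCt.le) (-z)
  calc ‖1 + u z + sS t β z + sS t β (-z)‖ ≤ ‖(1:ℂ)‖ + ‖u z‖ + ‖sS t β z‖ + ‖sS t β (-z)‖ :=
        norm_add₄_le
    _ ≤ 4 := by
        rw [norm_one]
        linarith

theorem DBL_al_norm (C t h : ℝ) (hCt : C * t < 1 / 10) (u v α β : ℂ → ℂ)
    (hS : Sol C t h u v α β) (z : ℂ) : ‖α z‖ ≤ 11 / 10 := by
  have h1 := (hS.bα z).trans hCt.le
  calc ‖α z‖ = ‖(α z - 1) + 1‖ := by congr 1; ring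
    _ ≤ ‖α z - 1‖ + ‖(1:ℂ)‖ := norm_add_le _ _
    _ ≤ 11 / 10 := by rw [norm_one]; linarith

theorem DBL_fb_norm (C t h : ℝ) (ht : 0 < t) (hCt : C * t < 1 / 10) (u v α β : ℂ → ℂ)
    (hS : Sol C t h u v α β) (z : ℂ) : ‖fb t v α z‖ ≤ 5 := by
  unfold fb
  have h1 := (hS.bv z).trans hCt.le
  have h2 := DBL_sS_norm t ht α (11 / 10) (DBL_al_norm C t h hCt u v α β hS) z
  have h3 := DBL_sS_norm t ht α (11 / 10) (DBL_al_norm C t h hCt u v α β hS) (-z)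
  calc ‖v z + sS t α z - sS t α (-z)‖ ≤ ‖v z + sS t α z‖ + ‖sS t α (-z)‖ := norm_sub_le _ _
    _ ≤ ‖v z‖ + ‖sS t α z‖ + ‖sS t α (-z)‖ := by linarith [norm_add_le (v z) (sS t α z)]
    _ ≤ 5 := by linarith

theorem DBL_fa_even (C t h : ℝ) (u v α β : ℂ → ℂ)
    (hS : Sol C t h u v α β) (z : ℂ) : fa t u β (-z) = fa t u β z := by
  unfold fa
  rw [hS.nu, neg_neg]
  ring

theorem DBL_fb_odd (C t h : ℝ) (u v α β : ℂ → ℂ)
    (hS : Sol C t h u v α β) (z : ℂ) : fb t v α (-z) = -fb t v α z := by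
  unfold fb
  rw [hS.nv, neg_neg]
  ring

theorem DBL_fa_cj (C t h : ℝ) (u v α β : ℂ → ℂ)
    (hS : Sol C t h u v α β) (z : ℂ) : fa t u β (cj z) = cj (fa t u β z) := by
  unfold fa
  rw [hS.ju, DBL_negcj, DBL_sS_cj t β hS.jβ, DBL_sS_cj t β hS.jβ, DBL_add, DBL_add, DBL_add,
    DBL_one]

theorem DBL_fb_cj (C t h : ℝ) (u v α β : ℂ → ℂ)
    (hS : Sol C t h u v α β) (z : ℂ) : fb t v α (cj z) = cj (fb t v α z) := by
  unfold fb
  rw [hS.jv, DBL_negcj, DBL_sS_cj t α hS.jα, DBL_sS_cj t α hS.jα, DBL_sub, DBL_add]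

/-- the regular parts of the fields near the hole -/
noncomputable def DBL_ar (t : ℝ) (u β : ℂ → ℂ) (z : ℂ) : ℂ := 1 + u z + sS t β (-z)
noncomputable def DBL_br (t : ℝ) (v α : ℂ → ℂ) (z : ℂ) : ℂ := v z - sS t α (-z)

/-- reflection in the circle -/
noncomputable def DBL_k (t : ℝ) (z : ℂ) : ℂ := 1 + (t : ℂ) ^ 2 / cj (z - 1)

theorem DBL_fa_ar (t : ℝ) (u β : ℂ → ℂ) (z : ℂ) : fa t u β z = DBL_ar t u β z + sS t β z := by
  unfold fa DBL_ar
  ring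

theorem DBL_fb_br (t : ℝ) (v α : ℂ → ℂ) (z : ℂ) : fb t v α z = DBL_br t v α z + sS t α z := by
  unfold fb DBL_br
  ring

theorem DBL_al_ar (C t h : ℝ) (ht : 0 < t) (u v α β : ℂ → ℂ) (hS : Sol C t h u v α β) (z : ℂ)
    (hz : ‖z - 1‖ ≤ t) : α z = DBL_ar t u β z := by
  rw [hS.hα, DBL_ret_eq t ht z hz]
  rfl

theorem DBL_be_br (C t h : ℝ) (ht : 0 < t) (u v α β : ℂ → ℂ) (hS : Sol C t h u v α β) (z : ℂ)
    (hz : ‖z - 1‖ ≤ t) : β z = DBL_br t v α z := by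
  rw [hS.hβ, DBL_ret_eq t ht z hz]
  rfl

theorem DBL_k_norm (t : ℝ) (z : ℂ) : ‖DBL_k t z - 1‖ = t ^ 2 / ‖z - 1‖ := DBL_kst_norm t z

theorem DBL_k_k (t : ℝ) (ht : 0 < t) (z : ℂ) (hz : z ≠ 1) : DBL_k t (DBL_k t z) = z :=
  DBL_kst_kst t ht.ne' z hz

/-- `a = ar + conj(br ∘ k) t/w` outside, general form -/
theorem DBL_out (t : ℝ) (ht : 0 < t) (r s σ : ℂ → ℂ) (hσ : ∀ z, ‖z - 1‖ ≤ t → σ z = s z) (z : ℂ)
    (hz : t ≤ ‖z - 1‖) : r z + sS t σ z = r z + cj (s (DBL_k t z)) * (t / (z - 1)) := by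
  rw [DBL_sS_eq t ht σ z hz]
  have h0 : 0 < ‖z - 1‖ := ht.trans_le hz
  have h1 : ‖DBL_k t z - 1‖ ≤ t := by
    rw [DBL_k_norm, div_le_iff₀ h0]
    nlinarith
  have h2 : σ (1 + (t : ℂ) ^ 2 / cj (z - 1)) = s (DBL_k t z) := hσ _ h1
  rw [h2]

/-- inside -/
theorem DBL_in (t : ℝ) (ht : 0 < t) (r s ρ' : ℂ → ℂ) (hρ : ∀ z, ‖z - 1‖ ≤ t → ρ' z = r z) (z : ℂ)
    (hz1 : z ≠ 1) (hz : ‖z - 1‖ < t) :
    cj (s (DBL_k t z) + sS t ρ' (DBL_k t z)) * (t / (z - 1)) =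
      r z + cj (s (DBL_k t z)) * (t / (z - 1)) := by
  have hw : z - 1 ≠ 0 := sub_ne_zero.2 hz1
  have h0 : 0 < ‖z - 1‖ := norm_pos_iff.2 hw
  have h1 : t ≤ ‖DBL_k t z - 1‖ := by
    rw [DBL_k_norm, le_div_iff₀ h0]
    nlinarith
  have htc : (t : ℂ) ≠ 0 := by exact_mod_cast ht.ne'
  have hcw := DBL_ne _ hw
  rw [DBL_sS_eq t ht ρ' _ h1]
  have h2 : (1 + (t : ℂ) ^ 2 / cj (DBL_k t z - 1)) = z := DBL_k_k t ht z hz1
  rw [h2, hρ z hz.le]
  have h3 : DBL_k t z - 1 = (t : ℂ) ^ 2 / cj (z - 1) := by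
    unfold DBL_k
    ring
  rw [h3, DBL_add, DBL_mul, DBL_cjcj, DBL_div, DBL_div, DBL_pow, DBL_cjt, DBL_cjcj]
  field_simp
  ring

/-- formula for the extended fields on the annulus -/
theorem DBL_exa_formula (C t h : ℝ) (ht : 0 < t) (ht1 : t < 1 / 100) (u v α β : ℂ → ℂ)
    (hS : Sol C t h u v α β) (z : ℂ) (hz1 : z ≠ 1) (hz : ‖z - 1‖ < 2 * t) :
    exa t (fa t u β) (fb t v α) z =
      DBL_ar t u β z + cj (DBL_br t v α (DBL_k t z)) * (t / (z - 1)) ∧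
    exa t (fb t v α) (fa t u β) z =
      DBL_br t v α z + cj (DBL_ar t u β (DBL_k t z)) * (t / (z - 1)) := by
  have hp : ¬ ‖z + 1‖ < t := by
    intro h
    have h3 : ‖(z + 1) - (z - 1)‖ ≤ ‖z + 1‖ + ‖z - 1‖ := norm_sub_le _ _
    have h4 : (z + 1) - (z - 1) = 2 := by ring
    rw [h4] at h3
    have h5 : ‖(2:ℂ)‖ = 2 := by norm_num
    rw [h5] at h3
    linarith
  unfold exa
  by_cases hlt : ‖z - 1‖ < t
  · rw [if_pos hlt, if_pos hlt]
    constructor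
    · have h5 := DBL_in t ht (DBL_ar t u β) (DBL_br t v α) α (DBL_al_ar C t h ht u v α β hS) z hz1
        hlt
      rw [← DBL_fb_br] at h5
      exact h5
    · have h5 := DBL_in t ht (DBL_br t v α) (DBL_ar t u β) β (DBL_be_br C t h ht u v α β hS) z hz1
        hlt
      rw [← DBL_fa_ar] at h5
      exact h5
  · rw [if_neg hlt, if_neg hlt, if_neg hp, if_neg hp]
    have hge : t ≤ ‖z - 1‖ := not_lt.1 hlt
    constructor
    · rw [DBL_fa_ar]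
      exact DBL_out t ht (DBL_ar t u β) (DBL_br t v α) β (DBL_be_br C t h ht u v α β hS) z hge
    · rw [DBL_fb_br]
      exact DBL_out t ht (DBL_br t v α) (DBL_ar t u β) α (DBL_al_ar C t h ht u v α β hS) z hge

noncomputable def DBL_K1 (t : ℝ) (K : ℂ → ℂ) (w : ℂ) : ℂ :=
  if t < ‖w - 1‖ ∧ ‖w - 1‖ < 2 * t then K w else 0

noncomputable def DBL_K2 (t : ℝ) (K : ℂ → ℂ) (w : ℂ) : ℂ :=
  if 2 * t ≤ ‖w - 1‖ then K w else 0

noncomputable def DBL_st (t : ℝ) (K : ℂ → ℂ) (v : ℂ) : ℂ :=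
  - (cj (DBL_K1 t K (1 + t ^ 2 / cj (v - 1))) * t ^ 3 / ((v - 1) * cj (v - 1) ^ 2))

theorem DBL_K1_adm (t : ℝ) (K : ℂ → ℂ) (M ρ : ℝ) (hM : 0 ≤ M) (hK : Adm K M ρ) :
    Adm (DBL_K1 t K) M ρ := by
  refine ⟨?_, ?_, ?_⟩
  · unfold DBL_K1
    refine Measurable.ite ?_ hK.1 measurable_const
    exact (measurableSet_lt measurable_const (measurable_norm.comp (measurable_id.sub_const 1))).inter
      (measurableSet_lt (measurable_norm.comp (measurable_id.sub_const 1)) measurable_const)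
  · intro w
    unfold DBL_K1
    split_ifs
    · exact hK.2.1 w
    · rw [norm_zero]; exact hM
  · intro w hw
    unfold DBL_K1
    split_ifs
    · exact hK.2.2 w hw
    · rfl

theorem DBL_K2_adm (t : ℝ) (K : ℂ → ℂ) (M ρ : ℝ) (hM : 0 ≤ M) (hK : Adm K M ρ) :
    Adm (DBL_K2 t K) M ρ := by
  refine ⟨?_, ?_, ?_⟩
  · unfold DBL_K2
    refine Measurable.ite ?_ hK.1 measurable_const
    exact (measurableSet_le measurable_const (measurable_norm.comp (measurable_id.sub_const 1)))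
  · intro w
    unfold DBL_K2
    split_ifs
    · exact hK.2.1 w
    · rw [norm_zero]; exact hM
  · intro w hw
    unfold DBL_K2
    split_ifs
    · exact hK.2.2 w hw
    · rfl

theorem DBL_K1_zero (t : ℝ) (ht : 0 < t) (K : ℂ → ℂ) (v : ℂ)
    (hv : ¬ (t / 2 < ‖v - 1‖ ∧ ‖v - 1‖ < t)) : DBL_K1 t K (1 + t ^ 2 / cj (v - 1)) = 0 := by
  unfold DBL_K1
  rw [if_neg]
  rw [DBL_kst_norm]
  rintro ⟨h1, h2⟩
  apply hv
  have h0 : 0 < ‖v - 1‖ := by
    rcases (norm_nonneg (v - 1)).eq_or_lt with h | h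
    · rw [← h, div_zero] at h1
      linarith
    · exact h
  rw [lt_div_iff₀ h0] at h1
  rw [div_lt_iff₀ h0] at h2
  constructor
  · nlinarith
  · nlinarith

theorem DBL_st_zero (t : ℝ) (ht : 0 < t) (K : ℂ → ℂ) (v : ℂ)
    (hv : ¬ (t / 2 < ‖v - 1‖ ∧ ‖v - 1‖ < t)) : DBL_st t K v = 0 := by
  unfold DBL_st
  rw [DBL_K1_zero t ht K v hv]
  have : cj 0 = 0 := map_zero _
  rw [this]
  simp

theorem DBL_st_val (t : ℝ) (ht : 0 < t) (K : ℂ → ℂ) (v : ℂ)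
    (h1 : t / 2 < ‖v - 1‖) (h2 : ‖v - 1‖ < t) :
    DBL_st t K v = - (cj (K (DBL_k t v)) * t ^ 3 / ((v - 1) * cj (v - 1) ^ 2)) := by
  unfold DBL_st DBL_K1 DBL_k
  have h0 : 0 < ‖v - 1‖ := by linarith
  rw [if_pos]
  rw [DBL_kst_norm]
  constructor
  · rw [lt_div_iff₀ h0]
    nlinarith
  · rw [div_lt_iff₀ h0]
    nlinarith

theorem DBL_st_adm (t : ℝ) (ht : 0 < t) (ht1 : t < 1 / 100) (K : ℂ → ℂ) (hK : Adm K 3 16) :
    Adm (DBL_st t K) 24 16 := by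
  have hK1 := DBL_K1_adm t K 3 16 (by norm_num) hK
  refine ⟨?_, ?_, ?_⟩
  · unfold DBL_st
    have hc : Measurable (fun v : ℂ => cj (v - 1)) :=
      Complex.continuous_conj.measurable.comp (measurable_id.sub_const 1)
    have hk : Measurable (fun v : ℂ => 1 + (t : ℂ) ^ 2 / cj (v - 1)) :=
      measurable_const.add (measurable_const.div hc)
    exact (((Complex.continuous_conj.measurable.comp (hK1.1.comp hk)).mul_const _).div
      ((measurable_id.sub_const 1).mul (hc.pow_const 2))).neg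
  · intro v
    by_cases hv : t / 2 < ‖v - 1‖ ∧ ‖v - 1‖ < t
    · unfold DBL_st
      have h3 := hK1.2.1 (1 + t ^ 2 / cj (v - 1))
      have h0 : 0 < ‖v - 1‖ := by linarith [hv.1]
      rw [norm_neg, norm_div, norm_mul, norm_mul, norm_pow, norm_pow, DBL_norm_cj, DBL_norm_cj,
        Complex.norm_real, Real.norm_eq_abs, abs_of_pos ht]
      rw [div_le_iff₀ (by positivity)]
      have h4 : t ^ 3 ≤ 8 * (‖v - 1‖ * ‖v - 1‖ ^ 2) := by
        have h5 : t ≤ 2 * ‖v - 1‖ := by linarith [hv.1]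
        calc t ^ 3 ≤ (2 * ‖v - 1‖) ^ 3 := pow_le_pow_left₀ ht.le h5 3
          _ = 8 * (‖v - 1‖ * ‖v - 1‖ ^ 2) := by ring
      have h6 := norm_nonneg (DBL_K1 t K (1 + t ^ 2 / cj (v - 1)))
      calc ‖DBL_K1 t K (1 + t ^ 2 / cj (v - 1))‖ * t ^ 3 ≤
            3 * (8 * (‖v - 1‖ * ‖v - 1‖ ^ 2)) := mul_le_mul h3 h4 (by positivity) (by norm_num)
        _ = 24 * (‖v - 1‖ * ‖v - 1‖ ^ 2) := by ring
    · rw [DBL_st_zero t ht K v hv, norm_zero]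
      norm_num
  · intro v hv
    apply DBL_st_zero t ht
    rintro ⟨_, h2⟩
    have h3 : ‖v‖ ≤ ‖v - 1‖ + ‖(1:ℂ)‖ := by
      calc ‖v‖ = ‖(v - 1) + 1‖ := by congr 1; ring
        _ ≤ _ := norm_add_le _ _
    rw [norm_one] at h3
    linarith

/-- hypothesis on additivity -/
def DBL_Hadd : Prop := ∀ (F K : ℂ → ℂ) (M ρ M' ρ' : ℝ), Adm F M ρ → Adm K M' ρ' → ∀ z : ℂ,
      CT (fun w => F w + K w) z = CT F z + CT K z

def DBL_Hinv : Prop := ∀ (t : ℝ) (_ : 0 < t) (K : ℂ → ℂ) (M : ℝ) (_ : Measurable K)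
      (_ : ∀ w, ‖K w‖ ≤ M) (_ : ∀ w, ‖w - 1‖ < t ∨ 2 * t < ‖w - 1‖ → K w = 0)
      (ζ : ℂ) (_ : ζ ≠ 1),
      cj (CT K (1 + t ^ 2 / cj (ζ - 1))) * (t / (ζ - 1)) =
        CT (fun v => - (cj (K (1 + t ^ 2 / cj (v - 1))) * t ^ 3 / ((v - 1) * cj (v - 1) ^ 2))) ζ

theorem DBL_split (hadd : DBL_Hadd) (hinv : DBL_Hinv) (t : ℝ) (ht : 0 < t) (K : ℂ → ℂ)
    (hK : Adm K 3 16) (hK0 : ∀ w, ‖w - 1‖ < t → K w = 0) (z : ℂ) (hz : z ≠ 1) :
    cj (CT K (DBL_k t z)) * (t / (z - 1)) =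
      CT (DBL_st t K) z + cj (CT (DBL_K2 t K) (DBL_k t z)) * (t / (z - 1)) := by
  have hK1 := DBL_K1_adm t K 3 16 (by norm_num) hK
  have hK2 := DBL_K2_adm t K 3 16 (by norm_num) hK
  have e1 : CT K (DBL_k t z) = CT (fun w => DBL_K1 t K w + DBL_K2 t K w) (DBL_k t z) := by
    apply DBL_CT_ae t
    intro w hw
    unfold DBL_K1 DBL_K2
    by_cases h1 : ‖w - 1‖ < t
    · rw [hK0 w h1]
      simp
    · have h2 : t < ‖w - 1‖ := lt_of_le_of_ne (not_lt.1 h1) (Ne.symm hw)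
      by_cases h3 : ‖w - 1‖ < 2 * t
      · rw [if_pos ⟨h2, h3⟩, if_neg (not_le.2 h3), add_zero]
      · rw [if_neg (fun h => h3 h.2), if_pos (not_lt.1 h3), zero_add]
  have e2 := hinv t ht (DBL_K1 t K) 3 hK1.1 hK1.2.1 (by
    intro w hw
    unfold DBL_K1
    rw [if_neg]
    rintro ⟨h1, h2⟩
    rcases hw with h | h <;> linarith) z hz
  rw [e1, hadd _ _ 3 16 3 16 hK1 hK2, DBL_add, add_mul]
  congr 1

theorem DBL_F0 (t h : ℝ) (a b : ℂ → ℂ) (w : ℂ) (hw : ‖w - 1‖ < t) : FF t h a b w = 0 := by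
  apply DBL_FF_zero
  intro h
  have := h.2.1
  linarith

theorem DBL_K0 (t h : ℝ) (a b : ℂ → ℂ) (w : ℂ) (hw : ‖w - 1‖ < t) : KK t h a b w = 0 := by
  apply DBL_KK_zero
  intro h
  have := h.2.1
  linarith

/-- the annulus around the hole -/
def DBL_U2 (t : ℝ) : Set ℂ := {z | t / 2 < ‖z - 1‖ ∧ ‖z - 1‖ < 2 * t}

theorem DBL_U2_open (t : ℝ) : IsOpen (DBL_U2 t) :=
  (isOpen_lt continuous_const (continuous_norm.comp (continuous_id.sub continuous_const))).inter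
    (isOpen_lt (continuous_norm.comp (continuous_id.sub continuous_const)) continuous_const)

theorem DBL_far (t : ℝ) (ht1 : t < 1 / 100) (z : ℂ) (hz : ‖z - 1‖ ≤ 2 * t) : t < ‖z + 1‖ := by
  have h3 : ‖(z + 1) - (z - 1)‖ ≤ ‖z + 1‖ + ‖z - 1‖ := norm_sub_le _ _
  have h4 : (z + 1) - (z - 1) = 2 := by ring
  rw [h4] at h3
  have h5 : ‖(2:ℂ)‖ = 2 := by norm_num
  rw [h5] at h3
  linarith

theorem DBL_small (t : ℝ) (ht1 : t < 1 / 100) (z : ℂ) (hz : ‖z - 1‖ ≤ 2 * t) : ‖z‖ < 2 := by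
  have h3 : ‖z‖ ≤ ‖z - 1‖ + ‖(1:ℂ)‖ := by
    calc ‖z‖ = ‖(z - 1) + 1‖ := by congr 1; ring
      _ ≤ _ := norm_add_le _ _
  rw [norm_one] at h3
  linarith

theorem DBL_G_of (t : ℝ) (ht1 : t < 1 / 100) (z : ℂ) (h1 : t ≤ ‖z - 1‖)
    (hz : ‖z - 1‖ ≤ 2 * t) : z ∈ G t :=
  ⟨by linarith [DBL_small t ht1 z hz], h1, (DBL_far t ht1 z hz).le⟩

theorem DBL_k_mem (t : ℝ) (ht : 0 < t) (z : ℂ) (hz : z ∈ DBL_U2 t) : DBL_k t z ∈ DBL_U2 t := by
  have h0 : 0 < ‖z - 1‖ := by linarith [hz.1]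
  obtain ⟨h1, h2⟩ := hz
  refine ⟨?_, ?_⟩
  · rw [DBL_k_norm, lt_div_iff₀ h0]
    nlinarith
  · rw [DBL_k_norm, div_lt_iff₀ h0]
    nlinarith

theorem DBL_ne1 (t : ℝ) (ht : 0 < t) (z : ℂ) (hz : z ∈ DBL_U2 t) : z ≠ 1 := by
  rintro rfl
  have := hz.1
  simp at this
  linarith

/-- hypothesis on regularity -/
def DBL_Hreg : Prop := ∀ (a b g₁ g₂ F K : ℂ → ℂ) (U : Set ℂ) (_ : IsOpen U) (ε M ρ : ℝ)
      (_ : Adm F M ρ)
      (_ : Adm K M ρ) (_ : DifferentiableOn ℂ g₁ U) (_ : DifferentiableOn ℂ g₂ U)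
      (_ : ∀ z ∈ U, a z = g₁ z + CT F z) (_ : ∀ z ∈ U, b z = g₂ z + CT K z)
      (_ : ∀ z ∈ U, F z = ((ε * (‖a z‖ ^ 2 + ‖b z‖ ^ 2) : ℝ) : ℂ) * cj (b z))
      (_ : ∀ z ∈ U, K z = - (((ε * (‖a z‖ ^ 2 + ‖b z‖ ^ 2) : ℝ) : ℂ) * cj (a z))),
      ContDiffOn ℝ ∞ a U ∧ ContDiffOn ℝ ∞ b U ∧ (∀ z ∈ U, dzb a z = F z) ∧
        (∀ z ∈ U, dzb b z = K z)

def DBL_Hhol : Prop := ∀ (F : ℂ → ℂ) (M ρ : ℝ), Adm F M ρ → ∀ U : Set ℂ, IsOpen U →
      (∀ w ∈ U, F w = 0) → DifferentiableOn ℂ (CT F) U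

/-- the algebraic identity inside the circle -/
theorem DBL_alg (ε t : ℝ) (ht : 0 < t) (A B w : ℂ) (hw : w ≠ 0) :
    -(cj (-(((ε * (‖A‖ ^ 2 + ‖B‖ ^ 2) : ℝ) : ℂ) * cj A)) * t ^ 3 / (w * cj w ^ 2)) =
      ((ε * (‖cj B * (t / w)‖ ^ 2 + ‖cj A * (t / w)‖ ^ 2) : ℝ) : ℂ) * cj (cj A * (t / w)) := by
  have hcw := DBL_ne _ hw
  have hn : ‖w‖ ≠ 0 := norm_ne_zero_iff.2 hw
  have e1 : ∀ x : ℂ, ‖cj x * (t / w)‖ ^ 2 = ‖x‖ ^ 2 * (t ^ 2 / ‖w‖ ^ 2) := by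
    intro x
    rw [norm_mul, norm_div, DBL_norm_cj, Complex.norm_real, Real.norm_eq_abs, abs_of_pos ht]
    ring
  rw [e1, e1, DBL_neg, DBL_mul, DBL_mul, DBL_cjt, DBL_cjcj, DBL_div, DBL_cjt]
  have e2 : (((ε * (‖B‖ ^ 2 * (t ^ 2 / ‖w‖ ^ 2) + ‖A‖ ^ 2 * (t ^ 2 / ‖w‖ ^ 2)) : ℝ)) : ℂ) =
      ((ε * (‖A‖ ^ 2 + ‖B‖ ^ 2) : ℝ) : ℂ) * ((t : ℂ) ^ 2 / (cj w * w)) := by
    rw [DBL_wcw]
    push_cast
    ring
  rw [e2]
  field_simp

theorem DBL_alg2 (ε t : ℝ) (ht : 0 < t) (A B w : ℂ) (hw : w ≠ 0) :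
    -(cj ((((ε * (‖A‖ ^ 2 + ‖B‖ ^ 2) : ℝ) : ℂ) * cj B)) * t ^ 3 / (w * cj w ^ 2)) =
      -(((ε * (‖cj B * (t / w)‖ ^ 2 + ‖cj A * (t / w)‖ ^ 2) : ℝ) : ℂ) * cj (cj B * (t / w))) := by
  have hcw := DBL_ne _ hw
  have hn : ‖w‖ ≠ 0 := norm_ne_zero_iff.2 hw
  have e1 : ∀ x : ℂ, ‖cj x * (t / w)‖ ^ 2 = ‖x‖ ^ 2 * (t ^ 2 / ‖w‖ ^ 2) := by
    intro x
    rw [norm_mul, norm_div, DBL_norm_cj, Complex.norm_real, Real.norm_eq_abs, abs_of_pos ht]
    ring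
  rw [e1, e1, DBL_mul, DBL_mul, DBL_cjt, DBL_cjcj, DBL_div, DBL_cjt]
  have e2 : (((ε * (‖B‖ ^ 2 * (t ^ 2 / ‖w‖ ^ 2) + ‖A‖ ^ 2 * (t ^ 2 / ‖w‖ ^ 2)) : ℝ)) : ℂ) =
      ((ε * (‖A‖ ^ 2 + ‖B‖ ^ 2) : ℝ) : ℂ) * ((t : ℂ) ^ 2 / (cj w * w)) := by
    rw [DBL_wcw]
    push_cast
    ring
  rw [e2]
  field_simp

/-- the annulus: smoothness and the equations -/
theorem DBL_ann (hREG : DBL_Hreg) (hadd : DBL_Hadd) (hhol : DBL_Hhol) (hinv : DBL_Hinv)
    (C t h : ℝ) (ht : 0 < t) (ht1 : t < 1 / 100) (h1 : 1 / 2 ≤ h) (h2 : h ≤ 2)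
    (hCt : C * t < 1 / 10) (u v α β a b : ℂ → ℂ)
    (hS : Sol C t h u v α β) (ha : a = fa t u β) (hb : b = fb t v α) :
    ContDiffOn ℝ ∞ (exa t a b) (DBL_U2 t) ∧ ContDiffOn ℝ ∞ (exa t b a) (DBL_U2 t) ∧
    (∀ z ∈ DBL_U2 t, dzb (exa t a b) z =
      ((t * h / 2 * (‖exa t a b z‖ ^ 2 + ‖exa t b a z‖ ^ 2) : ℝ) : ℂ) * cj (exa t b a z)) ∧
    (∀ z ∈ DBL_U2 t, dzb (exa t b a) z =
      -(((t * h / 2 * (‖exa t a b z‖ ^ 2 + ‖exa t b a z‖ ^ 2) : ℝ) : ℂ) * cj (exa t a b z))) := by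
  have ca : Continuous a := by rw [ha]; exact DBL_fa_cont t ht u β hS.cu hS.cβ
  have cb : Continuous b := by rw [hb]; exact DBL_fb_cont t ht v α hS.cv hS.cα
  have na : ∀ z, ‖a z‖ ≤ 4 := by rw [ha]; exact DBL_fa_norm C t h ht hCt u v α β hS
  have nb : ∀ z, ‖b z‖ ≤ 5 := by rw [hb]; exact DBL_fb_norm C t h ht hCt u v α β hS
  have hF := DBL_FF_adm t h ht ht1 h1 h2 a b na nb ca cb
  have hK := DBL_KK_adm t h ht ht1 h1 h2 a b na nb ca cb
  have hFs := DBL_st_adm t ht ht1 _ hF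
  have hKs := DBL_st_adm t ht ht1 _ hK
  have hF2 := DBL_K2_adm t _ 3 16 (by norm_num) hF
  have hK2 := DBL_K2_adm t _ 3 16 (by norm_num) hK
  have hform : ∀ z ∈ DBL_U2 t, exa t a b z =
      DBL_ar t u β z + cj (DBL_br t v α (DBL_k t z)) * (t / (z - 1)) ∧
      exa t b a z = DBL_br t v α z + cj (DBL_ar t u β (DBL_k t z)) * (t / (z - 1)) := by
    intro z hz
    rw [ha, hb]
    exact DBL_exa_formula C t h ht ht1 u v α β hS z (DBL_ne1 t ht z hz) hz.2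
  -- equations
  have hin : ∀ z ∈ DBL_U2 t, ‖z - 1‖ < t →
      exa t a b z = cj (b (DBL_k t z)) * (t / (z - 1)) ∧
      exa t b a z = cj (a (DBL_k t z)) * (t / (z - 1)) := by
    intro z hz hlt
    unfold exa
    rw [if_pos hlt, if_pos hlt]
    exact ⟨rfl, rfl⟩
  have hout : ∀ z ∈ DBL_U2 t, t ≤ ‖z - 1‖ → exa t a b z = a z ∧ exa t b a z = b z := by
    intro z hz hge
    unfold exa
    have h5 := DBL_far t ht1 z hz.2.le
    rw [if_neg (not_lt.2 hge), if_neg (not_lt.2 h5.le), if_neg (not_lt.2 hge),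
      if_neg (not_lt.2 h5.le)]
    exact ⟨rfl, rfl⟩
  have hFeq : ∀ z ∈ DBL_U2 t, FF t h a b z + DBL_st t (KK t h a b) z =
      ((t * h / 2 * (‖exa t a b z‖ ^ 2 + ‖exa t b a z‖ ^ 2) : ℝ) : ℂ) * cj (exa t b a z) := by
    intro z hz
    by_cases hlt : ‖z - 1‖ < t
    · have hw : z - 1 ≠ 0 := sub_ne_zero.2 (DBL_ne1 t ht z hz)
      have h0 : 0 < ‖z - 1‖ := norm_pos_iff.2 hw
      have hk := DBL_k_mem t ht z hz
      have hkG : DBL_k t z ∈ G t := by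
        apply DBL_G_of t ht1 _ _ hk.2.le
        rw [DBL_k_norm, le_div_iff₀ h0]
        nlinarith
      rw [DBL_F0 t h a b z hlt, zero_add, DBL_st_val t ht _ z hz.1 hlt, DBL_KK_apply _ _ _ _ _ hkG,
        (hin z hz hlt).1, (hin z hz hlt).2]
      exact DBL_alg (t * h / 2) t ht (a (DBL_k t z)) (b (DBL_k t z)) (z - 1) hw
    · have hge : t ≤ ‖z - 1‖ := not_lt.1 hlt
      rw [DBL_st_zero t ht _ z (fun h => hlt h.2), add_zero,
        DBL_FF_apply _ _ _ _ _ (DBL_G_of t ht1 z hge hz.2.le), (hout z hz hge).1,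
        (hout z hz hge).2]
      rfl
  have hKeq : ∀ z ∈ DBL_U2 t, KK t h a b z + DBL_st t (FF t h a b) z =
      -(((t * h / 2 * (‖exa t a b z‖ ^ 2 + ‖exa t b a z‖ ^ 2) : ℝ) : ℂ) * cj (exa t a b z)) := by
    intro z hz
    by_cases hlt : ‖z - 1‖ < t
    · have hw : z - 1 ≠ 0 := sub_ne_zero.2 (DBL_ne1 t ht z hz)
      have h0 : 0 < ‖z - 1‖ := norm_pos_iff.2 hw
      have hk := DBL_k_mem t ht z hz
      have hkG : DBL_k t z ∈ G t := by
        apply DBL_G_of t ht1 _ _ hk.2.le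
        rw [DBL_k_norm, le_div_iff₀ h0]
        nlinarith
      rw [DBL_K0 t h a b z hlt, zero_add, DBL_st_val t ht _ z hz.1 hlt, DBL_FF_apply _ _ _ _ _ hkG,
        (hin z hz hlt).1, (hin z hz hlt).2]
      exact DBL_alg2 (t * h / 2) t ht (a (DBL_k t z)) (b (DBL_k t z)) (z - 1) hw
    · have hge : t ≤ ‖z - 1‖ := not_lt.1 hlt
      rw [DBL_st_zero t ht _ z (fun h => hlt h.2), add_zero,
        DBL_KK_apply _ _ _ _ _ (DBL_G_of t ht1 z hge hz.2.le), (hout z hz hge).1,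
        (hout z hz hge).2]
      rfl
  -- holomorphic parts
  have hVo : IsOpen {x : ℂ | t < ‖x + 1‖} :=
    isOpen_lt continuous_const (continuous_norm.comp (continuous_id.add continuous_const))
  have hsa : DifferentiableOn ℂ (fun x => sS t α (-x)) {x : ℂ | t < ‖x + 1‖} :=
    fun x hx => (DBL_sS_hol_neg t ht α hS.dα x hx).differentiableWithinAt
  have hsb : DifferentiableOn ℂ (fun x => sS t β (-x)) {x : ℂ | t < ‖x + 1‖} :=
    fun x hx => (DBL_sS_hol_neg t ht β hS.dβ x hx).differentiableWithinAt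
  have hB2 : ∀ K : ℂ → ℂ, ∀ w ∈ ball (1:ℂ) (2 * t), DBL_K2 t K w = 0 := by
    intro K w hw
    unfold DBL_K2
    rw [mem_ball, dist_eq_norm] at hw
    rw [if_neg (not_le.2 hw)]
  have hhF := hhol _ 3 16 hF2 (ball (1:ℂ) (2 * t)) isOpen_ball (hB2 _)
  have hhK := hhol _ 3 16 hK2 (ball (1:ℂ) (2 * t)) isOpen_ball (hB2 _)
  have hkb : ∀ z ∈ DBL_U2 t, DBL_k t z ∈ ball (1:ℂ) (2 * t) := by
    intro z hz
    rw [mem_ball, dist_eq_norm]
    exact (DBL_k_mem t ht z hz).2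
  have hkf : ∀ z ∈ DBL_U2 t, DBL_k t z ∈ {x : ℂ | t < ‖x + 1‖} := by
    intro z hz
    exact DBL_far t ht1 _ (DBL_k_mem t ht z hz).2.le
  have hg1 : DifferentiableOn ℂ (fun z => 1 + sS t β (-z) +
      cj (CT (DBL_K2 t (KK t h a b)) (1 + (t : ℂ) ^ 2 / cj (z - 1))) * (t / (z - 1)) -
      cj ((fun x => sS t α (-x)) (1 + (t : ℂ) ^ 2 / cj (z - 1))) * (t / (z - 1))) (DBL_U2 t) := by
    intro z hz
    apply DifferentiableAt.differentiableWithinAt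
    have d1 := DBL_sS_hol_neg t ht β hS.dβ z (DBL_far t ht1 z hz.2.le)
    have d2 := DBL_hol t _ _ isOpen_ball hhK z (DBL_ne1 t ht z hz) (hkb z hz)
    have d3 := DBL_hol t _ _ hVo hsa z (DBL_ne1 t ht z hz) (hkf z hz)
    exact (((differentiableAt_const _).add d1).add d2).sub d3
  have hg2 : DifferentiableOn ℂ (fun z => t / (z - 1) - sS t α (-z) +
      cj (CT (DBL_K2 t (FF t h a b)) (1 + (t : ℂ) ^ 2 / cj (z - 1))) * (t / (z - 1)) +
      cj ((fun x => sS t β (-x)) (1 + (t : ℂ) ^ 2 / cj (z - 1))) * (t / (z - 1))) (DBL_U2 t) := by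
    intro z hz
    apply DifferentiableAt.differentiableWithinAt
    have d0 : DifferentiableAt ℂ (fun z : ℂ => (t : ℂ) / (z - 1)) z :=
      (differentiableAt_const _).div (differentiableAt_id.sub (differentiableAt_const _))
        (sub_ne_zero.2 (DBL_ne1 t ht z hz))
    have d1 := DBL_sS_hol_neg t ht α hS.dα z (DBL_far t ht1 z hz.2.le)
    have d2 := DBL_hol t _ _ isOpen_ball hhF z (DBL_ne1 t ht z hz) (hkb z hz)
    have d3 := DBL_hol t _ _ hVo hsb z (DBL_ne1 t ht z hz) (hkf z hz)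
    exact ((d0.sub d1).add d2).add d3
  -- Adm of the sums
  have hAd : ∀ P Q : ℂ → ℂ, Adm P 3 16 → Adm Q 24 16 → Adm (fun w => P w + Q w) 27 16 := by
    intro P Q hP hQ
    refine ⟨hP.1.add hQ.1, fun w => ?_, fun w hw => ?_⟩
    · refine (norm_add_le _ _).trans ?_
      linarith [hP.2.1 w, hQ.2.1 w]
    · show P w + Q w = 0
      rw [hP.2.2 w hw, hQ.2.2 w hw, add_zero]
  have key := hREG (exa t a b) (exa t b a) _ _
    (fun w => FF t h a b w + DBL_st t (KK t h a b) w)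
    (fun w => KK t h a b w + DBL_st t (FF t h a b) w) (DBL_U2 t) (DBL_U2_open t) (t * h / 2) 27 16
    (hAd _ _ hF hKs) (hAd _ _ hK hFs) hg1 hg2 (by
      intro z hz
      have e1 := DBL_split hadd hinv t ht _ hK (DBL_K0 t h a b) z (DBL_ne1 t ht z hz)
      rw [(hform z hz).1, hadd _ _ 3 16 24 16 hF hKs]
      unfold DBL_ar DBL_br
      rw [hS.hu z, hS.hv (DBL_k t z), ← ha, ← hb, DBL_sub, sub_mul, e1]
      unfold DBL_k
      ring) (by
      intro z hz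
      have e1 := DBL_split hadd hinv t ht _ hF (DBL_F0 t h a b) z (DBL_ne1 t ht z hz)
      rw [(hform z hz).2, hadd _ _ 3 16 24 16 hK hFs]
      unfold DBL_ar DBL_br
      rw [hS.hv z, hS.hu (DBL_k t z), ← ha, ← hb, DBL_add, DBL_add, DBL_one, add_mul, add_mul, e1]
      unfold DBL_k
      ring) hFeq hKeq
  refine ⟨key.1, key.2.1, fun z hz => ?_, fun z hz => ?_⟩
  · rw [key.2.2.1 z hz]
    exact hFeq z hz
  · rw [key.2.2.2 z hz]
    exact hKeq z hz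

/-- outer region -/
def DBL_U1 (t : ℝ) : Set ℂ := {z | ‖z‖ < 12 ∧ t < ‖z - 1‖ ∧ t < ‖z + 1‖}

theorem DBL_U1_open (t : ℝ) : IsOpen (DBL_U1 t) :=
  (isOpen_lt continuous_norm continuous_const).inter
    ((isOpen_lt continuous_const (continuous_norm.comp (continuous_id.sub continuous_const))).inter
    (isOpen_lt continuous_const (continuous_norm.comp (continuous_id.add continuous_const))))

theorem DBL_outer (hREG : DBL_Hreg)
    (C t h : ℝ) (ht : 0 < t) (ht1 : t < 1 / 100) (h1 : 1 / 2 ≤ h) (h2 : h ≤ 2)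
    (hCt : C * t < 1 / 10) (u v α β a b : ℂ → ℂ)
    (hS : Sol C t h u v α β) (ha : a = fa t u β) (hb : b = fb t v α) :
    ContDiffOn ℝ ∞ (exa t a b) (DBL_U1 t) ∧ ContDiffOn ℝ ∞ (exa t b a) (DBL_U1 t) ∧
    (∀ z ∈ DBL_U1 t, dzb (exa t a b) z =
      ((t * h / 2 * (‖exa t a b z‖ ^ 2 + ‖exa t b a z‖ ^ 2) : ℝ) : ℂ) * cj (exa t b a z)) ∧
    (∀ z ∈ DBL_U1 t, dzb (exa t b a) z =
      -(((t * h / 2 * (‖exa t a b z‖ ^ 2 + ‖exa t b a z‖ ^ 2) : ℝ) : ℂ) * cj (exa t a b z))) := by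
  have ca : Continuous a := by rw [ha]; exact DBL_fa_cont t ht u β hS.cu hS.cβ
  have cb : Continuous b := by rw [hb]; exact DBL_fb_cont t ht v α hS.cv hS.cα
  have na : ∀ z, ‖a z‖ ≤ 4 := by rw [ha]; exact DBL_fa_norm C t h ht hCt u v α β hS
  have nb : ∀ z, ‖b z‖ ≤ 5 := by rw [hb]; exact DBL_fb_norm C t h ht hCt u v α β hS
  have hF := DBL_FF_adm t h ht ht1 h1 h2 a b na nb ca cb
  have hK := DBL_KK_adm t h ht ht1 h1 h2 a b na nb ca cb
  have hG : ∀ z ∈ DBL_U1 t, z ∈ G t := fun z hz => ⟨by linarith [hz.1], hz.2.1.le, hz.2.2.le⟩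
  have hout : ∀ z ∈ DBL_U1 t, exa t a b z = a z ∧ exa t b a z = b z := by
    intro z hz
    unfold exa
    rw [if_neg (not_lt.2 hz.2.1.le), if_neg (not_lt.2 hz.2.2.le), if_neg (not_lt.2 hz.2.1.le),
      if_neg (not_lt.2 hz.2.2.le)]
    exact ⟨rfl, rfl⟩
  have hFeq : ∀ z ∈ DBL_U1 t, FF t h a b z =
      ((t * h / 2 * (‖exa t a b z‖ ^ 2 + ‖exa t b a z‖ ^ 2) : ℝ) : ℂ) * cj (exa t b a z) := by
    intro z hz
    rw [DBL_FF_apply _ _ _ _ _ (hG z hz), (hout z hz).1, (hout z hz).2]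
    rfl
  have hKeq : ∀ z ∈ DBL_U1 t, KK t h a b z =
      -(((t * h / 2 * (‖exa t a b z‖ ^ 2 + ‖exa t b a z‖ ^ 2) : ℝ) : ℂ) * cj (exa t a b z)) := by
    intro z hz
    rw [DBL_KK_apply _ _ _ _ _ (hG z hz), (hout z hz).1, (hout z hz).2]
    rfl
  have hg1 : DifferentiableOn ℂ (fun z => 1 + sS t β z + sS t β (-z)) (DBL_U1 t) := by
    intro z hz
    apply DifferentiableAt.differentiableWithinAt
    have d1 := DBL_sS_hol t ht β hS.dβ z hz.2.1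
    have d2 := DBL_sS_hol_neg t ht β hS.dβ z hz.2.2
    exact ((differentiableAt_const _).add d1).add d2
  have hg2 : DifferentiableOn ℂ (fun z => sS t α z - sS t α (-z)) (DBL_U1 t) := by
    intro z hz
    apply DifferentiableAt.differentiableWithinAt
    have d1 := DBL_sS_hol t ht α hS.dα z hz.2.1
    have d2 := DBL_sS_hol_neg t ht α hS.dα z hz.2.2
    exact d1.sub d2
  have key := hREG (exa t a b) (exa t b a) _ _
    (FF t h a b) (KK t h a b) (DBL_U1 t) (DBL_U1_open t) (t * h / 2) 3 16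
    hF hK hg1 hg2 (by
      intro z hz
      rw [(hout z hz).1]
      conv_lhs => rw [ha]
      unfold fa
      rw [hS.hu z, ← ha, ← hb]
      ring) (by
      intro z hz
      rw [(hout z hz).2]
      conv_lhs => rw [hb]
      unfold fb
      rw [hS.hv z, ← ha, ← hb]
      ring) hFeq hKeq
  refine ⟨key.1, key.2.1, fun z hz => ?_, fun z hz => ?_⟩
  · rw [key.2.2.1 z hz]
    exact hFeq z hz
  · rw [key.2.2.2 z hz]
    exact hKeq z hz

/-- parity of the extended field, even/odd version -/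
theorem DBL_exa_neg (t : ℝ) (ht1 : t < 1 / 100) (a b : ℂ → ℂ) (s : ℂ) (hs : s = 1 ∨ s = -1)
    (ha : ∀ z, a (-z) = s * a z) (hb : ∀ z, b (-z) = -(s * b z)) (z : ℂ) :
    exa t a b (-z) = s * exa t a b z := by
  have n1 : ‖-z - 1‖ = ‖z + 1‖ := by
    have : -z - 1 = -(z + 1) := by ring
    rw [this, norm_neg]
  have n2 : ‖-z + 1‖ = ‖z - 1‖ := by
    have : -z + 1 = -(z - 1) := by ring
    rw [this, norm_neg]
  have hcs : cj s = s := by
    rcases hs with rfl | rfl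
    · exact DBL_one
    · rw [DBL_neg, DBL_one]
  have hcm : ∀ x : ℂ, cj (-(s * x)) = -(s * cj x) := by
    intro x
    rw [DBL_neg, DBL_mul, hcs]
  unfold exa
  rw [n1, n2]
  by_cases h1 : ‖z - 1‖ < t
  · have h2 : ¬ ‖z + 1‖ < t := by
      have := DBL_far t ht1 z (by
        have := norm_nonneg (z - 1)
        linarith)
      exact not_lt.2 this.le
    rw [if_neg h2, if_pos h1, if_pos h1]
    have e1 : (-1 + (t:ℂ) ^ 2 / cj (-z + 1)) = -(1 + (t:ℂ) ^ 2 / cj (z - 1)) := by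
      have : -z + 1 = -(z - 1) := by ring
      rw [this, DBL_neg, div_neg]
      ring
    rw [e1, hb, hcm]
    have : -z + 1 = -(z - 1) := by ring
    rw [this, div_neg]
    ring
  · by_cases h2 : ‖z + 1‖ < t
    · rw [if_pos h2, if_neg h1, if_pos h2]
      have e1 : (1 + (t:ℂ) ^ 2 / cj (-z - 1)) = -(-1 + (t:ℂ) ^ 2 / cj (z + 1)) := by
        have : -z - 1 = -(z + 1) := by ring
        rw [this, DBL_neg, div_neg]
        ring
      rw [e1, hb, hcm]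
      have : -z - 1 = -(z + 1) := by ring
      rw [this, div_neg]
      ring
    · rw [if_neg h2, if_neg h1, if_neg h1, if_neg h2, ha]

theorem DBL_exa_cj (t : ℝ) (a b : ℂ → ℂ) (ha : ∀ z, a (cj z) = cj (a z))
    (hb : ∀ z, b (cj z) = cj (b z)) (z : ℂ) : exa t a b (cj z) = cj (exa t a b z) := by
  have c1 : cj z - 1 = cj (z - 1) := DBL_cjsub z
  have c2 : cj z + 1 = cj (z + 1) := by rw [DBL_add, DBL_one]
  unfold exa
  rw [c1, c2, DBL_norm_cj, DBL_norm_cj]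
  split_ifs with h1 h2
  · have e : (1 + (t:ℂ) ^ 2 / cj (cj (z - 1))) = cj (1 + (t:ℂ) ^ 2 / cj (z - 1)) := by
      rw [DBL_add, DBL_div, DBL_pow, DBL_cjt, DBL_one]
    rw [e, hb, DBL_mul, DBL_div, DBL_cjt]
  · have e : (-1 + (t:ℂ) ^ 2 / cj (cj (z + 1))) = cj (-1 + (t:ℂ) ^ 2 / cj (z + 1)) := by
      rw [DBL_add (-1), DBL_div, DBL_pow, DBL_cjt, DBL_neg, DBL_one]
    rw [e, hb, DBL_mul, DBL_div, DBL_cjt]
  · exact ha z

theorem DBL_refl (C t h : ℝ) (ht : 0 < t) (ht1 : t < 1 / 100) (u v α β a b : ℂ → ℂ)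
    (hS : Sol C t h u v α β) (ha : a = fa t u β) (hb : b = fb t v α) (z : ℂ)
    (h1 : t / 2 < ‖z - 1‖) (h2 : ‖z - 1‖ < 2 * t) :
    exa t b a z = cj (exa t a b (1 + t ^ 2 / cj (z - 1))) * (t / (z - 1)) := by
  have hz : z ∈ DBL_U2 t := ⟨h1, h2⟩
  have hk := DBL_k_mem t ht z hz
  have f1 := DBL_exa_formula C t h ht ht1 u v α β hS z (DBL_ne1 t ht z hz) hz.2
  have f2 := DBL_exa_formula C t h ht ht1 u v α β hS _ (DBL_ne1 t ht _ hk) hk.2
  have hw : z - 1 ≠ 0 := sub_ne_zero.2 (DBL_ne1 t ht z hz)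
  have hcw := DBL_ne _ hw
  have htc : (t : ℂ) ≠ 0 := by exact_mod_cast ht.ne'
  show exa t b a z = cj (exa t a b (DBL_k t z)) * (t / (z - 1))
  rw [ha, hb, f1.2, f2.1, DBL_k_k t ht z (DBL_ne1 t ht z hz)]
  have h3 : DBL_k t z - 1 = (t : ℂ) ^ 2 / cj (z - 1) := by
    unfold DBL_k
    ring
  rw [h3, DBL_add, DBL_mul, DBL_cjcj, DBL_div, DBL_div, DBL_pow, DBL_cjt, DBL_cjcj]
  field_simp
  ring

theorem DBL_dzb_congr (f g : ℂ → ℂ) (z : ℂ) (h : f =ᶠ[nhds z] g) : dzb f z = dzb g z := by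
  unfold dzb
  rw [h.fderiv_eq]

theorem DBL_dzb_neg (f : ℂ → ℂ) (z : ℂ) (hf : DifferentiableAt ℝ f (-z)) :
    dzb (fun x => f (-x)) z = -dzb f (-z) := by
  have h1 : HasFDerivAt (fun x : ℂ => f (-x)) ((fderiv ℝ f (-z)).comp
      (-(ContinuousLinearMap.id ℝ ℂ))) z :=
    HasFDerivAt.comp z hf.hasFDerivAt (hasFDerivAt_id z).neg
  unfold dzb
  rw [h1.fderiv]
  simp only [ContinuousLinearMap.comp_apply, ContinuousLinearMap.neg_apply,
    ContinuousLinearMap.id_apply, map_neg]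
  ring

/-- the extended fields are smooth and solve the Dirac system -/
theorem DBL
    (hREG : ∀ (a b g₁ g₂ F K : ℂ → ℂ) (U : Set ℂ) (_ : IsOpen U) (ε M ρ : ℝ) (_ : Adm F M ρ)
      (_ : Adm K M ρ) (_ : DifferentiableOn ℂ g₁ U) (_ : DifferentiableOn ℂ g₂ U)
      (_ : ∀ z ∈ U, a z = g₁ z + CT F z) (_ : ∀ z ∈ U, b z = g₂ z + CT K z)
      (_ : ∀ z ∈ U, F z = ((ε * (‖a z‖ ^ 2 + ‖b z‖ ^ 2) : ℝ) : ℂ) * cj (b z))
      (_ : ∀ z ∈ U, K z = - (((ε * (‖a z‖ ^ 2 + ‖b z‖ ^ 2) : ℝ) : ℂ) * cj (a z))),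
      ContDiffOn ℝ ∞ a U ∧ ContDiffOn ℝ ∞ b U ∧ (∀ z ∈ U, dzb a z = F z) ∧
        (∀ z ∈ U, dzb b z = K z))
    (hadd : ∀ (F K : ℂ → ℂ) (M ρ M' ρ' : ℝ), Adm F M ρ → Adm K M' ρ' → ∀ z : ℂ,
      CT (fun w => F w + K w) z = CT F z + CT K z)
    (hhol : ∀ (F : ℂ → ℂ) (M ρ : ℝ), Adm F M ρ → ∀ U : Set ℂ, IsOpen U → (∀ w ∈ U, F w = 0) →
      DifferentiableOn ℂ (CT F) U)
    (hinv : ∀ (t : ℝ) (_ : 0 < t) (K : ℂ → ℂ) (M : ℝ) (_ : Measurable K)
      (_ : ∀ w, ‖K w‖ ≤ M) (_ : ∀ w, ‖w - 1‖ < t ∨ 2 * t < ‖w - 1‖ → K w = 0)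
      (ζ : ℂ) (_ : ζ ≠ 1),
      cj (CT K (1 + t ^ 2 / cj (ζ - 1))) * (t / (ζ - 1)) =
        CT (fun v => - (cj (K (1 + t ^ 2 / cj (v - 1))) * t ^ 3 / ((v - 1) * cj (v - 1) ^ 2))) ζ)
    (C t h : ℝ) (hC : 0 < C) (ht : 0 < t) (ht1 : t < 1 / 100) (h1 : 1 / 2 ≤ h) (h2 : h ≤ 2)
    (hCt : C * t < 1 / 10) (u v α β a b : ℂ → ℂ)
    (hS : Sol C t h u v α β) (ha : a = fa t u β) (hb : b = fb t v α) :
    Dirac (t * h) (exa t a b) (exa t b a) (Ut t) ∧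
    (∀ ζ, t / 2 < ‖ζ - 1‖ → ‖ζ - 1‖ < 2 * t →
      exa t b a ζ = cj (exa t a b (1 + t ^ 2 / cj (ζ - 1))) * (t / (ζ - 1))) ∧
    (∀ ζ ∈ Ut t, exa t a b (-ζ) = exa t a b ζ) ∧ (∀ ζ ∈ Ut t, exa t b a (-ζ) = - exa t b a ζ) ∧
    (∀ ζ ∈ Ut t, exa t a b (cj ζ) = cj (exa t a b ζ)) ∧
    (∀ ζ ∈ Ut t, exa t b a (cj ζ) = cj (exa t b a ζ)) := by
  have ea : ∀ z, a (-z) = 1 * a z := by
    intro z
    rw [ha, DBL_fa_even C t h u v α β hS, one_mul]
  have ob : ∀ z, b (-z) = -(1 * b z) := by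
    intro z
    rw [hb, DBL_fb_odd C t h u v α β hS, one_mul]
  have ea' : ∀ z, a (-z) = -(-1 * a z) := by
    intro z
    rw [ea]
    ring
  have ob' : ∀ z, b (-z) = -1 * b z := by
    intro z
    rw [ob]
    ring
  have even : ∀ z, exa t a b (-z) = exa t a b z := by
    intro z
    rw [DBL_exa_neg t ht1 a b 1 (Or.inl rfl) ea ob, one_mul]
  have odd : ∀ z, exa t b a (-z) = -exa t b a z := by
    intro z
    rw [DBL_exa_neg t ht1 b a (-1) (Or.inr rfl) ob' ea']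
    ring
  have ja : ∀ z, a (cj z) = cj (a z) := by
    intro z
    rw [ha, DBL_fa_cj C t h u v α β hS]
  have jb : ∀ z, b (cj z) = cj (b z) := by
    intro z
    rw [hb, DBL_fb_cj C t h u v α β hS]
  obtain ⟨A1, A2, A3, A4⟩ := DBL_outer hREG C t h ht ht1 h1 h2 hCt u v α β a b hS ha hb
  obtain ⟨B1, B2, B3, B4⟩ := DBL_ann hREG hadd hhol hinv C t h ht ht1 h1 h2 hCt u v α β a b hS ha hb
  have hloc : ∀ z ∈ Ut t, ContDiffAt ℝ ∞ (exa t a b) z ∧ ContDiffAt ℝ ∞ (exa t b a) z ∧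
      dzb (exa t a b) z =
        ((t * h / 2 * (‖exa t a b z‖ ^ 2 + ‖exa t b a z‖ ^ 2) : ℝ) : ℂ) * cj (exa t b a z) ∧
      dzb (exa t b a) z =
        -(((t * h / 2 * (‖exa t a b z‖ ^ 2 + ‖exa t b a z‖ ^ 2) : ℝ) : ℂ) * cj (exa t a b z)) := by
    intro z hz
    by_cases hc1 : ‖z - 1‖ < 2 * t
    · have hz2 : z ∈ DBL_U2 t := ⟨hz.2.1, hc1⟩
      have hn := (DBL_U2_open t).mem_nhds hz2
      exact ⟨B1.contDiffAt hn, B2.contDiffAt hn, B3 z hz2, B4 z hz2⟩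
    · by_cases hc2 : ‖z + 1‖ < 2 * t
      · have hneg : ‖-z - 1‖ = ‖z + 1‖ := by
          have : -z - 1 = -(z + 1) := by ring
          rw [this, norm_neg]
        have hz2 : -z ∈ DBL_U2 t := ⟨by rw [hneg]; exact hz.2.2, by rw [hneg]; exact hc2⟩
        have hn := (DBL_U2_open t).mem_nhds hz2
        have c1 : ContDiffAt ℝ ∞ (exa t a b) (-z) := B1.contDiffAt hn
        have c2 : ContDiffAt ℝ ∞ (exa t b a) (-z) := B2.contDiffAt hn
        have e1 : exa t a b = fun x => exa t a b (-x) := by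
          funext x
          rw [even]
        have e2 : exa t b a = fun x => -exa t b a (-x) := by
          funext x
          rw [odd, neg_neg]
        have c3 : ContDiffAt ℝ ∞ (fun x => exa t a b (-x)) z :=
          ContDiffAt.comp z c1 contDiffAt_id.neg
        have c4 : ContDiffAt ℝ ∞ (fun x => exa t b a (-x)) z :=
          ContDiffAt.comp z c2 contDiffAt_id.neg
        have d1 : DifferentiableAt ℝ (exa t a b) (-z) := c1.differentiableAt (by simp)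
        have d2 : DifferentiableAt ℝ (exa t b a) (-z) := c2.differentiableAt (by simp)
        refine ⟨?_, ?_, ?_, ?_⟩
        · rw [e1]; exact c3
        · rw [e2]; exact c4.neg
        · have k1 : dzb (exa t a b) z = -dzb (exa t a b) (-z) := by
            conv_lhs => rw [e1]
            exact DBL_dzb_neg _ z d1
          rw [k1, B3 _ hz2, even, odd, norm_neg, DBL_neg]
          ring
        · have k1 : dzb (exa t b a) z = dzb (exa t b a) (-z) := by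
            have k2 : dzb (fun x => exa t b a (-x)) z = -dzb (exa t b a) (-z) :=
              DBL_dzb_neg _ z d2
            have k3 : (fun x => exa t b a (-x)) = fun x => -exa t b a x := by
              funext x
              rw [odd]
            rw [k3] at k2
            have k4 : dzb (fun x => -exa t b a x) z = -dzb (exa t b a) z := by
              unfold dzb
              have : fderiv ℝ (fun x => -exa t b a x) z = -fderiv ℝ (exa t b a) z :=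
                fderiv_neg
              rw [this]
              simp only [ContinuousLinearMap.neg_apply]
              ring
            rw [k4] at k2
            exact neg_injective k2
          rw [k1, B4 _ hz2, even, odd, norm_neg]
      · have hz1 : z ∈ DBL_U1 t := ⟨hz.1, by
          have := not_lt.1 hc1
          linarith, by
          have := not_lt.1 hc2
          linarith⟩
        have hn := (DBL_U1_open t).mem_nhds hz1
        exact ⟨A1.contDiffAt hn, A2.contDiffAt hn, A3 z hz1, A4 z hz1⟩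
  refine ⟨⟨fun z hz => (hloc z hz).1.contDiffWithinAt, fun z hz => (hloc z hz).2.1.contDiffWithinAt,
    fun z hz => (hloc z hz).2.2.1, fun z hz => (hloc z hz).2.2.2⟩, ?_, fun z _ => even z,
    fun z _ => odd z, fun z _ => DBL_exa_cj t a b ja jb z, fun z _ => DBL_exa_cj t b a jb ja z⟩
  intro z hz1 hz2
  exact DBL_refl C t h ht ht1 u v α β a b hS ha hb z hz1 hz2



end Pool.Agent.Helper676.TL
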