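import Mathlib
import Pool.Agent.Helper676.TL.Defs
import Pool.Agent.Helper676.TL.Base

set_option autoImplicit false

namespace Pool.Agent.Helper676.TL

open Set Metric
open scoped ContDiff

/-- Wiener algebra of functions `∑ c_{mn} z^m z̄^n` on the closed unit disc. -/
structure DW (A : Type) [NormedCommRing A] [NormedAlgebra ℂ A] where
  ev : ℂ → A →ₐ[ℂ] ℂ
  ev_bound : ∀ (z : ℂ) (x : A), ‖z‖ ≤ 1 → ‖ev z x‖ ≤ ‖x‖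
  cnj : A → A
  cnj_sub : ∀ x y, cnj (x - y) = cnj x - cnj y
  cnj_norm : ∀ x, ‖cnj x‖ = ‖x‖
  cnj_ev : ∀ (z : ℂ) (x : A), ‖z‖ ≤ 1 → ev z (cnj x) = cj (ev z x)
  T : A →L[ℂ] A
  T_bound : ∀ x, ‖T x‖ ≤ 2 * ‖x‖
  T_ev : ∀ (z : ℂ) (x : A), ‖z‖ < 1 →
    ev z (T x) = CT ((ball (0 : ℂ) 1).indicator fun w => ev w x) z
  hol : ∀ c : ℕ → ℂ, Summable (fun n => ‖c n‖) →
    ∃ x : A, ‖x‖ ≤ ∑' n, ‖c n‖ ∧ ∀ z : ℂ, ‖z‖ ≤ 1 → ev z x = ∑' n, c n * z ^ n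
  smooth : ∀ x, ContDiffOn ℝ ∞ (fun z => ev z x) (ball 0 1)
  dbar : ∀ (x : A) (z : ℂ), ‖z‖ < 1 → dzb (fun z => ev z (T x)) z = ev z x


end Pool.Agent.Helper676.TL
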