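import Mathlib
import Pool.Agent.Helper676.TL.Defs
import Pool.Agent.Helper676.TL.Base

set_option autoImplicit false

namespace Pool.Agent.Helper676.TL

open Set Metric
open scoped ContDiff



section estaux
open MeasureTheory

theorem est_int_inv (c : ℂ) (hc : ‖c‖ ≤ 1) :
    IntegrableOn (fun w : ℂ => ‖w - c‖⁻¹) (ball 0 16) := by
  have h1 : IntegrableOn (fun w : ℂ => ‖w‖⁻¹) (ball (0 : ℂ) 17) := by
    have h := (integrableOn_fun_norm_addHaar (E := ℂ) (volume : Measure ℂ)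
      (f := fun y : ℝ => y⁻¹) (r := 17))
    rw [h, Complex.finrank_real_complex]
    have h2 : IntegrableOn (fun _ : ℝ => (1 : ℝ)) (Ioo 0 17) := by
      rw [integrableOn_const_iff]
      right
      rw [Real.volume_Ioo]
      exact ENNReal.ofReal_lt_top
    refine h2.congr_fun ?_ measurableSet_Ioo
    intro y hy
    have hy0 : y ≠ 0 := hy.1.ne'
    simp [hy0]
  have h2 : IntegrableOn (fun w : ℂ => ‖w - c‖⁻¹) (ball c 17) := by
    rw [← integrable_indicator_iff measurableSet_ball]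
    have h3 := (h1.integrable_indicator measurableSet_ball).comp_sub_right c
    refine h3.congr (Filter.Eventually.of_forall ?_)
    intro w
    by_cases hw : w ∈ ball c 17
    · have hw' : w - c ∈ ball (0 : ℂ) 17 := by
        rw [mem_ball_zero_iff]
        rwa [mem_ball, dist_eq_norm] at hw
      show indicator (ball (0 : ℂ) 17) (fun w : ℂ => ‖w‖⁻¹) (w - c) = _
      rw [indicator_of_mem hw, indicator_of_mem hw']
    · have hw' : w - c ∉ ball (0 : ℂ) 17 := by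
        rw [mem_ball_zero_iff]
        rwa [mem_ball, dist_eq_norm] at hw
      show indicator (ball (0 : ℂ) 17) (fun w : ℂ => ‖w‖⁻¹) (w - c) = _
      rw [indicator_of_notMem hw, indicator_of_notMem hw']
  refine h2.mono_set (ball_subset_ball' ?_)
  rw [dist_eq_norm, zero_sub, norm_neg]
  linarith

theorem est_max_pos {t : ℝ} (ht : 0 < t) (ζ : ℂ) : 0 < max ‖ζ - 1‖ t :=
  lt_of_lt_of_le ht (le_max_right _ _)

theorem est_tau_norm {t : ℝ} (ht : 0 < t) (ζ : ℂ) :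
    ‖tau t ζ‖ = t * ‖ζ - 1‖ / (max ‖ζ - 1‖ t) ^ 2 := by
  have h := est_max_pos ht ζ
  unfold tau cj
  rw [norm_mul, Complex.norm_real, RCLike.norm_conj, Real.norm_eq_abs, abs_of_pos (by positivity)]
  ring

theorem est_tau_le {t : ℝ} (ht : 0 < t) (ζ : ℂ) : ‖tau t ζ‖ ≤ 1 := by
  have h := est_max_pos ht ζ
  rw [est_tau_norm ht, div_le_one (by positivity), pow_two]
  rw [mul_comm t]
  exact mul_le_mul (le_max_left _ _) (le_max_right _ _) ht.le h.le

theorem est_tau_eq {t : ℝ} (ht : 0 < t) {ζ : ℂ} (hζ : t ≤ ‖ζ - 1‖) :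
    tau t ζ = t / (ζ - 1) := by
  have hpos : 0 < ‖ζ - 1‖ := lt_of_lt_of_le ht hζ
  have hne : ζ - 1 ≠ 0 := norm_pos_iff.mp hpos
  rw [eq_div_iff hne]
  unfold tau cj
  rw [max_eq_left hζ, mul_assoc, mul_comm (starRingEnd ℂ (ζ - 1)), Complex.mul_conj,
    Complex.normSq_eq_norm_sq, ← Complex.ofReal_mul]
  congr 1
  field_simp

theorem est_tau_norm_le {t : ℝ} (ht : 0 < t) {ζ : ℂ} (hζ : t ≤ ‖ζ - 1‖) :
    ‖tau t ζ‖ = t * ‖ζ - 1‖⁻¹ := by
  rw [est_tau_eq ht hζ, norm_div, Complex.norm_real, Real.norm_eq_abs, abs_of_pos ht,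
    div_eq_mul_inv]

theorem est_sS (t : ℝ) (β : ℂ → ℂ) (ζ : ℂ) : ‖sS t β ζ‖ = ‖β (kap t ζ)‖ * ‖tau t ζ‖ := by
  unfold sS cj
  rw [norm_mul, RCLike.norm_conj]

theorem est_cont_kap {t : ℝ} (ht : 0 < t) : Continuous (kap t) := by
  unfold kap
  have h : ∀ ζ : ℂ, (max ‖ζ - 1‖ t) ^ 2 ≠ 0 := fun ζ => pow_ne_zero 2 (est_max_pos ht ζ).ne'
  have h1 : Continuous (fun ζ : ℂ => t ^ 2 / (max ‖ζ - 1‖ t) ^ 2) :=
    continuous_const.div (by fun_prop) h
  exact continuous_const.add ((Complex.continuous_ofReal.comp h1).mul (by fun_prop))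

theorem est_cont_tau {t : ℝ} (ht : 0 < t) : Continuous (tau t) := by
  unfold tau
  have h : ∀ ζ : ℂ, (max ‖ζ - 1‖ t) ^ 2 ≠ 0 := fun ζ => pow_ne_zero 2 (est_max_pos ht ζ).ne'
  have h1 : Continuous (fun ζ : ℂ => t / (max ‖ζ - 1‖ t) ^ 2) :=
    continuous_const.div (by fun_prop) h
  exact (Complex.continuous_ofReal.comp h1).mul (Complex.continuous_conj.comp (by fun_prop))

theorem est_cont_sS {t : ℝ} (ht : 0 < t) {β : ℂ → ℂ} (hβ : Continuous β) :
    Continuous (sS t β) := by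
  unfold sS
  exact (Complex.continuous_conj.comp (hβ.comp (est_cont_kap ht))).mul (est_cont_tau ht)

theorem est_cont_fa {t : ℝ} (ht : 0 < t) {u β : ℂ → ℂ} (hu : Continuous u) (hβ : Continuous β) :
    Continuous (fa t u β) := by
  unfold fa
  exact ((continuous_const.add hu).add (est_cont_sS ht hβ)).add
    ((est_cont_sS ht hβ).comp continuous_neg)

theorem est_cont_fb {t : ℝ} (ht : 0 < t) {v α : ℂ → ℂ} (hv : Continuous v) (hα : Continuous α) :
    Continuous (fb t v α) := by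
  unfold fb
  exact (hv.add (est_cont_sS ht hα)).sub ((est_cont_sS ht hα).comp continuous_neg)

theorem est_meas_G (t : ℝ) : MeasurableSet (G t) := by
  unfold G
  refine MeasurableSet.inter ?_ (MeasurableSet.inter ?_ ?_)
  · exact measurableSet_lt (f := fun ζ : ℂ => ‖ζ‖) (by fun_prop) measurable_const
  · exact measurableSet_le (g := fun ζ : ℂ => ‖ζ - 1‖) measurable_const (by fun_prop)
  · exact measurableSet_le (g := fun ζ : ℂ => ‖ζ + 1‖) measurable_const (by fun_prop)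

/-- the majorant -/
noncomputable def estg (C : ℝ) (w : ℂ) : ℝ :=
  21 * C + 6 * C ^ 2 + 24 * ‖w - 1‖⁻¹ + 24 * ‖w + 1‖⁻¹

theorem estg_int (C : ℝ) : IntegrableOn (estg C) (ball 0 16) := by
  unfold estg
  have h1 := est_int_inv 1 (by simp)
  have h2 := est_int_inv (-1) (by simp)
  simp only [sub_neg_eq_add] at h2
  have h3 : IntegrableOn (fun _ : ℂ => 21 * C + 6 * C ^ 2) (ball 0 16) := by
    rw [integrableOn_const_iff]
    right
    exact measure_ball_lt_top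
  exact (h3.add (h1.const_mul 24)).add (h2.const_mul 24)

theorem estg_nonneg {C : ℝ} (hC : 0 < C) (w : ℂ) : 0 ≤ estg C w := by
  unfold estg
  positivity

/-- pointwise bound for the cubic term -/
theorem est_cubic {δ : ℝ} (hδ : 0 ≤ δ) (hδ1 : δ ≤ 1) (a b : ℂ) (ha : ‖a - 1‖ ≤ δ) :
    ‖1 - ((‖a‖ ^ 2 + ‖b‖ ^ 2 : ℝ) : ℂ) * cj a‖ ≤ 7 * δ + 2 * ‖b‖ ^ 2 := by
  have h1 : ‖a‖ ≤ 1 + δ := by
    have := norm_add_le (a - 1) 1
    rw [sub_add_cancel, norm_one] at this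
    linarith
  have h2 : |1 - ‖a‖| ≤ δ := by
    have := abs_norm_sub_norm_le a 1
    rw [norm_one] at this
    rw [abs_sub_comm]
    linarith
  have h3 : ‖a‖ ≤ 2 := by linarith
  have h4 : (1 : ℂ) - ((‖a‖ ^ 2 + ‖b‖ ^ 2 : ℝ) : ℂ) * cj a
      = cj (1 - a) + ((1 - ‖a‖ ^ 2 : ℝ) : ℂ) * cj a - ((‖b‖ ^ 2 : ℝ) : ℂ) * cj a := by
    unfold cj
    rw [map_sub, map_one]
    push_cast
    ring
  rw [h4]
  have h5 : ‖cj (1 - a)‖ ≤ δ := by
    unfold cj
    rw [RCLike.norm_conj, norm_sub_rev]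
    exact ha
  have h6 : ‖((1 - ‖a‖ ^ 2 : ℝ) : ℂ) * cj a‖ ≤ 6 * δ := by
    unfold cj
    rw [norm_mul, RCLike.norm_conj, Complex.norm_real, Real.norm_eq_abs]
    have h7 : |1 - ‖a‖ ^ 2| ≤ δ * 3 := by
      have h8 : 1 - ‖a‖ ^ 2 = (1 - ‖a‖) * (1 + ‖a‖) := by ring
      rw [h8, abs_mul]
      have h9 : |1 + ‖a‖| ≤ 3 := by
        rw [abs_of_nonneg (by positivity)]
        linarith
      exact mul_le_mul h2 h9 (abs_nonneg _) hδ
    calc |1 - ‖a‖ ^ 2| * ‖a‖ ≤ (δ * 3) * 2 := mul_le_mul h7 h3 (norm_nonneg _) (by positivity)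
      _ = 6 * δ := by ring
  have h10 : ‖((‖b‖ ^ 2 : ℝ) : ℂ) * cj a‖ ≤ 2 * ‖b‖ ^ 2 := by
    unfold cj
    rw [norm_mul, RCLike.norm_conj, Complex.norm_real, Real.norm_eq_abs,
      abs_of_nonneg (by positivity), mul_comm]
    exact mul_le_mul_of_nonneg_right h3 (by positivity)
  calc ‖cj (1 - a) + ((1 - ‖a‖ ^ 2 : ℝ) : ℂ) * cj a - ((‖b‖ ^ 2 : ℝ) : ℂ) * cj a‖
      ≤ ‖cj (1 - a) + ((1 - ‖a‖ ^ 2 : ℝ) : ℂ) * cj a‖ + ‖((‖b‖ ^ 2 : ℝ) : ℂ) * cj a‖ :=
        norm_sub_le _ _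
    _ ≤ (‖cj (1 - a)‖ + ‖((1 - ‖a‖ ^ 2 : ℝ) : ℂ) * cj a‖) + ‖((‖b‖ ^ 2 : ℝ) : ℂ) * cj a‖ := by
        gcongr
        exact norm_add_le _ _
    _ ≤ 7 * δ + 2 * ‖b‖ ^ 2 := by linarith

theorem est_fa {C t h : ℝ} {u v α β : ℂ → ℂ} (hC : 0 < C) (ht : 0 < t)
    (hS : Sol C t h u v α β) (ζ : ℂ) : ‖fa t u β ζ - 1‖ ≤ 3 * C * t := by
  have hCt : 0 ≤ C * t := by positivity
  have h1 : fa t u β ζ - 1 = u ζ + sS t β ζ + sS t β (-ζ) := by
    unfold fa
    ring
  have h2 : ∀ ζ, ‖sS t β ζ‖ ≤ C * t := by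
    intro ζ
    rw [est_sS]
    calc ‖β (kap t ζ)‖ * ‖tau t ζ‖ ≤ (C * t) * 1 :=
          mul_le_mul (hS.bβ _) (est_tau_le ht ζ) (norm_nonneg _) hCt
      _ = C * t := mul_one _
  rw [h1]
  calc ‖u ζ + sS t β ζ + sS t β (-ζ)‖ ≤ ‖u ζ‖ + ‖sS t β ζ‖ + ‖sS t β (-ζ)‖ := norm_add₃_le
    _ ≤ C * t + C * t + C * t := add_le_add (add_le_add (hS.bu ζ) (h2 ζ)) (h2 (-ζ))
    _ = 3 * C * t := by ring

theorem est_al {C t h : ℝ} {u v α β : ℂ → ℂ} (hCt : C * t ≤ 1 / 3)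
    (hS : Sol C t h u v α β) (ζ : ℂ) : ‖α ζ‖ ≤ 4 / 3 := by
  have h1 := norm_add_le (α ζ - 1) 1
  rw [sub_add_cancel, norm_one] at h1
  have h2 := hS.bα ζ
  linarith

theorem est_fb {C t h : ℝ} {u v α β : ℂ → ℂ} (hCt : C * t ≤ 1 / 3)
    (hS : Sol C t h u v α β) (ζ : ℂ) :
    ‖fb t v α ζ‖ ≤ C * t + 4 / 3 * ‖tau t ζ‖ + 4 / 3 * ‖tau t (-ζ)‖ := by
  have h2 : ∀ ζ, ‖sS t α ζ‖ ≤ 4 / 3 * ‖tau t ζ‖ := by
    intro ζ
    rw [est_sS]
    exact mul_le_mul_of_nonneg_right (est_al hCt hS _) (norm_nonneg _)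
  unfold fb
  calc ‖v ζ + sS t α ζ - sS t α (-ζ)‖ ≤ ‖v ζ + sS t α ζ‖ + ‖sS t α (-ζ)‖ := norm_sub_le _ _
    _ ≤ (‖v ζ‖ + ‖sS t α ζ‖) + ‖sS t α (-ζ)‖ := by
        gcongr
        exact norm_add_le _ _
    _ ≤ C * t + 4 / 3 * ‖tau t ζ‖ + 4 / 3 * ‖tau t (-ζ)‖ :=
        add_le_add (add_le_add (hS.bv ζ) (h2 ζ)) (h2 (-ζ))

theorem est_KK_on {t h : ℝ} (a b : ℂ → ℂ) {w : ℂ} (hw : w ∈ G t) :
    KK t h a b w + ((t * h / 2 : ℝ) : ℂ)
      = ((t * h / 2 : ℝ) : ℂ) * (1 - ((‖a w‖ ^ 2 + ‖b w‖ ^ 2 : ℝ) : ℂ) * cj (a w)) := by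
  unfold KK
  rw [indicator_of_mem hw]
  unfold pp
  push_cast
  ring

theorem est_conj {C : ℝ} (hC : 0 < C)
    (hinterp : ∀ (F : ℂ → ℂ) (M ρ : ℝ), Adm F M ρ → ∀ (z : ℂ) (r : ℝ), 0 < r →
      ‖CT F z‖ ≤ 2 * r * M + (∫ w, ‖F w‖) / (Real.pi * r))
    (hadd : ∀ (F K : ℂ → ℂ) (M ρ M' ρ' : ℝ), Adm F M ρ → Adm K M' ρ' → ∀ z : ℂ,
      CT (fun w => F w + K w) z = CT F z + CT K z)
    (hdisc : ∀ (R : ℝ) (_ : 0 < R) (z : ℂ) (_ : ‖z‖ < R),
      CT ((ball (0 : ℂ) R).indicator fun _ => 1) z = cj z)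
    {t h : ℝ} (ht : 0 < t) (ht1 : t ≤ 1) (hCt : C * t ≤ 1 / 3) (hh0 : 1 / 2 ≤ h) (hh2 : h ≤ 2)
    {u v α β : ℂ → ℂ} (hS : Sol C t h u v α β) (ζ : ℂ) (hζ : ‖ζ‖ < 16) :
    ‖v ζ + ((t * h / 2 : ℝ) : ℂ) * cj ζ‖
      ≤ (54 + ∫ w in ball (0 : ℂ) 16, estg C w) * t * Real.sqrt t := by
  set a : ℂ → ℂ := fa t u β with ha
  set b : ℂ → ℂ := fb t v α with hb
  set ε : ℝ := t * h / 2 with hε
  set A : ℝ := ∫ w in ball (0 : ℂ) 16, estg C w with hA
  have hCt0 : 0 ≤ C * t := by positivity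
  have hεpos : 0 < ε := by rw [hε]; positivity
  have hεt : ε ≤ t := by rw [hε]; nlinarith
  have hA0 : 0 ≤ A := setIntegral_nonneg measurableSet_ball (fun w _ => estg_nonneg hC w)
  have haw : ∀ w, ‖a w - 1‖ ≤ 3 * C * t := fun w => est_fa hC ht hS w
  have hδ0 : 0 ≤ 3 * C * t := by positivity
  have hδ1 : 3 * C * t ≤ 1 := by linarith
  have haw2 : ∀ w, ‖a w‖ ≤ 2 := by
    intro w
    have h1 := norm_add_le (a w - 1) 1
    rw [sub_add_cancel, norm_one] at h1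
    linarith [haw w]
  have hbw : ∀ w, ‖b w‖ ≤ C * t + 4 / 3 * ‖tau t w‖ + 4 / 3 * ‖tau t (-w)‖ := fun w =>
    est_fb hCt hS w
  have hbw3 : ∀ w, ‖b w‖ ≤ 3 := by
    intro w
    have h1 := est_tau_le ht w
    have h2 := est_tau_le ht (-w)
    linarith [hbw w]
  -- the two pieces
  have hGball : ∀ w, w ∈ G t → w ∈ ball (0 : ℂ) 16 := by
    intro w hw
    rw [mem_ball_zero_iff]
    exact hw.1
  have hcube : ∀ w, (‖a w‖ ^ 2 + ‖b w‖ ^ 2) * ‖a w‖ ≤ 26 := by
    intro w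
    have h1 := haw2 w
    have h2 := hbw3 w
    have h3 : ‖a w‖ ^ 2 ≤ 4 := by nlinarith [norm_nonneg (a w)]
    have h4 : ‖b w‖ ^ 2 ≤ 9 := by nlinarith [norm_nonneg (b w)]
    calc (‖a w‖ ^ 2 + ‖b w‖ ^ 2) * ‖a w‖ ≤ (4 + 9) * 2 :=
          mul_le_mul (add_le_add h3 h4) h1 (norm_nonneg _) (by norm_num)
      _ = 26 := by norm_num
  have hKb : ∀ w, ‖KK t h a b w‖ ≤ 26 * ε := by
    intro w
    by_cases hw : w ∈ G t
    · unfold KK
      rw [indicator_of_mem hw, norm_neg, norm_mul]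
      unfold cj pp
      rw [RCLike.norm_conj, Complex.norm_real, Real.norm_eq_abs,
        abs_of_nonneg (by positivity), ← hε, mul_assoc, mul_comm]
      exact mul_le_mul_of_nonneg_right (hcube w) hεpos.le
    · unfold KK
      rw [indicator_of_notMem hw, norm_zero]
      positivity
  have hKm : Measurable (KK t h a b) := by
    unfold KK
    refine Measurable.indicator ?_ (est_meas_G t)
    have hca : Continuous a := est_cont_fa ht hS.cu hS.cβ
    have hcb : Continuous b := est_cont_fb ht hS.cv hS.cα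
    have hcp : Continuous (fun ζ => pp t h a b ζ) := by
      unfold pp
      exact continuous_const.mul ((hca.norm.pow 2).add (hcb.norm.pow 2))
    exact ((Complex.continuous_ofReal.comp hcp).mul (Complex.continuous_conj.comp hca)).neg.measurable
  have hK0 : ∀ w, 16 < ‖w‖ → KK t h a b w = 0 := by
    intro w hw
    unfold KK
    apply indicator_of_notMem
    intro hG
    have := hG.1
    linarith
  set D : ℂ → ℂ := (ball (0 : ℂ) 16).indicator (fun _ => (ε : ℂ)) with hD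
  have hDb : ∀ w, ‖D w‖ ≤ ε := by
    intro w
    by_cases hw : w ∈ ball (0 : ℂ) 16
    · rw [hD, indicator_of_mem hw, Complex.norm_real, Real.norm_eq_abs, abs_of_pos hεpos]
    · rw [hD, indicator_of_notMem hw, norm_zero]
      exact hεpos.le
  have hDm : Measurable D := measurable_const.indicator measurableSet_ball
  have hD0 : ∀ w, 16 < ‖w‖ → D w = 0 := by
    intro w hw
    apply indicator_of_notMem
    rw [mem_ball_zero_iff]
    linarith
  have hadd' := hadd (KK t h a b) D (26 * ε) 16 ε 16 ⟨hKm, hKb, hK0⟩ ⟨hDm, hDb, hD0⟩ ζ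
  have hCTD : CT D ζ = (ε : ℂ) * cj ζ := by
    rw [← hdisc 16 (by norm_num) ζ hζ]
    have hI : ∫ w, D w / (ζ - w)
        = (ε : ℂ) * ∫ w, (ball (0 : ℂ) 16).indicator (fun _ => (1 : ℂ)) w / (ζ - w) := by
      rw [← integral_const_mul]
      congr 1
      funext w
      rw [← mul_div_assoc]
      congr 1
      by_cases hw : w ∈ ball (0 : ℂ) 16
      · rw [hD, indicator_of_mem hw, indicator_of_mem hw, mul_one]
      · rw [hD, indicator_of_notMem hw, indicator_of_notMem hw, mul_zero]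
    unfold CT
    rw [hI]
    ring
  have hvz : v ζ + (ε : ℂ) * cj ζ = CT (fun w => KK t h a b w + D w) ζ := by
    rw [hadd', hCTD, hS.hv ζ]
  rw [hvz]
  have hAdm : Adm (fun w => KK t h a b w + D w) (27 * ε) 16 := by
    refine ⟨hKm.add hDm, ?_, ?_⟩
    · intro w
      refine (norm_add_le _ _).trans ?_
      linarith [hKb w, hDb w]
    · intro w hw
      show KK t h a b w + D w = 0
      rw [hK0 w hw, hD0 w hw, add_zero]
  have hsq : 0 < Real.sqrt t := Real.sqrt_pos.mpr ht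
  have hint := hinterp _ _ _ hAdm ζ (Real.sqrt t) hsq
  -- bound of the integral
  have hptw : ∀ᵐ w ∂(volume : Measure ℂ), ‖KK t h a b w + D w‖
      ≤ (ball (0 : ℂ) 16).indicator (fun w => ε * t * estg C w) w := by
    have hn1 : ∀ᵐ w ∂(volume : Measure ℂ), w ∉ ({1, -1} : Set ℂ) :=
      (Set.toFinite _).countable.ae_notMem _
    filter_upwards [hn1] with w hw1
    by_cases hw : w ∈ ball (0 : ℂ) 16
    · rw [indicator_of_mem hw]
      have hDw : D w = (ε : ℂ) := by rw [hD, indicator_of_mem hw]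
      rw [hDw]
      by_cases hG : w ∈ G t
      · rw [hε, est_KK_on a b hG, norm_mul, Complex.norm_real, Real.norm_eq_abs, ← hε,
          abs_of_pos hεpos, mul_assoc]
        apply mul_le_mul_of_nonneg_left _ hεpos.le
        refine (est_cubic hδ0 hδ1 (a w) (b w) (haw w)).trans ?_
        have g1 : t ≤ ‖w - 1‖ := hG.2.1
        have g2 : t ≤ ‖-w - 1‖ := by
          have : ‖-w - 1‖ = ‖w + 1‖ := by
            rw [← norm_neg]
            congr 1
            ring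
          rw [this]
          exact hG.2.2
        have g3 : ‖-w - 1‖ = ‖w + 1‖ := by
          rw [← norm_neg]
          congr 1
          ring
        have e1 := est_tau_norm_le ht g1
        have e2 := est_tau_norm_le ht g2
        rw [g3] at e2
        have f1 := est_tau_le ht w
        have f2 := est_tau_le ht (-w)
        have hb2 := hbw w
        have n1 := norm_nonneg (tau t w)
        have n2 := norm_nonneg (tau t (-w))
        set x := ‖tau t w‖ with hx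
        set y := ‖tau t (-w)‖ with hy
        have hb3 : ‖b w‖ ^ 2 ≤ (C * t + 4 / 3 * x + 4 / 3 * y) ^ 2 := by
          apply pow_le_pow_left₀ (norm_nonneg _) hb2
        have hb4 : (C * t + 4 / 3 * x + 4 / 3 * y) ^ 2
            ≤ 3 * ((C * t) ^ 2 + (4 / 3 * x) ^ 2 + (4 / 3 * y) ^ 2) := by
          nlinarith [sq_nonneg (C * t - 4 / 3 * x), sq_nonneg (C * t - 4 / 3 * y),
            sq_nonneg (4 / 3 * x - 4 / 3 * y)]
        have hb5 : x ^ 2 ≤ x := by nlinarith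
        have hb6 : y ^ 2 ≤ y := by nlinarith
        have hb7 : (C * t) ^ 2 ≤ C ^ 2 * t := by
          have : t ^ 2 ≤ t := by nlinarith
          calc (C * t) ^ 2 = C ^ 2 * t ^ 2 := by ring
            _ ≤ C ^ 2 * t := mul_le_mul_of_nonneg_left this (by positivity)
        have hb8 : t * estg C w = 21 * C * t + 6 * (C ^ 2 * t) + 24 * x + 24 * y := by
          unfold estg
          rw [e1, e2]
          ring
        rw [hb8]
        nlinarith
      · have hKw : KK t h a b w = 0 := indicator_of_notMem hG _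
        rw [hKw, zero_add, Complex.norm_real, Real.norm_eq_abs, abs_of_pos hεpos, mul_assoc]
        have hone : 1 ≤ t * estg C w := by
          have hwball : ‖w‖ < 16 := by rwa [mem_ball_zero_iff] at hw
          have hor : ‖w - 1‖ < t ∨ ‖w + 1‖ < t := by
            by_contra hcon
            push Not at hcon
            exact hG ⟨hwball, hcon.1, hcon.2⟩
          simp only [mem_insert_iff, mem_singleton_iff, not_or] at hw1
          unfold estg
          have p0 : 0 ≤ t * (21 * C + 6 * C ^ 2) := by positivity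
          have p1 : 0 ≤ t * (24 * ‖w - 1‖⁻¹) := by positivity
          have p2 : 0 ≤ t * (24 * ‖w + 1‖⁻¹) := by positivity
          rcases hor with h1 | h1
          · have h2 : 0 < ‖w - 1‖ := norm_pos_iff.mpr (sub_ne_zero.mpr hw1.1)
            have h3 : 1 ≤ t * ‖w - 1‖⁻¹ := by
              rw [← div_eq_mul_inv, le_div_iff₀ h2]
              linarith
            nlinarith
          · have h2 : 0 < ‖w + 1‖ := by
              rw [norm_pos_iff]
              intro h0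
              exact hw1.2 (eq_neg_of_add_eq_zero_left h0)
            have h3 : 1 ≤ t * ‖w + 1‖⁻¹ := by
              rw [← div_eq_mul_inv, le_div_iff₀ h2]
              linarith
            nlinarith
        calc ε = ε * 1 := (mul_one _).symm
          _ ≤ ε * (t * estg C w) := mul_le_mul_of_nonneg_left hone hεpos.le
    · rw [indicator_of_notMem hw]
      have h1 : D w = 0 := by rw [hD, indicator_of_notMem hw]
      have h2 : KK t h a b w = 0 := by
        unfold KK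
        exact indicator_of_notMem (fun hG => hw (hGball w hG)) _
      rw [h1, h2, add_zero, norm_zero]
  have hI : ∫ w, ‖KK t h a b w + D w‖ ≤ ε * t * A := by
    have h1 : Integrable ((ball (0 : ℂ) 16).indicator (fun w => ε * t * estg C w)) :=
      (integrable_indicator_iff measurableSet_ball).mpr ((estg_int C).const_mul (ε * t))
    refine (integral_mono_of_nonneg (Filter.Eventually.of_forall (fun w => norm_nonneg _)) h1
      hptw).trans ?_
    rw [integral_indicator measurableSet_ball, integral_const_mul]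
  have hI2 : (∫ w, ‖KK t h a b w + D w‖) / (Real.pi * Real.sqrt t) ≤ A * t * Real.sqrt t := by
    rw [div_le_iff₀ (by positivity)]
    refine hI.trans ?_
    have h1 : A * t * Real.sqrt t * (Real.pi * Real.sqrt t) = A * t * Real.pi * t := by
      rw [show A * t * Real.sqrt t * (Real.pi * Real.sqrt t)
        = A * t * Real.pi * (Real.sqrt t * Real.sqrt t) by ring, Real.mul_self_sqrt ht.le]
    rw [h1]
    have h2 : ε * t * A ≤ t * t * A := by gcongr
    have h3 : (1 : ℝ) ≤ Real.pi := by linarith [Real.pi_gt_three]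
    have h4 : 0 ≤ A * t * t := by positivity
    nlinarith
  have hM : 2 * Real.sqrt t * (27 * ε) ≤ 54 * t * Real.sqrt t := by
    have : Real.sqrt t * ε ≤ Real.sqrt t * t := mul_le_mul_of_nonneg_left hεt hsq.le
    linarith
  linarith

end estaux

/-- estimates for the fields -/
theorem EST
    (hbound : ∀ (F : ℂ → ℂ) (M ρ : ℝ), Adm F M ρ → 0 < ρ → ∀ z, ‖CT F z‖ ≤ 3 * ρ * M)
    (hinterp : ∀ (F : ℂ → ℂ) (M ρ : ℝ), Adm F M ρ → ∀ (z : ℂ) (r : ℝ), 0 < r →
      ‖CT F z‖ ≤ 2 * r * M + (∫ w, ‖F w‖) / (Real.pi * r))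
    (hadd : ∀ (F K : ℂ → ℂ) (M ρ M' ρ' : ℝ), Adm F M ρ → Adm K M' ρ' → ∀ z : ℂ,
      CT (fun w => F w + K w) z = CT F z + CT K z)
    (hdisc : ∀ (R : ℝ) (_ : 0 < R) (z : ℂ) (_ : ‖z‖ < R),
      CT ((ball (0 : ℂ) R).indicator fun _ => 1) z = cj z)
    (C : ℝ) (hC : 0 < C) :
    ∃ C' t₀ : ℝ, 0 < C' ∧ 0 < t₀ ∧ ∀ t ∈ Ioo 0 t₀, ∀ h ∈ Icc (1 / 2 : ℝ) 2,
      ∀ u v α β : ℂ → ℂ, Sol C t h u v α β →
      (∀ ζ, ‖fa t u β ζ - 1‖ ≤ C' * t) ∧
      (∀ ζ, ‖ζ‖ < 16 → ‖v ζ + ((t * h / 2 : ℝ) : ℂ) * cj ζ‖ ≤ C' * t * Real.sqrt t) ∧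
      (∀ ζ ∈ G t, ‖fb t v α ζ - (t / (ζ - 1) + t / (ζ + 1) - (t * h / 2 : ℝ) * cj ζ)‖ ≤
        C' * t * (Real.sqrt t + t / ‖ζ - 1‖ + t / ‖ζ + 1‖)) := by
  set A : ℝ := ∫ w in ball (0 : ℂ) 16, estg C w with hA
  have hA0 : 0 ≤ A := MeasureTheory.setIntegral_nonneg measurableSet_ball
    (fun w _ => estg_nonneg hC w)
  refine ⟨3 * C + 54 + A, min 1 (1 / (3 * C)), by positivity, by positivity, ?_⟩
  intro t ht h hh u v α β hS
  have ht0 : 0 < t := ht.1
  have ht1 : t ≤ 1 := ht.2.le.trans (min_le_left _ _)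
  have hCt : C * t ≤ 1 / 3 := by
    have h1 : t ≤ 1 / (3 * C) := ht.2.le.trans (min_le_right _ _)
    rw [le_div_iff₀ (by positivity)] at h1
    linarith
  have hsq : 0 < Real.sqrt t := Real.sqrt_pos.mpr ht0
  have part2 : ∀ ζ, ‖ζ‖ < 16 →
      ‖v ζ + ((t * h / 2 : ℝ) : ℂ) * cj ζ‖ ≤ (54 + A) * t * Real.sqrt t := fun ζ hζ =>
    est_conj hC hinterp hadd hdisc ht0 ht1 hCt hh.1 hh.2 hS ζ hζ
  refine ⟨?_, ?_, ?_⟩
  · intro ζ
    refine (est_fa hC ht0 hS ζ).trans ?_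
    apply mul_le_mul_of_nonneg_right _ ht0.le
    linarith
  · intro ζ hζ
    refine (part2 ζ hζ).trans ?_
    have : 0 ≤ 3 * C * t * Real.sqrt t := by positivity
    nlinarith
  · intro ζ hζ
    have g1 : t ≤ ‖ζ - 1‖ := hζ.2.1
    have g3 : ‖-ζ - 1‖ = ‖ζ + 1‖ := by
      rw [← norm_neg]
      congr 1
      ring
    have g2 : t ≤ ‖-ζ - 1‖ := by
      rw [g3]
      exact hζ.2.2
    have p1 : 0 < ‖ζ - 1‖ := lt_of_lt_of_le ht0 g1
    have p2 : 0 < ‖ζ + 1‖ := lt_of_lt_of_le ht0 hζ.2.2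
    have e1 : sS t α ζ - t / (ζ - 1) = cj (α (kap t ζ) - 1) * tau t ζ := by
      unfold sS cj
      rw [est_tau_eq ht0 g1, map_sub, map_one]
      ring
    have e2 : -sS t α (-ζ) - t / (ζ + 1) = -(cj (α (kap t (-ζ)) - 1) * tau t (-ζ)) := by
      unfold sS cj
      rw [est_tau_eq ht0 g2, map_sub, map_one]
      have h5 : (-ζ - 1 : ℂ) = -(ζ + 1) := by ring
      rw [h5, div_neg]
      ring
    have h6 : fb t v α ζ - (t / (ζ - 1) + t / (ζ + 1) - (t * h / 2 : ℝ) * cj ζ)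
        = (v ζ + ((t * h / 2 : ℝ) : ℂ) * cj ζ) + cj (α (kap t ζ) - 1) * tau t ζ
          + -(cj (α (kap t (-ζ)) - 1) * tau t (-ζ)) := by
      rw [← e1, ← e2]
      unfold fb
      ring
    rw [h6]
    have n1 : ‖cj (α (kap t ζ) - 1) * tau t ζ‖ ≤ C * t * (t / ‖ζ - 1‖) := by
      unfold cj
      rw [norm_mul, RCLike.norm_conj, est_tau_norm_le ht0 g1, ← div_eq_mul_inv]
      exact mul_le_mul_of_nonneg_right (hS.bα _) (by positivity)
    have n2 : ‖-(cj (α (kap t (-ζ)) - 1) * tau t (-ζ))‖ ≤ C * t * (t / ‖ζ + 1‖) := by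
      unfold cj
      rw [norm_neg, norm_mul, RCLike.norm_conj, est_tau_norm_le ht0 g2, g3, ← div_eq_mul_inv]
      exact mul_le_mul_of_nonneg_right (hS.bα _) (by positivity)
    have n3 := part2 ζ hζ.1
    have n4 : ‖(v ζ + ((t * h / 2 : ℝ) : ℂ) * cj ζ) + cj (α (kap t ζ) - 1) * tau t ζ
          + -(cj (α (kap t (-ζ)) - 1) * tau t (-ζ))‖
        ≤ (54 + A) * t * Real.sqrt t + C * t * (t / ‖ζ - 1‖) + C * t * (t / ‖ζ + 1‖) :=
      norm_add₃_le.trans (add_le_add (add_le_add n3 n1) n2)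
    refine n4.trans ?_
    have q1 : 0 ≤ t * Real.sqrt t := by positivity
    have q2 : 0 ≤ t * (t / ‖ζ - 1‖) := by positivity
    have q3 : 0 ≤ t * (t / ‖ζ + 1‖) := by positivity
    have q4 : 0 ≤ C * (t * Real.sqrt t) := mul_nonneg hC.le q1
    have q5 : 0 ≤ (2 * C + 54 + A) * (t * (t / ‖ζ - 1‖)) := mul_nonneg (by positivity) q2
    have q6 : 0 ≤ (2 * C + 54 + A) * (t * (t / ‖ζ + 1‖)) := mul_nonneg (by positivity) q3
    linarith


end Pool.Agent.Helper676.TL
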