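import Mathlib
import Pool.Agent.Helper676.TL.Defs
import Pool.Agent.Helper676.TL.Base

set_option autoImplicit false

namespace Pool.Agent.Helper676.TL

open Set Metric
open scoped ContDiff



section aux
variable {t : ℝ}

theorem m_pos (ht : 0 < t) (ζ : ℂ) : 0 < max ‖ζ - 1‖ t := lt_of_lt_of_le ht (le_max_right _ _)

theorem tau_nrm (ht : 0 < t) (ζ : ℂ) : ‖tau t ζ‖ = t / (max ‖ζ - 1‖ t) ^ 2 * ‖ζ - 1‖ := by
  unfold tau
  rw [norm_mul, Complex.norm_real, Complex.norm_conj, Real.norm_of_nonneg]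
  have := m_pos ht ζ
  positivity

theorem tau_le (ht : 0 < t) (ζ : ℂ) : ‖tau t ζ‖ ≤ 1 := by
  rw [tau_nrm ht]
  have hm := m_pos ht ζ
  rw [div_mul_eq_mul_div, div_le_one (by positivity), sq]
  exact mul_le_mul (le_max_right _ _) (le_max_left _ _) (norm_nonneg _) hm.le

theorem tau_far (ht : 0 < t) (ht1 : t ≤ 1) (ζ : ℂ) (h : 1 ≤ ‖ζ - 1‖) : ‖tau t ζ‖ ≤ t := by
  rw [tau_nrm ht]
  have e : max ‖ζ - 1‖ t = ‖ζ - 1‖ := max_eq_left (ht1.trans h)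
  have h0 : 0 < ‖ζ - 1‖ := by linarith
  rw [e, div_mul_eq_mul_div, div_le_iff₀ (by positivity)]
  have : ‖ζ - 1‖ ≤ ‖ζ - 1‖ ^ 2 := by nlinarith
  exact mul_le_mul_of_nonneg_left this ht.le

theorem ret_near (ht : 0 < t) (ζ : ℂ) : ‖ret t ζ - 1‖ ≤ t := by
  unfold ret
  have hm := m_pos ht ζ
  rw [add_sub_cancel_left, norm_mul, Complex.norm_real, Real.norm_of_nonneg (by positivity),
    div_mul_eq_mul_div, div_le_iff₀ hm]
  exact mul_le_mul_of_nonneg_left (le_max_left _ _) ht.le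

theorem ret_eq (ht : 0 < t) (ζ : ℂ) (h : ‖ζ - 1‖ ≤ t) : ret t ζ = ζ := by
  unfold ret
  rw [max_eq_right h, div_self ht.ne']
  simp

theorem neg_ret_far (ht : 0 < t) (ht1 : t ≤ 1) (ζ : ℂ) : 1 ≤ ‖-(ret t ζ) - 1‖ := by
  have h1 := ret_near ht ζ
  have h2 : -(ret t ζ) - 1 = -(2 + (ret t ζ - 1)) := by ring
  rw [h2, norm_neg]
  have h3 : ‖(2 : ℂ)‖ ≤ ‖2 + (ret t ζ - 1)‖ + ‖ret t ζ - 1‖ := by
    have h4 : (2 : ℂ) = (2 + (ret t ζ - 1)) - (ret t ζ - 1) := by ring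
    calc ‖(2 : ℂ)‖ = ‖(2 + (ret t ζ - 1)) - (ret t ζ - 1)‖ := by rw [← h4]
      _ ≤ _ := norm_sub_le _ _
  have h5 : ‖(2 : ℂ)‖ = 2 := by simp
  rw [h5] at h3
  linarith

theorem norm_cj_sub (ζ : ℂ) : ‖cj ζ - 1‖ = ‖ζ - 1‖ := by
  have : cj ζ - 1 = cj (ζ - 1) := by simp [cj]
  rw [this, Complex.norm_conj]

theorem kap_cj (ζ : ℂ) : kap t (cj ζ) = cj (kap t ζ) := by
  unfold kap
  rw [norm_cj_sub]
  simp only [cj, map_add, map_mul, map_sub, map_one, Complex.conj_ofReal]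

theorem tau_cj (ζ : ℂ) : tau t (cj ζ) = cj (tau t ζ) := by
  unfold tau
  rw [norm_cj_sub]
  simp only [cj, map_mul, map_sub, map_one, Complex.conj_ofReal]

theorem ret_cj (ζ : ℂ) : ret t (cj ζ) = cj (ret t ζ) := by
  unfold ret
  rw [norm_cj_sub]
  simp only [cj, map_add, map_mul, map_sub, map_one, Complex.conj_ofReal]

theorem kap_cont (ht : 0 < t) : Continuous (kap t) := by
  unfold kap
  refine continuous_const.add (Continuous.mul ?_ (continuous_id.sub continuous_const))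
  refine Complex.continuous_ofReal.comp ?_
  refine continuous_const.div ?_ (fun ζ => by have := m_pos ht ζ; positivity)
  fun_prop

theorem tau_cont (ht : 0 < t) : Continuous (tau t) := by
  unfold tau
  refine Continuous.mul ?_ (Complex.continuous_conj.comp (continuous_id.sub continuous_const))
  refine Complex.continuous_ofReal.comp ?_
  refine continuous_const.div ?_ (fun ζ => by have := m_pos ht ζ; positivity)
  fun_prop

theorem ret_cont (ht : 0 < t) : Continuous (ret t) := by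
  unfold ret
  refine continuous_const.add (Continuous.mul ?_ (continuous_id.sub continuous_const))
  refine Complex.continuous_ofReal.comp ?_
  refine continuous_const.div ?_ (fun ζ => by have := m_pos ht ζ; positivity)
  fun_prop

theorem sS_cont (ht : 0 < t) {β : ℂ → ℂ} (hβ : Continuous β) : Continuous (sS t β) := by
  unfold sS
  exact (Complex.continuous_conj.comp (hβ.comp (kap_cont ht))).mul (tau_cont ht)

theorem sS_cj {β : ℂ → ℂ} (hβ : ∀ z, β (cj z) = cj (β z)) (ζ : ℂ) :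
    sS t β (cj ζ) = cj (sS t β ζ) := by
  unfold sS
  rw [kap_cj, tau_cj, hβ]
  simp only [cj, map_mul]

theorem sS_diff (ht : 0 < t) (β β' : ℂ → ℂ) (d : ℝ) (h : ∀ z, ‖β z - β' z‖ ≤ d) (ζ : ℂ) :
    ‖sS t β ζ - sS t β' ζ‖ ≤ d := by
  unfold sS
  rw [← sub_mul, norm_mul, ← map_sub, Complex.norm_conj]
  calc ‖β (kap t ζ) - β' (kap t ζ)‖ * ‖tau t ζ‖ ≤ d * 1 :=
        mul_le_mul (h _) (tau_le ht ζ) (norm_nonneg _) (le_trans (norm_nonneg _) (h 0))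
    _ = d := mul_one d

theorem sS_diff_far (ht : 0 < t) (ht1 : t ≤ 1) (β β' : ℂ → ℂ) (d : ℝ)
    (h : ∀ z, ‖β z - β' z‖ ≤ d) (ζ : ℂ) :
    ‖sS t β (-(ret t ζ)) - sS t β' (-(ret t ζ))‖ ≤ d * t := by
  unfold sS
  rw [← sub_mul, norm_mul, ← map_sub, Complex.norm_conj]
  exact mul_le_mul (h _) (tau_far ht ht1 _ (neg_ret_far ht ht1 ζ)) (norm_nonneg _)
    (le_trans (norm_nonneg _) (h 0))

theorem sS_le (ht : 0 < t) (β : ℂ → ℂ) (d : ℝ) (h : ∀ z, ‖β z‖ ≤ d) (ζ : ℂ) :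
    ‖sS t β ζ‖ ≤ d := by
  have h1 := sS_diff ht β (fun _ => 0) d (fun z => by simpa using h z) ζ
  simpa [sS, cj] using h1

theorem sS_le_far (ht : 0 < t) (ht1 : t ≤ 1) (β : ℂ → ℂ) (d : ℝ) (h : ∀ z, ‖β z‖ ≤ d) (ζ : ℂ) :
    ‖sS t β (-(ret t ζ))‖ ≤ d * t := by
  have h1 := sS_diff_far ht ht1 β (fun _ => 0) d (fun z => by simpa using h z) ζ
  simpa [sS, cj] using h1

/-- holomorphy of `z ↦ sS t β (-z)` near `1` -/
theorem sS_hol (ht : 0 < t) (ht1 : t < 1) (β : ℂ → ℂ) (hj : ∀ z, β (cj z) = cj (β z))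
    (hd : DifferentiableOn ℂ β (ball 1 t)) :
    DifferentiableOn ℂ (fun z => sS t β (-z)) (ball 1 t) := by
  have hne : ∀ z ∈ ball (1 : ℂ) t, t < ‖-z - 1‖ := by
    intro z hz
    rw [mem_ball, dist_eq_norm] at hz
    have h2 : -z - 1 = -(2 + (z - 1)) := by ring
    rw [h2, norm_neg]
    have h3 : ‖(2 : ℂ)‖ ≤ ‖2 + (z - 1)‖ + ‖z - 1‖ := by
      have h4 : (2 : ℂ) = (2 + (z - 1)) - (z - 1) := by ring
      calc ‖(2 : ℂ)‖ = ‖(2 + (z - 1)) - (z - 1)‖ := by rw [← h4]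
        _ ≤ _ := norm_sub_le _ _
    have h5 : ‖(2 : ℂ)‖ = 2 := by simp
    rw [h5] at h3
    linarith
  have hne0 : ∀ z ∈ ball (1 : ℂ) t, -z - 1 ≠ 0 := by
    intro z hz h
    have := hne z hz
    rw [h, norm_zero] at this
    linarith
  have e : ∀ z ∈ ball (1 : ℂ) t, sS t β (-z) = β (1 + (t : ℂ) ^ 2 / (-z - 1)) * (t / (-z - 1)) := by
    intro z hz
    have h1 := hne z hz
    have h0 := hne0 z hz
    have hm : max ‖-z - 1‖ t = ‖-z - 1‖ := max_eq_left h1.le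
    have hn : ((‖-z - 1‖ : ℝ) : ℂ) ^ 2 = (-z - 1) * cj (-z - 1) := by
      rw [cj, Complex.mul_conj, Complex.normSq_eq_norm_sq]
      push_cast
      rfl
    have hc0 : cj (-z - 1) ≠ 0 := by
      rw [cj, ne_eq, map_eq_zero]; exact h0
    have hk : kap t (-z) = cj (1 + (t : ℂ) ^ 2 / (-z - 1)) := by
      unfold kap
      rw [hm]
      push_cast
      rw [hn]
      simp only [cj, map_add, map_one, map_div₀, map_pow, Complex.conj_ofReal]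
      rw [cj] at hc0
      field_simp
    have htau : tau t (-z) = t / (-z - 1) := by
      unfold tau
      rw [hm]
      push_cast
      rw [hn]
      field_simp
    unfold sS
    rw [hk, htau, hj]
    simp only [cj, Complex.conj_conj]
  refine DifferentiableOn.congr ?_ e
  have hd1 : DifferentiableOn ℂ (fun z : ℂ => 1 + (t : ℂ) ^ 2 / (-z - 1)) (ball 1 t) := by
    refine (differentiableOn_const _).add ((differentiableOn_const _).div ?_ hne0)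
    exact (differentiableOn_id.neg).sub (differentiableOn_const _)
  have hd2 : DifferentiableOn ℂ (fun z : ℂ => (t : ℂ) / (-z - 1)) (ball 1 t) := by
    refine (differentiableOn_const _).div ?_ hne0
    exact (differentiableOn_id.neg).sub (differentiableOn_const _)
  refine DifferentiableOn.mul (hd.comp hd1 ?_) hd2
  intro z hz
  rw [mem_ball, dist_eq_norm, add_sub_cancel_left, norm_div, norm_pow, Complex.norm_real,
    Real.norm_of_nonneg ht.le]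
  have h1 := hne z hz
  rw [div_lt_iff₀ (by linarith), sq]
  exact mul_lt_mul_of_pos_left h1 ht

end aux

section aux2
variable {t h : ℝ}

theorem pp_nonneg (ht : 0 < t) (hh : 0 ≤ h) (a b : ℂ → ℂ) (ζ : ℂ) : 0 ≤ pp t h a b ζ := by
  unfold pp; positivity

theorem pp_le (ht : 0 < t) (hh : 0 ≤ h) (hh2 : h ≤ 2) (a b : ℂ → ℂ) (ζ : ℂ)
    (ha : ‖a ζ‖ ≤ 4) (hb : ‖b ζ‖ ≤ 5) : pp t h a b ζ ≤ 41 * t := by
  unfold pp
  have h1 : ‖a ζ‖ ^ 2 ≤ 4 ^ 2 := pow_le_pow_left₀ (norm_nonneg _) ha 2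
  have h2 : ‖b ζ‖ ^ 2 ≤ 5 ^ 2 := pow_le_pow_left₀ (norm_nonneg _) hb 2
  calc t * h / 2 * (‖a ζ‖ ^ 2 + ‖b ζ‖ ^ 2) ≤ t * 2 / 2 * (4 ^ 2 + 5 ^ 2) := by
        gcongr
    _ = 41 * t := by ring

theorem sq_diff {x y K δ : ℝ} (hx : 0 ≤ x) (hy : 0 ≤ y) (hxK : x ≤ K) (hyK : y ≤ K)
    (h : |x - y| ≤ δ) : |x ^ 2 - y ^ 2| ≤ 2 * K * δ := by
  have e : x ^ 2 - y ^ 2 = (x + y) * (x - y) := by ring
  rw [e, abs_mul, abs_of_nonneg (by linarith)]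
  exact mul_le_mul (by linarith) h (abs_nonneg _) (by linarith)

theorem pp_diff (ht : 0 < t) (hh : 0 ≤ h) (hh2 : h ≤ 2) (a b a' b' : ℂ → ℂ) (ζ : ℂ) (δ : ℝ)
    (ha : ‖a ζ‖ ≤ 4) (hb : ‖b ζ‖ ≤ 5) (ha' : ‖a' ζ‖ ≤ 4) (hb' : ‖b' ζ‖ ≤ 5)
    (had : ‖a ζ - a' ζ‖ ≤ δ) (hbd : ‖b ζ - b' ζ‖ ≤ δ) :
    |pp t h a b ζ - pp t h a' b' ζ| ≤ 18 * δ * t := by
  have h1 : |‖a ζ‖ ^ 2 - ‖a' ζ‖ ^ 2| ≤ 2 * 4 * δ :=
    sq_diff (norm_nonneg _) (norm_nonneg _) ha ha' ((abs_norm_sub_norm_le _ _).trans had)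
  have h2 : |‖b ζ‖ ^ 2 - ‖b' ζ‖ ^ 2| ≤ 2 * 5 * δ :=
    sq_diff (norm_nonneg _) (norm_nonneg _) hb hb' ((abs_norm_sub_norm_le _ _).trans hbd)
  have e : pp t h a b ζ - pp t h a' b' ζ =
      t * h / 2 * ((‖a ζ‖ ^ 2 - ‖a' ζ‖ ^ 2) + (‖b ζ‖ ^ 2 - ‖b' ζ‖ ^ 2)) := by
    unfold pp; ring
  have h3 : |(‖a ζ‖ ^ 2 - ‖a' ζ‖ ^ 2) + (‖b ζ‖ ^ 2 - ‖b' ζ‖ ^ 2)| ≤ 18 * δ := by
    refine (abs_add_le _ _).trans ?_
    linarith
  rw [e, abs_mul, abs_of_nonneg (by positivity)]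
  have hδ : 0 ≤ δ := (norm_nonneg _).trans had
  calc t * h / 2 * |(‖a ζ‖ ^ 2 - ‖a' ζ‖ ^ 2) + (‖b ζ‖ ^ 2 - ‖b' ζ‖ ^ 2)| ≤
        t * 2 / 2 * (18 * δ) := by gcongr
    _ = 18 * δ * t := by ring

theorem FF_le (ht : 0 < t) (hh : 0 ≤ h) (hh2 : h ≤ 2) (a b : ℂ → ℂ) (ζ : ℂ)
    (ha : ‖a ζ‖ ≤ 4) (hb : ‖b ζ‖ ≤ 5) : ‖FF t h a b ζ‖ ≤ 300 * t := by
  unfold FF
  by_cases hz : ζ ∈ G t
  · rw [indicator_of_mem hz, norm_mul, Complex.norm_real, Complex.norm_conj,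
      Real.norm_of_nonneg (pp_nonneg ht hh a b ζ)]
    calc pp t h a b ζ * ‖b ζ‖ ≤ (41 * t) * 5 :=
          mul_le_mul (pp_le ht hh hh2 a b ζ ha hb) hb (norm_nonneg _) (by positivity)
      _ ≤ 300 * t := by linarith
  · rw [indicator_of_notMem hz, norm_zero]; positivity

theorem KK_le (ht : 0 < t) (hh : 0 ≤ h) (hh2 : h ≤ 2) (a b : ℂ → ℂ) (ζ : ℂ)
    (ha : ‖a ζ‖ ≤ 4) (hb : ‖b ζ‖ ≤ 5) : ‖KK t h a b ζ‖ ≤ 300 * t := by
  unfold KK
  by_cases hz : ζ ∈ G t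
  · rw [indicator_of_mem hz, norm_neg, norm_mul, Complex.norm_real, Complex.norm_conj,
      Real.norm_of_nonneg (pp_nonneg ht hh a b ζ)]
    calc pp t h a b ζ * ‖a ζ‖ ≤ (41 * t) * 4 :=
          mul_le_mul (pp_le ht hh hh2 a b ζ ha hb) ha (norm_nonneg _) (by positivity)
      _ ≤ 300 * t := by linarith
  · rw [indicator_of_notMem hz, norm_zero]; positivity

theorem FF_diff (ht : 0 < t) (hh : 0 ≤ h) (hh2 : h ≤ 2) (a b a' b' : ℂ → ℂ) (ζ : ℂ) (δ : ℝ)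
    (ha : ‖a ζ‖ ≤ 4) (hb : ‖b ζ‖ ≤ 5) (ha' : ‖a' ζ‖ ≤ 4) (hb' : ‖b' ζ‖ ≤ 5)
    (had : ‖a ζ - a' ζ‖ ≤ δ) (hbd : ‖b ζ - b' ζ‖ ≤ δ) :
    ‖FF t h a b ζ - FF t h a' b' ζ‖ ≤ 131 * δ * t := by
  have hδ : 0 ≤ δ := (norm_nonneg _).trans had
  unfold FF
  by_cases hz : ζ ∈ G t
  · rw [indicator_of_mem hz, indicator_of_mem hz]
    have e : (pp t h a b ζ : ℂ) * cj (b ζ) - (pp t h a' b' ζ : ℂ) * cj (b' ζ) =
        ((pp t h a b ζ - pp t h a' b' ζ : ℝ) : ℂ) * cj (b ζ) +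
          (pp t h a' b' ζ : ℂ) * cj (b ζ - b' ζ) := by
      simp only [cj, map_sub]; push_cast; ring
    rw [e]
    refine (norm_add_le _ _).trans ?_
    rw [norm_mul, norm_mul, Complex.norm_real, Complex.norm_real, Complex.norm_conj,
      Complex.norm_conj, Real.norm_of_nonneg (pp_nonneg ht hh a' b' ζ), Real.norm_eq_abs]
    have h1 := pp_diff ht hh hh2 a b a' b' ζ δ ha hb ha' hb' had hbd
    have h2 := pp_le ht hh hh2 a' b' ζ ha' hb'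
    have h3 : |pp t h a b ζ - pp t h a' b' ζ| * ‖b ζ‖ ≤ 18 * δ * t * 5 :=
      mul_le_mul h1 hb (norm_nonneg _) (by positivity)
    have h4 : pp t h a' b' ζ * ‖b ζ - b' ζ‖ ≤ 41 * t * δ :=
      mul_le_mul h2 hbd (norm_nonneg _) (by positivity)
    linarith
  · rw [indicator_of_notMem hz, indicator_of_notMem hz, sub_zero, norm_zero]; positivity

theorem KK_diff (ht : 0 < t) (hh : 0 ≤ h) (hh2 : h ≤ 2) (a b a' b' : ℂ → ℂ) (ζ : ℂ) (δ : ℝ)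
    (ha : ‖a ζ‖ ≤ 4) (hb : ‖b ζ‖ ≤ 5) (ha' : ‖a' ζ‖ ≤ 4) (hb' : ‖b' ζ‖ ≤ 5)
    (had : ‖a ζ - a' ζ‖ ≤ δ) (hbd : ‖b ζ - b' ζ‖ ≤ δ) :
    ‖KK t h a b ζ - KK t h a' b' ζ‖ ≤ 131 * δ * t := by
  have hδ : 0 ≤ δ := (norm_nonneg _).trans had
  unfold KK
  by_cases hz : ζ ∈ G t
  · rw [indicator_of_mem hz, indicator_of_mem hz]
    have e : -((pp t h a b ζ : ℂ) * cj (a ζ)) - -((pp t h a' b' ζ : ℂ) * cj (a' ζ)) =
        -(((pp t h a b ζ - pp t h a' b' ζ : ℝ) : ℂ) * cj (a ζ) +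
          (pp t h a' b' ζ : ℂ) * cj (a ζ - a' ζ)) := by
      simp only [cj, map_sub]; push_cast; ring
    rw [e, norm_neg]
    refine (norm_add_le _ _).trans ?_
    rw [norm_mul, norm_mul, Complex.norm_real, Complex.norm_real, Complex.norm_conj,
      Complex.norm_conj, Real.norm_of_nonneg (pp_nonneg ht hh a' b' ζ), Real.norm_eq_abs]
    have h1 := pp_diff ht hh hh2 a b a' b' ζ δ ha hb ha' hb' had hbd
    have h2 := pp_le ht hh hh2 a' b' ζ ha' hb'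
    have h3 : |pp t h a b ζ - pp t h a' b' ζ| * ‖a ζ‖ ≤ 18 * δ * t * 4 :=
      mul_le_mul h1 ha (norm_nonneg _) (by positivity)
    have h4 : pp t h a' b' ζ * ‖a ζ - a' ζ‖ ≤ 41 * t * δ :=
      mul_le_mul h2 had (norm_nonneg _) (by positivity)
    have h5 : 0 ≤ δ * t := by positivity
    linarith
  · rw [indicator_of_notMem hz, indicator_of_notMem hz, sub_zero, norm_zero]; positivity

theorem pp_hdiff (ht : 0 < t) (h' : ℝ) (a b : ℂ → ℂ) (ζ : ℂ)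
    (ha : ‖a ζ‖ ≤ 4) (hb : ‖b ζ‖ ≤ 5) : |pp t h a b ζ - pp t h' a b ζ| ≤ 41 * t * |h - h'| := by
  have e : pp t h a b ζ - pp t h' a b ζ = t * (‖a ζ‖ ^ 2 + ‖b ζ‖ ^ 2) / 2 * (h - h') := by
    unfold pp; ring
  have h1 : ‖a ζ‖ ^ 2 ≤ 4 ^ 2 := pow_le_pow_left₀ (norm_nonneg _) ha 2
  have h2 : ‖b ζ‖ ^ 2 ≤ 5 ^ 2 := pow_le_pow_left₀ (norm_nonneg _) hb 2
  rw [e, abs_mul, abs_of_nonneg (by positivity)]
  refine mul_le_mul_of_nonneg_right ?_ (abs_nonneg _)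
  nlinarith [sq_nonneg ‖a ζ‖, sq_nonneg ‖b ζ‖]

theorem FF_hdiff (ht : 0 < t) (h' : ℝ) (a b : ℂ → ℂ) (ζ : ℂ)
    (ha : ‖a ζ‖ ≤ 4) (hb : ‖b ζ‖ ≤ 5) :
    ‖FF t h a b ζ - FF t h' a b ζ‖ ≤ 205 * t * |h - h'| := by
  unfold FF
  by_cases hz : ζ ∈ G t
  · rw [indicator_of_mem hz, indicator_of_mem hz]
    have e : (pp t h a b ζ : ℂ) * cj (b ζ) - (pp t h' a b ζ : ℂ) * cj (b ζ) =
        ((pp t h a b ζ - pp t h' a b ζ : ℝ) : ℂ) * cj (b ζ) := by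
      push_cast; ring
    rw [e, norm_mul, Complex.norm_real, Complex.norm_conj, Real.norm_eq_abs]
    calc |pp t h a b ζ - pp t h' a b ζ| * ‖b ζ‖ ≤ (41 * t * |h - h'|) * 5 :=
          mul_le_mul (pp_hdiff ht h' a b ζ ha hb) hb (norm_nonneg _) (by positivity)
      _ = 205 * t * |h - h'| := by ring
  · rw [indicator_of_notMem hz, indicator_of_notMem hz, sub_zero, norm_zero]; positivity

theorem KK_hdiff (ht : 0 < t) (h' : ℝ) (a b : ℂ → ℂ) (ζ : ℂ)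
    (ha : ‖a ζ‖ ≤ 4) (hb : ‖b ζ‖ ≤ 5) :
    ‖KK t h a b ζ - KK t h' a b ζ‖ ≤ 205 * t * |h - h'| := by
  unfold KK
  by_cases hz : ζ ∈ G t
  · rw [indicator_of_mem hz, indicator_of_mem hz]
    have e : -((pp t h a b ζ : ℂ) * cj (a ζ)) - -((pp t h' a b ζ : ℂ) * cj (a ζ)) =
        -(((pp t h a b ζ - pp t h' a b ζ : ℝ) : ℂ) * cj (a ζ)) := by
      push_cast; ring
    rw [e, norm_neg, norm_mul, Complex.norm_real, Complex.norm_conj, Real.norm_eq_abs]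
    calc |pp t h a b ζ - pp t h' a b ζ| * ‖a ζ‖ ≤ (41 * t * |h - h'|) * 4 :=
          mul_le_mul (pp_hdiff ht h' a b ζ ha hb) ha (norm_nonneg _) (by positivity)
      _ ≤ 205 * t * |h - h'| := by
          have : 0 ≤ t * |h - h'| := by positivity
          linarith
  · rw [indicator_of_notMem hz, indicator_of_notMem hz, sub_zero, norm_zero]; positivity

theorem G_meas (t : ℝ) : MeasurableSet (G t) := by
  have h1 : MeasurableSet {ζ : ℂ | ‖ζ‖ < 16} := (isOpen_lt continuous_norm continuous_const).measurableSet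
  have h2 : MeasurableSet {ζ : ℂ | t ≤ ‖ζ - 1‖} :=
    (isClosed_le continuous_const (by fun_prop)).measurableSet
  have h3 : MeasurableSet {ζ : ℂ | t ≤ ‖ζ + 1‖} :=
    (isClosed_le continuous_const (by fun_prop)).measurableSet
  have e : G t = {ζ : ℂ | ‖ζ‖ < 16} ∩ ({ζ : ℂ | t ≤ ‖ζ - 1‖} ∩ {ζ : ℂ | t ≤ ‖ζ + 1‖}) := by
    ext ζ; simp [G]
  rw [e]
  exact h1.inter (h2.inter h3)

theorem pp_cont (t h : ℝ) {a b : ℂ → ℂ} (ha : Continuous a) (hb : Continuous b) :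
    Continuous (fun ζ => (pp t h a b ζ : ℂ)) := by
  unfold pp
  exact Complex.continuous_ofReal.comp (continuous_const.mul ((ha.norm.pow 2).add (hb.norm.pow 2)))

theorem FF_meas (t h : ℝ) {a b : ℂ → ℂ} (ha : Continuous a) (hb : Continuous b) :
    Measurable (FF t h a b) := by
  unfold FF
  refine Measurable.indicator ?_ (G_meas t)
  exact ((pp_cont t h ha hb).mul (Complex.continuous_conj.comp hb)).measurable

theorem KK_meas (t h : ℝ) {a b : ℂ → ℂ} (ha : Continuous a) (hb : Continuous b) :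
    Measurable (KK t h a b) := by
  unfold KK
  refine Measurable.indicator ?_ (G_meas t)
  exact ((pp_cont t h ha hb).mul (Complex.continuous_conj.comp ha)).neg.measurable

theorem FF_supp (t h : ℝ) (a b : ℂ → ℂ) (w : ℂ) (hw : 16 < ‖w‖) : FF t h a b w = 0 := by
  unfold FF
  rw [indicator_of_notMem]
  intro hG
  have := hG.1
  linarith

theorem KK_supp (t h : ℝ) (a b : ℂ → ℂ) (w : ℂ) (hw : 16 < ‖w‖) : KK t h a b w = 0 := by
  unfold KK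
  rw [indicator_of_notMem]
  intro hG
  have := hG.1
  linarith

theorem FF_ball (t h : ℝ) (a b : ℂ → ℂ) (w : ℂ) (hw : w ∈ ball (1 : ℂ) t) :
    FF t h a b w = 0 := by
  unfold FF
  rw [indicator_of_notMem]
  intro hG
  have h1 := hG.2.1
  rw [mem_ball, dist_eq_norm] at hw
  linarith

theorem KK_ball (t h : ℝ) (a b : ℂ → ℂ) (w : ℂ) (hw : w ∈ ball (1 : ℂ) t) :
    KK t h a b w = 0 := by
  unfold KK
  rw [indicator_of_notMem]
  intro hG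
  have h1 := hG.2.1
  rw [mem_ball, dist_eq_norm] at hw
  linarith

theorem G_neg (t : ℝ) (ζ : ℂ) : -ζ ∈ G t ↔ ζ ∈ G t := by
  have e1 : ‖-ζ - 1‖ = ‖ζ + 1‖ := by rw [← norm_neg]; congr 1; ring
  have e2 : ‖-ζ + 1‖ = ‖ζ - 1‖ := by rw [← norm_neg]; congr 1; ring
  unfold G
  simp only [mem_setOf_eq, norm_neg, e1, e2]
  tauto

theorem G_cj (t : ℝ) (ζ : ℂ) : cj ζ ∈ G t ↔ ζ ∈ G t := by
  have e1 : ‖cj ζ - 1‖ = ‖ζ - 1‖ := norm_cj_sub ζ
  have e2 : ‖cj ζ + 1‖ = ‖ζ + 1‖ := by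
    have : cj ζ + 1 = cj (ζ + 1) := by simp [cj]
    rw [this, Complex.norm_conj]
  unfold G
  simp only [mem_setOf_eq, Complex.norm_conj, e1, e2]

theorem FF_neg (t h : ℝ) {a b : ℂ → ℂ} (ha : ∀ z, a (-z) = a z) (hb : ∀ z, b (-z) = - b z)
    (w : ℂ) : FF t h a b (-w) = - FF t h a b w := by
  unfold FF
  by_cases hz : w ∈ G t
  · rw [indicator_of_mem hz, indicator_of_mem ((G_neg t w).mpr hz)]
    unfold pp
    rw [ha, hb, norm_neg]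
    simp only [cj, map_neg, mul_neg]
  · rw [indicator_of_notMem hz, indicator_of_notMem (fun hh => hz ((G_neg t w).mp hh)), neg_zero]

theorem KK_neg (t h : ℝ) {a b : ℂ → ℂ} (ha : ∀ z, a (-z) = a z) (hb : ∀ z, b (-z) = - b z)
    (w : ℂ) : KK t h a b (-w) = KK t h a b w := by
  unfold KK
  by_cases hz : w ∈ G t
  · rw [indicator_of_mem hz, indicator_of_mem ((G_neg t w).mpr hz)]
    unfold pp
    rw [ha, hb, norm_neg]
  · rw [indicator_of_notMem hz, indicator_of_notMem (fun hh => hz ((G_neg t w).mp hh))]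

theorem FF_cj (t h : ℝ) {a b : ℂ → ℂ} (ha : ∀ z, a (cj z) = cj (a z))
    (hb : ∀ z, b (cj z) = cj (b z)) (w : ℂ) : FF t h a b (cj w) = cj (FF t h a b w) := by
  unfold FF
  by_cases hz : w ∈ G t
  · rw [indicator_of_mem hz, indicator_of_mem ((G_cj t w).mpr hz)]
    unfold pp
    rw [ha, hb, Complex.norm_conj, Complex.norm_conj]
    simp only [cj, map_mul, Complex.conj_ofReal]
  · rw [indicator_of_notMem hz, indicator_of_notMem (fun hh => hz ((G_cj t w).mp hh))]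
    simp [cj]

theorem KK_cj (t h : ℝ) {a b : ℂ → ℂ} (ha : ∀ z, a (cj z) = cj (a z))
    (hb : ∀ z, b (cj z) = cj (b z)) (w : ℂ) : KK t h a b (cj w) = cj (KK t h a b w) := by
  unfold KK
  by_cases hz : w ∈ G t
  · rw [indicator_of_mem hz, indicator_of_mem ((G_cj t w).mpr hz)]
    unfold pp
    rw [ha, hb, Complex.norm_conj, Complex.norm_conj]
    simp only [cj, map_neg, map_mul, Complex.conj_ofReal]
  · rw [indicator_of_notMem hz, indicator_of_notMem (fun hh => hz ((G_cj t w).mp hh))]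
    simp [cj]

end aux2

/-- the properties of the Cauchy transform -/
structure CTP : Prop where
  hbound : ∀ (F : ℂ → ℂ) (M ρ : ℝ), Adm F M ρ → 0 < ρ → ∀ z, ‖CT F z‖ ≤ 3 * ρ * M
  hadd : ∀ (F K : ℂ → ℂ) (M ρ M' ρ' : ℝ), Adm F M ρ → Adm K M' ρ' → ∀ z : ℂ,
      CT (fun w => F w + K w) z = CT F z + CT K z
  hcont : ∀ (F : ℂ → ℂ) (M ρ : ℝ), Adm F M ρ → Continuous (CT F)
  hhol : ∀ (F : ℂ → ℂ) (M ρ : ℝ), Adm F M ρ → ∀ U : Set ℂ, IsOpen U → (∀ w ∈ U, F w = 0) →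
      DifferentiableOn ℂ (CT F) U
  hneg : ∀ (F : ℂ → ℂ) (z : ℂ), CT (fun w => F (-w)) z = - CT F (-z)
  hcj : ∀ (F : ℂ → ℂ) (z : ℂ), CT (fun w => cj (F (cj w))) z = cj (CT F (cj z))

/-- the closed set -/
structure PS (t : ℝ) (u v α β : ℂ → ℂ) : Prop where
  cu : Continuous u
  cv : Continuous v
  cα : Continuous α
  cβ : Continuous β
  bu : ∀ ζ, ‖u ζ‖ ≤ 1
  bv : ∀ ζ, ‖v ζ‖ ≤ 1
  bα : ∀ ζ, ‖α ζ - 1‖ ≤ 1
  bβ : ∀ ζ, ‖β ζ‖ ≤ 1
  nu : ∀ ζ, u (-ζ) = u ζ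
  nv : ∀ ζ, v (-ζ) = - v ζ
  ju : ∀ ζ, u (cj ζ) = cj (u ζ)
  jv : ∀ ζ, v (cj ζ) = cj (v ζ)
  jα : ∀ ζ, α (cj ζ) = cj (α ζ)
  jβ : ∀ ζ, β (cj ζ) = cj (β ζ)
  dα : DifferentiableOn ℂ α (ball 1 t)
  dβ : DifferentiableOn ℂ β (ball 1 t)

noncomputable def U1 (t h : ℝ) (u v α β : ℂ → ℂ) : ℂ → ℂ := CT (FF t h (fa t u β) (fb t v α))
noncomputable def V1 (t h : ℝ) (u v α β : ℂ → ℂ) : ℂ → ℂ := CT (KK t h (fa t u β) (fb t v α))
noncomputable def A1 (t h : ℝ) (u v α β : ℂ → ℂ) : ℂ → ℂ := fun ζ =>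
  1 + U1 t h u v α β (ret t ζ) + sS t β (-(ret t ζ))
noncomputable def B1 (t h : ℝ) (u v α β : ℂ → ℂ) : ℂ → ℂ := fun ζ =>
  V1 t h u v α β (ret t ζ) - sS t α (-(ret t ζ))

section ps
variable {t h : ℝ} {u v α β : ℂ → ℂ}

theorem PS.bα2 (H : PS t u v α β) (ζ : ℂ) : ‖α ζ‖ ≤ 2 := by
  have h1 := H.bα ζ
  have h2 : α ζ = (α ζ - 1) + 1 := by ring
  rw [h2]
  refine (norm_add_le _ _).trans ?_
  rw [norm_one]
  linarith

theorem PS.fa_le (H : PS t u v α β) (ht : 0 < t) (ζ : ℂ) : ‖fa t u β ζ‖ ≤ 4 := by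
  unfold fa
  have h1 := sS_le ht β 1 H.bβ ζ
  have h2 := sS_le ht β 1 H.bβ (-ζ)
  have h3 := H.bu ζ
  calc ‖1 + u ζ + sS t β ζ + sS t β (-ζ)‖ ≤ ‖(1 : ℂ)‖ + ‖u ζ‖ + ‖sS t β ζ‖ + ‖sS t β (-ζ)‖ :=
        norm_add₄_le
    _ ≤ 4 := by rw [norm_one]; linarith

theorem PS.fb_le (H : PS t u v α β) (ht : 0 < t) (ζ : ℂ) : ‖fb t v α ζ‖ ≤ 5 := by
  unfold fb
  have h1 := sS_le ht α 2 H.bα2 ζ
  have h2 := sS_le ht α 2 H.bα2 (-ζ)
  have h3 := H.bv ζ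
  calc ‖v ζ + sS t α ζ - sS t α (-ζ)‖ ≤ ‖v ζ + sS t α ζ‖ + ‖sS t α (-ζ)‖ := norm_sub_le _ _
    _ ≤ (‖v ζ‖ + ‖sS t α ζ‖) + ‖sS t α (-ζ)‖ := by gcongr; exact norm_add_le _ _
    _ ≤ 5 := by linarith

theorem PS.fa_cont (H : PS t u v α β) (ht : 0 < t) : Continuous (fa t u β) := by
  unfold fa
  exact ((continuous_const.add H.cu).add (sS_cont ht H.cβ)).add
    ((sS_cont ht H.cβ).comp continuous_neg)

theorem PS.fb_cont (H : PS t u v α β) (ht : 0 < t) : Continuous (fb t v α) := by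
  unfold fb
  exact (H.cv.add (sS_cont ht H.cα)).sub ((sS_cont ht H.cα).comp continuous_neg)

theorem PS.fa_neg (H : PS t u v α β) (ζ : ℂ) : fa t u β (-ζ) = fa t u β ζ := by
  unfold fa
  rw [H.nu, neg_neg]; ring

theorem PS.fb_neg (H : PS t u v α β) (ζ : ℂ) : fb t v α (-ζ) = - fb t v α ζ := by
  unfold fb
  rw [H.nv, neg_neg]; ring

theorem PS.fa_cj (H : PS t u v α β) (ζ : ℂ) : fa t u β (cj ζ) = cj (fa t u β ζ) := by
  unfold fa
  have e : -(cj ζ) = cj (-ζ) := by simp [cj]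
  rw [H.ju, e, sS_cj H.jβ, sS_cj H.jβ]
  simp only [cj, map_add, map_one]

theorem PS.fb_cj (H : PS t u v α β) (ζ : ℂ) : fb t v α (cj ζ) = cj (fb t v α ζ) := by
  unfold fb
  have e : -(cj ζ) = cj (-ζ) := by simp [cj]
  rw [H.jv, e, sS_cj H.jα, sS_cj H.jα]
  simp only [cj, map_add, map_sub]

theorem PS.FF_adm (H : PS t u v α β) (ht : 0 < t) (hh : 0 ≤ h) (hh2 : h ≤ 2) :
    Adm (FF t h (fa t u β) (fb t v α)) (300 * t) 16 :=
  ⟨FF_meas t h (H.fa_cont ht) (H.fb_cont ht),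
    fun w => FF_le ht hh hh2 _ _ w (H.fa_le ht w) (H.fb_le ht w),
    fun w hw => FF_supp t h _ _ w hw⟩

theorem PS.KK_adm (H : PS t u v α β) (ht : 0 < t) (hh : 0 ≤ h) (hh2 : h ≤ 2) :
    Adm (KK t h (fa t u β) (fb t v α)) (300 * t) 16 :=
  ⟨KK_meas t h (H.fa_cont ht) (H.fb_cont ht),
    fun w => KK_le ht hh hh2 _ _ w (H.fa_le ht w) (H.fb_le ht w),
    fun w hw => KK_supp t h _ _ w hw⟩

theorem CT_negF (F : ℂ → ℂ) (z : ℂ) : CT (fun w => - F w) z = - CT F z := by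
  unfold CT
  have : (fun w => -F w / (z - w)) = fun w => -(F w / (z - w)) := by
    funext w; rw [neg_div]
  rw [this, MeasureTheory.integral_neg, mul_neg]

theorem PS.U1_le (P : CTP) (H : PS t u v α β) (ht : 0 < t) (hh : 0 ≤ h) (hh2 : h ≤ 2) (ζ : ℂ) :
    ‖U1 t h u v α β ζ‖ ≤ 14400 * t := by
  have h1 := P.hbound _ _ _ (H.FF_adm ht hh hh2) (by norm_num) ζ
  unfold U1
  linarith

theorem PS.V1_le (P : CTP) (H : PS t u v α β) (ht : 0 < t) (hh : 0 ≤ h) (hh2 : h ≤ 2) (ζ : ℂ) :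
    ‖V1 t h u v α β ζ‖ ≤ 14400 * t := by
  have h1 := P.hbound _ _ _ (H.KK_adm ht hh hh2) (by norm_num) ζ
  unfold V1
  linarith

theorem PS.A1_le (P : CTP) (H : PS t u v α β) (ht : 0 < t) (ht1 : t ≤ 1) (hh : 0 ≤ h)
    (hh2 : h ≤ 2) (ζ : ℂ) : ‖A1 t h u v α β ζ - 1‖ ≤ 14401 * t := by
  unfold A1
  have e : 1 + U1 t h u v α β (ret t ζ) + sS t β (-(ret t ζ)) - 1 =
      U1 t h u v α β (ret t ζ) + sS t β (-(ret t ζ)) := by ring
  rw [e]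
  refine (norm_add_le _ _).trans ?_
  have h1 := H.U1_le P ht hh hh2 (ret t ζ)
  have h2 := sS_le_far ht ht1 β 1 H.bβ ζ
  linarith

theorem PS.B1_le (P : CTP) (H : PS t u v α β) (ht : 0 < t) (ht1 : t ≤ 1) (hh : 0 ≤ h)
    (hh2 : h ≤ 2) (ζ : ℂ) : ‖B1 t h u v α β ζ‖ ≤ 14402 * t := by
  unfold B1
  refine (norm_sub_le _ _).trans ?_
  have h1 := H.V1_le P ht hh hh2 (ret t ζ)
  have h2 := sS_le_far ht ht1 α 2 H.bα2 ζ
  linarith

theorem PS.step (P : CTP) (H : PS t u v α β) (ht : 0 < t) (ht1 : 100000 * t ≤ 1) (hh : 0 ≤ h)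
    (hh2 : h ≤ 2) :
    PS t (U1 t h u v α β) (V1 t h u v α β) (A1 t h u v α β) (B1 t h u v α β) := by
  have ht2 : t ≤ 1 := by linarith
  have cU : Continuous (U1 t h u v α β) := P.hcont _ _ _ (H.FF_adm ht hh hh2)
  have cV : Continuous (V1 t h u v α β) := P.hcont _ _ _ (H.KK_adm ht hh hh2)
  have jU : ∀ ζ, U1 t h u v α β (cj ζ) = cj (U1 t h u v α β ζ) := by
    intro ζ
    have h1 := P.hcj (FF t h (fa t u β) (fb t v α)) (cj ζ)
    have h2 : (fun w => cj (FF t h (fa t u β) (fb t v α) (cj w))) =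
        FF t h (fa t u β) (fb t v α) := by
      funext w
      rw [FF_cj t h H.fa_cj H.fb_cj]
      simp only [cj, Complex.conj_conj]
    rw [h2] at h1
    unfold U1
    rw [h1]
    simp only [cj, Complex.conj_conj]
  have jV : ∀ ζ, V1 t h u v α β (cj ζ) = cj (V1 t h u v α β ζ) := by
    intro ζ
    have h1 := P.hcj (KK t h (fa t u β) (fb t v α)) (cj ζ)
    have h2 : (fun w => cj (KK t h (fa t u β) (fb t v α) (cj w))) =
        KK t h (fa t u β) (fb t v α) := by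
      funext w
      rw [KK_cj t h H.fa_cj H.fb_cj]
      simp only [cj, Complex.conj_conj]
    rw [h2] at h1
    unfold V1
    rw [h1]
    simp only [cj, Complex.conj_conj]
  have hneg : ∀ ζ : ℂ, -(cj ζ) = cj (-ζ) := fun ζ => by simp [cj]
  refine ⟨cU, cV, ?_, ?_, ?_, ?_, ?_, ?_, ?_, ?_, jU, jV, ?_, ?_, ?_, ?_⟩
  · exact (continuous_const.add (cU.comp (ret_cont ht))).add
      ((sS_cont ht H.cβ).comp (ret_cont ht).neg)
  · exact (cV.comp (ret_cont ht)).sub ((sS_cont ht H.cα).comp (ret_cont ht).neg)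
  · intro ζ
    exact (H.U1_le P ht hh hh2 ζ).trans (by linarith)
  · intro ζ
    exact (H.V1_le P ht hh hh2 ζ).trans (by linarith)
  · intro ζ
    exact (H.A1_le P ht ht2 hh hh2 ζ).trans (by linarith)
  · intro ζ
    exact (H.B1_le P ht ht2 hh hh2 ζ).trans (by linarith)
  · intro ζ
    have h1 := P.hneg (FF t h (fa t u β) (fb t v α)) ζ
    have h2 : (fun w => FF t h (fa t u β) (fb t v α) (-w)) =
        fun w => - FF t h (fa t u β) (fb t v α) w := by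
      funext w; exact FF_neg t h H.fa_neg H.fb_neg w
    rw [h2, CT_negF] at h1
    unfold U1
    exact (neg_injective h1).symm
  · intro ζ
    have h1 := P.hneg (KK t h (fa t u β) (fb t v α)) ζ
    have h2 : (fun w => KK t h (fa t u β) (fb t v α) (-w)) =
        fun w => KK t h (fa t u β) (fb t v α) w := by
      funext w; exact KK_neg t h H.fa_neg H.fb_neg w
    rw [h2] at h1
    unfold V1
    rw [show CT (KK t h (fa t u β) (fb t v α)) ζ =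
      CT (fun w => KK t h (fa t u β) (fb t v α) w) ζ from rfl, h1, neg_neg]
  · intro ζ
    unfold A1
    rw [ret_cj, jU, hneg, sS_cj H.jβ]
    simp only [cj, map_add, map_one]
  · intro ζ
    unfold B1
    rw [ret_cj, jV, hneg, sS_cj H.jα]
    simp only [cj, map_sub]
  · have h1 : DifferentiableOn ℂ (U1 t h u v α β) (ball 1 t) :=
      P.hhol _ _ _ (H.FF_adm ht hh hh2) _ isOpen_ball (fun w hw => FF_ball t h _ _ w hw)
    have h2 := sS_hol ht (by linarith) β H.jβ H.dβ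
    refine DifferentiableOn.congr (((differentiableOn_const (1 : ℂ)).add h1).add h2) ?_
    intro z hz
    rw [mem_ball, dist_eq_norm] at hz
    unfold A1
    rw [ret_eq ht z hz.le]
    rfl
  · have h1 : DifferentiableOn ℂ (V1 t h u v α β) (ball 1 t) :=
      P.hhol _ _ _ (H.KK_adm ht hh hh2) _ isOpen_ball (fun w hw => KK_ball t h _ _ w hw)
    have h2 := sS_hol ht (by linarith) α H.jα H.dα
    refine DifferentiableOn.congr (h1.sub h2) ?_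
    intro z hz
    rw [mem_ball, dist_eq_norm] at hz
    unfold B1
    rw [ret_eq ht z hz.le]
    rfl

/-- difference of Cauchy transforms -/
theorem CT_diff (P : CTP) (F F' : ℂ → ℂ) (M M' D : ℝ) (hF : Adm F M 16) (hF' : Adm F' M' 16)
    (hD : ∀ w, ‖F w - F' w‖ ≤ D) (z : ℂ) : ‖CT F z - CT F' z‖ ≤ 48 * D := by
  have hA : Adm (fun w => F w - F' w) D 16 :=
    ⟨hF.1.sub hF'.1, hD, fun w hw => by
      show F w - F' w = 0
      rw [hF.2.2 w hw, hF'.2.2 w hw, sub_zero]⟩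
  have h1 := P.hadd F' (fun w => F w - F' w) _ _ _ _ hF' hA z
  have h2 : (fun w => F' w + (F w - F' w)) = F := by funext w; ring
  rw [h2] at h1
  rw [h1, add_sub_cancel_left]
  have h3 := P.hbound _ _ _ hA (by norm_num) z
  linarith

variable {u' v' α' β' : ℂ → ℂ}

theorem fa_diff (ht : 0 < t) (d : ℝ) (hu : ∀ z, ‖u z - u' z‖ ≤ d) (hβ : ∀ z, ‖β z - β' z‖ ≤ d)
    (ζ : ℂ) : ‖fa t u β ζ - fa t u' β' ζ‖ ≤ 3 * d := by
  unfold fa
  have e : 1 + u ζ + sS t β ζ + sS t β (-ζ) - (1 + u' ζ + sS t β' ζ + sS t β' (-ζ)) =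
      (u ζ - u' ζ) + (sS t β ζ - sS t β' ζ) + (sS t β (-ζ) - sS t β' (-ζ)) := by ring
  rw [e]
  refine norm_add₃_le.trans ?_
  have h1 := hu ζ
  have h2 := sS_diff ht β β' d hβ ζ
  have h3 := sS_diff ht β β' d hβ (-ζ)
  linarith

theorem fb_diff (ht : 0 < t) (d : ℝ) (hv : ∀ z, ‖v z - v' z‖ ≤ d) (hα : ∀ z, ‖α z - α' z‖ ≤ d)
    (ζ : ℂ) : ‖fb t v α ζ - fb t v' α' ζ‖ ≤ 3 * d := by
  unfold fb
  have e : v ζ + sS t α ζ - sS t α (-ζ) - (v' ζ + sS t α' ζ - sS t α' (-ζ)) =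
      (v ζ - v' ζ) + (sS t α ζ - sS t α' ζ) + -(sS t α (-ζ) - sS t α' (-ζ)) := by ring
  rw [e]
  refine norm_add₃_le.trans ?_
  rw [norm_neg]
  have h1 := hv ζ
  have h2 := sS_diff ht α α' d hα ζ
  have h3 := sS_diff ht α α' d hα (-ζ)
  linarith

theorem U1_diff (P : CTP) (H : PS t u v α β) (H' : PS t u' v' α' β') (ht : 0 < t) (hh : 0 ≤ h)
    (hh2 : h ≤ 2) (d : ℝ) (hu : ∀ z, ‖u z - u' z‖ ≤ d) (hv : ∀ z, ‖v z - v' z‖ ≤ d)
    (hα : ∀ z, ‖α z - α' z‖ ≤ d) (hβ : ∀ z, ‖β z - β' z‖ ≤ d) (ζ : ℂ) :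
    ‖U1 t h u v α β ζ - U1 t h u' v' α' β' ζ‖ ≤ 19000 * d * t := by
  have h1 := CT_diff P _ _ _ _ (131 * (3 * d) * t) (H.FF_adm ht hh hh2) (H'.FF_adm ht hh hh2)
    (fun w => FF_diff ht hh hh2 _ _ _ _ w (3 * d) (H.fa_le ht w) (H.fb_le ht w) (H'.fa_le ht w)
      (H'.fb_le ht w) (fa_diff ht d hu hβ w) (fb_diff ht d hv hα w)) ζ
  have hd : 0 ≤ d := (norm_nonneg _).trans (hu 0)
  unfold U1
  refine h1.trans ?_
  have : 0 ≤ d * t := by positivity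
  linarith

theorem V1_diff (P : CTP) (H : PS t u v α β) (H' : PS t u' v' α' β') (ht : 0 < t) (hh : 0 ≤ h)
    (hh2 : h ≤ 2) (d : ℝ) (hu : ∀ z, ‖u z - u' z‖ ≤ d) (hv : ∀ z, ‖v z - v' z‖ ≤ d)
    (hα : ∀ z, ‖α z - α' z‖ ≤ d) (hβ : ∀ z, ‖β z - β' z‖ ≤ d) (ζ : ℂ) :
    ‖V1 t h u v α β ζ - V1 t h u' v' α' β' ζ‖ ≤ 19000 * d * t := by
  have h1 := CT_diff P _ _ _ _ (131 * (3 * d) * t) (H.KK_adm ht hh hh2) (H'.KK_adm ht hh hh2)
    (fun w => KK_diff ht hh hh2 _ _ _ _ w (3 * d) (H.fa_le ht w) (H.fb_le ht w) (H'.fa_le ht w)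
      (H'.fb_le ht w) (fa_diff ht d hu hβ w) (fb_diff ht d hv hα w)) ζ
  have hd : 0 ≤ d := (norm_nonneg _).trans (hu 0)
  unfold V1
  refine h1.trans ?_
  have : 0 ≤ d * t := by positivity
  linarith

theorem A1_diff (P : CTP) (H : PS t u v α β) (H' : PS t u' v' α' β') (ht : 0 < t) (ht1 : t ≤ 1)
    (hh : 0 ≤ h)
    (hh2 : h ≤ 2) (d : ℝ) (hu : ∀ z, ‖u z - u' z‖ ≤ d) (hv : ∀ z, ‖v z - v' z‖ ≤ d)
    (hα : ∀ z, ‖α z - α' z‖ ≤ d) (hβ : ∀ z, ‖β z - β' z‖ ≤ d) (ζ : ℂ) :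
    ‖A1 t h u v α β ζ - A1 t h u' v' α' β' ζ‖ ≤ 19001 * d * t := by
  unfold A1
  have e : 1 + U1 t h u v α β (ret t ζ) + sS t β (-(ret t ζ)) -
      (1 + U1 t h u' v' α' β' (ret t ζ) + sS t β' (-(ret t ζ))) =
      (U1 t h u v α β (ret t ζ) - U1 t h u' v' α' β' (ret t ζ)) +
        (sS t β (-(ret t ζ)) - sS t β' (-(ret t ζ))) := by ring
  rw [e]
  refine (norm_add_le _ _).trans ?_
  have h1 := U1_diff P H H' ht hh hh2 d hu hv hα hβ (ret t ζ)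
  have h2 := sS_diff_far ht ht1 β β' d hβ ζ
  linarith

theorem B1_diff (P : CTP) (H : PS t u v α β) (H' : PS t u' v' α' β') (ht : 0 < t) (ht1 : t ≤ 1)
    (hh : 0 ≤ h)
    (hh2 : h ≤ 2) (d : ℝ) (hu : ∀ z, ‖u z - u' z‖ ≤ d) (hv : ∀ z, ‖v z - v' z‖ ≤ d)
    (hα : ∀ z, ‖α z - α' z‖ ≤ d) (hβ : ∀ z, ‖β z - β' z‖ ≤ d) (ζ : ℂ) :
    ‖B1 t h u v α β ζ - B1 t h u' v' α' β' ζ‖ ≤ 19001 * d * t := by
  unfold B1
  have e : V1 t h u v α β (ret t ζ) - sS t α (-(ret t ζ)) -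
      (V1 t h u' v' α' β' (ret t ζ) - sS t α' (-(ret t ζ))) =
      (V1 t h u v α β (ret t ζ) - V1 t h u' v' α' β' (ret t ζ)) +
        -(sS t α (-(ret t ζ)) - sS t α' (-(ret t ζ))) := by ring
  rw [e]
  refine (norm_add_le _ _).trans ?_
  rw [norm_neg]
  have h1 := V1_diff P H H' ht hh hh2 d hu hv hα hβ (ret t ζ)
  have h2 := sS_diff_far ht ht1 α α' d hα ζ
  linarith

theorem U1_hdiff (P : CTP) (H : PS t u v α β) (ht : 0 < t) (hh : 0 ≤ h)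
    (hh2 : h ≤ 2) (h' : ℝ) (hh' : 0 ≤ h') (hh2' : h' ≤ 2) (ζ : ℂ) :
    ‖U1 t h u v α β ζ - U1 t h' u v α β ζ‖ ≤ 10000 * t * |h - h'| := by
  have h1 := CT_diff P _ _ _ _ (205 * t * |h - h'|) (H.FF_adm ht hh hh2) (H.FF_adm ht hh' hh2')
    (fun w => FF_hdiff ht h' _ _ w (H.fa_le ht w) (H.fb_le ht w)) ζ
  unfold U1
  refine h1.trans ?_
  have : 0 ≤ t * |h - h'| := by positivity
  linarith

theorem V1_hdiff (P : CTP) (H : PS t u v α β) (ht : 0 < t) (hh : 0 ≤ h)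
    (hh2 : h ≤ 2) (h' : ℝ) (hh' : 0 ≤ h') (hh2' : h' ≤ 2) (ζ : ℂ) :
    ‖V1 t h u v α β ζ - V1 t h' u v α β ζ‖ ≤ 10000 * t * |h - h'| := by
  have h1 := CT_diff P _ _ _ _ (205 * t * |h - h'|) (H.KK_adm ht hh hh2) (H.KK_adm ht hh' hh2')
    (fun w => KK_hdiff ht h' _ _ w (H.fa_le ht w) (H.fb_le ht w)) ζ
  unfold V1
  refine h1.trans ?_
  have : 0 ≤ t * |h - h'| := by positivity
  linarith

theorem A1_hdiff (P : CTP) (H : PS t u v α β) (ht : 0 < t) (hh : 0 ≤ h)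
    (hh2 : h ≤ 2) (h' : ℝ) (hh' : 0 ≤ h') (hh2' : h' ≤ 2) (ζ : ℂ) :
    ‖A1 t h u v α β ζ - A1 t h' u v α β ζ‖ ≤ 10000 * t * |h - h'| := by
  unfold A1
  have e : 1 + U1 t h u v α β (ret t ζ) + sS t β (-(ret t ζ)) -
      (1 + U1 t h' u v α β (ret t ζ) + sS t β (-(ret t ζ))) =
      U1 t h u v α β (ret t ζ) - U1 t h' u v α β (ret t ζ) := by ring
  rw [e]
  exact U1_hdiff P H ht hh hh2 h' hh' hh2' _

theorem B1_hdiff (P : CTP) (H : PS t u v α β) (ht : 0 < t) (hh : 0 ≤ h)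
    (hh2 : h ≤ 2) (h' : ℝ) (hh' : 0 ≤ h') (hh2' : h' ≤ 2) (ζ : ℂ) :
    ‖B1 t h u v α β ζ - B1 t h' u v α β ζ‖ ≤ 10000 * t * |h - h'| := by
  unfold B1
  have e : V1 t h u v α β (ret t ζ) - sS t α (-(ret t ζ)) -
      (V1 t h' u v α β (ret t ζ) - sS t α (-(ret t ζ))) =
      V1 t h u v α β (ret t ζ) - V1 t h' u v α β (ret t ζ) := by ring
  rw [e]
  exact V1_hdiff P H ht hh hh2 h' hh' hh2' _

end ps

open Classical in
/-- a bounded continuous function made of a function -/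
noncomputable def mkB (f : ℂ → ℂ) : BoundedContinuousFunction ℂ ℂ :=
  if hf : Continuous f ∧ ∃ C, ∀ z, ‖f z‖ ≤ C then
    BoundedContinuousFunction.ofNormedAddCommGroup f hf.1 hf.2.choose hf.2.choose_spec
  else 0

theorem mkB_coe (f : ℂ → ℂ) (hf : Continuous f) (C : ℝ) (hC : ∀ z, ‖f z‖ ≤ C) :
    (mkB f : ℂ → ℂ) = f := by
  unfold mkB
  rw [dif_pos ⟨hf, C, hC⟩]
  rfl

/-- the space -/
abbrev XX : Type := BoundedContinuousFunction ℂ ℂ × BoundedContinuousFunction ℂ ℂ ×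
  BoundedContinuousFunction ℂ ℂ × BoundedContinuousFunction ℂ ℂ

/-- the closed subset -/
def SX (t : ℝ) : Set XX := {x | PS t x.1 x.2.1 x.2.2.1 x.2.2.2}

theorem SX_closed (t : ℝ) : IsClosed (SX t) := by
  apply IsSeqClosed.isClosed
  intro x y hx hxy
  have ev : ∀ (F : ℕ → BoundedContinuousFunction ℂ ℂ) (f : BoundedContinuousFunction ℂ ℂ),
      Filter.Tendsto F Filter.atTop (nhds f) → ∀ z,
        Filter.Tendsto (fun n => F n z) Filter.atTop (nhds (f z)) :=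
    fun F f hF z => (BoundedContinuousFunction.tendsto_iff_tendstoUniformly.mp hF).tendsto_at z
  have dv : ∀ (F : ℕ → BoundedContinuousFunction ℂ ℂ) (f : BoundedContinuousFunction ℂ ℂ),
      Filter.Tendsto F Filter.atTop (nhds f) → (∀ n, DifferentiableOn ℂ (F n) (ball 1 t)) →
        DifferentiableOn ℂ f (ball 1 t) := fun F f hF hd =>
    ((BoundedContinuousFunction.tendsto_iff_tendstoUniformly.mp
      hF).tendstoUniformlyOn.tendstoLocallyUniformlyOn).differentiableOn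
      (Filter.Eventually.of_forall hd) isOpen_ball
  have t1 : Filter.Tendsto (fun n => (x n).1) Filter.atTop (nhds y.1) :=
    (continuous_fst.tendsto y).comp hxy
  have t2 : Filter.Tendsto (fun n => (x n).2.1) Filter.atTop (nhds y.2.1) :=
    ((continuous_fst.comp continuous_snd).tendsto y).comp hxy
  have t3 : Filter.Tendsto (fun n => (x n).2.2.1) Filter.atTop (nhds y.2.2.1) :=
    ((continuous_fst.comp (continuous_snd.comp continuous_snd)).tendsto y).comp hxy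
  have t4 : Filter.Tendsto (fun n => (x n).2.2.2) Filter.atTop (nhds y.2.2.2) :=
    ((continuous_snd.comp (continuous_snd.comp continuous_snd)).tendsto y).comp hxy
  have cjt : ∀ (F : ℕ → ℂ) (f : ℂ), Filter.Tendsto F Filter.atTop (nhds f) →
      Filter.Tendsto (fun n => cj (F n)) Filter.atTop (nhds (cj f)) := fun F f hF =>
    (Complex.continuous_conj.tendsto f).comp hF
  have hx' : ∀ n, PS t (x n).1 (x n).2.1 (x n).2.2.1 (x n).2.2.2 := hx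
  show PS t y.1 y.2.1 y.2.2.1 y.2.2.2
  refine ⟨y.1.continuous, y.2.1.continuous, y.2.2.1.continuous, y.2.2.2.continuous,
    ?_, ?_, ?_, ?_, ?_, ?_, ?_, ?_, ?_, ?_, ?_, ?_⟩
  · intro ζ
    exact le_of_tendsto' (ev _ _ t1 ζ).norm (fun n => (hx' n).bu ζ)
  · intro ζ
    exact le_of_tendsto' (ev _ _ t2 ζ).norm (fun n => (hx' n).bv ζ)
  · intro ζ
    exact le_of_tendsto' ((ev _ _ t3 ζ).sub_const 1).norm (fun n => (hx' n).bα ζ)
  · intro ζ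
    exact le_of_tendsto' (ev _ _ t4 ζ).norm (fun n => (hx' n).bβ ζ)
  · intro ζ
    refine tendsto_nhds_unique (ev _ _ t1 (-ζ)) ?_
    exact (ev _ _ t1 ζ).congr (fun n => ((hx' n).nu ζ).symm)
  · intro ζ
    refine tendsto_nhds_unique (ev _ _ t2 (-ζ)) ?_
    exact (ev _ _ t2 ζ).neg.congr (fun n => ((hx' n).nv ζ).symm)
  · intro ζ
    refine tendsto_nhds_unique (ev _ _ t1 (cj ζ)) ?_
    exact (cjt _ _ (ev _ _ t1 ζ)).congr (fun n => ((hx' n).ju ζ).symm)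
  · intro ζ
    refine tendsto_nhds_unique (ev _ _ t2 (cj ζ)) ?_
    exact (cjt _ _ (ev _ _ t2 ζ)).congr (fun n => ((hx' n).jv ζ).symm)
  · intro ζ
    refine tendsto_nhds_unique (ev _ _ t3 (cj ζ)) ?_
    exact (cjt _ _ (ev _ _ t3 ζ)).congr (fun n => ((hx' n).jα ζ).symm)
  · intro ζ
    refine tendsto_nhds_unique (ev _ _ t4 (cj ζ)) ?_
    exact (cjt _ _ (ev _ _ t4 ζ)).congr (fun n => ((hx' n).jβ ζ).symm)
  · exact dv _ _ t3 (fun n => (hx' n).dα)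
  · exact dv _ _ t4 (fun n => (hx' n).dβ)

theorem SX_nonempty (t : ℝ) : (SX t).Nonempty := by
  refine ⟨(0, 0, 1, 0), ?_⟩
  show PS t (0 : BoundedContinuousFunction ℂ ℂ) (0 : BoundedContinuousFunction ℂ ℂ)
    (1 : BoundedContinuousFunction ℂ ℂ) (0 : BoundedContinuousFunction ℂ ℂ)
  refine ⟨BoundedContinuousFunction.continuous _, BoundedContinuousFunction.continuous _,
    BoundedContinuousFunction.continuous _, BoundedContinuousFunction.continuous _,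
    ?_, ?_, ?_, ?_, ?_, ?_, ?_, ?_, ?_, ?_, ?_, ?_⟩
  · intro ζ; simp
  · intro ζ; simp
  · intro ζ; simp
  · intro ζ; simp
  · intro ζ; simp
  · intro ζ; simp
  · intro ζ; simp [cj]
  · intro ζ; simp [cj]
  · intro ζ; simp [cj]
  · intro ζ; simp [cj]
  · exact differentiableOn_const (1 : ℂ)
  · exact differentiableOn_const (0 : ℂ)

/-- the map -/
noncomputable def Psi (t h : ℝ) (x : XX) : XX :=
  (mkB (U1 t h x.1 x.2.1 x.2.2.1 x.2.2.2), mkB (V1 t h x.1 x.2.1 x.2.2.1 x.2.2.2),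
    mkB (A1 t h x.1 x.2.1 x.2.2.1 x.2.2.2), mkB (B1 t h x.1 x.2.1 x.2.2.1 x.2.2.2))

theorem Psi_coe (P : CTP) {t h : ℝ} (ht : 0 < t) (ht1 : 100000 * t ≤ 1) (hh : 0 ≤ h)
    (hh2 : h ≤ 2) (x : XX) (hx : x ∈ SX t) :
    ((Psi t h x).1 : ℂ → ℂ) = U1 t h x.1 x.2.1 x.2.2.1 x.2.2.2 ∧
    ((Psi t h x).2.1 : ℂ → ℂ) = V1 t h x.1 x.2.1 x.2.2.1 x.2.2.2 ∧
    ((Psi t h x).2.2.1 : ℂ → ℂ) = A1 t h x.1 x.2.1 x.2.2.1 x.2.2.2 ∧
    ((Psi t h x).2.2.2 : ℂ → ℂ) = B1 t h x.1 x.2.1 x.2.2.1 x.2.2.2 := by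
  have H : PS t x.1 x.2.1 x.2.2.1 x.2.2.2 := hx
  have H' := H.step P ht ht1 hh hh2
  exact ⟨mkB_coe _ H'.cu 1 H'.bu, mkB_coe _ H'.cv 1 H'.bv, mkB_coe _ H'.cα 2 H'.bα2,
    mkB_coe _ H'.cβ 1 H'.bβ⟩

theorem XX_dist (x y : XX) : dist x.1 y.1 ≤ dist x y ∧ dist x.2.1 y.2.1 ≤ dist x y ∧
    dist x.2.2.1 y.2.2.1 ≤ dist x y ∧ dist x.2.2.2 y.2.2.2 ≤ dist x y := by
  have h1 : dist x y = max (dist x.1 y.1) (max (dist x.2.1 y.2.1)
    (max (dist x.2.2.1 y.2.2.1) (dist x.2.2.2 y.2.2.2))) := rfl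
  rw [h1]
  refine ⟨le_max_left _ _, ?_, ?_, ?_⟩
  · exact (le_max_left _ _).trans (le_max_right _ _)
  · exact ((le_max_left _ _).trans (le_max_right _ _)).trans (le_max_right _ _)
  · exact ((le_max_right _ _).trans (le_max_right _ _)).trans (le_max_right _ _)

theorem XX_dist_le (x y : XX) (C : ℝ) (hC : 0 ≤ C) (h1 : ∀ z, ‖x.1 z - y.1 z‖ ≤ C)
    (h2 : ∀ z, ‖x.2.1 z - y.2.1 z‖ ≤ C) (h3 : ∀ z, ‖x.2.2.1 z - y.2.2.1 z‖ ≤ C)
    (h4 : ∀ z, ‖x.2.2.2 z - y.2.2.2 z‖ ≤ C) : dist x y ≤ C := by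
  have h : dist x y = max (dist x.1 y.1) (max (dist x.2.1 y.2.1)
    (max (dist x.2.2.1 y.2.2.1) (dist x.2.2.2 y.2.2.2))) := rfl
  rw [h]
  refine max_le ?_ (max_le ?_ (max_le ?_ ?_))
  · exact (BoundedContinuousFunction.dist_le hC).mpr (fun z => by rw [dist_eq_norm]; exact h1 z)
  · exact (BoundedContinuousFunction.dist_le hC).mpr (fun z => by rw [dist_eq_norm]; exact h2 z)
  · exact (BoundedContinuousFunction.dist_le hC).mpr (fun z => by rw [dist_eq_norm]; exact h3 z)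
  · exact (BoundedContinuousFunction.dist_le hC).mpr (fun z => by rw [dist_eq_norm]; exact h4 z)

theorem BCF_le (f g : BoundedContinuousFunction ℂ ℂ) (d : ℝ) (h : dist f g ≤ d) (z : ℂ) :
    ‖f z - g z‖ ≤ d := by
  rw [← dist_eq_norm]
  exact (BoundedContinuousFunction.dist_coe_le_dist z).trans h

/-- solution of the fixed point system -/
theorem FP
    (hcp : ∀ {X : Type} [MetricSpace X] [CompleteSpace X] (S : Set X)
      (_ : IsClosed S) (_ : S.Nonempty) (Ψ : ℝ → X → X) (I : Set ℝ) (L : ℝ)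
      (_ : ∀ h ∈ I, ∀ x ∈ S, Ψ h x ∈ S)
      (_ : ∀ h ∈ I, ∀ x ∈ S, ∀ y ∈ S, dist (Ψ h x) (Ψ h y) ≤ (1 / 2) * dist x y)
      (_ : ∀ h ∈ I, ∀ h' ∈ I, ∀ x ∈ S, dist (Ψ h x) (Ψ h' x) ≤ L * |h - h'|),
      ∃ x : ℝ → X, ∀ h ∈ I, x h ∈ S ∧ Ψ h (x h) = x h ∧
        ∀ h' ∈ I, dist (x h) (x h') ≤ 2 * L * |h - h'|)
    (hbound : ∀ (F : ℂ → ℂ) (M ρ : ℝ), Adm F M ρ → 0 < ρ → ∀ z, ‖CT F z‖ ≤ 3 * ρ * M)
    (hadd : ∀ (F K : ℂ → ℂ) (M ρ M' ρ' : ℝ), Adm F M ρ → Adm K M' ρ' → ∀ z : ℂ,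
      CT (fun w => F w + K w) z = CT F z + CT K z)
    (hcont : ∀ (F : ℂ → ℂ) (M ρ : ℝ), Adm F M ρ → Continuous (CT F))
    (hhol : ∀ (F : ℂ → ℂ) (M ρ : ℝ), Adm F M ρ → ∀ U : Set ℂ, IsOpen U → (∀ w ∈ U, F w = 0) →
      DifferentiableOn ℂ (CT F) U)
    (hneg : ∀ (F : ℂ → ℂ) (z : ℂ), CT (fun w => F (-w)) z = - CT F (-z))
    (hcj : ∀ (F : ℂ → ℂ) (z : ℂ), CT (fun w => cj (F (cj w))) z = cj (CT F (cj z))) :
    ∃ C t₀ : ℝ, 0 < C ∧ 0 < t₀ ∧ t₀ < 1 / 100 ∧ ∀ t ∈ Ioo 0 t₀, ∃ u v α β : ℝ → ℂ → ℂ,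
      ∀ h ∈ Icc (1 / 2 : ℝ) 2, Sol C t h (u h) (v h) (α h) (β h) ∧
        ∀ h' ∈ Icc (1 / 2 : ℝ) 2, ∀ ζ, ‖α h ζ - α h' ζ‖ ≤ C * |h - h'| ∧
          ‖β h ζ - β h' ζ‖ ≤ C * |h - h'| := by
  have P : CTP := ⟨hbound, hadd, hcont, hhol, hneg, hcj⟩
  refine ⟨20000, 1 / 100000, by norm_num, by norm_num, by norm_num, ?_⟩
  intro t ht
  have ht0 : 0 < t := ht.1
  have ht1 : 100000 * t ≤ 1 := by
    have := ht.2
    linarith
  have ht2 : t ≤ 1 := by linarith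
  have hA : ∀ h ∈ Icc (1 / 2 : ℝ) 2, ∀ x ∈ SX t, Psi t h x ∈ SX t := by
    intro h hh y hy
    have hh0 : 0 ≤ h := by linarith [hh.1]
    have H : PS t y.1 y.2.1 y.2.2.1 y.2.2.2 := hy
    obtain ⟨c1, c2, c3, c4⟩ := Psi_coe P ht0 ht1 hh0 hh.2 y hy
    show PS t (Psi t h y).1 (Psi t h y).2.1 (Psi t h y).2.2.1 (Psi t h y).2.2.2
    rw [c1, c2, c3, c4]
    exact H.step P ht0 ht1 hh0 hh.2
  have hB : ∀ h ∈ Icc (1 / 2 : ℝ) 2, ∀ x ∈ SX t, ∀ y ∈ SX t,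
      dist (Psi t h x) (Psi t h y) ≤ (1 / 2) * dist x y := by
    intro h hh y hy w hw
    have hh0 : 0 ≤ h := by linarith [hh.1]
    have H : PS t y.1 y.2.1 y.2.2.1 y.2.2.2 := hy
    have H' : PS t w.1 w.2.1 w.2.2.1 w.2.2.2 := hw
    obtain ⟨c1, c2, c3, c4⟩ := Psi_coe P ht0 ht1 hh0 hh.2 y hy
    obtain ⟨d1, d2, d3, d4⟩ := Psi_coe P ht0 ht1 hh0 hh.2 w hw
    obtain ⟨e1, e2, e3, e4⟩ := XX_dist y w
    have hd0 : 0 ≤ dist y w := dist_nonneg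
    have k1 := BCF_le y.1 w.1 _ e1
    have k2 := BCF_le y.2.1 w.2.1 _ e2
    have k3 := BCF_le y.2.2.1 w.2.2.1 _ e3
    have k4 := BCF_le y.2.2.2 w.2.2.2 _ e4
    have hsmall : 19001 * dist y w * t ≤ 1 / 2 * dist y w := by nlinarith
    have hsmall' : 19000 * dist y w * t ≤ 1 / 2 * dist y w := by nlinarith
    refine XX_dist_le _ _ _ (by positivity) ?_ ?_ ?_ ?_
    · intro z
      rw [c1, d1]
      exact (U1_diff P H H' ht0 hh0 hh.2 _ k1 k2 k3 k4 z).trans hsmall'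
    · intro z
      rw [c2, d2]
      exact (V1_diff P H H' ht0 hh0 hh.2 _ k1 k2 k3 k4 z).trans hsmall'
    · intro z
      rw [c3, d3]
      exact (A1_diff P H H' ht0 ht2 hh0 hh.2 _ k1 k2 k3 k4 z).trans hsmall
    · intro z
      rw [c4, d4]
      exact (B1_diff P H H' ht0 ht2 hh0 hh.2 _ k1 k2 k3 k4 z).trans hsmall
  have hC : ∀ h ∈ Icc (1 / 2 : ℝ) 2, ∀ h' ∈ Icc (1 / 2 : ℝ) 2, ∀ x ∈ SX t,
      dist (Psi t h x) (Psi t h' x) ≤ 10000 * |h - h'| := by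
    intro h hh h' hh' y hy
    have hh0 : 0 ≤ h := by linarith [hh.1]
    have hh0' : 0 ≤ h' := by linarith [hh'.1]
    have H : PS t y.1 y.2.1 y.2.2.1 y.2.2.2 := hy
    obtain ⟨c1, c2, c3, c4⟩ := Psi_coe P ht0 ht1 hh0 hh.2 y hy
    obtain ⟨d1, d2, d3, d4⟩ := Psi_coe P ht0 ht1 hh0' hh'.2 y hy
    have hs : 10000 * t * |h - h'| ≤ 10000 * |h - h'| := by
      have := abs_nonneg (h - h')
      nlinarith
    refine XX_dist_le _ _ _ (by positivity) ?_ ?_ ?_ ?_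
    · intro z
      rw [c1, d1]
      exact (U1_hdiff P H ht0 hh0 hh.2 h' hh0' hh'.2 z).trans hs
    · intro z
      rw [c2, d2]
      exact (V1_hdiff P H ht0 hh0 hh.2 h' hh0' hh'.2 z).trans hs
    · intro z
      rw [c3, d3]
      exact (A1_hdiff P H ht0 hh0 hh.2 h' hh0' hh'.2 z).trans hs
    · intro z
      rw [c4, d4]
      exact (B1_hdiff P H ht0 hh0 hh.2 h' hh0' hh'.2 z).trans hs
  obtain ⟨x, hx⟩ := hcp (X := XX) (SX t) (SX_closed t) (SX_nonempty t) (Psi t)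
    (Icc (1 / 2 : ℝ) 2) 10000 hA hB hC
  · refine ⟨fun h => (x h).1, fun h => (x h).2.1, fun h => (x h).2.2.1, fun h => (x h).2.2.2, ?_⟩
    intro h hh
    obtain ⟨hS, hfix, hlip⟩ := hx h hh
    have hh0 : 0 ≤ h := by linarith [hh.1]
    have H : PS t (x h).1 (x h).2.1 (x h).2.2.1 (x h).2.2.2 := hS
    obtain ⟨c1, c2, c3, c4⟩ := Psi_coe P ht0 ht1 hh0 hh.2 (x h) hS
    rw [hfix] at c1 c2 c3 c4
    show Sol 20000 t h (x h).1 (x h).2.1 (x h).2.2.1 (x h).2.2.2 ∧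
      ∀ h' ∈ Icc (1 / 2 : ℝ) 2, ∀ ζ, ‖(x h).2.2.1 ζ - (x h').2.2.1 ζ‖ ≤ 20000 * |h - h'| ∧
        ‖(x h).2.2.2 ζ - (x h').2.2.2 ζ‖ ≤ 20000 * |h - h'|
    refine ⟨⟨?_, ?_, ?_, ?_, H.cu, H.cv, H.cα, H.cβ, ?_, ?_, ?_, ?_, H.nu, H.nv, H.ju, H.jv,
      H.jα, H.jβ, H.dα, H.dβ⟩, ?_⟩
    · intro ζ
      exact congrFun c1 ζ
    · intro ζ
      exact congrFun c2 ζ
    · intro ζ
      have h1 := congrFun c3 ζ
      have h2 := congrFun c1 (ret t ζ)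
      rw [h2]
      exact h1
    · intro ζ
      have h1 := congrFun c4 ζ
      have h2 := congrFun c2 (ret t ζ)
      rw [h2]
      exact h1
    · intro ζ
      have h1 := congrFun c1 ζ
      rw [h1]
      exact (H.U1_le P ht0 hh0 hh.2 ζ).trans (by linarith)
    · intro ζ
      have h1 := congrFun c2 ζ
      rw [h1]
      exact (H.V1_le P ht0 hh0 hh.2 ζ).trans (by linarith)
    · intro ζ
      have h1 := congrFun c3 ζ
      rw [h1]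
      exact (H.A1_le P ht0 ht2 hh0 hh.2 ζ).trans (by linarith)
    · intro ζ
      have h1 := congrFun c4 ζ
      rw [h1]
      exact (H.B1_le P ht0 ht2 hh0 hh.2 ζ).trans (by linarith)
    · intro h' hh' ζ
      have hd := hlip h' hh'
      have hD := XX_dist (x h) (x h')
      constructor
      · exact BCF_le _ _ _ (hD.2.2.1.trans (hd.trans (by norm_num))) ζ
      · exact BCF_le _ _ _ (hD.2.2.2.trans (hd.trans (by norm_num))) ζ



end Pool.Agent.Helper676.TL
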