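import Mathlib
import Pool.Agent.Helper676.TL.Defs
import Pool.Agent.Helper676.TL.Base

set_option autoImplicit false

namespace Pool.Agent.Helper676.TL

open Set Metric
open scoped ContDiff



/-- contraction principle with a parameter, on a closed set. -/
theorem contraction_param {X : Type} [MetricSpace X] [CompleteSpace X] (S : Set X)
    (hS : IsClosed S) (hne : S.Nonempty) (Ψ : ℝ → X → X) (I : Set ℝ) (L : ℝ)
    (hmaps : ∀ h ∈ I, ∀ x ∈ S, Ψ h x ∈ S)
    (hlip : ∀ h ∈ I, ∀ x ∈ S, ∀ y ∈ S, dist (Ψ h x) (Ψ h y) ≤ (1 / 2) * dist x y)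
    (hpar : ∀ h ∈ I, ∀ h' ∈ I, ∀ x ∈ S, dist (Ψ h x) (Ψ h' x) ≤ L * |h - h'|) :
    ∃ x : ℝ → X, ∀ h ∈ I, x h ∈ S ∧ Ψ h (x h) = x h ∧
      ∀ h' ∈ I, dist (x h) (x h') ≤ 2 * L * |h - h'| := by
  classical
  have hex : ∀ h ∈ I, ∃ x ∈ S, Ψ h x = x := by
    intro h hh
    have : CompleteSpace S := hS.completeSpace_coe
    have : Nonempty S := hne.to_subtype
    let f : S → S := fun x => ⟨Ψ h x.1, hmaps h hh x.1 x.2⟩
    have hf : ContractingWith (1 / 2 : NNReal) f := by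
      refine ⟨?_, ?_⟩
      · rw [div_lt_one (by norm_num)]
        norm_num
      · refine LipschitzWith.of_dist_le_mul fun x y => ?_
        have h1 := hlip h hh x.1 x.2 y.1 y.2
        have h2 : ((1 / 2 : NNReal) : ℝ) = 1 / 2 := by simp
        rw [h2]
        exact h1
    have hfix := hf.fixedPoint_isFixedPt
    exact ⟨(ContractingWith.fixedPoint f hf : S).1, (ContractingWith.fixedPoint f hf : S).2,
      congrArg Subtype.val hfix⟩
  obtain ⟨x0, hx0⟩ := hne
  have : Nonempty X := ⟨x0⟩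
  choose! x hx1 hx2 using hex
  refine ⟨x, fun h hh => ⟨hx1 h hh, hx2 h hh, fun h' hh' => ?_⟩⟩
  have h1 := dist_triangle (Ψ h (x h)) (Ψ h (x h')) (Ψ h' (x h'))
  have h2 := hlip h hh (x h) (hx1 h hh) (x h') (hx1 h' hh')
  have h3 := hpar h hh h' hh' (x h') (hx1 h' hh')
  have h4 : dist (Ψ h (x h)) (Ψ h' (x h')) = dist (x h) (x h') := by
    rw [hx2 h hh, hx2 h' hh']
  linarith


end Pool.Agent.Helper676.TL
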