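import Mathlib
import Pool.Agent.Helper676.TL.Defs
import Pool.Agent.Helper676.TL.Base

set_option autoImplicit false

namespace Pool.Agent.Helper676.TL

open Set Metric
open scoped ContDiff




namespace GEaux

section
open Complex MeasureTheory Filter Topology

noncomputable section

/-! ### Cauchy–Pompeiu (same proof as in Helper897/ZS) -/

/-- `2i ∂̄` of a function whose real derivative is `L`. -/
def db (L : ℂ →L[ℝ] ℂ) : ℂ := I * L 1 - L I

lemma clm_apply (L : ℂ →L[ℝ] ℂ) (z : ℂ) : L z = z.re * L 1 + z.im * L I := by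
  conv_lhs => rw [← re_add_im z]
  have h1 : (z.re : ℂ) = z.re • (1 : ℂ) := by simp
  have h2 : (z.im : ℂ) * I = z.im • I := by simp
  rw [map_add, h2]
  nth_rewrite 1 [h1]
  rw [map_smul, map_smul]
  simp

/-- integrability of `1/|w|` on discs, with value -/
lemma integrable_inv_norm (δ : ℝ) :
    Integrable (fun w : ℂ => (Set.Ioc 0 δ).indicator (fun y : ℝ => y⁻¹) ‖w‖) := by
  rw [integrable_fun_norm_addHaar (μ := (volume : Measure ℂ)) (f := (Set.Ioc 0 δ).indicator (fun y : ℝ => y⁻¹))]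
  have hE : Module.finrank ℝ ℂ - 1 = 1 := by simp [Complex.finrank_real_complex]
  rw [hE]
  have h0 : IntegrableOn ((Set.Ioc 0 δ).indicator (fun _ : ℝ => (1 : ℝ))) (Ioi 0) := by
    refine Integrable.integrableOn ?_
    rw [integrable_indicator_iff measurableSet_Ioc]
    exact integrableOn_const (by simp)
  refine h0.congr_fun ?_ measurableSet_Ioi
  intro y hy
  simp only [Set.indicator, smul_eq_mul, pow_one]
  split_ifs with h
  · have : y ≠ 0 := ne_of_gt hy
    field_simp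
  · simp

lemma integral_inv_norm {δ : ℝ} (hδ : 0 ≤ δ) :
    ∫ w : ℂ, (Set.Ioc 0 δ).indicator (fun y : ℝ => y⁻¹) ‖w‖ = 2 * Real.pi * δ := by
  rw [integral_fun_norm_addHaar (μ := (volume : Measure ℂ)) (f := (Set.Ioc 0 δ).indicator (fun y : ℝ => y⁻¹))]
  have hE : Module.finrank ℝ ℂ - 1 = 1 := by simp [Complex.finrank_real_complex]
  rw [hE]
  have h1 : ∫ y in Ioi (0:ℝ), y ^ 1 • (Set.Ioc 0 δ).indicator (fun y : ℝ => y⁻¹) y
      = ∫ y in Ioi (0:ℝ), (Set.Ioc 0 δ).indicator (fun _ : ℝ => (1 : ℝ)) y := by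
    refine setIntegral_congr_fun measurableSet_Ioi ?_
    intro y hy
    simp only [Set.indicator, smul_eq_mul, pow_one]
    split_ifs with h
    · have : y ≠ 0 := ne_of_gt hy
      field_simp
    · simp
  rw [h1, integral_indicator measurableSet_Ioc]
  rw [Measure.restrict_restrict measurableSet_Ioc]
  have h2 : Set.Ioc 0 δ ∩ Ioi 0 = Set.Ioc 0 δ := by
    ext x
    simp only [Set.mem_inter_iff, Set.mem_Ioc, Set.mem_Ioi]
    tauto
  rw [h2]
  simp [Complex.finrank_real_complex, hδ]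
  have h3 : (volume : Measure ℂ).real (Metric.ball 0 1) = Real.pi := by
    simp [Measure.real, Complex.volume_ball]
  rw [h3]; ring

/-- direction `e^{iθ}` -/
def ex (θ : ℝ) : ℂ := Real.cos θ + Real.sin θ * I

lemma continuous_ex : Continuous ex := by unfold ex; fun_prop

lemma norm_ex (θ : ℝ) : ‖ex θ‖ = 1 := by
  unfold ex
  rw [Complex.norm_eq_sqrt_sq_add_sq]
  simp [Complex.cos_ofReal_re, Complex.sin_ofReal_re]

lemma ex_ne (θ : ℝ) : ex θ ≠ 0 := by
  intro h
  have := norm_ex θ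
  rw [h] at this
  simp at this

lemma db_ex (L : ℂ →L[ℝ] ℂ) (θ : ℝ) : (ex θ)⁻¹ * db L = I * L (ex θ) - L (I * ex θ) := by
  have h1 : L (ex θ) = Real.cos θ * L 1 + Real.sin θ * L I := by
    rw [clm_apply L (ex θ)]
    simp [ex]
  have h2 : L (I * ex θ) = - Real.sin θ * L 1 + Real.cos θ * L I := by
    rw [clm_apply L (I * ex θ)]
    simp [ex]
  have h3 : ex θ * (Real.cos θ - Real.sin θ * I) = 1 := by
    unfold ex
    have : ((Real.cos θ : ℂ)) ^ 2 + (Real.sin θ : ℂ) ^ 2 = 1 := by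
      have := Real.cos_sq_add_sin_sq θ
      exact_mod_cast this
    ring_nf
    rw [I_sq]
    linear_combination this
  have h4 : (ex θ)⁻¹ = Real.cos θ - Real.sin θ * I := by
    exact inv_eq_of_mul_eq_one_right h3
  rw [h4, h1, h2]
  unfold db
  ring_nf
  rw [I_sq]
  ring

lemma hasDerivAt_ex (θ : ℝ) : HasDerivAt ex (I * ex θ) θ := by
  unfold ex
  have h1 : HasDerivAt (fun θ : ℝ => ((Real.cos θ : ℝ) : ℂ)) ((-Real.sin θ : ℝ) : ℂ) θ :=
    (Real.hasDerivAt_cos θ).ofReal_comp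
  have h2 : HasDerivAt (fun θ : ℝ => ((Real.sin θ : ℝ) : ℂ)) ((Real.cos θ : ℝ) : ℂ) θ :=
    (Real.hasDerivAt_sin θ).ofReal_comp
  have h3 := h1.add (h2.mul_const I)
  refine h3.congr_deriv ?_
  push_cast
  ring_nf
  rw [I_sq]
  ring

/-- Cauchy–Pompeiu formula for compactly supported `C¹` functions. -/
lemma cauchy_pompeiu {ψ : ℂ → ℂ} (hψ : ContDiff ℝ 1 ψ) (hc : HasCompactSupport ψ) :
    ∫ w, w⁻¹ * db (fderiv ℝ ψ w) = - (2 * Real.pi * I) * ψ 0 := by
  obtain ⟨R, hR0, hR⟩ : ∃ R : ℝ, 0 < R ∧ tsupport ψ ⊆ Metric.closedBall 0 R := by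
    obtain ⟨R, hR⟩ := hc.isCompact.isBounded.subset_closedBall 0
    exact ⟨max R 1, by positivity, hR.trans (Metric.closedBall_subset_closedBall (le_max_left _ _))⟩
  have hd : ∀ w : ℂ, R < ‖w‖ → fderiv ℝ ψ w = 0 := by
    intro w hw
    have : w ∉ tsupport ψ := fun h => by
      have := hR h
      simp at this
      linarith
    have h2 : w ∉ tsupport (fderiv ℝ ψ) := fun h => this (tsupport_fderiv_subset ℝ h)
    exact image_eq_zero_of_notMem_tsupport h2
  have hd0 : ∀ w : ℂ, R < ‖w‖ → ψ w = 0 := by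
    intro w hw
    have : w ∉ tsupport ψ := fun h => by
      have := hR h
      simp at this
      linarith
    exact image_eq_zero_of_notMem_tsupport this
  have hcf : Continuous (fderiv ℝ ψ) := hψ.continuous_fderiv one_ne_zero
  rw [← Complex.integral_comp_polarCoord_symm]
  let A : ℝ × ℝ → ℂ := fun p => fderiv ℝ ψ (p.1 * ex p.2) (ex p.2)
  let B : ℝ × ℝ → ℂ := fun p => fderiv ℝ ψ (p.1 * ex p.2) (I * ex p.2)
  have hex := continuous_ex
  have hA : Continuous A := by
    have h1 : Continuous (fun p : ℝ × ℝ => fderiv ℝ ψ (p.1 * ex p.2)) := by fun_prop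
    exact h1.clm_apply (by fun_prop)
  have hB : Continuous B := by
    have h1 : Continuous (fun p : ℝ × ℝ => fderiv ℝ ψ (p.1 * ex p.2)) := by fun_prop
    exact h1.clm_apply (by fun_prop)
  have htar : polarCoord.target = Ioi (0:ℝ) ×ˢ Ioo (-Real.pi) Real.pi := rfl
  have hdA : ∀ p : ℝ × ℝ, R < p.1 → fderiv ℝ ψ (p.1 * ex p.2) = 0 := by
    intro p hp
    apply hd
    rw [norm_mul, norm_ex, mul_one]
    simp only [Complex.norm_real, Real.norm_eq_abs]
    exact hp.trans_le (le_abs_self _)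
  have hint : ∀ F : ℝ × ℝ → ℂ, Continuous F → (∀ p : ℝ × ℝ, R < p.1 → F p = 0) →
      IntegrableOn F (Ioi (0:ℝ) ×ˢ Ioo (-Real.pi) Real.pi) := by
    intro F hF h0
    have hcomp : IsCompact (Icc (0:ℝ) R ×ˢ Icc (-Real.pi) Real.pi) := isCompact_Icc.prod isCompact_Icc
    refine (hF.continuousOn.integrableOn_compact hcomp).of_forall_sdiff_eq_zero
      (measurableSet_Ioi.prod measurableSet_Ioo) ?_
    rintro ⟨r, θ⟩ ⟨⟨h1, h2⟩, h3⟩
    apply h0
    by_contra hcon
    push Not at hcon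
    apply h3
    simp only [Set.mem_Ioi, Set.mem_Ioo] at h1 h2
    exact ⟨⟨h1.le, hcon⟩, ⟨h2.1.le, h2.2.le⟩⟩
  have hiA := hint A hA (fun p hp => by simp only [A]; rw [hdA p hp]; rfl)
  have hiB := hint B hB (fun p hp => by simp only [B]; rw [hdA p hp]; rfl)
  have e1 : ∫ p in polarCoord.target, p.1 • ((Complex.polarCoord.symm p)⁻¹ *
      db (fderiv ℝ ψ (Complex.polarCoord.symm p))) =
      ∫ p in Ioi (0:ℝ) ×ˢ Ioo (-Real.pi) Real.pi, (I * A p - B p) := by
    rw [htar]
    refine setIntegral_congr_fun (measurableSet_Ioi.prod measurableSet_Ioo) ?_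
    rintro ⟨r, θ⟩ ⟨h1, h2⟩
    have hr : (r:ℂ) ≠ 0 := by
      simp only [Set.mem_Ioi] at h1
      exact_mod_cast (ne_of_gt h1)
    have e2 : Complex.polarCoord.symm (r, θ) = r * ex θ := by
      rw [Complex.polarCoord_symm_apply]; rfl
    simp only [A, B]
    rw [e2, ← db_ex, mul_inv]
    simp only [Complex.real_smul]
    field_simp
  rw [e1, integral_sub (hiA.const_mul I) hiB, integral_const_mul]
  have hAv : ∫ p in Ioi (0:ℝ) ×ˢ Ioo (-Real.pi) Real.pi, A p = - (2 * Real.pi) * ψ 0 := by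
    rw [Measure.volume_eq_prod, ← Measure.prod_restrict]
    rw [integral_prod_symm]
    swap
    · rw [Measure.prod_restrict, ← Measure.volume_eq_prod]; exact hiA
    have : ∀ θ : ℝ, ∫ r in Ioi (0:ℝ), A (r, θ) = - ψ 0 := by
      intro θ
      have hder : ∀ r : ℝ, HasDerivAt (fun r : ℝ => ψ (r * ex θ)) (A (r, θ)) r := by
        intro r
        have h1 : HasFDerivAt ψ (fderiv ℝ ψ (r * ex θ)) (r * ex θ) :=
          (hψ.differentiable one_ne_zero _).hasFDerivAt
        have h2 : HasDerivAt (fun r : ℝ => (r:ℂ) * ex θ) (ex θ) r := by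
          simpa using (hasDerivAt_id r).ofReal_comp.mul_const (ex θ)
        exact h1.comp_hasDerivAt r h2
      have hint1 : IntegrableOn (fun r => A (r, θ)) (Ioi 0) := by
        have hc1 : Continuous (fun r => A (r, θ)) := by fun_prop
        refine (hc1.continuousOn.integrableOn_compact (isCompact_Icc (a := (0:ℝ)) (b := R))).of_forall_sdiff_eq_zero
          measurableSet_Ioi ?_
        rintro r ⟨h1, h2⟩
        simp only [Set.mem_Ioi, Set.mem_Icc, not_and, not_le] at h1 h2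
        simp only [A]
        rw [hdA (r, θ) (h2 h1.le)]; rfl
      have htend : Tendsto (fun r : ℝ => ψ (r * ex θ)) atTop (𝓝 0) := by
        refine tendsto_const_nhds.congr' ?_
        filter_upwards [eventually_gt_atTop R] with r hr
        symm
        apply hd0
        rw [norm_mul, norm_ex, mul_one]
        simp only [Complex.norm_real, Real.norm_eq_abs]
        exact hr.trans_le (le_abs_self _)
      have := integral_Ioi_of_hasDerivAt_of_tendsto (a := (0:ℝ)) (f := fun r : ℝ => ψ (r * ex θ))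
        (f' := fun r => A (r, θ)) (m := 0) (hder 0).continuousAt.continuousWithinAt
        (fun x _ => hder x) hint1 htend
      rw [this]
      simp
    simp_rw [this]
    rw [setIntegral_const]
    have hvol : (volume : Measure ℝ).real (Ioo (-Real.pi) Real.pi) = 2 * Real.pi := by
      rw [Real.volume_real_Ioo_of_le (by linarith [Real.pi_pos])]
      ring
    rw [hvol, Complex.real_smul]
    push_cast
    ring
  have hBv : ∫ p in Ioi (0:ℝ) ×ˢ Ioo (-Real.pi) Real.pi, B p = 0 := by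
    rw [Measure.volume_eq_prod, ← Measure.prod_restrict]
    rw [integral_prod]
    swap
    · rw [Measure.prod_restrict, ← Measure.volume_eq_prod]; exact hiB
    have : ∀ r ∈ Ioi (0:ℝ), ∫ θ in Ioo (-Real.pi) Real.pi, B (r, θ) = 0 := by
      intro r hr
      have hr' : (r:ℂ) ≠ 0 := by
        simp only [Set.mem_Ioi] at hr
        exact_mod_cast (ne_of_gt hr)
      have hder : ∀ θ : ℝ, HasDerivAt (fun θ : ℝ => (r:ℂ)⁻¹ * ψ (r * ex θ)) (B (r, θ)) θ := by
        intro θ
        have h1 : HasFDerivAt ψ (fderiv ℝ ψ (r * ex θ)) (r * ex θ) :=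
          (hψ.differentiable one_ne_zero _).hasFDerivAt
        have h2 : HasDerivAt (fun θ : ℝ => (r:ℂ) * ex θ) (r * (I * ex θ)) θ :=
          (hasDerivAt_ex θ).const_mul _
        have h3 := (h1.comp_hasDerivAt θ h2).const_mul ((r:ℂ)⁻¹)
        refine h3.congr_deriv ?_
        have h4 : (r:ℂ) * (I * ex θ) = r • (I * ex θ) := by simp
        change (r:ℂ)⁻¹ * (fderiv ℝ ψ (r * ex θ)) (r * (I * ex θ)) = fderiv ℝ ψ (r * ex θ) (I * ex θ)
        rw [h4, map_smul, Complex.real_smul, ← mul_assoc, inv_mul_cancel₀ hr', one_mul]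
      rw [← integral_Ioc_eq_integral_Ioo, ← intervalIntegral.integral_of_le (by linarith [Real.pi_pos])]
      rw [intervalIntegral.integral_eq_sub_of_hasDerivAt (fun θ _ => hder θ)]
      · have : ex Real.pi = ex (-Real.pi) := by simp [ex]
        rw [this]; ring
      · apply Continuous.intervalIntegrable
        fun_prop
    rw [setIntegral_congr_fun measurableSet_Ioi this]
    exact integral_zero _ _
  rw [hAv, hBv]
  ring


lemma db_eq (f : ℂ → ℂ) (w : ℂ) : db (fderiv ℝ f w) = 2 * I * dzb f w := by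
  unfold db dzb
  linear_combination (fderiv ℝ f w I) * (-I_sq)

lemma cd_mul (n : WithTop ℕ∞) (a b : ℂ → ℂ) (ha : ContDiff ℝ n a)
    (hs : tsupport a ⊆ closedBall 0 (3 / 4)) (hb : ∀ w ∈ ball (0 : ℂ) 1, ContDiffAt ℝ n b w) :
    ContDiff ℝ n (fun w => a w * b w) := by
  rw [contDiff_iff_contDiffAt]
  intro w
  by_cases hw : w ∈ ball (0 : ℂ) 1
  · exact ha.contDiffAt.mul (hb w hw)
  · have h1 : w ∉ tsupport a := fun h => hw (closedBall_subset_ball (by norm_num) (hs h))
    rw [notMem_tsupport_iff_eventuallyEq] at h1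
    have h2 : (fun w => a w * b w) =ᶠ[𝓝 w] fun _ => 0 := by
      filter_upwards [h1] with z hz
      rw [hz]
      simp
    exact contDiffAt_const.congr_of_eventuallyEq h2

lemma cs_of (a : ℂ → ℂ) (hs : tsupport a ⊆ closedBall 0 (3 / 4)) : HasCompactSupport a :=
  (isCompact_closedBall (0 : ℂ) (3 / 4)).of_isClosed_subset (isClosed_tsupport a) hs

lemma int_mul (a b : ℂ → ℂ) (ha : Continuous a)
    (hs : tsupport a ⊆ closedBall 0 (3 / 4)) (hb : ∀ w ∈ ball (0 : ℂ) 1, ContinuousAt b w) :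
    Integrable (fun w => a w * b w) := by
  have h1 : Continuous (fun w => a w * b w) := by
    rw [continuous_iff_continuousAt]
    intro w
    by_cases hw : w ∈ ball (0 : ℂ) 1
    · exact ha.continuousAt.mul (hb w hw)
    · have h1 : w ∉ tsupport a := fun h => hw (closedBall_subset_ball (by norm_num) (hs h))
      rw [notMem_tsupport_iff_eventuallyEq] at h1
      have h2 : (fun w => a w * b w) =ᶠ[𝓝 w] fun _ => 0 := by
        filter_upwards [h1] with z hz
        rw [hz]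
        simp
      exact continuousAt_const.congr h2.symm
  exact h1.integrable_of_hasCompactSupport ((cs_of a hs).mul_right)

/-- the cutoff -/
def bmp : ContDiffBump (0 : ℂ) := ⟨1 / 2, 3 / 4, by norm_num, by norm_num⟩

/-- the cutoff, complex valued -/
def chi (w : ℂ) : ℂ := (bmp w : ℂ)

lemma chi_cd : ContDiff ℝ ∞ chi := Complex.ofRealCLM.contDiff.comp bmp.contDiff

lemma chi_ts : tsupport chi ⊆ closedBall 0 (3 / 4) := by
  have h1 : tsupport (bmp : ℂ → ℝ) = closedBall 0 (3 / 4) := bmp.tsupport_eq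
  rw [← h1]
  apply closure_mono
  intro w hw
  rw [Function.mem_support] at hw ⊢
  intro h
  apply hw
  unfold chi
  rw [h]
  simp

lemma chi_one (w : ℂ) (hw : w ∈ closedBall (0 : ℂ) (1 / 2)) : chi w = 1 := by
  unfold chi
  rw [bmp.one_of_mem_closedBall hw]
  simp

lemma chi_norm (w : ℂ) : ‖chi w‖ ≤ 1 := by
  unfold chi
  rw [Complex.norm_real, Real.norm_of_nonneg bmp.nonneg]
  exact bmp.le_one

lemma fd_ts (f : ℂ → ℂ) (w : ℂ) (hw : w ∉ tsupport f) : fderiv ℝ f w = 0 := by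
  have h2 : w ∉ tsupport (fderiv ℝ f) := fun h => hw (tsupport_fderiv_subset ℝ h)
  exact image_eq_zero_of_notMem_tsupport h2

lemma dzb_ts (f : ℂ → ℂ) : tsupport (dzb f) ⊆ tsupport f := by
  apply closure_minimal _ (isClosed_tsupport f)
  intro w hw
  by_contra h
  apply hw
  unfold dzb
  rw [fd_ts f w h]
  simp

lemma dz_ts (f : ℂ → ℂ) : tsupport (dz f) ⊆ tsupport f := by
  apply closure_minimal _ (isClosed_tsupport f)
  intro w hw
  by_contra h
  apply hw
  unfold dz
  rw [fd_ts f w h]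
  simp

lemma fd_at (n : ℕ) (f : ℂ → ℂ) (w v : ℂ) (hf : ContDiffAt ℝ ∞ f w) :
    ContDiffAt ℝ n (fun z => fderiv ℝ f z v) w := by
  have h1 : ContDiffAt ℝ n (fderiv ℝ f) w :=
    hf.fderiv_right (m := n) (by
      have : ((n + 1 : ℕ) : WithTop ℕ∞) ≤ ((⊤ : ℕ∞) : WithTop ℕ∞) := by
        exact_mod_cast le_top
      exact_mod_cast this)
  exact h1.clm_apply contDiffAt_const

lemma dzb_at (n : ℕ) (f : ℂ → ℂ) (w : ℂ) (hf : ContDiffAt ℝ ∞ f w) :
    ContDiffAt ℝ n (dzb f) w := by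
  unfold dzb
  exact ((fd_at n f w 1 hf).add (contDiffAt_const.mul (fd_at n f w I hf))).div_const 2

lemma dz_at (n : ℕ) (f : ℂ → ℂ) (w : ℂ) (hf : ContDiffAt ℝ ∞ f w) :
    ContDiffAt ℝ n (dz f) w := by
  unfold dz
  exact ((fd_at n f w 1 hf).sub (contDiffAt_const.mul (fd_at n f w I hf))).div_const 2

/-- the kernel -/
def Hf (w : ℂ) : ℂ := w⁻¹ * dzb chi w

lemma dzb_chi_zero : ∀ w ∈ ball (0 : ℂ) (1 / 2), dzb chi w = 0 := by
  intro w hw
  have h1 : chi =ᶠ[𝓝 w] fun _ => 1 := by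
    filter_upwards [isOpen_ball.mem_nhds hw] with z hz
    exact chi_one z (ball_subset_closedBall hz)
  unfold dzb
  rw [h1.fderiv_eq]
  simp

lemma dzb_inf (f : ℂ → ℂ) (w : ℂ) (hf : ContDiffAt ℝ ∞ f w) : ContDiffAt ℝ ∞ (dzb f) w :=
  contDiffAt_infty.2 (fun n => dzb_at n f w hf)

lemma Hf_cd : ContDiff ℝ ∞ Hf := by
  rw [contDiff_iff_contDiffAt]
  intro w
  by_cases hw : w = 0
  · subst hw
    have h0 : (0 : ℂ) ∈ ball (0 : ℂ) (1 / 2) := mem_ball_self (by norm_num)
    have h1 : Hf =ᶠ[𝓝 0] fun _ => 0 := by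
      filter_upwards [isOpen_ball.mem_nhds h0] with z hz
      unfold Hf
      rw [dzb_chi_zero z hz, mul_zero]
    exact contDiffAt_const.congr_of_eventuallyEq h1
  · exact (contDiffAt_inv ℝ hw).mul (dzb_inf chi w chi_cd.contDiffAt)

lemma Hf_ts : tsupport Hf ⊆ closedBall 0 (3 / 4) := by
  refine (closure_mono ?_).trans ((dzb_ts chi).trans chi_ts)
  intro w hw
  rw [Function.mem_support] at hw ⊢
  intro h
  apply hw
  unfold Hf
  rw [h, mul_zero]

lemma dz_norm (f : ℂ → ℂ) (w : ℂ) : ‖dz f w‖ ≤ ‖fderiv ℝ f w‖ := by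
  unfold dz
  have h1 : ‖fderiv ℝ f w 1‖ ≤ ‖fderiv ℝ f w‖ := by
    have := (fderiv ℝ f w).le_opNorm 1
    rwa [norm_one, mul_one] at this
  have h2 : ‖fderiv ℝ f w I‖ ≤ ‖fderiv ℝ f w‖ := by
    have := (fderiv ℝ f w).le_opNorm I
    rwa [norm_I, mul_one] at this
  rw [norm_div]
  have h3 : ‖fderiv ℝ f w 1 - I * fderiv ℝ f w I‖ ≤ ‖fderiv ℝ f w‖ + ‖fderiv ℝ f w‖ := by
    refine (norm_sub_le _ _).trans (add_le_add h1 ?_)
    rw [norm_mul, norm_I, one_mul]
    exact h2
  have h4 : ‖(2 : ℂ)‖ = 2 := by simp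
  rw [h4, div_le_iff₀ (by norm_num)]
  linarith

lemma fd_norm (f : ℂ → ℂ) (w : ℂ) : ‖fderiv ℝ f w‖ ≤ ‖dz f w‖ + ‖dzb f w‖ := by
  refine ContinuousLinearMap.opNorm_le_bound _ (by positivity) (fun v => ?_)
  have e : fderiv ℝ f w v = dz f w * v + dzb f w * (starRingEnd ℂ) v := by
    rw [clm_apply (fderiv ℝ f w) v]
    have e1 : (v : ℂ) = v.re + v.im * I := (re_add_im v).symm
    have e2 : (starRingEnd ℂ) v = v.re - v.im * I := by
      apply Complex.ext <;> simp
    rw [e2]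
    nth_rewrite 3 [e1]
    unfold dz dzb
    linear_combination (v.im * fderiv ℝ f w I) * I_sq
  rw [e]
  refine (norm_add_le _ _).trans ?_
  rw [norm_mul, norm_mul, Complex.norm_conj, add_mul]

lemma nat_le_inf (n : ℕ) : (n : WithTop ℕ∞) ≤ ((⊤ : ℕ∞) : WithTop ℕ∞) := by
  exact_mod_cast le_top

lemma comm_at (e : ℂ → ℂ) (w : ℂ) (he : ContDiffAt ℝ ∞ e w) :
    dzb (dz e) w = dz (dzb e) w := by
  have he2' : ContDiffAt ℝ ((2 : ℕ) : WithTop ℕ∞) e w := he.of_le (nat_le_inf 2)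
  have he2 : ContDiffAt ℝ 2 e w := by exact_mod_cast he2'
  have hfd : DifferentiableAt ℝ (fderiv ℝ e) w :=
    (he2.fderiv_right (m := 1) (by norm_num)).differentiableAt one_ne_zero
  have hv : ∀ v : ℂ, HasFDerivAt (fun z => fderiv ℝ e z v)
      ((ContinuousLinearMap.apply ℝ ℂ v).comp (fderiv ℝ (fderiv ℝ e) w)) w := by
    intro v
    exact (ContinuousLinearMap.apply ℝ ℂ v).hasFDerivAt.comp w hfd.hasFDerivAt
  have h1 : HasFDerivAt (dz e) ((2 : ℂ)⁻¹ • ((ContinuousLinearMap.apply ℝ ℂ 1).comp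
      (fderiv ℝ (fderiv ℝ e) w) - I • (ContinuousLinearMap.apply ℝ ℂ I).comp
        (fderiv ℝ (fderiv ℝ e) w))) w := by
    have h := ((hv 1).sub ((hv I).const_mul I)).const_mul (2 : ℂ)⁻¹
    refine h.congr_of_eventuallyEq (Filter.Eventually.of_forall fun z => ?_)
    simp only [dz]
    rw [div_eq_inv_mul]
    rfl
  have h2 : HasFDerivAt (dzb e) ((2 : ℂ)⁻¹ • ((ContinuousLinearMap.apply ℝ ℂ 1).comp
      (fderiv ℝ (fderiv ℝ e) w) + I • (ContinuousLinearMap.apply ℝ ℂ I).comp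
        (fderiv ℝ (fderiv ℝ e) w))) w := by
    have h := ((hv 1).add ((hv I).const_mul I)).const_mul (2 : ℂ)⁻¹
    refine h.congr_of_eventuallyEq (Filter.Eventually.of_forall fun z => ?_)
    simp only [dzb]
    rw [div_eq_inv_mul]
    rfl
  have hsymm : IsSymmSndFDerivAt ℝ e w := he2.isSymmSndFDerivAt (by simp)
  have hs := hsymm.eq 1 I
  unfold dzb dz at *
  rw [h1.fderiv, h2.fderiv]
  simp only [_root_.smul_apply, _root_.sub_apply,
    _root_.add_apply, ContinuousLinearMap.comp_apply,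
    ContinuousLinearMap.apply_apply, smul_eq_mul]
  rw [hs]
  ring

/-- constant -/
def K2 : ℝ := ∫ w, ‖dz Hf w‖

lemma ts_fd (f : ℂ → ℂ) (v : ℂ) : tsupport (fun z => fderiv ℝ f z v) ⊆ tsupport f := by
  apply closure_minimal _ (isClosed_tsupport f)
  intro w hw
  by_contra h
  apply hw
  simp only
  rw [fd_ts f w h]
  simp

lemma ibp (e : ℂ → ℂ) (heA : ∀ w ∈ ball (0 : ℂ) 1, ContDiffAt ℝ ∞ e w) :
    ∫ w, Hf w * dz e w = - ∫ w, dz Hf w * e w := by
  have hcont : ∀ v : ℂ, Continuous (fun z => fderiv ℝ Hf z v) := fun v =>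
    continuous_iff_continuousAt.2 (fun w => (fd_at 0 Hf w v Hf_cd.contDiffAt).continuousAt)
  have i1 : ∀ v : ℂ, Integrable (fun x => fderiv ℝ Hf x v * e x) := fun v =>
    int_mul _ e (hcont v) ((ts_fd Hf v).trans Hf_ts) (fun w hw => (heA w hw).continuousAt)
  have i2 : ∀ v : ℂ, Integrable (fun x => Hf x * fderiv ℝ e x v) := fun v =>
    int_mul Hf _ Hf_cd.continuous Hf_ts (fun w hw => (fd_at 0 e w v (heA w hw)).continuousAt)
  have i3 : Integrable (fun x => Hf x * e x) :=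
    int_mul Hf e Hf_cd.continuous Hf_ts (fun w hw => (heA w hw).continuousAt)
  have key : ∀ v : ℂ, ∫ x, Hf x * fderiv ℝ e x v = - ∫ x, fderiv ℝ Hf x v * e x := fun v =>
    integral_mul_fderiv_eq_neg_fderiv_mul_of_integrable (i1 v) (i2 v) i3
      (fun x _ => (Hf_cd.differentiable (by simp)) x)
      (fun x hx => (heA x (closedBall_subset_ball (by norm_num) (Hf_ts hx))).differentiableAt
        (by simp))
  have e1 : ∀ w, Hf w * dz e w = (1 / 2 : ℂ) * (Hf w * fderiv ℝ e w 1) -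
      (I / 2) * (Hf w * fderiv ℝ e w I) := by
    intro w
    unfold dz
    ring
  have e2 : ∀ w, dz Hf w * e w = (1 / 2 : ℂ) * (fderiv ℝ Hf w 1 * e w) -
      (I / 2) * (fderiv ℝ Hf w I * e w) := by
    intro w
    unfold dz
    ring
  simp only [e1, e2]
  rw [integral_sub ((i2 1).const_mul _) ((i2 I).const_mul _),
    integral_sub ((i1 1).const_mul _) ((i1 I).const_mul _),
    integral_const_mul, integral_const_mul, integral_const_mul, integral_const_mul,
    key 1, key I]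
  ring

lemma unit (e : ℂ → ℂ) (A₀ A₁ A₂ : ℝ) (he : ContDiffOn ℝ ∞ e (ball 0 1))
    (h0 : ∀ z ∈ ball (0 : ℂ) 1, ‖e z‖ ≤ A₀) (h1 : ∀ z ∈ ball (0 : ℂ) 1, ‖dzb e z‖ ≤ A₁)
    (h2 : ∀ z ∈ ball (0 : ℂ) 1, ‖fderiv ℝ (dzb e) z‖ ≤ A₂) :
    ‖fderiv ℝ e 0‖ ≤ K2 / Real.pi * A₀ + A₁ + 2 * A₂ := by
  have h0b : (0 : ℂ) ∈ ball (0 : ℂ) 1 := mem_ball_self one_pos
  have hA0 : 0 ≤ A₀ := (norm_nonneg _).trans (h0 0 h0b)
  have hA2 : 0 ≤ A₂ := (norm_nonneg _).trans (h2 0 h0b)
  have hpi := Real.pi_pos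
  have heA : ∀ w ∈ ball (0 : ℂ) 1, ContDiffAt ℝ ∞ e w := fun w hw =>
    he.contDiffAt (isOpen_ball.mem_nhds hw)
  have hout : ∀ w, w ∉ ball (0 : ℂ) 1 → w ∉ tsupport chi := fun w hw h =>
    hw (closedBall_subset_ball (by norm_num) (chi_ts h))
  set G0 : ℂ → ℂ := fun w => chi w * dz e w with hG0
  have hGcd : ContDiff ℝ 1 G0 :=
    cd_mul 1 chi (dz e) (contDiff_infty.1 chi_cd 1) chi_ts (fun w hw => dz_at 1 e w (heA w hw))
  have hGcs : HasCompactSupport G0 := (cs_of chi chi_ts).mul_right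
  have hCP := cauchy_pompeiu hGcd hGcs
  have hG00 : G0 0 = dz e 0 := by
    simp only [hG0]
    rw [chi_one 0 (mem_closedBall_self (by norm_num)), one_mul]
  -- pointwise formula
  have hpt : ∀ w, w⁻¹ * db (fderiv ℝ G0 w) =
      2 * I * (Hf w * dz e w + w⁻¹ * (chi w * dz (dzb e) w)) := by
    intro w
    rw [db_eq]
    by_cases hw : w ∈ ball (0 : ℂ) 1
    · have hd1 : DifferentiableAt ℝ chi w := chi_cd.differentiable (by simp) w
      have hd2 : DifferentiableAt ℝ (dz e) w := (dz_at 1 e w (heA w hw)).differentiableAt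
        (by simp)
      have hG : HasFDerivAt G0 (chi w • fderiv ℝ (dz e) w + dz e w • fderiv ℝ chi w) w :=
        hd1.hasFDerivAt.mul hd2.hasFDerivAt
      have hdG : dzb G0 w = dzb chi w * dz e w + chi w * dzb (dz e) w := by
        unfold dzb
        rw [hG.fderiv]
        simp only [_root_.add_apply, _root_.smul_apply, smul_eq_mul]
        ring
      rw [hdG, comm_at e w (heA w hw)]
      unfold Hf
      ring
    · have h3 : w ∉ tsupport chi := hout w hw
      have h4 : w ∉ tsupport G0 := fun h => h3 (closure_mono (fun z hz => by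
        rw [Function.mem_support] at hz ⊢
        intro h5
        apply hz
        simp only [hG0]
        rw [h5, zero_mul]) h)
      have h5 : chi w = 0 := image_eq_zero_of_notMem_tsupport h3
      have h6 : dzb chi w = 0 := by
        unfold dzb
        rw [fd_ts chi w h3]
        simp
      have h7 : dzb G0 w = 0 := by
        unfold dzb
        rw [fd_ts G0 w h4]
        simp
      unfold Hf
      rw [h5, h6, h7]
      ring
  -- integrability
  have hI1 : Integrable (fun w => Hf w * dz e w) :=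
    int_mul Hf (dz e) Hf_cd.continuous Hf_ts (fun w hw => (dz_at 0 e w (heA w hw)).continuousAt)
  have hind : ∀ w : ℂ, 0 ≤ (Set.Ioc (0 : ℝ) 1).indicator (fun y : ℝ => y⁻¹) ‖w‖ := by
    intro w
    apply Set.indicator_nonneg
    intro y hy
    exact inv_nonneg.2 hy.1.le
  have hbd : ∀ w : ℂ, ‖w⁻¹ * (chi w * dz (dzb e) w)‖ ≤
      A₂ * (Set.Ioc (0 : ℝ) 1).indicator (fun y : ℝ => y⁻¹) ‖w‖ := by
    intro w
    by_cases hw : w ∈ ball (0 : ℂ) 1
    · by_cases hw0 : w = 0
      · subst hw0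
        rw [inv_zero, zero_mul, norm_zero]
        exact mul_nonneg hA2 (by
          have := hind 0
          rwa [norm_zero] at this)
      · have hwp : 0 < ‖w‖ := norm_pos_iff.2 hw0
        have hw1 : ‖w‖ ≤ 1 := by
          rw [mem_ball_zero_iff] at hw
          exact hw.le
        rw [Set.indicator_of_mem (show ‖w‖ ∈ Set.Ioc (0 : ℝ) 1 from ⟨hwp, hw1⟩), norm_mul,
          norm_inv, norm_mul]
        have h3 : ‖chi w‖ * ‖dz (dzb e) w‖ ≤ 1 * A₂ :=
          mul_le_mul (chi_norm w) ((dz_norm _ _).trans (h2 w hw)) (norm_nonneg _) zero_le_one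
        calc ‖w‖⁻¹ * (‖chi w‖ * ‖dz (dzb e) w‖) ≤ ‖w‖⁻¹ * (1 * A₂) :=
              mul_le_mul_of_nonneg_left h3 (by positivity)
          _ = A₂ * ‖w‖⁻¹ := by ring
    · have h5 : chi w = 0 := image_eq_zero_of_notMem_tsupport (hout w hw)
      rw [h5, zero_mul, mul_zero, norm_zero]
      exact mul_nonneg hA2 (hind w)
  have hgI : Integrable (fun w : ℂ => A₂ * (Set.Ioc (0 : ℝ) 1).indicator (fun y : ℝ => y⁻¹) ‖w‖) :=
    (integrable_inv_norm 1).const_mul A₂
  have hcont : Continuous (fun w => chi w * dz (dzb e) w) := by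
    have h3 : ContDiff ℝ 0 (fun w => chi w * dz (dzb e) w) :=
      cd_mul 0 chi (dz (dzb e)) (contDiff_infty.1 chi_cd 0) chi_ts
        (fun w hw => dz_at 0 (dzb e) w (dzb_inf e w (heA w hw)))
    exact h3.continuous
  have hI2 : Integrable (fun w => w⁻¹ * (chi w * dz (dzb e) w)) := by
    refine hgI.mono' ?_ (Filter.Eventually.of_forall hbd)
    exact (measurable_inv.mul hcont.measurable).aestronglyMeasurable
  have hsum : (∫ w, Hf w * dz e w) + (∫ w, w⁻¹ * (chi w * dz (dzb e) w)) =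
      - ((Real.pi : ℂ) * dz e 0) := by
    simp only [hpt] at hCP
    rw [integral_const_mul, integral_add hI1 hI2, hG00] at hCP
    have hI : (2 * I : ℂ) ≠ 0 := by simp [I_ne_zero]
    apply mul_left_cancel₀ hI
    rw [hCP]
    ring
  have hn1 : ‖∫ w, Hf w * dz e w‖ ≤ K2 * A₀ := by
    rw [ibp e heA, norm_neg]
    have hdc : Continuous (dz Hf) :=
      continuous_iff_continuousAt.2 (fun w => (dz_at 0 Hf w Hf_cd.contDiffAt).continuousAt)
    have hdI : Integrable (fun w => ‖dz Hf w‖) :=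
      (hdc.integrable_of_hasCompactSupport (cs_of _ ((dz_ts Hf).trans Hf_ts))).norm
    have h3 : ∫ w, ‖dz Hf w‖ * A₀ = K2 * A₀ := by
      rw [integral_mul_const]
      rfl
    rw [← h3]
    refine norm_integral_le_of_norm_le (hdI.mul_const A₀) (Filter.Eventually.of_forall fun w => ?_)
    rw [norm_mul]
    by_cases hw : w ∈ ball (0 : ℂ) 1
    · exact mul_le_mul_of_nonneg_left (h0 w hw) (norm_nonneg _)
    · have h4 : dz Hf w = 0 := image_eq_zero_of_notMem_tsupport (fun h =>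
        hw (closedBall_subset_ball (by norm_num) (((dz_ts Hf).trans Hf_ts) h)))
      rw [h4, norm_zero, zero_mul, zero_mul]
  have hn2 : ‖∫ w, w⁻¹ * (chi w * dz (dzb e) w)‖ ≤ 2 * Real.pi * A₂ := by
    refine (norm_integral_le_of_norm_le hgI (Filter.Eventually.of_forall hbd)).trans ?_
    rw [integral_const_mul, integral_inv_norm zero_le_one]
    linarith
  have hn3 : Real.pi * ‖dz e 0‖ ≤ K2 * A₀ + 2 * Real.pi * A₂ := by
    have h3 : ‖- ((Real.pi : ℂ) * dz e 0)‖ = Real.pi * ‖dz e 0‖ := by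
      rw [norm_neg, norm_mul, Complex.norm_real, Real.norm_of_nonneg hpi.le]
    rw [← h3, ← hsum]
    exact (norm_add_le _ _).trans (add_le_add hn1 hn2)
  have hn4 : ‖dz e 0‖ ≤ K2 / Real.pi * A₀ + 2 * A₂ := by
    have h3 : K2 / Real.pi * A₀ + 2 * A₂ = (K2 * A₀ + 2 * Real.pi * A₂) / Real.pi := by
      field_simp
    rw [h3, le_div_iff₀ hpi]
    linarith
  have hn5 := fd_norm e 0
  have hn6 := h1 0 h0b
  linarith

end
end

end GEaux

/-- gradient estimate -/
theorem GE : ∃ C : ℝ, 0 < C ∧ ∀ (e : ℂ → ℂ) (c : ℂ) (r A₀ A₁ A₂ : ℝ), 0 < r →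
    ContDiffOn ℝ ∞ e (ball c r) → (∀ z ∈ ball c r, ‖e z‖ ≤ A₀) →
    (∀ z ∈ ball c r, ‖dzb e z‖ ≤ A₁) → (∀ z ∈ ball c r, ‖fderiv ℝ (dzb e) z‖ ≤ A₂) →
    ‖fderiv ℝ e c‖ ≤ C * (A₀ / r + A₁ + r * A₂) := by
  have hK2 : 0 ≤ GEaux.K2 := MeasureTheory.integral_nonneg (fun w => norm_nonneg _)
  have hpi := Real.pi_pos
  have hKp : 0 ≤ GEaux.K2 / Real.pi := div_nonneg hK2 hpi.le
  refine ⟨GEaux.K2 / Real.pi + 2, by positivity, ?_⟩
  intro e c r A₀ A₁ A₂ hr he h0 h1 h2
  have hcb : c ∈ ball c r := mem_ball_self hr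
  have hA0 : 0 ≤ A₀ := (norm_nonneg _).trans (h0 c hcb)
  have hA1 : 0 ≤ A₁ := (norm_nonneg _).trans (h1 c hcb)
  have hA2 : 0 ≤ A₂ := (norm_nonneg _).trans (h2 c hcb)
  have hmaps : ∀ z ∈ ball (0 : ℂ) 1, c + r • z ∈ ball c r := by
    intro z hz
    rw [mem_ball_zero_iff] at hz
    rw [mem_ball, dist_eq_norm, add_sub_cancel_left, norm_smul, Real.norm_of_nonneg hr.le]
    nlinarith [norm_nonneg z]
  set er : ℂ → ℂ := fun z => e (c + r • z) with her
  have hfd : ∀ (f : ℂ → ℂ) (z : ℂ), fderiv ℝ (fun z => f (c + r • z)) z =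
      r • fderiv ℝ f (c + r • z) := by
    intro f z
    have e1 := fderiv_comp_smul (𝕜 := ℝ) (f := fun z => f (c + z)) (x := z) r
    rw [e1, fderiv_comp_add_left]
  have hdzb : dzb er = fun z => (r : ℂ) * dzb e (c + r • z) := by
    funext z
    unfold dzb
    rw [her, hfd e z]
    simp only [_root_.smul_apply, Complex.real_smul]
    ring
  have heA : ∀ w ∈ ball c r, ContDiffAt ℝ ∞ e w := fun w hw =>
    he.contDiffAt (isOpen_ball.mem_nhds hw)
  have hu := GEaux.unit er A₀ (r * A₁) (r * (r * A₂)) ?_ ?_ ?_ ?_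
  · rw [her, hfd e 0, norm_smul, Real.norm_of_nonneg hr.le, smul_zero, add_zero] at hu
    have e1 : GEaux.K2 / Real.pi * A₀ + r * A₁ + 2 * (r * (r * A₂)) =
        r * (GEaux.K2 / Real.pi * (A₀ / r) + A₁ + 2 * (r * A₂)) := by
      field_simp
    rw [e1] at hu
    have h3 := le_of_mul_le_mul_left hu hr
    have h4 : 0 ≤ A₀ / r := by positivity
    have h5 : 0 ≤ r * A₂ := by positivity
    refine h3.trans ?_
    nlinarith [mul_nonneg hKp hA1, mul_nonneg hKp h5]
  · refine he.comp (t := ball c r) ?_ (fun z hz => hmaps z hz)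
    exact ContDiff.contDiffOn (by fun_prop)
  · intro z hz
    exact h0 _ (hmaps z hz)
  · intro z hz
    rw [hdzb]
    simp only
    rw [norm_mul, Complex.norm_real, Real.norm_of_nonneg hr.le]
    exact mul_le_mul_of_nonneg_left (h1 _ (hmaps z hz)) hr.le
  · intro z hz
    rw [hdzb]
    have hd : DifferentiableAt ℝ (dzb e) (c + r • z) :=
      (GEaux.dzb_at 1 e _ (heA _ (hmaps z hz))).differentiableAt (by simp)
    have hd2 : DifferentiableAt ℝ (fun z => dzb e (c + r • z)) z := by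
      have hd3 : DifferentiableAt ℝ (fun z : ℂ => c + r • z) z := by fun_prop
      exact DifferentiableAt.comp (g := dzb e) (f := fun z : ℂ => c + r • z) z hd hd3
    rw [fderiv_const_mul hd2, hfd (dzb e) z, norm_smul, norm_smul, Complex.norm_real,
      Real.norm_of_nonneg hr.le]
    exact mul_le_mul_of_nonneg_left (mul_le_mul_of_nonneg_left (h2 _ (hmaps z hz)) hr.le) hr.le


end Pool.Agent.Helper676.TL
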