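import Mathlib
import Pool.Agent.Helper676.TL.Defs
import Pool.Agent.Helper676.TL.Base

set_option autoImplicit false

namespace Pool.Agent.Helper676.TL

open Set Metric
open scoped ContDiff



theorem cj_mul (x y : ℂ) : cj (x * y) = cj x * cj y := map_mul (starRingEnd ℂ) x y
theorem cj_sq (x : ℂ) : cj (x ^ 2) = cj x ^ 2 := map_pow (starRingEnd ℂ) x 2
theorem cj_real (x : ℝ) : cj (x : ℂ) = (x : ℂ) := Complex.conj_ofReal x

/-- Cauchy for continuous functions holomorphic in the ball -/
theorem cauchy_per (t : ℝ) (ht : 0 < t) (f : ℂ → ℂ) (hc : Continuous f)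
    (hd : DifferentiableOn ℂ f (ball 1 t)) :
    ∫ θ in (0 : ℝ)..(2 * Real.pi),
      f (1 + t * Complex.exp (θ * Complex.I)) ^ 2 * Complex.exp (θ * Complex.I) = 0 := by
  have h1 : (∮ z in C((1 : ℂ), t), (fun z => f z ^ 2) z) = 0 := by
    apply Complex.circleIntegral_eq_zero_of_differentiable_on_off_countable ht.le
      Set.countable_empty
    · exact (hc.pow 2).continuousOn
    · intro z hz
      exact ((hd z hz.1).differentiableAt (isOpen_ball.mem_nhds hz.1)).pow 2
  rw [circleIntegral] at h1
  have h2 : ∀ θ : ℝ, deriv (circleMap 1 t) θ • (fun z => f z ^ 2) (circleMap 1 t θ) =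
      ((t : ℂ) * Complex.I) * (f (1 + t * Complex.exp (θ * Complex.I)) ^ 2 *
        Complex.exp (θ * Complex.I)) := by
    intro θ
    rw [deriv_circleMap]
    simp only [circleMap, smul_eq_mul]
    ring
  simp only [h2] at h1
  rw [intervalIntegral.integral_const_mul] at h1
  rcases mul_eq_zero.1 h1 with h | h
  · exfalso
    have : (t : ℂ) ≠ 0 := by exact_mod_cast ht.ne'
    exact (mul_ne_zero this Complex.I_ne_zero) h
  · exact h

/-- the period of the immersion -/
theorem PER2 (C t h : ℝ) (ht : 0 < t) (ht1 : t < 1 / 100) (u v α β : ℂ → ℂ)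
    (hS : Sol C t h u v α β)
    (h0 : ∫ θ in (0 : ℝ)..(2 * Real.pi), α (1 + t * Complex.exp (θ * Complex.I)) *
          cj (β (1 + t * Complex.exp (θ * Complex.I))) = 0) :
    ∫ θ in (0 : ℝ)..(2 * Real.pi),
      fa t u β (1 + t * Complex.exp (θ * Complex.I)) ^ 2 * Complex.exp (θ * Complex.I) = 0 := by
  have hee : ∀ θ : ℝ, Complex.exp (θ * Complex.I) * cj (Complex.exp (θ * Complex.I)) = 1 := by
    intro θ
    rw [Complex.mul_conj, Complex.normSq_eq_norm_sq, Complex.norm_exp_ofReal_mul_I]
    simp
  have hpt : ∀ θ : ℝ, fa t u β (1 + t * Complex.exp (θ * Complex.I)) ^ 2 *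
      Complex.exp (θ * Complex.I) =
      α (1 + t * Complex.exp (θ * Complex.I)) ^ 2 * Complex.exp (θ * Complex.I) +
      2 * (α (1 + t * Complex.exp (θ * Complex.I)) *
          cj (β (1 + t * Complex.exp (θ * Complex.I)))) +
      cj (β (1 + t * Complex.exp (θ * Complex.I)) ^ 2 * Complex.exp (θ * Complex.I)) := by
    intro θ
    set e := Complex.exp (θ * Complex.I) with he
    have hn : ‖(1 + t * e) - 1‖ = t := by
      rw [add_sub_cancel_left, norm_mul, he, Complex.norm_exp_ofReal_mul_I, mul_one,
        Complex.norm_real, Real.norm_of_nonneg ht.le]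
    have hk : kap t (1 + t * e) = 1 + t * e := by
      unfold kap
      rw [hn, max_self, div_self (pow_ne_zero 2 ht.ne'), Complex.ofReal_one, one_mul,
        add_sub_cancel_left]
    have hr : ret t (1 + t * e) = 1 + t * e := by
      unfold ret
      rw [hn, max_self, div_self ht.ne', Complex.ofReal_one, one_mul, add_sub_cancel_left]
    have hta : tau t (1 + t * e) = cj e := by
      unfold tau
      rw [hn, max_self, add_sub_cancel_left, cj_mul, cj_real, ← mul_assoc,
        ← Complex.ofReal_mul]
      have : t / t ^ 2 * t = 1 := by field_simp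
      rw [this, Complex.ofReal_one, one_mul]
    have hfa : fa t u β (1 + t * e) = α (1 + t * e) + cj (β (1 + t * e)) * cj e := by
      have h1 := hS.hα (1 + t * e)
      rw [hr] at h1
      unfold fa
      rw [h1]
      have h2 : sS t β (1 + t * e) = cj (β (1 + t * e)) * cj e := by
        unfold sS
        rw [hk, hta]
      rw [h2]
      ring
    have h3 := hee θ
    rw [← he] at h3
    rw [hfa, cj_mul, cj_sq]
    linear_combination (2 * α (1 + t * e) * cj (β (1 + t * e)) +
      cj (β (1 + t * e)) ^ 2 * cj e) * h3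
  have hz : Continuous (fun θ : ℝ => (1 + t * Complex.exp (θ * Complex.I) : ℂ)) := by fun_prop
  have he : Continuous (fun θ : ℝ => (Complex.exp (θ * Complex.I) : ℂ)) := by fun_prop
  have c1 : Continuous (fun θ : ℝ => α (1 + t * Complex.exp (θ * Complex.I)) ^ 2 *
      Complex.exp (θ * Complex.I)) := ((hS.cα.comp hz).pow 2).mul he
  have c2 : Continuous (fun θ : ℝ => 2 * (α (1 + t * Complex.exp (θ * Complex.I)) *
          cj (β (1 + t * Complex.exp (θ * Complex.I))))) :=
    continuous_const.mul ((hS.cα.comp hz).mul (Complex.continuous_conj.comp (hS.cβ.comp hz)))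
  have c3 : Continuous (fun θ : ℝ => cj (β (1 + t * Complex.exp (θ * Complex.I)) ^ 2 *
      Complex.exp (θ * Complex.I))) :=
    Complex.continuous_conj.comp (((hS.cβ.comp hz).pow 2).mul he)
  simp only [hpt]
  have c12 : Continuous (fun θ : ℝ => α (1 + t * Complex.exp (θ * Complex.I)) ^ 2 *
      Complex.exp (θ * Complex.I) + 2 * (α (1 + t * Complex.exp (θ * Complex.I)) *
          cj (β (1 + t * Complex.exp (θ * Complex.I))))) := c1.add c2
  rw [intervalIntegral.integral_add (c12.intervalIntegrable _ _)
    (c3.intervalIntegrable _ _), intervalIntegral.integral_add (c1.intervalIntegrable _ _)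
    (c2.intervalIntegrable _ _), intervalIntegral.integral_const_mul, h0,
    cauchy_per t ht α hS.cα hS.dα, mul_zero, add_zero, zero_add]
  have h4 := intervalIntegral.intervalIntegral_conj (μ := MeasureTheory.volume)
    (a := (0 : ℝ)) (b := 2 * Real.pi) (𝕜 := ℂ)
    (f := fun θ : ℝ => β (1 + t * Complex.exp (θ * Complex.I)) ^ 2 * Complex.exp (θ * Complex.I))
  rw [cauchy_per t ht β hS.cβ hS.dβ, map_zero] at h4
  exact h4


end Pool.Agent.Helper676.TL
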