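import Mathlib
import Pool.Agent.Helper676.TL.Defs
import Pool.Agent.Helper676.TL.Base

set_option autoImplicit false

namespace Pool.Agent.Helper676.TL

open Set Metric
open scoped ContDiff



/-- norm of the real derivative -/
noncomputable def Qn (f : ℂ → ℂ) (z : ℂ) : ℝ := ‖fderiv ℝ f z‖

theorem Qn_nonneg (f : ℂ → ℂ) (z : ℂ) : 0 ≤ Qn f z := norm_nonneg _

theorem Qn_mul {f g : ℂ → ℂ} {z : ℂ} (hf : DifferentiableAt ℝ f z) (hg : DifferentiableAt ℝ g z) :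
    Qn (fun z => f z * g z) z ≤ ‖f z‖ * Qn g z + ‖g z‖ * Qn f z := by
  unfold Qn
  have h := (hf.hasFDerivAt.mul hg.hasFDerivAt).fderiv
  have e : (fun z => f z * g z) = f * g := rfl
  rw [e, h]
  refine (norm_add_le _ _).trans ?_
  rw [norm_smul, norm_smul]

theorem Qn_add {f g : ℂ → ℂ} {z : ℂ} (hf : DifferentiableAt ℝ f z) (hg : DifferentiableAt ℝ g z) :
    Qn (fun z => f z + g z) z ≤ Qn f z + Qn g z := by
  unfold Qn
  have h := (hf.hasFDerivAt.add hg.hasFDerivAt).fderiv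
  have e : (fun z => f z + g z) = f + g := rfl
  rw [e, h]
  exact norm_add_le _ _

theorem Qd_cj {f : ℂ → ℂ} {z : ℂ} (hf : DifferentiableAt ℝ f z) :
    DifferentiableAt ℝ (fun z => cj (f z)) z :=
  (Complex.conjCLE.toContinuousLinearMap.differentiableAt).comp z hf

theorem Qn_cj {f : ℂ → ℂ} {z : ℂ} (hf : DifferentiableAt ℝ f z) :
    Qn (fun z => cj (f z)) z ≤ Qn f z := by
  unfold Qn
  have h := ((Complex.conjCLE.toContinuousLinearMap.hasFDerivAt (x := f z)).comp z hf.hasFDerivAt).fderiv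
  have e : (fun z => cj (f z)) = (Complex.conjCLE.toContinuousLinearMap : ℂ → ℂ) ∘ f := rfl
  rw [e, h]
  refine (ContinuousLinearMap.opNorm_comp_le _ _).trans ?_
  rw [Complex.conjCLE_norm, one_mul]

theorem Qn_cmul {f : ℂ → ℂ} {z : ℂ} (c : ℂ) (hf : DifferentiableAt ℝ f z) :
    Qn (fun z => c * f z) z ≤ ‖c‖ * Qn f z := by
  have h := Qn_mul (f := fun _ => c) (g := f) (differentiableAt_const c) hf
  have e : Qn (fun _ : ℂ => c) z = 0 := by simp [Qn]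
  rw [e, mul_zero, add_zero] at h
  exact h

/-- sum of squares -/
theorem Qn_sq {a b : ℂ → ℂ} {z : ℂ} (ha : DifferentiableAt ℝ a z) (hb : DifferentiableAt ℝ b z)
    (h1 : ‖a z‖ ≤ 2) (h2 : ‖b z‖ ≤ 1) :
    DifferentiableAt ℝ (fun z => a z * cj (a z) + b z * cj (b z)) z ∧
    Qn (fun z => a z * cj (a z) + b z * cj (b z)) z ≤ 4 * Qn a z + 2 * Qn b z ∧
    ‖a z * cj (a z) + b z * cj (b z)‖ ≤ 5 := by
  have d1 : DifferentiableAt ℝ (fun z => a z * cj (a z)) z := ha.mul (Qd_cj ha)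
  have d2 : DifferentiableAt ℝ (fun z => b z * cj (b z)) z := hb.mul (Qd_cj hb)
  have e1 := Qn_mul ha (Qd_cj ha)
  have e2 := Qn_mul hb (Qd_cj hb)
  have e3 := Qn_cj ha
  have e4 := Qn_cj hb
  have n1 : ‖cj (a z)‖ = ‖a z‖ := RCLike.norm_conj _
  have n2 : ‖cj (b z)‖ = ‖b z‖ := RCLike.norm_conj _
  rw [n1] at e1
  rw [n2] at e2
  have pa := Qn_nonneg a z
  have pb := Qn_nonneg b z
  have p1 := norm_nonneg (a z)
  have p2 := norm_nonneg (b z)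
  refine ⟨d1.add d2, (Qn_add d1 d2).trans ?_, ?_⟩
  · have f1 : ‖a z‖ * Qn (fun z => cj (a z)) z ≤ 2 * Qn a z :=
      mul_le_mul h1 e3 (Qn_nonneg _ _) (by norm_num)
    have f2 : ‖a z‖ * Qn a z ≤ 2 * Qn a z := mul_le_mul_of_nonneg_right h1 pa
    have f3 : ‖b z‖ * Qn (fun z => cj (b z)) z ≤ 1 * Qn b z :=
      mul_le_mul h2 e4 (Qn_nonneg _ _) (by norm_num)
    have f4 : ‖b z‖ * Qn b z ≤ 1 * Qn b z := mul_le_mul_of_nonneg_right h2 pb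
    linarith
  · refine (norm_add_le _ _).trans ?_
    rw [norm_mul, norm_mul, n1, n2]
    nlinarith

theorem Qn_f {a b : ℂ → ℂ} {z : ℂ} (ε : ℝ) (hε : 0 ≤ ε) (ha : DifferentiableAt ℝ a z)
    (hb : DifferentiableAt ℝ b z) (h1 : ‖a z‖ ≤ 2) (h2 : ‖b z‖ ≤ 1) :
    Qn (fun z => (ε : ℂ) * ((a z * cj (a z) + b z * cj (b z)) * cj (b z))) z ≤
      7 * ε * (Qn a z + Qn b z) ∧
    Qn (fun z => ((-ε : ℝ) : ℂ) * ((a z * cj (a z) + b z * cj (b z)) * cj (a z))) z ≤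
      13 * ε * (Qn a z + Qn b z) := by
  obtain ⟨d, e1, e2⟩ := Qn_sq ha hb h1 h2
  have pa := Qn_nonneg a z
  have pb := Qn_nonneg b z
  have p1 := norm_nonneg (a z)
  have p2 := norm_nonneg (b z)
  have n1 : ‖cj (a z)‖ = ‖a z‖ := RCLike.norm_conj _
  have n2 : ‖cj (b z)‖ = ‖b z‖ := RCLike.norm_conj _
  have e3 := Qn_cj ha
  have e4 := Qn_cj hb
  have q0 := Qn_nonneg (fun z => a z * cj (a z) + b z * cj (b z)) z
  constructor
  · refine (Qn_cmul _ (d.mul (Qd_cj hb))).trans ?_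
    rw [Complex.norm_real, Real.norm_eq_abs, abs_of_nonneg hε]
    have m := Qn_mul d (Qd_cj hb)
    rw [n2] at m
    have f1 : ‖a z * cj (a z) + b z * cj (b z)‖ * Qn (fun z => cj (b z)) z ≤ 5 * Qn b z :=
      mul_le_mul e2 e4 (Qn_nonneg _ _) (by norm_num)
    have f2 : ‖b z‖ * Qn (fun z => a z * cj (a z) + b z * cj (b z)) z ≤ 1 * (4 * Qn a z + 2 * Qn b z) :=
      mul_le_mul h2 e1 q0 (by norm_num)
    have : Qn (fun z => (a z * cj (a z) + b z * cj (b z)) * cj (b z)) z ≤ 7 * (Qn a z + Qn b z) := by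
      linarith
    exact (mul_le_mul_of_nonneg_left this hε).trans (le_of_eq (by ring))
  · refine (Qn_cmul _ (d.mul (Qd_cj ha))).trans ?_
    rw [Complex.norm_real, Real.norm_eq_abs, abs_neg, abs_of_nonneg hε]
    have m := Qn_mul d (Qd_cj ha)
    rw [n1] at m
    have f1 : ‖a z * cj (a z) + b z * cj (b z)‖ * Qn (fun z => cj (a z)) z ≤ 5 * Qn a z :=
      mul_le_mul e2 e3 (Qn_nonneg _ _) (by norm_num)
    have f2 : ‖a z‖ * Qn (fun z => a z * cj (a z) + b z * cj (b z)) z ≤ 2 * (4 * Qn a z + 2 * Qn b z) :=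
      mul_le_mul h1 e1 q0 (by norm_num)
    have : Qn (fun z => (a z * cj (a z) + b z * cj (b z)) * cj (a z)) z ≤ 13 * (Qn a z + Qn b z) := by
      linarith
    exact (mul_le_mul_of_nonneg_left this hε).trans (le_of_eq (by ring))

/-- summary of the local information -/
structure QD (ε : ℝ) (a b : ℂ → ℂ) (z : ℂ) : Prop where
  da : DifferentiableAt ℝ a z
  db : DifferentiableAt ℝ b z
  na : ‖a z‖ ≤ 2
  nb : ‖b z‖ ≤ 1
  ea : ‖dzb a z‖ ≤ 5 * ε * ‖b z‖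
  eb : ‖dzb b z‖ ≤ 10 * ε
  fa : ‖fderiv ℝ (dzb a) z‖ ≤ 7 * ε * (Qn a z + Qn b z)
  fb : ‖fderiv ℝ (dzb b) z‖ ≤ 13 * ε * (Qn a z + Qn b z)

theorem QV_open : IsOpen {ζ : ℂ | 8 < ‖ζ‖ ∧ ‖ζ‖ < 12} :=
  (isOpen_lt continuous_const continuous_norm).inter (isOpen_lt continuous_norm continuous_const)

theorem QD_of (t h : ℝ) (ht : 0 < t) (hh : 0 < h) (a b : ℂ → ℂ)
    (hD : Dirac (t * h) a b {ζ | 8 < ‖ζ‖ ∧ ‖ζ‖ < 12})
    (h1 : ∀ ζ, 8 < ‖ζ‖ → ‖ζ‖ < 12 → ‖a ζ‖ ≤ 2) (h2 : ∀ ζ, 8 < ‖ζ‖ → ‖ζ‖ < 12 → ‖b ζ‖ ≤ 1)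
    (z : ℂ) (hz1 : 8 < ‖z‖) (hz2 : ‖z‖ < 12) : QD (t * h / 2) a b z := by
  obtain ⟨ca, cb, Da, Db⟩ := hD
  have hε : 0 ≤ t * h / 2 := by positivity
  have hV : {ζ : ℂ | 8 < ‖ζ‖ ∧ ‖ζ‖ < 12} ∈ nhds z := QV_open.mem_nhds ⟨hz1, hz2⟩
  have da : DifferentiableAt ℝ a z := (ca.contDiffAt hV).differentiableAt (by simp)
  have db : DifferentiableAt ℝ b z := (cb.contDiffAt hV).differentiableAt (by simp)
  have ra : ∀ ζ ∈ {ζ : ℂ | 8 < ‖ζ‖ ∧ ‖ζ‖ < 12}, dzb a ζ =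
      ((t * h / 2 : ℝ) : ℂ) * ((a ζ * cj (a ζ) + b ζ * cj (b ζ)) * cj (b ζ)) := by
    intro ζ hζ
    rw [Da ζ hζ, Complex.mul_conj', Complex.mul_conj']
    push_cast
    ring
  have rb : ∀ ζ ∈ {ζ : ℂ | 8 < ‖ζ‖ ∧ ‖ζ‖ < 12}, dzb b ζ =
      ((-(t * h / 2) : ℝ) : ℂ) * ((a ζ * cj (a ζ) + b ζ * cj (b ζ)) * cj (a ζ)) := by
    intro ζ hζ
    rw [Db ζ hζ, Complex.mul_conj', Complex.mul_conj']
    push_cast
    ring
  have na := h1 z hz1 hz2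
  have nb := h2 z hz1 hz2
  obtain ⟨_, _, e2⟩ := Qn_sq da db na nb
  obtain ⟨q1, q2⟩ := Qn_f (t * h / 2) hε da db na nb
  have n1 : ‖cj (a z)‖ = ‖a z‖ := RCLike.norm_conj _
  have n2 : ‖cj (b z)‖ = ‖b z‖ := RCLike.norm_conj _
  refine ⟨da, db, na, nb, ?_, ?_, ?_, ?_⟩
  · rw [ra z ⟨hz1, hz2⟩, norm_mul, norm_mul, Complex.norm_real, Real.norm_eq_abs,
      abs_of_nonneg hε, n2]
    have := mul_le_mul_of_nonneg_right e2 (norm_nonneg (b z))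
    nlinarith
  · rw [rb z ⟨hz1, hz2⟩, norm_mul, norm_mul, Complex.norm_real, Real.norm_eq_abs, abs_neg,
      abs_of_nonneg hε, n1]
    have : ‖a z * cj (a z) + b z * cj (b z)‖ * ‖a z‖ ≤ 5 * 2 :=
      mul_le_mul e2 na (norm_nonneg _) (by norm_num)
    nlinarith
  · have : dzb a =ᶠ[nhds z] fun ζ => ((t * h / 2 : ℝ) : ℂ) *
        ((a ζ * cj (a ζ) + b ζ * cj (b ζ)) * cj (b ζ)) := by
      filter_upwards [hV] with ζ hζ using ra ζ hζ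
    rw [this.fderiv_eq]
    exact q1
  · have : dzb b =ᶠ[nhds z] fun ζ => ((-(t * h / 2) : ℝ) : ℂ) *
        ((a ζ * cj (a ζ) + b ζ * cj (b ζ)) * cj (a ζ)) := by
      filter_upwards [hV] with ζ hζ using rb ζ hζ
    rw [this.fderiv_eq]
    exact q2


/-- the gradient estimate -/
def QGE (Cg : ℝ) : Prop := ∀ (e : ℂ → ℂ) (c : ℂ) (r A₀ A₁ A₂ : ℝ), 0 < r →
      ContDiffOn ℝ ∞ e (ball c r) → (∀ z ∈ ball c r, ‖e z‖ ≤ A₀) →
      (∀ z ∈ ball c r, ‖dzb e z‖ ≤ A₁) → (∀ z ∈ ball c r, ‖fderiv ℝ (dzb e) z‖ ≤ A₂) →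
      ‖fderiv ℝ e c‖ ≤ Cg * (A₀ / r + A₁ + r * A₂)

theorem QA (Cg : ℝ) (hCg : 0 < Cg) (hGE : QGE Cg) (ε : ℝ) (hε : 0 ≤ ε) (hε1 : ε ≤ 1)
    (hεC : 20 * Cg * ε ≤ 1 / 2) (a b : ℂ → ℂ) (ca : ContDiffOn ℝ ∞ a {ζ | 8 < ‖ζ‖ ∧ ‖ζ‖ < 12})
    (cb : ContDiffOn ℝ ∞ b {ζ | 8 < ‖ζ‖ ∧ ‖ζ‖ < 12})
    (hQ : ∀ z : ℂ, 8 < ‖z‖ → ‖z‖ < 12 → QD ε a b z) (c : ℂ) (hc1 : 67 / 8 < ‖c‖)
    (hc2 : ‖c‖ < 93 / 8) : Qn a c + Qn b c ≤ 112 * Cg := by
  have hKV : closedBall c (3 / 8) ⊆ {ζ : ℂ | 8 < ‖ζ‖ ∧ ‖ζ‖ < 12} := by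
    intro w hw
    rw [mem_closedBall, dist_eq_norm] at hw
    have h1 := norm_sub_norm_le c w
    have h2 := norm_sub_norm_le w c
    rw [norm_sub_rev] at h1
    exact ⟨by linarith, by linarith⟩
  have cDa : ContinuousOn (fun z => fderiv ℝ a z) {ζ : ℂ | 8 < ‖ζ‖ ∧ ‖ζ‖ < 12} :=
    ca.continuousOn_fderiv_of_isOpen QV_open (by simp)
  have cDb : ContinuousOn (fun z => fderiv ℝ b z) {ζ : ℂ | 8 < ‖ζ‖ ∧ ‖ζ‖ < 12} :=
    cb.continuousOn_fderiv_of_isOpen QV_open (by simp)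
  have cφ : ContinuousOn (fun z => (3 / 8 - ‖z - c‖) * (Qn a z + Qn b z)) (closedBall c (3 / 8)) := by
    refine ContinuousOn.mul ?_ ?_
    · exact (continuous_const.sub (continuous_id.sub continuous_const).norm).continuousOn
    · exact (cDa.norm.add cDb.norm).mono hKV
  obtain ⟨z, hzK, hmax⟩ := (isCompact_closedBall c (3 / 8)).exists_isMaxOn
    ⟨c, mem_closedBall_self (by norm_num)⟩ cφ
  have hφc : (3 / 8 : ℝ) * (Qn a c + Qn b c) ≤ (3 / 8 - ‖z - c‖) * (Qn a z + Qn b z) := by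
    have := hmax (mem_closedBall_self (by norm_num : (0 : ℝ) ≤ 3 / 8) : c ∈ closedBall c (3 / 8))
    simpa using this
  set d := 3 / 8 - ‖z - c‖ with hd
  set m := d * (Qn a z + Qn b z) with hm
  have hzc : ‖z - c‖ ≤ 3 / 8 := by rwa [mem_closedBall, dist_eq_norm] at hzK
  have hd0 : 0 ≤ d := by rw [hd]; linarith
  have hd1 : d ≤ 3 / 8 := by rw [hd]; linarith [norm_nonneg (z - c)]
  have hm0 : 0 ≤ m := mul_nonneg hd0 (add_nonneg (Qn_nonneg _ _) (Qn_nonneg _ _))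
  have hm42 : m ≤ 42 * Cg := by
    rcases hd0.eq_or_lt with h0 | h0
    · rw [hm, ← h0, zero_mul]; positivity
    have hsub : ∀ w ∈ ball z (d / 2), w ∈ closedBall c (3 / 8) ∧ d / 2 ≤ 3 / 8 - ‖w - c‖ := by
      intro w hw
      rw [mem_ball, dist_eq_norm] at hw
      have h1 : ‖w - c‖ ≤ ‖w - z‖ + ‖z - c‖ := by
        have : w - c = (w - z) + (z - c) := by ring
        rw [this]; exact norm_add_le _ _
      rw [mem_closedBall, dist_eq_norm]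
      constructor <;> linarith
    have hW : ∀ w ∈ ball z (d / 2), Qn a w + Qn b w ≤ 2 * m / d := by
      intro w hw
      obtain ⟨h1, h2⟩ := hsub w hw
      have h3 : (3 / 8 - ‖w - c‖) * (Qn a w + Qn b w) ≤ m := hmax h1
      have h4 : 0 ≤ Qn a w + Qn b w := add_nonneg (Qn_nonneg _ _) (Qn_nonneg _ _)
      rw [le_div_iff₀ h0]
      nlinarith
    have hsubV : ball z (d / 2) ⊆ {ζ : ℂ | 8 < ‖ζ‖ ∧ ‖ζ‖ < 12} := fun w hw => hKV (hsub w hw).1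
    have ga := hGE a z (d / 2) 2 (5 * ε) (7 * ε * (2 * m / d)) (by linarith) (ca.mono hsubV)
      (fun w hw => (hQ w (hsubV hw).1 (hsubV hw).2).na)
      (fun w hw => by
        have q := hQ w (hsubV hw).1 (hsubV hw).2
        have := q.ea
        have := mul_le_mul_of_nonneg_left q.nb (by linarith : 0 ≤ 5 * ε)
        linarith)
      (fun w hw => by
        have q := hQ w (hsubV hw).1 (hsubV hw).2
        exact q.fa.trans (mul_le_mul_of_nonneg_left (hW w hw) (by linarith)))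
    have gb := hGE b z (d / 2) 1 (10 * ε) (13 * ε * (2 * m / d)) (by linarith) (cb.mono hsubV)
      (fun w hw => (hQ w (hsubV hw).1 (hsubV hw).2).nb)
      (fun w hw => (hQ w (hsubV hw).1 (hsubV hw).2).eb)
      (fun w hw => by
        have q := hQ w (hsubV hw).1 (hsubV hw).2
        exact q.fb.trans (mul_le_mul_of_nonneg_left (hW w hw) (by linarith)))
    have ga' : d * Qn a z ≤ Cg * (4 + 5 * ε * d + 7 * ε * m * d) := by
      have := mul_le_mul_of_nonneg_left ga h0.le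
      refine this.trans (le_of_eq ?_)
      field_simp
      try ring
    have gb' : d * Qn b z ≤ Cg * (2 + 10 * ε * d + 13 * ε * m * d) := by
      have := mul_le_mul_of_nonneg_left gb h0.le
      refine this.trans (le_of_eq ?_)
      field_simp
      try ring
    have hmle : m ≤ Cg * (6 + 15 * ε * d + 20 * ε * m * d) := by
      have : m = d * Qn a z + d * Qn b z := by rw [hm]; ring
      rw [this]
      linarith
    have h5 : 15 * ε * d ≤ 15 := by nlinarith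
    have h6 : 20 * ε * m * d ≤ 20 * ε * m := by
      have : 0 ≤ 20 * ε * m := by positivity
      nlinarith
    have h7 : m ≤ Cg * (21 + 20 * ε * m) := by
      refine hmle.trans (mul_le_mul_of_nonneg_left ?_ hCg.le)
      linarith
    have h8 : Cg * (20 * ε * m) ≤ 1 / 2 * m := by
      have := mul_le_mul_of_nonneg_right hεC hm0
      linarith
    linarith
  linarith


theorem Qdzb_hol {g : ℂ → ℂ} {g' z : ℂ} (h : HasDerivAt g g' z) :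
    DifferentiableAt ℝ g z ∧ dzb g z = 0 := by
  have h1 := h.hasFDerivAt.restrictScalars ℝ
  refine ⟨h1.differentiableAt, ?_⟩
  unfold dzb
  rw [h1.fderiv]
  simp only [ContinuousLinearMap.coe_restrictScalars', ContinuousLinearMap.toSpanSingleton_apply,
    smul_eq_mul]
  have : Complex.I * (Complex.I * g') = -g' := by
    rw [← mul_assoc, Complex.I_mul_I]; ring
  rw [this]
  ring

theorem Qdzb_sub {f g : ℂ → ℂ} {z : ℂ} (hf : DifferentiableAt ℝ f z) (hg : DifferentiableAt ℝ g z) :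
    dzb (fun z => f z - g z) z = dzb f z - dzb g z := by
  unfold dzb
  have e := (hf.hasFDerivAt.sub hg.hasFDerivAt).fderiv
  have e' : (fun z => f z - g z) = f - g := rfl
  rw [e', e]
  simp only [_root_.sub_apply]
  ring

theorem Qdzb_add {f g : ℂ → ℂ} {z : ℂ} (hf : DifferentiableAt ℝ f z) (hg : DifferentiableAt ℝ g z) :
    dzb (fun z => f z + g z) z = dzb f z + dzb g z := by
  unfold dzb
  have e := (hf.hasFDerivAt.add hg.hasFDerivAt).fderiv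
  have e' : (fun z => f z + g z) = f + g := rfl
  rw [e', e]
  simp only [_root_.add_apply]
  ring

theorem Qdzb_cj (ε : ℝ) (z : ℂ) : DifferentiableAt ℝ (fun z => (ε : ℂ) * cj z) z ∧
    dzb (fun z => (ε : ℂ) * cj z) z = ε := by
  have h1 : HasFDerivAt (fun z : ℂ => (ε : ℂ) * cj z)
      ((ε : ℂ) • (Complex.conjCLE.toContinuousLinearMap : ℂ →L[ℝ] ℂ)) z :=
    (Complex.conjCLE.toContinuousLinearMap.hasFDerivAt (x := z)).const_mul (ε : ℂ)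
  refine ⟨h1.differentiableAt, ?_⟩
  unfold dzb
  rw [h1.fderiv]
  simp
  have : Complex.I * ((ε : ℂ) * Complex.I) = -ε := by
    rw [mul_left_comm, Complex.I_mul_I]; ring
  rw [this]
  ring

/-- the corrected function -/
theorem Qdzb_e (t ε : ℝ) (b : ℂ → ℂ) (z : ℂ) (hz : 8 < ‖z‖) (hb : DifferentiableAt ℝ b z) :
    dzb (fun ζ => b ζ - (t / (ζ - 1) + t / (ζ + 1) - (ε : ℂ) * cj ζ)) z = dzb b z + ε := by
  have n1 : z - 1 ≠ 0 := by
    intro h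
    have : z = 1 := by linear_combination h
    rw [this] at hz
    norm_num at hz
  have n2 : z + 1 ≠ 0 := by
    intro h
    have : z = -1 := by linear_combination h
    rw [this] at hz
    norm_num at hz
  have a1 : HasDerivAt (fun ζ : ℂ => (t : ℂ) / (ζ - 1)) ((0 * (z - 1) - t * 1) / (z - 1) ^ 2) z :=
    (hasDerivAt_const z (t : ℂ)).div ((hasDerivAt_id z).sub_const 1) n1
  have a2 : HasDerivAt (fun ζ : ℂ => (t : ℂ) / (ζ + 1)) ((0 * (z + 1) - t * 1) / (z + 1) ^ 2) z :=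
    (hasDerivAt_const z (t : ℂ)).div ((hasDerivAt_id z).add_const 1) n2
  obtain ⟨d1, e1⟩ := Qdzb_hol a1
  obtain ⟨d2, e2⟩ := Qdzb_hol a2
  obtain ⟨d3, e3⟩ := Qdzb_cj ε z
  have s1 := Qdzb_sub (f := b) (g := fun ζ : ℂ => (t : ℂ) / (ζ - 1) + t / (ζ + 1) - (ε : ℂ) * cj ζ)
    hb ((d1.add d2).sub d3)
  have s2 := Qdzb_sub (f := fun ζ : ℂ => (t : ℂ) / (ζ - 1) + t / (ζ + 1))
    (g := fun ζ : ℂ => (ε : ℂ) * cj ζ) (d1.add d2) d3
  have s3 := Qdzb_add (f := fun ζ : ℂ => (t : ℂ) / (ζ - 1)) (g := fun ζ : ℂ => (t : ℂ) / (ζ + 1)) d1 d2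
  rw [s1, s2, s3, e1, e2, e3]
  ring

theorem Qcd_e (t ε : ℝ) (b : ℂ → ℂ) (cb : ContDiffOn ℝ ∞ b {ζ | 8 < ‖ζ‖ ∧ ‖ζ‖ < 12}) :
    ContDiffOn ℝ ∞ (fun ζ => b ζ - (t / (ζ - 1) + t / (ζ + 1) - (ε : ℂ) * cj ζ))
      {ζ | 8 < ‖ζ‖ ∧ ‖ζ‖ < 12} := by
  have c1 : ContDiffOn ℝ ∞ (fun ζ : ℂ => (t : ℂ) / (ζ - 1)) {ζ | 8 < ‖ζ‖ ∧ ‖ζ‖ < 12} := by
    have : (fun ζ : ℂ => (t : ℂ) / (ζ - 1)) = fun ζ => (t : ℂ) * (ζ - 1)⁻¹ := by
      funext ζ; rw [div_eq_mul_inv]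
    rw [this]
    refine contDiffOn_const.mul ((contDiffOn_id.sub contDiffOn_const).inv ?_)
    intro z hz h
    have h' : z = 1 := by
      have : z - 1 = 0 := h
      linear_combination this
    have := hz.1
    rw [h'] at this
    norm_num at this
  have c2 : ContDiffOn ℝ ∞ (fun ζ : ℂ => (t : ℂ) / (ζ + 1)) {ζ | 8 < ‖ζ‖ ∧ ‖ζ‖ < 12} := by
    have : (fun ζ : ℂ => (t : ℂ) / (ζ + 1)) = fun ζ => (t : ℂ) * (ζ + 1)⁻¹ := by
      funext ζ; rw [div_eq_mul_inv]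
    rw [this]
    refine contDiffOn_const.mul ((contDiffOn_id.add contDiffOn_const).inv ?_)
    intro z hz h
    have h' : z = -1 := by
      have : z + 1 = 0 := h
      linear_combination this
    have := hz.1
    rw [h'] at this
    norm_num at this
  have c3 : ContDiffOn ℝ ∞ (fun ζ : ℂ => (ε : ℂ) * cj ζ) {ζ | 8 < ‖ζ‖ ∧ ‖ζ‖ < 12} :=
    contDiffOn_const.mul (Complex.conjCLE.toContinuousLinearMap.contDiff.contDiffOn)
  exact cb.sub ((c1.add c2).sub c3)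

theorem Qcube (a b : ℂ) (C Cb t : ℝ) (ht1 : t ≤ 1) (ht0 : 0 ≤ t) (h1 : ‖a - 1‖ ≤ C * t)
    (h2 : ‖a‖ ≤ 2) (h3 : ‖b‖ ≤ Cb * t) :
    ‖((‖a‖ ^ 2 + ‖b‖ ^ 2 : ℝ) : ℂ) * cj a - 1‖ ≤ (7 * C + 2 * Cb ^ 2) * t := by
  have e : ((‖a‖ ^ 2 + ‖b‖ ^ 2 : ℝ) : ℂ) * cj a - 1 =
      ((a - 1) * (cj a * cj a) + (cj a - 1) * (cj a + 1)) + ((‖b‖ ^ 2 : ℝ) : ℂ) * cj a := by
    push_cast
    rw [← Complex.mul_conj']
    ring
  have n1 : ‖cj a‖ = ‖a‖ := RCLike.norm_conj _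
  have n2 : ‖cj a - 1‖ = ‖a - 1‖ := by
    rw [← RCLike.norm_conj (a - 1)]
    congr 1
    simp
  have n3 : ‖cj a + 1‖ ≤ 3 := by
    refine (norm_add_le _ _).trans ?_
    rw [n1, norm_one]; linarith
  have hCt : 0 ≤ C * t := (norm_nonneg _).trans h1
  rw [e]
  have t1 : ‖(a - 1) * (cj a * cj a)‖ ≤ C * t * 4 := by
    rw [norm_mul, norm_mul, n1]
    refine mul_le_mul h1 ?_ (by positivity) hCt
    nlinarith [norm_nonneg a]
  have t2 : ‖(cj a - 1) * (cj a + 1)‖ ≤ C * t * 3 := by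
    rw [norm_mul, n2]
    exact mul_le_mul h1 n3 (norm_nonneg _) hCt
  have t3 : ‖((‖b‖ ^ 2 : ℝ) : ℂ) * cj a‖ ≤ (Cb * t) ^ 2 * 2 := by
    rw [norm_mul, n1, Complex.norm_real, Real.norm_eq_abs, abs_of_nonneg (sq_nonneg _)]
    exact mul_le_mul (pow_le_pow_left₀ (norm_nonneg _) h3 2) h2 (norm_nonneg _) (by positivity)
  have t4 : (Cb * t) ^ 2 * 2 ≤ 2 * Cb ^ 2 * t := by
    have h5 : 0 ≤ Cb ^ 2 * t := mul_nonneg (sq_nonneg _) ht0
    nlinarith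
  refine (norm_add_le _ _).trans ?_
  have := norm_add_le ((a - 1) * (cj a * cj a)) ((cj a - 1) * (cj a + 1))
  linarith

theorem QB (Cg : ℝ) (hCg : 0 < Cg) (hGE : QGE Cg) (C Cb C1 ε t : ℝ) (hC : 0 < C) (hCb : 0 < Cb)
    (hC1 : 0 ≤ C1) (hε : 0 ≤ ε) (hεt : ε ≤ t)
    (ht1 : t ≤ 1) (a b : ℂ → ℂ) (ca : ContDiffOn ℝ ∞ a {ζ | 8 < ‖ζ‖ ∧ ‖ζ‖ < 12})
    (cb : ContDiffOn ℝ ∞ b {ζ | 8 < ‖ζ‖ ∧ ‖ζ‖ < 12})
    (hQ : ∀ z : ℂ, 8 < ‖z‖ → ‖z‖ < 12 → QD ε a b z)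
    (h1 : ∀ z : ℂ, 8 < ‖z‖ → ‖z‖ < 12 → ‖a z - 1‖ ≤ C * t)
    (h2 : ∀ z : ℂ, 8 < ‖z‖ → ‖z‖ < 12 → ‖b z‖ ≤ Cb * t)
    (hQ1 : ∀ z : ℂ, 67 / 8 < ‖z‖ → ‖z‖ < 93 / 8 → Qn a z + Qn b z ≤ C1)
    (c : ℂ) (hc1 : 135 / 16 < ‖c‖) (hc2 : ‖c‖ < 185 / 16) :
    Qn a c ≤ Cg * (16 * C + 5 * Cb + C1) * t ∧ Qn b c ≤ Cg * (16 * Cb + 10 + C1) * t := by
  have ht0 : 0 ≤ t := hε.trans hεt
  have hsub : ∀ w ∈ ball c (1 / 16), 67 / 8 < ‖w‖ ∧ ‖w‖ < 93 / 8 := by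
    intro w hw
    rw [mem_ball, dist_eq_norm] at hw
    have h1 := norm_sub_norm_le c w
    have h2 := norm_sub_norm_le w c
    rw [norm_sub_rev] at h1
    exact ⟨by linarith, by linarith⟩
  have hsubV : ball c (1 / 16) ⊆ {ζ : ℂ | 8 < ‖ζ‖ ∧ ‖ζ‖ < 12} := fun w hw =>
    ⟨by linarith [(hsub w hw).1], by linarith [(hsub w hw).2]⟩
  have edz : dzb (fun z => a z - 1) = dzb a := by
    funext z
    unfold dzb
    rw [fderiv_sub_const]
  have ga := hGE (fun z => a z - 1) c (1 / 16) (C * t) (5 * ε * (Cb * t)) (7 * ε * C1) (by norm_num)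
    ((ca.mono hsubV).sub contDiffOn_const)
    (fun w hw => h1 w (hsubV hw).1 (hsubV hw).2)
    (fun w hw => by
      rw [edz]
      exact (hQ w (hsubV hw).1 (hsubV hw).2).ea.trans
        (mul_le_mul_of_nonneg_left (h2 w (hsubV hw).1 (hsubV hw).2) (by linarith)))
    (fun w hw => by
      rw [edz]
      exact (hQ w (hsubV hw).1 (hsubV hw).2).fa.trans
        (mul_le_mul_of_nonneg_left (hQ1 w (hsub w hw).1 (hsub w hw).2) (by linarith)))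
  have gb := hGE b c (1 / 16) (Cb * t) (10 * ε) (13 * ε * C1) (by norm_num)
    (cb.mono hsubV)
    (fun w hw => h2 w (hsubV hw).1 (hsubV hw).2)
    (fun w hw => (hQ w (hsubV hw).1 (hsubV hw).2).eb)
    (fun w hw => (hQ w (hsubV hw).1 (hsubV hw).2).fb.trans
        (mul_le_mul_of_nonneg_left (hQ1 w (hsub w hw).1 (hsub w hw).2) (by linarith)))
  rw [fderiv_sub_const] at ga
  have k1 : ε * (Cb * t) ≤ Cb * t := by
    have : 0 ≤ Cb * t := by positivity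
    nlinarith
  have k2 : ε * C1 ≤ t * C1 := mul_le_mul_of_nonneg_right hεt hC1
  have k3 : 0 ≤ t * C1 := mul_nonneg ht0 hC1
  constructor
  · refine ga.trans ?_
    rw [mul_assoc Cg]
    refine mul_le_mul_of_nonneg_left ?_ hCg.le
    linarith
  · refine gb.trans ?_
    rw [mul_assoc Cg]
    refine mul_le_mul_of_nonneg_left ?_ hCg.le
    linarith

/-- derivative estimates of the fields in the outer annulus -/
theorem QOUT (Cg : ℝ) (hCg : 0 < Cg)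
    (hGE : ∀ (e : ℂ → ℂ) (c : ℂ) (r A₀ A₁ A₂ : ℝ), 0 < r →
      ContDiffOn ℝ ∞ e (ball c r) → (∀ z ∈ ball c r, ‖e z‖ ≤ A₀) →
      (∀ z ∈ ball c r, ‖dzb e z‖ ≤ A₁) → (∀ z ∈ ball c r, ‖fderiv ℝ (dzb e) z‖ ≤ A₂) →
      ‖fderiv ℝ e c‖ ≤ Cg * (A₀ / r + A₁ + r * A₂))
    (C : ℝ) (hC : 0 < C) :
    ∃ C' t₀ : ℝ, 0 < C' ∧ 0 < t₀ ∧ ∀ t ∈ Ioo 0 t₀, ∀ h ∈ Icc (1 / 2 : ℝ) 2, ∀ a b : ℂ → ℂ,
      Dirac (t * h) a b {ζ | 8 < ‖ζ‖ ∧ ‖ζ‖ < 12} →
      (∀ ζ, 8 < ‖ζ‖ → ‖ζ‖ < 12 → ‖a ζ - 1‖ ≤ C * t) →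
      (∀ ζ, 8 < ‖ζ‖ → ‖ζ‖ < 12 →
        ‖b ζ - (t / (ζ - 1) + t / (ζ + 1) - (t * h / 2 : ℝ) * cj ζ)‖ ≤ C * t * Real.sqrt t) →
      ∀ ζ, 17 / 2 < ‖ζ‖ → ‖ζ‖ < 23 / 2 → ‖fderiv ℝ a ζ‖ ≤ C' * t ∧
        ‖fderiv ℝ (fun ζ => b ζ - (t / (ζ - 1) + t / (ζ + 1) - (t * h / 2 : ℝ) * cj ζ)) ζ‖ ≤
          C' * t * Real.sqrt t := by
  have hGE' : QGE Cg := hGE
  obtain ⟨Cb, hCb⟩ : ∃ Cb : ℝ, Cb = C + 13 := ⟨_, rfl⟩
  have hCb0 : 0 < Cb := by rw [hCb]; linarith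
  obtain ⟨Ka, hKa⟩ : ∃ Ka : ℝ, Ka = Cg * (16 * C + 5 * Cb + 112 * Cg) := ⟨_, rfl⟩
  obtain ⟨Kb, hKb⟩ : ∃ Kb : ℝ, Kb = Cg * (16 * Cb + 10 + 112 * Cg) := ⟨_, rfl⟩
  have hKa0 : 0 < Ka := by rw [hKa]; positivity
  have hKb0 : 0 < Kb := by rw [hKb]; positivity
  refine ⟨Ka + Cg * (16 * C + (7 * C + 2 * Cb ^ 2) + (Ka + Kb)), min 1 (min (1 / (40 * Cg)) (1 / Cb)),
    by positivity, lt_min one_pos (lt_min (by positivity) (by positivity)), ?_⟩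
  intro t ht h hh a b hD hA hB
  obtain ⟨ht0, ht1⟩ := ht
  have ht1' : t ≤ 1 := (ht1.trans_le (min_le_left _ _)).le
  have ht2 : t ≤ 1 / (40 * Cg) := (ht1.trans_le ((min_le_right _ _).trans (min_le_left _ _))).le
  have ht3 : t ≤ 1 / Cb := (ht1.trans_le ((min_le_right _ _).trans (min_le_right _ _))).le
  obtain ⟨hh1, hh2⟩ := hh
  have hh0 : 0 < h := by linarith
  obtain ⟨ε, hε⟩ : ∃ ε : ℝ, ε = t * h / 2 := ⟨_, rfl⟩
  have hε0 : 0 ≤ ε := by rw [hε]; positivity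
  have hεt : ε ≤ t := by rw [hε]; nlinarith
  have hCbt : Cb * t ≤ 1 := by
    rw [le_div_iff₀ hCb0] at ht3; linarith
  have hCt : C * t ≤ 1 := by
    refine le_trans ?_ hCbt
    rw [hCb]; nlinarith
  have hCgt : 20 * Cg * ε ≤ 1 / 2 := by
    rw [le_div_iff₀ (by positivity)] at ht2
    have : Cg * ε ≤ Cg * t := mul_le_mul_of_nonneg_left hεt hCg.le
    linarith
  have hs0 : 0 ≤ Real.sqrt t := Real.sqrt_nonneg t
  have hs1 : Real.sqrt t ≤ 1 := by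
    rw [Real.sqrt_le_one]; exact ht1'
  have hss : Real.sqrt t * Real.sqrt t = t := Real.mul_self_sqrt ht0.le
  have hts : t ≤ Real.sqrt t := by nlinarith
  have na : ∀ ζ : ℂ, 8 < ‖ζ‖ → ‖ζ‖ < 12 → ‖a ζ‖ ≤ 2 := by
    intro ζ h1 h2
    have h3 := hA ζ h1 h2
    have : a ζ = (a ζ - 1) + 1 := by ring
    rw [this]
    refine (norm_add_le _ _).trans ?_
    rw [norm_one]; linarith
  have nbt : ∀ ζ : ℂ, 8 < ‖ζ‖ → ‖ζ‖ < 12 → ‖b ζ‖ ≤ Cb * t := by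
    intro ζ h1 h2
    have h3 := hB ζ h1 h2
    have e : b ζ = (b ζ - (t / (ζ - 1) + t / (ζ + 1) - (t * h / 2 : ℝ) * cj ζ)) +
        (t / (ζ - 1) + t / (ζ + 1) - (t * h / 2 : ℝ) * cj ζ) := by ring
    have l1 : 7 ≤ ‖ζ - 1‖ := by
      have := norm_sub_norm_le ζ 1
      rw [norm_one] at this; linarith
    have l2 : 7 ≤ ‖ζ + 1‖ := by
      have := norm_sub_norm_le ζ (-1)
      rw [norm_neg, norm_one, sub_neg_eq_add] at this; linarith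
    have m1 : ‖(t : ℂ) / (ζ - 1)‖ ≤ t / 7 := by
      rw [norm_div, Complex.norm_real, Real.norm_eq_abs, abs_of_pos ht0]
      exact div_le_div_of_nonneg_left ht0.le (by norm_num) l1
    have m2 : ‖(t : ℂ) / (ζ + 1)‖ ≤ t / 7 := by
      rw [norm_div, Complex.norm_real, Real.norm_eq_abs, abs_of_pos ht0]
      exact div_le_div_of_nonneg_left ht0.le (by norm_num) l2
    have m3 : ‖((t * h / 2 : ℝ) : ℂ) * cj ζ‖ ≤ t * 12 := by
      rw [norm_mul, Complex.norm_real, Real.norm_eq_abs, ← hε, abs_of_nonneg hε0,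
        show ‖cj ζ‖ = ‖ζ‖ from RCLike.norm_conj _]
      exact mul_le_mul hεt h2.le (norm_nonneg _) ht0.le
    rw [e]
    refine (norm_add_le _ _).trans ?_
    have m4 := norm_sub_le ((t : ℂ) / (ζ - 1) + t / (ζ + 1)) (((t * h / 2 : ℝ) : ℂ) * cj ζ)
    have m5 := norm_add_le ((t : ℂ) / (ζ - 1)) (t / (ζ + 1))
    have m6 : C * t * Real.sqrt t ≤ C * t := by
      have : 0 ≤ C * t := by positivity
      nlinarith
    rw [hCb]
    linarith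
  have nb : ∀ ζ : ℂ, 8 < ‖ζ‖ → ‖ζ‖ < 12 → ‖b ζ‖ ≤ 1 := fun ζ h1 h2 => (nbt ζ h1 h2).trans hCbt
  have hQ : ∀ z : ℂ, 8 < ‖z‖ → ‖z‖ < 12 → QD ε a b z := by
    intro z h1 h2
    rw [hε]
    exact QD_of t h ht0 hh0 a b hD na nb z h1 h2
  obtain ⟨ca, cb, Da, Db⟩ := hD
  have hQ1 := QA Cg hCg hGE' ε hε0 (hεt.trans ht1') hCgt a b ca cb hQ
  have hQ2 := QB Cg hCg hGE' C Cb (112 * Cg) ε t hC hCb0 (by positivity) hε0 hεt ht1' a b ca cb hQ
    hA nbt hQ1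
  intro c hc1 hc2
  constructor
  · have h1 := (hQ2 c (by linarith) (by linarith)).1
    rw [← hKa] at h1
    refine h1.trans ?_
    refine mul_le_mul_of_nonneg_right ?_ ht0.le
    have : 0 ≤ Cg * (16 * C + (7 * C + 2 * Cb ^ 2) + (Ka + Kb)) := by positivity
    linarith
  · have hsub : ∀ w ∈ ball c (1 / 16), 135 / 16 < ‖w‖ ∧ ‖w‖ < 185 / 16 := by
      intro w hw
      rw [mem_ball, dist_eq_norm] at hw
      have h1 := norm_sub_norm_le c w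
      have h2 := norm_sub_norm_le w c
      rw [norm_sub_rev] at h1
      exact ⟨by linarith, by linarith⟩
    have hsubV : ball c (1 / 16) ⊆ {ζ : ℂ | 8 < ‖ζ‖ ∧ ‖ζ‖ < 12} := fun w hw =>
      ⟨by linarith [(hsub w hw).1], by linarith [(hsub w hw).2]⟩
    have g := hGE (fun ζ => b ζ - (t / (ζ - 1) + t / (ζ + 1) - (t * h / 2 : ℝ) * cj ζ)) c (1 / 16)
      (C * t * Real.sqrt t) (ε * ((7 * C + 2 * Cb ^ 2) * t)) (13 * ε * ((Ka + Kb) * t))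
      (by norm_num) ((Qcd_e t (t * h / 2) b cb).mono hsubV)
      (fun w hw => hB w (hsubV hw).1 (hsubV hw).2)
      (fun w hw => by
        rw [Qdzb_e t (t * h / 2) b w (hsubV hw).1 (hQ w (hsubV hw).1 (hsubV hw).2).db,
          Db w (hsubV hw)]
        have e : -(((t * h / 2 * (‖a w‖ ^ 2 + ‖b w‖ ^ 2) : ℝ) : ℂ) * cj (a w)) +
            ((t * h / 2 : ℝ) : ℂ) =
            ((-(t * h / 2) : ℝ) : ℂ) * (((‖a w‖ ^ 2 + ‖b w‖ ^ 2 : ℝ) : ℂ) * cj (a w) - 1) := by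
          push_cast
          ring
        rw [e, norm_mul, Complex.norm_real, Real.norm_eq_abs, abs_neg, ← hε, abs_of_nonneg hε0]
        exact mul_le_mul_of_nonneg_left (Qcube (a w) (b w) C Cb t ht1' ht0.le
          (hA w (hsubV hw).1 (hsubV hw).2) (na w (hsubV hw).1 (hsubV hw).2)
          (nbt w (hsubV hw).1 (hsubV hw).2)) hε0)
      (fun w hw => by
        have ev : dzb (fun ζ => b ζ - (t / (ζ - 1) + t / (ζ + 1) - (t * h / 2 : ℝ) * cj ζ)) =ᶠ[nhds w]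
            fun ζ => dzb b ζ + ((t * h / 2 : ℝ) : ℂ) := by
          filter_upwards [QV_open.mem_nhds (hsubV hw)] with ζ hζ
          exact Qdzb_e t (t * h / 2) b ζ hζ.1 (hQ ζ hζ.1 hζ.2).db
        rw [ev.fderiv_eq, fderiv_add_const]
        refine (hQ w (hsubV hw).1 (hsubV hw).2).fb.trans ?_
        refine mul_le_mul_of_nonneg_left ?_ (by linarith)
        obtain ⟨k1, k2⟩ := hQ2 w (hsub w hw).1 (hsub w hw).2
        rw [← hKa] at k1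
        rw [← hKb] at k2
        linarith)
    refine g.trans ?_
    have q1 : ε * ((7 * C + 2 * Cb ^ 2) * t) ≤ (7 * C + 2 * Cb ^ 2) * (t * Real.sqrt t) := by
      have p : 0 ≤ 7 * C + 2 * Cb ^ 2 := by positivity
      have : ε * t ≤ t * Real.sqrt t := by
        have := mul_le_mul_of_nonneg_right (hεt.trans hts) ht0.le
        linarith
      have := mul_le_mul_of_nonneg_left this p
      linarith
    have q2 : 1 / 16 * (13 * ε * ((Ka + Kb) * t)) ≤ (Ka + Kb) * (t * Real.sqrt t) := by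
      have p : 0 ≤ Ka + Kb := by positivity
      have p2 : ε * t ≤ t * Real.sqrt t := by
        have := mul_le_mul_of_nonneg_right (hεt.trans hts) ht0.le
        linarith
      have p3 := mul_le_mul_of_nonneg_left p2 p
      have p4 : 0 ≤ (Ka + Kb) * (ε * t) := by positivity
      linarith
    have q3 : 0 ≤ Ka * (t * Real.sqrt t) := by positivity
    have q4 : C * t * Real.sqrt t / (1 / 16) + ε * ((7 * C + 2 * Cb ^ 2) * t) +
        1 / 16 * (13 * ε * ((Ka + Kb) * t)) ≤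
        (16 * C + (7 * C + 2 * Cb ^ 2) + (Ka + Kb)) * (t * Real.sqrt t) := by
      have : C * t * Real.sqrt t / (1 / 16) = 16 * C * (t * Real.sqrt t) := by ring
      rw [this]
      linarith
    have q5 := mul_le_mul_of_nonneg_left q4 hCg.le
    linarith


end Pool.Agent.Helper676.TL
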