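import Mathlib
import Pool.Agent.Helper676.TL.Defs
import Pool.Agent.Helper676.TL.Base
import Pool.Agent.Helper676.TL.DWD

set_option autoImplicit false

namespace Pool.Agent.Helper676.TL

open Set Metric
open scoped ContDiff



section DWiener

/-- polynomials in `z` and `conj z` -/
abbrev DwG : Type := AddMonoidAlgebra ℂ (ℕ × ℕ)

/-- the norm -/
noncomputable def dwN (P : DwG) : ℝ := ∑ n ∈ P.coeff.support, ‖P.coeff n‖

lemma dwN_eq_of_subset (P : DwG) (t : Finset (ℕ × ℕ)) (h : P.coeff.support ⊆ t) :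
    dwN P = ∑ n ∈ t, ‖P.coeff n‖ := by
  unfold dwN
  apply Finset.sum_subset h
  intro n _ hn
  rw [Finsupp.notMem_support_iff] at hn
  rw [hn]; simp

lemma dwN_zero : dwN 0 = 0 := by
  unfold dwN; simp

lemma dwN_add (P Q : DwG) : dwN (P + Q) ≤ dwN P + dwN Q := by
  classical
  rw [dwN_eq_of_subset (P + Q) (P.coeff.support ∪ Q.coeff.support)
      (by rw [AddMonoidAlgebra.coeff_add]; exact Finsupp.support_add),
    dwN_eq_of_subset P _ Finset.subset_union_left,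
    dwN_eq_of_subset Q _ Finset.subset_union_right, ← Finset.sum_add_distrib]
  apply Finset.sum_le_sum
  intro n _
  rw [AddMonoidAlgebra.coeff_add, Finsupp.add_apply]
  exact norm_add_le _ _

lemma dwN_smul (c : ℂ) (P : DwG) : dwN (c • P) = ‖c‖ * dwN P := by
  rw [dwN_eq_of_subset (c • P) P.coeff.support
      (by rw [AddMonoidAlgebra.coeff_smul]; exact Finsupp.support_smul), dwN, Finset.mul_sum]
  apply Finset.sum_congr rfl
  intro n _
  rw [AddMonoidAlgebra.coeff_smul, Finsupp.smul_apply, smul_eq_mul, norm_mul]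

lemma dwN_single (n : ℕ × ℕ) (c : ℂ) :
    dwN (AddMonoidAlgebra.single n c) = ‖c‖ := by
  rw [dwN_eq_of_subset (AddMonoidAlgebra.single n c) {n}
    (by rw [AddMonoidAlgebra.coeff_single]; exact Finsupp.support_single_subset)]
  rw [Finset.sum_singleton, AddMonoidAlgebra.coeff_single, Finsupp.single_eq_same]

lemma dwN_sum {ι : Type} (t : Finset ι) (g : ι → DwG) :
    dwN (∑ i ∈ t, g i) ≤ ∑ i ∈ t, dwN (g i) := by
  classical
  induction t using Finset.induction_on with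
  | empty => simp [dwN_zero]
  | insert a t ha ih =>
    rw [Finset.sum_insert ha, Finset.sum_insert ha]
    exact (dwN_add _ _).trans (by linarith)

lemma dw_eq_sum_single (P : DwG) :
    P = ∑ n ∈ P.coeff.support, AddMonoidAlgebra.single n (P.coeff n) := by
  conv_lhs => rw [← AddMonoidAlgebra.sum_coeff_single P]
  rfl

lemma dwN_mul (P Q : DwG) : dwN (P * Q) ≤ dwN P * dwN Q := by
  classical
  have e : P * Q = ∑ m ∈ P.coeff.support, ∑ n ∈ Q.coeff.support,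
      AddMonoidAlgebra.single (m + n) (P.coeff m * Q.coeff n) := by
    conv_lhs => rw [dw_eq_sum_single P, dw_eq_sum_single Q]
    rw [Finset.sum_mul_sum]
    simp only [AddMonoidAlgebra.single_mul_single]
  rw [e]
  refine (dwN_sum _ _).trans ?_
  unfold dwN
  rw [Finset.sum_mul_sum]
  apply Finset.sum_le_sum
  intro m _
  refine (dwN_sum _ _).trans ?_
  apply Finset.sum_le_sum
  intro n _
  rw [dwN_single, norm_mul]

lemma dwN_neg (P : DwG) : dwN (-P) = dwN P := by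
  have := dwN_smul (-1) P
  simpa using this

/-- type synonym carrying the norm -/
def DwTy : Type := DwG

noncomputable instance : CommRing DwTy := inferInstanceAs (CommRing DwG)

noncomputable instance : Algebra ℂ DwTy := inferInstanceAs (Algebra ℂ DwG)

/-- the group seminorm -/
noncomputable def dwGS : AddGroupSeminorm DwTy where
  toFun := dwN
  map_zero' := dwN_zero
  add_le' := dwN_add
  neg' := dwN_neg

noncomputable instance : SeminormedAddCommGroup DwTy :=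
  AddGroupSeminorm.toSeminormedAddCommGroup dwGS

noncomputable instance : SeminormedCommRing DwTy :=
  { (inferInstance : SeminormedAddCommGroup DwTy), (inferInstance : CommRing DwTy) with
    norm_mul_le := dwN_mul }

noncomputable instance : NormedAlgebra ℂ DwTy :=
  { (inferInstance : Algebra ℂ DwTy) with
    norm_smul_le := fun c P => (dwN_smul c P).le }

/-- abstract description of the Wiener algebra -/
structure DwB (B : Type) [NormedCommRing B] [NormedAlgebra ℂ B] where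
  τ : ℕ × ℕ → B
  τ_zero : τ 0 = 1
  τ_add : ∀ m n, τ (m + n) = τ m * τ n
  τ_norm : ∀ n, ‖τ n‖ ≤ 1
  ind : ∀ p : B → Prop, IsClosed {x | p x} → (∀ x y, p x → p y → p (x + y)) →
    (∀ (c : ℂ) n, p (c • τ n)) → ∀ x, p x
  exists_ext : ∀ (φ : ℂ →+* ℂ) (F : Type) [NormedAddCommGroup F] [NormedSpace ℂ F]
    [CompleteSpace F] (v : ℕ × ℕ → F) (C : ℝ), (∀ c, ‖φ c‖ = ‖c‖) →
    (∀ n, ‖v n‖ ≤ C) → ∃ U : B →SL[φ] F, (∀ n, U (τ n) = v n) ∧ ∀ x, ‖U x‖ ≤ C * ‖x‖

/-- the semilinear map with given values on the monomials -/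
noncomputable def dwMap (φ : ℂ →+* ℂ) {F : Type} [AddCommGroup F] [Module ℂ F] (v : ℕ × ℕ → F) :
    DwG →ₛₗ[φ] F where
  toFun P := P.coeff.sum fun n a => φ a • v n
  map_add' P Q := by
    rw [AddMonoidAlgebra.coeff_add]
    refine Finsupp.sum_add_index' (fun n => ?_) (fun n a b => ?_)
    · rw [map_zero, zero_smul]
    · rw [map_add, add_smul]
  map_smul' c P := by
    rw [AddMonoidAlgebra.coeff_smul]
    refine (Finsupp.sum_smul_index' (fun n => ?_)).trans ?_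
    · rw [map_zero, zero_smul]
    · rw [Finsupp.smul_sum]
      refine Finset.sum_congr rfl fun n _ => ?_
      simp only [smul_eq_mul, map_mul, mul_smul]

lemma dwMap_single (φ : ℂ →+* ℂ) {F : Type} [AddCommGroup F] [Module ℂ F] (v : ℕ × ℕ → F)
    (n : ℕ × ℕ) (a : ℂ) : dwMap φ v (AddMonoidAlgebra.single n a) = φ a • v n := by
  change ((AddMonoidAlgebra.single n a : DwG).coeff.sum fun n a => φ a • v n) = _
  rw [AddMonoidAlgebra.coeff_single]
  refine Finsupp.sum_single_index ?_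
  rw [map_zero, zero_smul]

lemma dwMap_bound (φ : ℂ →+* ℂ) {F : Type} [NormedAddCommGroup F] [NormedSpace ℂ F]
    (v : ℕ × ℕ → F) (C : ℝ) (hφ : ∀ c, ‖φ c‖ = ‖c‖) (hv : ∀ n, ‖v n‖ ≤ C) (P : DwG) :
    ‖dwMap φ v P‖ ≤ C * dwN P := by
  change ‖∑ n ∈ P.coeff.support, φ (P.coeff n) • v n‖ ≤ _
  refine (norm_sum_le _ _).trans ?_
  unfold dwN
  rw [Finset.mul_sum]
  refine Finset.sum_le_sum fun n _ => ?_
  rw [norm_smul, hφ]
  have := mul_le_mul_of_nonneg_left (hv n) (norm_nonneg (P.coeff n))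
  linarith

theorem exists_DwB : ∃ (B : Type) (_ : NormedCommRing B) (_ : NormedAlgebra ℂ B)
    (_ : CompleteSpace B), Nonempty (DwB B) := by
  classical
  let B := UniformSpace.Completion DwTy
  let ι : DwG →ₐ[ℂ] B :=
    { (UniformSpace.Completion.coeRingHom : DwTy →+* B) with
      commutes' := fun c => rfl }
  have hdense : DenseRange ι := UniformSpace.Completion.denseRange_coe (α := DwTy)
  have hnorm : ∀ P : DwG, ‖ι P‖ = dwN P := fun P =>
    UniformSpace.Completion.norm_coe (E := DwTy) P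
  refine ⟨B, inferInstance, inferInstance, inferInstance, ⟨{
    τ := fun n => ι (AddMonoidAlgebra.single n 1)
    τ_zero := ?_
    τ_add := ?_
    τ_norm := ?_
    ind := ?_
    exists_ext := ?_ }⟩⟩
  · exact map_one ι
  · intro m n
    rw [← map_mul, AddMonoidAlgebra.single_mul_single, one_mul]
  · intro n
    rw [hnorm, dwN_single]
    simp
  · intro p hc hadd hs
    refine isClosed_property hdense hc ?_
    intro P
    induction P using AddMonoidAlgebra.induction_linear with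
    | zero =>
      have := hs 0 0
      rw [zero_smul] at this
      rwa [map_zero]
    | add f g hf hg =>
      rw [map_add]
      exact hadd _ _ hf hg
    | single n a =>
      have h1 : (AddMonoidAlgebra.single n a : DwG) = a • AddMonoidAlgebra.single n (1 : ℂ) := by
        rw [AddMonoidAlgebra.smul_single, smul_eq_mul, mul_one]
      rw [h1, map_smul]
      exact hs a n
  · intro φ F _ _ _ v C hφ hv
    have h1 : ∀ P : DwG, ((dwMap φ v).extendOfNorm ι.toLinearMap) (ι P) = dwMap φ v P := fun P =>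
      LinearMap.extendOfNorm_eq (f := dwMap φ v) (e := ι.toLinearMap) hdense
      ⟨C, fun P => by
        have h2 : ‖ι.toLinearMap P‖ = dwN P := hnorm P
        rw [h2]
        exact dwMap_bound φ v C hφ hv P⟩ P
    refine ⟨(dwMap φ v).extendOfNorm ι.toLinearMap, fun n => ?_, ?_⟩
    · rw [h1, dwMap_single, map_one, one_smul]
    · refine isClosed_property hdense (isClosed_le (by fun_prop) (by fun_prop)) ?_
      intro P
      rw [h1, hnorm]
      exact dwMap_bound φ v C hφ hv P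

variable {B : Type} [NormedCommRing B] [NormedAlgebra ℂ B]

lemma DwB.ind_eq (W : DwB B) {F : Type} [TopologicalSpace F] [T2Space F] [Add F] (f g : B → F)
    (hf : Continuous f) (hg : Continuous g) (haf : ∀ x y, f (x + y) = f x + f y)
    (hag : ∀ x y, g (x + y) = g x + g y)
    (h : ∀ (c : ℂ) n, f (c • W.τ n) = g (c • W.τ n)) : ∀ x, f x = g x := by
  refine W.ind (fun x => f x = g x) (isClosed_eq hf hg) ?_ h
  intro x y hx hy
  rw [haf, hag, hx, hy]

lemma DwB.mul_of (W : DwB B) (U : B →L[ℂ] ℂ) (e : ℕ × ℕ → ℂ) (he : ∀ n, U (W.τ n) = e n)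
    (hadd : ∀ m n, e (m + n) = e m * e n) : ∀ x y, U (x * y) = U x * U y := by
  intro x y
  refine W.ind_eq (fun x => U (x * y)) (fun x => U x * U y) (by fun_prop) (by fun_prop)
    (fun a b => by rw [add_mul, map_add]) (fun a b => by rw [map_add, add_mul]) ?_ x
  intro c m
  refine W.ind_eq (fun y => U (c • W.τ m * y)) (fun y => U (c • W.τ m) * U y) (by fun_prop)
    (by fun_prop) (fun a b => by rw [mul_add, map_add]) (fun a b => by rw [map_add, mul_add]) ?_ y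
  intro d n
  simp only [smul_mul_smul_comm, ← W.τ_add, map_smul, he, hadd, smul_eq_mul]
  ring

/-- evaluations -/
theorem DwB.exists_ev (W : DwB B) : ∃ (ev : ℂ → B →ₐ[ℂ] ℂ),
    (∀ z, ‖z‖ ≤ 1 → ∀ n, ev z (W.τ n) = z ^ n.1 * cj z ^ n.2) ∧
    (∀ z x, ‖ev z x‖ ≤ ‖x‖) ∧ ∀ z, Continuous (ev z) := by
  classical
  have key : ∀ z : ℂ, ∃ ev : B →ₐ[ℂ] ℂ, (‖z‖ ≤ 1 → ∀ n, ev (W.τ n) = z ^ n.1 * cj z ^ n.2) ∧
      (∀ x, ‖ev x‖ ≤ ‖x‖) ∧ Continuous ev := by
    intro z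
    obtain ⟨r, hr, hrz⟩ : ∃ r : ℂ, ‖r‖ ≤ 1 ∧ (‖z‖ ≤ 1 → r = z) := by
      by_cases h : ‖z‖ ≤ 1
      · exact ⟨z, h, fun _ => rfl⟩
      · exact ⟨0, by simp, fun h' => absurd h' h⟩
    obtain ⟨U, hU, hUb⟩ := W.exists_ext (RingHom.id ℂ) ℂ (fun n => r ^ n.1 * cj r ^ n.2) 1
      (fun c => rfl) (fun n => by
        rw [norm_mul, norm_pow, norm_pow, Complex.norm_conj]
        exact mul_le_one₀ (pow_le_one₀ (norm_nonneg _) hr) (by positivity)
          (pow_le_one₀ (norm_nonneg _) hr))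
    have h1 : U 1 = 1 := by
      rw [← W.τ_zero, hU]
      simp
    have hmul := W.mul_of U _ hU (fun m n => by
      rw [Prod.fst_add, Prod.snd_add, pow_add, pow_add]
      ring)
    refine ⟨AlgHom.ofLinearMap U.toLinearMap h1 hmul, ?_, ?_, ?_⟩
    · intro h n
      rw [← hrz h]
      exact hU n
    · intro x
      have := hUb x
      rw [one_mul] at this
      exact this
    · exact U.continuous
  choose ev h1 h2 h3 using key
  exact ⟨ev, h1, h2, h3⟩

end DWiener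

section DWiener2

variable {B : Type} [NormedCommRing B] [NormedAlgebra ℂ B]

/-- the real linear map `h ↦ a h + b conj h` -/
noncomputable def dwL (a b : ℂ) : ℂ →L[ℝ] ℂ :=
  a • (1 : ℂ →L[ℝ] ℂ) + b • (Complex.conjCLE : ℂ →L[ℝ] ℂ)

lemma dwL_apply (a b h : ℂ) : dwL a b h = a * h + b * cj h := rfl

lemma dwL_add (a b c d : ℂ) : dwL (a + c) (b + d) = dwL a b + dwL c d := by
  ext h
  simp only [dwL_apply, add_apply]
  ring

lemma dwL_sub (a b c d : ℂ) : dwL (a - c) (b - d) = dwL a b - dwL c d := by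
  ext h
  simp only [dwL_apply, sub_apply]
  ring

lemma dwL_norm (a b : ℂ) : ‖dwL a b‖ ≤ ‖a‖ + ‖b‖ := by
  refine ContinuousLinearMap.opNorm_le_bound _ (by positivity) fun h => ?_
  rw [dwL_apply]
  refine (norm_add_le _ _).trans ?_
  rw [norm_mul, norm_mul, Complex.norm_conj]
  linarith

lemma dw_mono_deriv (m n : ℕ) (z : ℂ) : HasFDerivAt (𝕜 := ℝ) (fun z : ℂ => z ^ m * cj z ^ n)
    (dwL (m * z ^ (m - 1) * cj z ^ n) (n * cj z ^ (n - 1) * z ^ m)) z := by
  have h1 : HasFDerivAt (𝕜 := ℝ) (fun z : ℂ => z ^ m) (((m : ℂ) * z ^ (m - 1)) • (1 : ℂ →L[ℝ] ℂ)) z :=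
    (hasDerivAt_pow m z).complexToReal_fderiv
  have h2 : HasFDerivAt (𝕜 := ℝ) (fun z : ℂ => z ^ n) (((n : ℂ) * (cj z) ^ (n - 1)) •
      (1 : ℂ →L[ℝ] ℂ)) (Complex.conjCLE z) :=
    (hasDerivAt_pow n (cj z)).complexToReal_fderiv
  have h3 := h2.comp z (Complex.conjCLE.hasFDerivAt (x := z))
  have h4 := h1.mul h3
  refine h4.congr_fderiv ?_
  ext h
  simp [dwL_apply]
  ring

lemma dw_calc1 {ρ : ℝ} (hρ : 0 < ρ) (m n : ℕ) (z w : ℂ) :
    (ρ : ℂ)⁻¹ * (((m : ℂ) * (ρ : ℂ) ^ (m + n)) * ((z / ρ) ^ (m - 1) * (w / ρ) ^ n)) =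
      m * z ^ (m - 1) * w ^ n := by
  have hρ' : (ρ : ℂ) ≠ 0 := by exact_mod_cast hρ.ne'
  cases m with
  | zero => simp
  | succ m =>
    rw [Nat.add_sub_cancel, div_pow, div_pow, pow_add, pow_succ]
    field_simp

/-- the derivative operators -/
theorem DwB.exists_D (W : DwB B) [CompleteSpace B] {ρ : ℝ} (h0 : 0 < ρ) (h1 : ρ < 1) :
    ∃ D₁ D₂ : B →L[ℂ] B,
      (∀ n : ℕ × ℕ, D₁ (W.τ n) = ((n.1 : ℂ) * (ρ : ℂ) ^ (n.1 + n.2)) • W.τ (n.1 - 1, n.2)) ∧
      (∀ n : ℕ × ℕ, D₂ (W.τ n) = ((n.2 : ℂ) * (ρ : ℂ) ^ (n.1 + n.2)) • W.τ (n.1, n.2 - 1)) := by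
  obtain ⟨C, hC⟩ := (tendsto_self_mul_const_pow_of_abs_lt_one
    (by rw [abs_of_pos h0]; exact h1 : |ρ| < 1)).bddAbove_range
  have hC' : ∀ n : ℕ, (n : ℝ) * ρ ^ n ≤ C := fun n => hC ⟨n, rfl⟩
  obtain ⟨D₁, hD₁, -⟩ := W.exists_ext (RingHom.id ℂ) B
    (fun n : ℕ × ℕ => ((n.1 : ℂ) * (ρ : ℂ) ^ (n.1 + n.2)) • W.τ (n.1 - 1, n.2)) C (fun c => rfl)
    (fun n => by
      refine (norm_smul_le _ _).trans ?_
      have h2 := W.τ_norm (n.1 - 1, n.2)
      have h3 : ‖(n.1 : ℂ) * (ρ : ℂ) ^ (n.1 + n.2)‖ = (n.1 : ℝ) * ρ ^ (n.1 + n.2) := by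
        rw [norm_mul, norm_pow, Complex.norm_natCast, Complex.norm_real, Real.norm_eq_abs,
          abs_of_pos h0]
      rw [h3]
      have h4 : ρ ^ (n.1 + n.2) ≤ ρ ^ n.1 := pow_le_pow_of_le_one h0.le h1.le (Nat.le_add_right _ _)
      have h5 : (n.1 : ℝ) * ρ ^ (n.1 + n.2) ≤ n.1 * ρ ^ n.1 :=
        mul_le_mul_of_nonneg_left h4 (Nat.cast_nonneg _)
      have h6 : (n.1 : ℝ) * ρ ^ (n.1 + n.2) * ‖W.τ (n.1 - 1, n.2)‖ ≤
          (n.1 : ℝ) * ρ ^ (n.1 + n.2) * 1 := mul_le_mul_of_nonneg_left h2 (by positivity)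
      linarith [hC' n.1])
  obtain ⟨D₂, hD₂, -⟩ := W.exists_ext (RingHom.id ℂ) B
    (fun n : ℕ × ℕ => ((n.2 : ℂ) * (ρ : ℂ) ^ (n.1 + n.2)) • W.τ (n.1, n.2 - 1)) C (fun c => rfl)
    (fun n => by
      refine (norm_smul_le _ _).trans ?_
      have h2 := W.τ_norm (n.1, n.2 - 1)
      have h3 : ‖(n.2 : ℂ) * (ρ : ℂ) ^ (n.1 + n.2)‖ = (n.2 : ℝ) * ρ ^ (n.1 + n.2) := by
        rw [norm_mul, norm_pow, Complex.norm_natCast, Complex.norm_real, Real.norm_eq_abs,
          abs_of_pos h0]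
      rw [h3]
      have h4 : ρ ^ (n.1 + n.2) ≤ ρ ^ n.2 := pow_le_pow_of_le_one h0.le h1.le (Nat.le_add_left _ _)
      have h5 : (n.2 : ℝ) * ρ ^ (n.1 + n.2) ≤ n.2 * ρ ^ n.2 :=
        mul_le_mul_of_nonneg_left h4 (Nat.cast_nonneg _)
      have h6 : (n.2 : ℝ) * ρ ^ (n.1 + n.2) * ‖W.τ (n.1, n.2 - 1)‖ ≤
          (n.2 : ℝ) * ρ ^ (n.1 + n.2) * 1 := mul_le_mul_of_nonneg_left h2 (by positivity)
      linarith [hC' n.2])
  exact ⟨D₁, D₂, hD₁, hD₂⟩

lemma dw_div_le {ρ : ℝ} (h0 : 0 < ρ) {z : ℂ} (hz : ‖z‖ < ρ) : ‖z / ρ‖ < 1 := by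
  rw [norm_div, Complex.norm_real, Real.norm_eq_abs, abs_of_pos h0, div_lt_one h0]
  exact hz

theorem DwB.hasFDerivAt (W : DwB B) (ev : ℂ → B →ₐ[ℂ] ℂ)
    (hev : ∀ z, ‖z‖ ≤ 1 → ∀ n, ev z (W.τ n) = z ^ n.1 * cj z ^ n.2)
    (hb : ∀ z x, ‖ev z x‖ ≤ ‖x‖) (hc : ∀ z, Continuous (ev z)) {ρ : ℝ} (h0 : 0 < ρ) (h1 : ρ < 1)
    (D₁ D₂ : B →L[ℂ] B)
    (hD₁ : ∀ n : ℕ × ℕ, D₁ (W.τ n) = ((n.1 : ℂ) * (ρ : ℂ) ^ (n.1 + n.2)) • W.τ (n.1 - 1, n.2))
    (hD₂ : ∀ n : ℕ × ℕ, D₂ (W.τ n) = ((n.2 : ℂ) * (ρ : ℂ) ^ (n.1 + n.2)) • W.τ (n.1, n.2 - 1)) :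
    ∀ x, ∀ z ∈ ball (0 : ℂ) ρ, HasFDerivAt (𝕜 := ℝ) (fun z => ev z x)
      (dwL ((ρ : ℂ)⁻¹ * ev (z / ρ) (D₁ x)) ((ρ : ℂ)⁻¹ * ev (z / ρ) (D₂ x))) z := by
  refine W.ind (fun x => ∀ z ∈ ball (0 : ℂ) ρ, HasFDerivAt (𝕜 := ℝ) (fun z => ev z x)
      (dwL ((ρ : ℂ)⁻¹ * ev (z / ρ) (D₁ x)) ((ρ : ℂ)⁻¹ * ev (z / ρ) (D₂ x))) z) ?_ ?_ ?_
  · apply IsSeqClosed.isClosed
    intro u x hu hux z hz
    refine hasFDerivAt_of_tendstoUniformlyOn (l := Filter.atTop) (s := ball (0 : ℂ) ρ)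
      (f := fun n z => ev z (u n)) (g := fun z => ev z x)
      (f' := fun n z => dwL ((ρ : ℂ)⁻¹ * ev (z / ρ) (D₁ (u n))) ((ρ : ℂ)⁻¹ * ev (z / ρ) (D₂ (u n))))
      (g' := fun z => dwL ((ρ : ℂ)⁻¹ * ev (z / ρ) (D₁ x)) ((ρ : ℂ)⁻¹ * ev (z / ρ) (D₂ x)))
      isOpen_ball ?_ (fun n z hz => hu n z hz) (fun z _ => ((hc z).tendsto x).comp hux) hz
    rw [Metric.tendstoUniformlyOn_iff]
    intro ε hε
    have hlim : Filter.Tendsto (fun n => ρ⁻¹ * (‖D₁‖ + ‖D₂‖) * ‖x - u n‖) Filter.atTop (nhds 0) := by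
      have h2 : Filter.Tendsto (fun n => ‖x - u n‖) Filter.atTop (nhds 0) := by
        have := (tendsto_const_nhds (x := x)).sub hux
        rw [sub_self] at this
        simpa using this.norm
      have := h2.const_mul (ρ⁻¹ * (‖D₁‖ + ‖D₂‖))
      rwa [mul_zero] at this
    filter_upwards [hlim.eventually (gt_mem_nhds hε)] with n hn w _
    refine lt_of_le_of_lt ?_ hn
    rw [dist_eq_norm, ← dwL_sub]
    refine (dwL_norm _ _).trans ?_
    rw [← mul_sub, ← mul_sub, ← map_sub, ← map_sub, ← map_sub, ← map_sub, norm_mul, norm_mul,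
      norm_inv, Complex.norm_real, Real.norm_eq_abs, abs_of_pos h0]
    have h3 := (hb (w / ρ) (D₁ (x - u n))).trans (D₁.le_opNorm (x - u n))
    have h4 := (hb (w / ρ) (D₂ (x - u n))).trans (D₂.le_opNorm (x - u n))
    have h5 : 0 < ρ⁻¹ := by positivity
    have h6 := mul_le_mul_of_nonneg_left h3 h5.le
    have h7 := mul_le_mul_of_nonneg_left h4 h5.le
    linarith
  · intro x y hx hy z hz
    have h2 := (hx z hz).add (hy z hz)
    have e : (fun z => ev z (x + y)) = (fun z => ev z x) + (fun z => ev z y) := by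
      funext w
      exact map_add _ _ _
    rw [e, map_add, map_add, map_add, map_add, mul_add, mul_add, dwL_add]
    exact h2
  · intro c n z hz
    have hz' : ‖z‖ < ρ := by simpa using hz
    have h2 := (dw_mono_deriv n.1 n.2 z).const_mul c
    have hev' : (fun z => ev z (c • W.τ n)) =ᶠ[nhds z] fun z => c * (z ^ n.1 * cj z ^ n.2) := by
      filter_upwards [isOpen_ball.mem_nhds hz] with w hw
      have hw' : ‖w‖ < ρ := by simpa using hw
      rw [map_smul, hev w (by linarith), smul_eq_mul]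
    refine (h2.congr_of_eventuallyEq hev').congr_fderiv ?_
    have hzρ := (dw_div_le h0 hz').le
    have hcz : cj (z / ρ) = cj z / ρ := by
      show starRingEnd ℂ (z / ρ) = starRingEnd ℂ z / ρ
      rw [map_div₀, Complex.conj_ofReal]
    have e1 := dw_calc1 h0 n.1 n.2 z (cj z)
    have e2 := dw_calc1 h0 n.2 n.1 (cj z) z
    have a1 : ev (z / ρ) (D₁ (c • W.τ n)) =
        c * (((n.1 : ℂ) * (ρ : ℂ) ^ (n.1 + n.2)) * ((z / ρ) ^ (n.1 - 1) * (cj z / ρ) ^ n.2)) := by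
      rw [map_smul, hD₁, map_smul, map_smul, hev _ hzρ, hcz]
      rfl
    have a2 : ev (z / ρ) (D₂ (c • W.τ n)) =
        c * (((n.2 : ℂ) * (ρ : ℂ) ^ (n.1 + n.2)) * ((z / ρ) ^ n.1 * (cj z / ρ) ^ (n.2 - 1))) := by
      rw [map_smul, hD₂, map_smul, map_smul, hev _ hzρ, hcz]
      rfl
    rw [a1, a2, ← e1, ← e2, Nat.add_comm n.2 n.1]
    ext h
    simp only [smul_apply, dwL_apply, smul_eq_mul]
    ring

theorem DwB.smooth (W : DwB B) [CompleteSpace B] (ev : ℂ → B →ₐ[ℂ] ℂ)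
    (hev : ∀ z, ‖z‖ ≤ 1 → ∀ n, ev z (W.τ n) = z ^ n.1 * cj z ^ n.2)
    (hb : ∀ z x, ‖ev z x‖ ≤ ‖x‖) (hc : ∀ z, Continuous (ev z)) (k : ℕ) :
    ∀ x, ContDiffOn ℝ k (fun z => ev z x) (ball (0 : ℂ) 1) := by
  induction k with
  | zero =>
    intro x
    rw [Nat.cast_zero, contDiffOn_zero]
    intro z hz
    have hz1 : ‖z‖ < 1 := by simpa using hz
    obtain ⟨ρ, hρ1, hρ2⟩ := exists_between hz1
    have hρ0 : 0 < ρ := lt_of_le_of_lt (norm_nonneg z) hρ1
    obtain ⟨D₁, D₂, hD₁, hD₂⟩ := W.exists_D hρ0 hρ2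
    exact (W.hasFDerivAt ev hev hb hc hρ0 hρ2 D₁ D₂ hD₁ hD₂ x z
      (by simpa using hρ1)).continuousAt.continuousWithinAt
  | succ k ih =>
    intro x z hz
    have hz1 : ‖z‖ < 1 := by simpa using hz
    obtain ⟨ρ, hρ1, hρ2⟩ := exists_between hz1
    have hρ0 : 0 < ρ := lt_of_le_of_lt (norm_nonneg z) hρ1
    obtain ⟨D₁, D₂, hD₁, hD₂⟩ := W.exists_D hρ0 hρ2
    have hD := W.hasFDerivAt ev hev hb hc hρ0 hρ2 D₁ D₂ hD₁ hD₂ x
    have hon : ContDiffOn ℝ ((k : WithTop ℕ∞) + 1) (fun z => ev z x) (ball (0 : ℂ) ρ) := by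
      rw [contDiffOn_succ_iff_fderiv_of_isOpen isOpen_ball]
      refine ⟨fun w hw => (hD w hw).differentiableAt.differentiableWithinAt, ?_, ?_⟩
      · intro h
        exact absurd h (by simp)
      · have hs : ContDiff ℝ (k : WithTop ℕ∞) (fun w : ℂ => w / (ρ : ℂ)) := by
          have : ContDiff ℝ (k : WithTop ℕ∞) (fun w : ℂ => w * (ρ : ℂ)⁻¹) :=
            contDiff_id.mul contDiff_const
          simpa [div_eq_mul_inv] using this
        have hmaps : Set.MapsTo (fun w : ℂ => w / (ρ : ℂ)) (ball (0 : ℂ) ρ) (ball (0 : ℂ) 1) := by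
          intro w hw
          have hw' : ‖w‖ < ρ := by simpa using hw
          simpa using dw_div_le hρ0 hw'
        have c1 : ContDiffOn ℝ (k : WithTop ℕ∞) (fun w => ev (w / ρ) (D₁ x)) (ball (0 : ℂ) ρ) :=
          (ih (D₁ x)).comp hs.contDiffOn hmaps
        have c2 : ContDiffOn ℝ (k : WithTop ℕ∞) (fun w => ev (w / ρ) (D₂ x)) (ball (0 : ℂ) ρ) :=
          (ih (D₂ x)).comp hs.contDiffOn hmaps
        have c3 : ContDiffOn ℝ (k : WithTop ℕ∞) (fun w => dwL ((ρ : ℂ)⁻¹ * ev (w / ρ) (D₁ x))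
            ((ρ : ℂ)⁻¹ * ev (w / ρ) (D₂ x))) (ball (0 : ℂ) ρ) := by
          unfold dwL
          exact ((contDiffOn_const.mul c1).smul contDiffOn_const).add
            ((contDiffOn_const.mul c2).smul contDiffOn_const)
        refine c3.congr fun w hw => ?_
        exact (hD w hw).fderiv
    have hat := hon.contDiffAt (isOpen_ball.mem_nhds (by simpa using hρ1 : z ∈ ball (0 : ℂ) ρ))
    have : ((k + 1 : ℕ) : WithTop ℕ∞) = (k : WithTop ℕ∞) + 1 := by push_cast; rfl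
    rw [this]
    exact hat.contDiffWithinAt

end DWiener2

section DWiener3

variable {B : Type} [NormedCommRing B] [NormedAlgebra ℂ B]

lemma dw_CT_const_mul (c : ℂ) (K : ℂ → ℂ) (z : ℂ) : CT (fun w => c * K w) z = c * CT K z := by
  unfold CT
  have e : (fun w => c * K w / (z - w)) = fun w => c * (K w / (z - w)) := by
    funext w
    rw [mul_div_assoc]
  rw [e, MeasureTheory.integral_const_mul]
  ring

lemma dw_dzb_of {f : ℂ → ℂ} {z a b : ℂ} (h : HasFDerivAt (𝕜 := ℝ) f (dwL a b) z) :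
    dzb f z = b := by
  unfold dzb
  rw [h.fderiv, dwL_apply, dwL_apply]
  have e1 : cj 1 = 1 := map_one _
  have e2 : cj Complex.I = -Complex.I := Complex.conj_I
  rw [e1, e2]
  have := Complex.I_mul_I
  linear_combination ((a - b) / 2) * this

theorem DwB.ind_F (W : DwB B) [CompleteSpace B] (ev : ℂ → B →ₐ[ℂ] ℂ)
    (hev : ∀ z, ‖z‖ ≤ 1 → ∀ n, ev z (W.τ n) = z ^ n.1 * cj z ^ n.2)
    (hb : ∀ z x, ‖ev z x‖ ≤ ‖x‖) (hc : ∀ z, Continuous (ev z)) (x : B) :
    Measurable ((ball (0 : ℂ) 1).indicator fun w => ev w x) ∧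
    (∀ w, ‖(ball (0 : ℂ) 1).indicator (fun w => ev w x) w‖ ≤ ‖x‖) ∧
    (∀ w, 1 < ‖w‖ → (ball (0 : ℂ) 1).indicator (fun w => ev w x) w = 0) := by
  classical
  refine ⟨?_, ?_, ?_⟩
  · have h1 : ContinuousOn (fun w => ev w x) (ball (0 : ℂ) 1) :=
      (W.smooth ev hev hb hc 0 x).continuousOn
    rw [← Set.piecewise_eq_indicator]
    exact h1.measurable_piecewise continuousOn_const measurableSet_ball
  · intro w
    exact (norm_indicator_le_norm_self _ _).trans (hb w x)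
  · intro w hw
    apply Set.indicator_of_notMem
    simp only [mem_ball, dist_zero_right, not_lt]
    exact hw.le

end DWiener3

theorem exists_DW
    (hmono : ∀ (m n : ℕ) (z : ℂ), ‖z‖ < 1 →
      CT ((ball (0 : ℂ) 1).indicator fun w => w ^ m * cj w ^ n) z =
        (z ^ m * cj z ^ (n + 1) - if n + 1 ≤ m then z ^ (m - (n + 1)) else 0) / (n + 1))
    (hbound : ∀ (F : ℂ → ℂ) (M : ℝ) (z : ℂ), Measurable F → (∀ w, ‖F w‖ ≤ M) →
      (∀ w, 1 < ‖w‖ → F w = 0) → ‖CT F z‖ ≤ 3 * M)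
    (hadd : ∀ (F K : ℂ → ℂ) (M : ℝ) (z : ℂ), Measurable F → Measurable K → (∀ w, ‖F w‖ ≤ M) →
      (∀ w, ‖K w‖ ≤ M) → (∀ w, 1 < ‖w‖ → F w = 0) → (∀ w, 1 < ‖w‖ → K w = 0) →
      CT (fun w => F w + K w) z = CT F z + CT K z) :
    ∃ (A : Type) (_ : NormedCommRing A) (_ : NormedAlgebra ℂ A), CompleteSpace A ∧
      Nonempty (DW A) := by
  classical
  obtain ⟨B, i1, i2, i3, ⟨W⟩⟩ := exists_DwB
  obtain ⟨ev, hev, hb, hc⟩ := W.exists_ev
  obtain ⟨cn, hcn, hcnb⟩ := W.exists_ext (starRingEnd ℂ) B (fun n => W.τ (n.2, n.1)) 1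
    (fun c => Complex.norm_conj c) (fun n => W.τ_norm _)
  obtain ⟨T, hT, hTb⟩ := W.exists_ext (RingHom.id ℂ) B
    (fun n => ((n.2 : ℂ) + 1)⁻¹ • (W.τ (n.1, n.2 + 1) -
      if n.2 + 1 ≤ n.1 then W.τ (n.1 - (n.2 + 1), 0) else 0)) 2 (fun c => rfl) (fun n => by
      refine (norm_smul_le _ _).trans ?_
      have h1 : ‖((n.2 : ℂ) + 1)⁻¹‖ ≤ 1 := by
        rw [norm_inv]
        apply inv_le_one_of_one_le₀
        have : ((n.2 : ℂ) + 1) = ((n.2 + 1 : ℕ) : ℂ) := by push_cast; rfl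
        rw [this, Complex.norm_natCast]
        exact_mod_cast Nat.le_add_left 1 n.2
      have h2 : ‖(if n.2 + 1 ≤ n.1 then W.τ (n.1 - (n.2 + 1), 0) else 0)‖ ≤ 1 := by
        split_ifs
        · exact W.τ_norm _
        · rw [norm_zero]; exact zero_le_one
      have h3 := norm_sub_le (W.τ (n.1, n.2 + 1))
        (if n.2 + 1 ≤ n.1 then W.τ (n.1 - (n.2 + 1), 0) else 0)
      have h4 := W.τ_norm (n.1, n.2 + 1)
      calc _ ≤ 1 * (2 : ℝ) := mul_le_mul h1 (by linarith) (norm_nonneg _) zero_le_one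
        _ = 2 := one_mul _)
  have hcn1 : ∀ x, ‖cn x‖ ≤ ‖x‖ := fun x => by simpa using hcnb x
  have hcncn : ∀ x, cn (cn x) = x := by
    refine W.ind_eq (fun x => cn (cn x)) (fun x => x) (by fun_prop) continuous_id
      (fun x y => by rw [map_add, map_add]) (fun x y => rfl) ?_
    intro c n
    show cn (cn (c • W.τ n)) = c • W.τ n
    rw [map_smulₛₗ, map_smulₛₗ, hcn, hcn, Complex.conj_conj]
  have hcnev : ∀ (z : ℂ), ‖z‖ ≤ 1 → ∀ x : B, ev z (cn x) = cj (ev z x) := by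
    intro z hz
    refine W.ind_eq (fun x => ev z (cn x)) (fun x => cj (ev z x)) ((hc z).comp cn.continuous)
      (Complex.continuous_conj.comp (hc z)) (fun x y => by rw [map_add, map_add])
      (fun x y => by
        show starRingEnd ℂ (ev z (x + y)) = starRingEnd ℂ (ev z x) + starRingEnd ℂ (ev z y)
        rw [map_add, map_add]) ?_
    intro c n
    show ev z (cn (c • W.τ n)) = starRingEnd ℂ (ev z (c • W.τ n))
    rw [map_smulₛₗ, hcn, map_smul, hev z hz, map_smul, hev z hz, smul_eq_mul, smul_eq_mul,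
      map_mul, map_mul, map_pow, map_pow, Complex.conj_conj]
    show _ = _ * (cj z ^ n.1 * z ^ n.2)
    ring
  refine ⟨B, i1, i2, i3, ⟨{
    ev := ev
    ev_bound := fun z x _ => hb z x
    cnj := cn
    cnj_sub := fun x y => map_sub cn x y
    cnj_norm := ?_
    cnj_ev := fun z x hz => hcnev z hz x
    T := T
    T_bound := hTb
    T_ev := ?_
    hol := ?_
    smooth := ?_
    dbar := ?_ }⟩⟩
  · intro x
    refine le_antisymm (hcn1 x) ?_
    have := hcn1 (cn x)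
    rwa [hcncn] at this
  · -- T_ev
    intro z x hz
    have hF := fun x => W.ind_F ev hev hb hc x
    have hadd' : ∀ x y : B, CT ((ball (0 : ℂ) 1).indicator fun w => ev w (x + y)) z =
        CT ((ball (0 : ℂ) 1).indicator fun w => ev w x) z +
        CT ((ball (0 : ℂ) 1).indicator fun w => ev w y) z := by
      intro x y
      rw [← hadd _ _ (max ‖x‖ ‖y‖) z (hF x).1 (hF y).1
        (fun w => ((hF x).2.1 w).trans (le_max_left _ _))
        (fun w => ((hF y).2.1 w).trans (le_max_right _ _)) (hF x).2.2 (hF y).2.2]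
      congr 1
      funext w
      by_cases hw : w ∈ ball (0 : ℂ) 1
      · simp only [Set.indicator_of_mem hw, map_add]
      · simp only [Set.indicator_of_notMem hw, add_zero]
    have hcont : Continuous (fun x : B => CT ((ball (0 : ℂ) 1).indicator fun w => ev w x) z) := by
      let g : B →+ ℂ := AddMonoidHom.mk'
        (fun x : B => CT ((ball (0 : ℂ) 1).indicator fun w => ev w x) z) hadd'
      exact AddMonoidHomClass.continuous_of_bound g 3
        (fun x => hbound _ _ z (hF x).1 (hF x).2.1 (hF x).2.2)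
    refine W.ind_eq (fun x => ev z (T x))
      (fun x => CT ((ball (0 : ℂ) 1).indicator fun w => ev w x) z)
      ((hc z).comp T.continuous) hcont (fun x y => by rw [map_add, map_add]) hadd' ?_ x
    intro c n
    have e1 : ((ball (0 : ℂ) 1).indicator fun w => ev w (c • W.τ n)) =
        fun w => c * (ball (0 : ℂ) 1).indicator (fun w => w ^ n.1 * cj w ^ n.2) w := by
      funext w
      by_cases hw : w ∈ ball (0 : ℂ) 1
      · have hw' : ‖w‖ < 1 := by simpa using hw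
        rw [Set.indicator_of_mem hw, Set.indicator_of_mem hw, map_smul, hev w hw'.le, smul_eq_mul]
      · rw [Set.indicator_of_notMem hw, Set.indicator_of_notMem hw, mul_zero]
    show ev z (T (c • W.τ n)) = CT ((ball (0 : ℂ) 1).indicator fun w => ev w (c • W.τ n)) z
    rw [e1, dw_CT_const_mul, hmono n.1 n.2 z hz]
    have e2 : T (c • W.τ n) = c • (((n.2 : ℂ) + 1)⁻¹ • (W.τ (n.1, n.2 + 1) -
        if n.2 + 1 ≤ n.1 then W.τ (n.1 - (n.2 + 1), 0) else 0)) := by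
      rw [map_smul, hT]
    rw [e2, map_smul, map_smul, map_sub, hev z hz.le, smul_eq_mul, smul_eq_mul]
    split_ifs with h
    · rw [hev z hz.le]
      simp only [pow_zero, mul_one]
      ring
    · rw [map_zero]
      ring
  · -- hol
    intro c hsum
    have hn : ∀ n : ℕ, ‖c n • W.τ (n, 0)‖ ≤ ‖c n‖ := fun n => by
      refine (norm_smul_le _ _).trans ?_
      have := mul_le_mul_of_nonneg_left (W.τ_norm (n, 0)) (norm_nonneg (c n))
      linarith
    have hs : Summable (fun n : ℕ => c n • W.τ (n, 0)) := Summable.of_norm_bounded hsum hn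
    refine ⟨∑' n, c n • W.τ (n, 0), tsum_of_norm_bounded hsum.hasSum hn, ?_⟩
    intro z hz
    let evL : B →L[ℂ] ℂ := ⟨(ev z).toLinearMap, hc z⟩
    have h1 : evL (∑' n, c n • W.τ (n, 0)) = ∑' n, evL (c n • W.τ (n, 0)) :=
      evL.map_tsum hs
    refine h1.trans (tsum_congr fun n => ?_)
    show ev z (c n • W.τ (n, 0)) = c n * z ^ n
    rw [map_smul, hev z hz]
    simp
  · intro x
    rw [contDiffOn_infty]
    intro k
    exact W.smooth ev hev hb hc k x
  · -- dbar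
    intro x z hz
    obtain ⟨ρ, hρ1, hρ2⟩ := exists_between hz
    have hρ0 : 0 < ρ := lt_of_le_of_lt (norm_nonneg z) hρ1
    obtain ⟨D₁, D₂, hD₁, hD₂⟩ := W.exists_D hρ0 hρ2
    have hD := W.hasFDerivAt ev hev hb hc hρ0 hρ2 D₁ D₂ hD₁ hD₂ (T x) z (by simpa using hρ1)
    rw [dw_dzb_of hD]
    have hρ' : (ρ : ℂ) ≠ 0 := by exact_mod_cast hρ0.ne'
    refine W.ind_eq (fun x => (ρ : ℂ)⁻¹ * ev (z / ρ) (D₂ (T x))) (fun x => ev z x)
      (continuous_const.mul ((hc _).comp (D₂.continuous.comp T.continuous))) (hc z)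
      (fun x y => by rw [map_add, map_add, map_add, mul_add]) (fun x y => map_add _ _ _) ?_ x
    intro c n
    have hn1 : ((n.2 : ℂ) + 1) ≠ 0 := by exact_mod_cast Nat.succ_ne_zero n.2
    have e2 : D₂ (T (c • W.τ n)) = c • ((ρ : ℂ) ^ (n.1 + n.2 + 1) • W.τ n) := by
      have e3 : D₂ (if n.2 + 1 ≤ n.1 then W.τ (n.1 - (n.2 + 1), 0) else 0) = 0 := by
        split_ifs
        · rw [hD₂]
          simp
        · exact map_zero _
      have e4 : ((n.2 : ℂ) + 1)⁻¹ * (((n.2 + 1 : ℕ) : ℂ) * (ρ : ℂ) ^ (n.1 + (n.2 + 1))) =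
          (ρ : ℂ) ^ (n.1 + n.2 + 1) := by
        push_cast
        rw [← mul_assoc, inv_mul_cancel₀ hn1, one_mul, add_assoc]
      have e5 : D₂ (W.τ (n.1, n.2 + 1)) =
          (((n.2 + 1 : ℕ) : ℂ) * (ρ : ℂ) ^ (n.1 + (n.2 + 1))) • W.τ n := hD₂ (n.1, n.2 + 1)
      rw [map_smul, hT, map_smul, map_smul, map_sub, e5, e3, sub_zero,
        smul_smul ((n.2 : ℂ) + 1)⁻¹, e4]
    have hzρ := (dw_div_le hρ0 hρ1).le
    show (ρ : ℂ)⁻¹ * ev (z / ρ) (D₂ (T (c • W.τ n))) = ev z (c • W.τ n)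
    have hcz : cj (z / ρ) = cj z / ρ := by
      show starRingEnd ℂ (z / ρ) = starRingEnd ℂ z / ρ
      rw [map_div₀, Complex.conj_ofReal]
    rw [e2, map_smul, map_smul, hev _ hzρ, map_smul, hev z hz.le, hcz, smul_eq_mul, smul_eq_mul,
      smul_eq_mul, div_pow, div_pow, pow_succ, pow_add]
    field_simp


end Pool.Agent.Helper676.TL
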