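import Mathlib
import Pool.Agent.Helper676.TL.Defs
import Pool.Agent.Helper676.TL.Base
import Pool.Agent.Helper676.TL.DWD

set_option autoImplicit false

namespace Pool.Agent.Helper676.TL

open Set Metric
open scoped ContDiff



theorem LOC_tri {𝔸 : Type*} [NormedCommRing 𝔸] {R d : ℝ} (hR : 0 ≤ R) {P Q S P' Q' S' : 𝔸}
    (hP' : ‖P'‖ ≤ R) (hQ : ‖Q‖ ≤ R) (hQ' : ‖Q'‖ ≤ R) (hS : ‖S‖ ≤ R)
    (h1 : ‖P - P'‖ ≤ d) (h2 : ‖Q - Q'‖ ≤ d) (h3 : ‖S - S'‖ ≤ d) :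
    ‖P * Q * S - P' * Q' * S'‖ ≤ 3 * R ^ 2 * d := by
  have hd : 0 ≤ d := (norm_nonneg _).trans h1
  have e : P * Q * S - P' * Q' * S' =
      (P - P') * Q * S + P' * (Q - Q') * S + P' * Q' * (S - S') := by ring
  rw [e]
  have t1 : ‖(P - P') * Q * S‖ ≤ d * R * R :=
    (norm_mul_le _ _).trans (mul_le_mul ((norm_mul_le _ _).trans
      (mul_le_mul h1 hQ (norm_nonneg _) hd)) hS (norm_nonneg _) (by positivity))
  have t2 : ‖P' * (Q - Q') * S‖ ≤ R * d * R :=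
    (norm_mul_le _ _).trans (mul_le_mul ((norm_mul_le _ _).trans
      (mul_le_mul hP' h2 (norm_nonneg _) hR)) hS (norm_nonneg _) (by positivity))
  have t3 : ‖P' * Q' * (S - S')‖ ≤ R * R * d :=
    (norm_mul_le _ _).trans (mul_le_mul ((norm_mul_le _ _).trans
      (mul_le_mul hP' hQ' (norm_nonneg _) hR)) h3 (norm_nonneg _) (by positivity))
  have t4 := norm_add_le ((P - P') * Q * S + P' * (Q - Q') * S) (P' * Q' * (S - S'))
  have t5 := norm_add_le ((P - P') * Q * S) (P' * (Q - Q') * S)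
  nlinarith

theorem LOC_nl {𝔸 : Type*} [NormedCommRing 𝔸] {R d : ℝ} (hR : 0 ≤ R)
    {X cX Y cY V X' cX' Y' cY' V' : 𝔸}
    (hX' : ‖X'‖ ≤ R) (hcX : ‖cX‖ ≤ R) (hcX' : ‖cX'‖ ≤ R)
    (hY' : ‖Y'‖ ≤ R) (hcY : ‖cY‖ ≤ R) (hcY' : ‖cY'‖ ≤ R) (hV : ‖V‖ ≤ R)
    (h1 : ‖X - X'‖ ≤ d) (h2 : ‖cX - cX'‖ ≤ d) (h3 : ‖Y - Y'‖ ≤ d) (h4 : ‖cY - cY'‖ ≤ d)
    (h5 : ‖V - V'‖ ≤ d) :
    ‖(X * cX + Y * cY) * V - (X' * cX' + Y' * cY') * V'‖ ≤ 6 * R ^ 2 * d := by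
  have e : (X * cX + Y * cY) * V - (X' * cX' + Y' * cY') * V' =
      (X * cX * V - X' * cX' * V') + (Y * cY * V - Y' * cY' * V') := by ring
  rw [e]
  have t1 := LOC_tri hR hX' hcX hcX' hV h1 h2 h5
  have t2 := LOC_tri hR hY' hcY hcY' hV h3 h4 h5
  have t3 := norm_add_le (X * cX * V - X' * cX' * V') (Y * cY * V - Y' * cY' * V')
  linarith

theorem LOC_bd {𝔸 : Type*} [NormedCommRing 𝔸] {R : ℝ} (hR : 0 ≤ R) {X cX Y cY V : 𝔸}
    (hX : ‖X‖ ≤ R) (hcX : ‖cX‖ ≤ R) (hY : ‖Y‖ ≤ R) (hcY : ‖cY‖ ≤ R) (hV : ‖V‖ ≤ R) :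
    ‖(X * cX + Y * cY) * V‖ ≤ 2 * R ^ 3 := by
  have t1 : ‖X * cX + Y * cY‖ ≤ R * R + R * R :=
    (norm_add_le _ _).trans (add_le_add
      ((norm_mul_le _ _).trans (mul_le_mul hX hcX (norm_nonneg _) hR))
      ((norm_mul_le _ _).trans (mul_le_mul hY hcY (norm_nonneg _) hR)))
  have t2 := (norm_mul_le (X * cX + Y * cY) V).trans
    (mul_le_mul t1 hV (norm_nonneg _) (by positivity))
  calc _ ≤ _ := t2
    _ = 2 * R ^ 3 := by ring

/-- fixed point in the algebra -/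
theorem LOC_fix {A : Type} [NormedCommRing A] [NormedAlgebra ℂ A] [CompleteSpace A] (W : DW A)
    (M : ℝ) (hM : 1 ≤ M) (ε : ℝ) (hε : |ε| ≤ 1 / (144 * M ^ 2)) (x₁ x₂ : A)
    (h1 : ‖x₁‖ ≤ M) (h2 : ‖x₂‖ ≤ M) :
    ∃ X Y : A, ‖X‖ ≤ 2 * M ∧ ‖Y‖ ≤ 2 * M ∧
      X = x₁ + W.T ((ε : ℂ) • ((X * W.cnj X + Y * W.cnj Y) * W.cnj Y)) ∧
      Y = x₂ + W.T (-((ε : ℂ) • ((X * W.cnj X + Y * W.cnj Y) * W.cnj X))) := by
  have hM0 : 0 < M := by linarith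
  set R : ℝ := 2 * M with hRdef
  have hR : 0 ≤ R := by positivity
  have hε2 : |ε| * (144 * M ^ 2) ≤ 1 := by
    rw [le_div_iff₀ (by positivity)] at hε
    exact hε
  have hεn : ‖(ε : ℂ)‖ = |ε| := by rw [Complex.norm_real, Real.norm_eq_abs]
  have hcd : ∀ x y, ‖W.cnj x - W.cnj y‖ = ‖x - y‖ := by
    intro x y
    rw [← W.cnj_sub, W.cnj_norm]
  let Φ : A × A → A × A := fun p =>
    (x₁ + W.T ((ε : ℂ) • ((p.1 * W.cnj p.1 + p.2 * W.cnj p.2) * W.cnj p.2)),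
     x₂ + W.T (-((ε : ℂ) • ((p.1 * W.cnj p.1 + p.2 * W.cnj p.2) * W.cnj p.1))))
  set s : Set (A × A) := closedBall (0 : A × A) R with hs
  have hmem : ∀ p, p ∈ s ↔ ‖p.1‖ ≤ R ∧ ‖p.2‖ ≤ R := by
    intro p
    rw [hs, mem_closedBall_zero_iff, Prod.norm_def, max_le_iff]
  have hmaps : MapsTo Φ s s := by
    intro p hp
    rw [hmem] at hp ⊢
    obtain ⟨hp1, hp2⟩ := hp
    have b1 := LOC_bd (𝔸 := A) hR hp1 (le_of_eq_of_le (W.cnj_norm p.1) hp1) hp2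
      (le_of_eq_of_le (W.cnj_norm p.2) hp2) (le_of_eq_of_le (W.cnj_norm p.2) hp2)
    have b2 := LOC_bd (𝔸 := A) hR hp1 (le_of_eq_of_le (W.cnj_norm p.1) hp1) hp2
      (le_of_eq_of_le (W.cnj_norm p.2) hp2) (le_of_eq_of_le (W.cnj_norm p.1) hp1)
    have key : |ε| * (2 * R ^ 3) * 2 ≤ M := by
      rw [hRdef]
      have : |ε| * (2 * (2 * M) ^ 3) * 2 = (|ε| * (144 * M ^ 2)) * (32 / 144 * M) := by ring
      rw [this]
      have : (|ε| * (144 * M ^ 2)) * (32 / 144 * M) ≤ 1 * (32 / 144 * M) :=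
        mul_le_mul_of_nonneg_right hε2 (by positivity)
      linarith
    constructor
    · have t1 := norm_add_le x₁ (W.T ((ε : ℂ) • ((p.1 * W.cnj p.1 + p.2 * W.cnj p.2) * W.cnj p.2)))
      have t2 := W.T_bound ((ε : ℂ) • ((p.1 * W.cnj p.1 + p.2 * W.cnj p.2) * W.cnj p.2))
      rw [norm_smul, hεn] at t2
      have t3 := mul_le_mul_of_nonneg_left b1 (abs_nonneg ε)
      simp only [Φ]
      linarith
    · have t1 := norm_add_le x₂ (W.T (-((ε : ℂ) • ((p.1 * W.cnj p.1 + p.2 * W.cnj p.2) * W.cnj p.1))))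
      have t2 := W.T_bound (-((ε : ℂ) • ((p.1 * W.cnj p.1 + p.2 * W.cnj p.2) * W.cnj p.1)))
      rw [norm_neg, norm_smul, hεn] at t2
      have t3 := mul_le_mul_of_nonneg_left b2 (abs_nonneg ε)
      simp only [Φ]
      linarith
  have hlip : ∀ p ∈ s, ∀ q ∈ s, dist (Φ p) (Φ q) ≤ 1 / 2 * dist p q := by
    intro p hp q hq
    rw [hmem] at hp hq
    obtain ⟨hp1, hp2⟩ := hp
    obtain ⟨hq1, hq2⟩ := hq
    set d := dist p q with hd
    have hd0 : 0 ≤ d := dist_nonneg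
    have d1 : ‖p.1 - q.1‖ ≤ d := by
      rw [hd, Prod.dist_eq, ← dist_eq_norm]; exact le_max_left _ _
    have d2 : ‖p.2 - q.2‖ ≤ d := by
      rw [hd, Prod.dist_eq, ← dist_eq_norm]; exact le_max_right _ _
    have cp1 : ‖W.cnj p.1‖ ≤ R := le_of_eq_of_le (W.cnj_norm p.1) hp1
    have cp2 : ‖W.cnj p.2‖ ≤ R := le_of_eq_of_le (W.cnj_norm p.2) hp2
    have cq1 : ‖W.cnj q.1‖ ≤ R := le_of_eq_of_le (W.cnj_norm q.1) hq1
    have cq2 : ‖W.cnj q.2‖ ≤ R := le_of_eq_of_le (W.cnj_norm q.2) hq2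
    have b1 := LOC_nl (𝔸 := A) hR hq1 cp1 cq1 hq2 cp2 cq2 cp2 d1
      (le_of_eq_of_le (hcd p.1 q.1) d1) d2 (le_of_eq_of_le (hcd p.2 q.2) d2)
      (le_of_eq_of_le (hcd p.2 q.2) d2)
    have b2 := LOC_nl (𝔸 := A) hR hq1 cp1 cq1 hq2 cp2 cq2 cp1 d1
      (le_of_eq_of_le (hcd p.1 q.1) d1) d2 (le_of_eq_of_le (hcd p.2 q.2) d2)
      (le_of_eq_of_le (hcd p.1 q.1) d1)
    have key : 2 * (|ε| * (6 * R ^ 2 * d)) ≤ 1 / 2 * d := by
      rw [hRdef]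
      have : 2 * (|ε| * (6 * (2 * M) ^ 2 * d)) = (|ε| * (144 * M ^ 2)) * (48 / 144 * d) := by ring
      rw [this]
      have : (|ε| * (144 * M ^ 2)) * (48 / 144 * d) ≤ 1 * (48 / 144 * d) :=
        mul_le_mul_of_nonneg_right hε2 (by positivity)
      linarith
    rw [Prod.dist_eq]
    refine max_le ?_ ?_
    · rw [dist_eq_norm]
      simp only [Φ]
      have e : x₁ + W.T ((ε : ℂ) • ((p.1 * W.cnj p.1 + p.2 * W.cnj p.2) * W.cnj p.2)) -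
          (x₁ + W.T ((ε : ℂ) • ((q.1 * W.cnj q.1 + q.2 * W.cnj q.2) * W.cnj q.2))) =
          W.T ((ε : ℂ) • ((p.1 * W.cnj p.1 + p.2 * W.cnj p.2) * W.cnj p.2 -
            (q.1 * W.cnj q.1 + q.2 * W.cnj q.2) * W.cnj q.2)) := by
        rw [smul_sub, map_sub]
        abel
      rw [e]
      refine (W.T_bound _).trans ?_
      rw [norm_smul, hεn]
      have t3 := mul_le_mul_of_nonneg_left b1 (abs_nonneg ε)
      linarith
    · rw [dist_eq_norm]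
      simp only [Φ]
      have e : x₂ + W.T (-((ε : ℂ) • ((p.1 * W.cnj p.1 + p.2 * W.cnj p.2) * W.cnj p.1))) -
          (x₂ + W.T (-((ε : ℂ) • ((q.1 * W.cnj q.1 + q.2 * W.cnj q.2) * W.cnj q.1)))) =
          W.T (-((ε : ℂ) • ((p.1 * W.cnj p.1 + p.2 * W.cnj p.2) * W.cnj p.1 -
            (q.1 * W.cnj q.1 + q.2 * W.cnj q.2) * W.cnj q.1))) := by
        rw [smul_sub, map_neg, map_neg, map_neg, map_sub]
        abel
      rw [e]
      refine (W.T_bound _).trans ?_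
      rw [norm_neg, norm_smul, hεn]
      have t3 := mul_le_mul_of_nonneg_left b2 (abs_nonneg ε)
      linarith
  have hcomp : IsComplete s := isClosed_closedBall.isComplete
  have hcontr : ContractingWith (1 / 2) (hmaps.restrict Φ s s) := by
    refine ⟨by norm_num, LipschitzWith.of_dist_le_mul ?_⟩
    rintro ⟨p, hp⟩ ⟨q, hq⟩
    have := hlip p hp q hq
    simpa [Subtype.dist_eq] using this
  have h0 : (0 : A × A) ∈ s := by
    rw [hs]; exact mem_closedBall_self hR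
  obtain ⟨p, hp, hfix, -⟩ := hcontr.exists_fixedPoint' hcomp hmaps h0 (edist_ne_top _ _)
  rw [hmem] at hp
  have hfix' : Φ p = p := hfix
  refine ⟨p.1, p.2, hp.1, hp.2, ?_, ?_⟩
  · exact (congrArg Prod.fst hfix').symm
  · exact (congrArg Prod.snd hfix').symm

theorem LOC_ev {A : Type} [NormedCommRing A] [NormedAlgebra ℂ A] (W : DW A) (ε : ℝ) (X Y : A)
    (z : ℂ) (hz : ‖z‖ < 1) :
    W.ev z ((ε : ℂ) • ((X * W.cnj X + Y * W.cnj Y) * W.cnj Y)) =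
      ((ε * (‖W.ev z X‖ ^ 2 + ‖W.ev z Y‖ ^ 2) : ℝ) : ℂ) * cj (W.ev z Y) := by
  rw [map_smul, map_mul, map_add, map_mul, map_mul, W.cnj_ev z X hz.le, W.cnj_ev z Y hz.le]
  rw [Complex.mul_conj, Complex.mul_conj, Complex.normSq_eq_norm_sq, Complex.normSq_eq_norm_sq,
    smul_eq_mul]
  push_cast
  ring

theorem LOC_ev' {A : Type} [NormedCommRing A] [NormedAlgebra ℂ A] (W : DW A) (ε : ℝ) (X Y : A)
    (z : ℂ) (hz : ‖z‖ < 1) :
    W.ev z (-((ε : ℂ) • ((X * W.cnj X + Y * W.cnj Y) * W.cnj X))) =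
      -(((ε * (‖W.ev z X‖ ^ 2 + ‖W.ev z Y‖ ^ 2) : ℝ) : ℂ) * cj (W.ev z X)) := by
  rw [map_neg, map_smul, map_mul, map_add, map_mul, map_mul, W.cnj_ev z X hz.le,
    W.cnj_ev z Y hz.le]
  rw [Complex.mul_conj, Complex.mul_conj, Complex.normSq_eq_norm_sq, Complex.normSq_eq_norm_sq,
    smul_eq_mul]
  push_cast
  ring

theorem LOC_diff {ε R d : ℝ} (hR : 0 ≤ R) {a b a' b' : ℂ} (ha : ‖a‖ ≤ R) (hb : ‖b‖ ≤ R)
    (ha' : ‖a'‖ ≤ R) (hb' : ‖b'‖ ≤ R) (h1 : ‖a - a'‖ ≤ d) (h2 : ‖b - b'‖ ≤ d) :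
    ‖((ε * (‖a‖ ^ 2 + ‖b‖ ^ 2) : ℝ) : ℂ) * cj b - ((ε * (‖a'‖ ^ 2 + ‖b'‖ ^ 2) : ℝ) : ℂ) * cj b'‖
      ≤ |ε| * (6 * R ^ 2 * d) := by
  have c1 : ∀ z : ℂ, ‖cj z‖ = ‖z‖ := fun z => RCLike.norm_conj z
  have c2 : ∀ z w : ℂ, ‖cj z - cj w‖ = ‖z - w‖ := by
    intro z w
    rw [← map_sub]
    exact RCLike.norm_conj _
  have b1 := LOC_nl (𝔸 := ℂ) hR ha' (le_of_eq_of_le (c1 a) ha) (le_of_eq_of_le (c1 a') ha') hb'
    (le_of_eq_of_le (c1 b) hb) (le_of_eq_of_le (c1 b') hb') (le_of_eq_of_le (c1 b) hb) h1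
    (le_of_eq_of_le (c2 a a') h1) h2 (le_of_eq_of_le (c2 b b') h2) (le_of_eq_of_le (c2 b b') h2)
  have e : ∀ x y w : ℂ, ((ε * (‖x‖ ^ 2 + ‖y‖ ^ 2) : ℝ) : ℂ) * w =
      (ε : ℂ) * ((x * cj x + y * cj y) * w) := by
    intro x y w
    rw [Complex.mul_conj, Complex.mul_conj, Complex.normSq_eq_norm_sq, Complex.normSq_eq_norm_sq]
    push_cast
    ring
  rw [e, e, ← mul_sub, norm_mul, Complex.norm_real, Real.norm_eq_abs]
  exact mul_le_mul_of_nonneg_left b1 (abs_nonneg ε)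

theorem LOC_diff' {ε R d : ℝ} (hR : 0 ≤ R) {a b a' b' : ℂ} (ha : ‖a‖ ≤ R) (hb : ‖b‖ ≤ R)
    (ha' : ‖a'‖ ≤ R) (hb' : ‖b'‖ ≤ R) (h1 : ‖a - a'‖ ≤ d) (h2 : ‖b - b'‖ ≤ d) :
    ‖-(((ε * (‖a‖ ^ 2 + ‖b‖ ^ 2) : ℝ) : ℂ) * cj a) -
      -(((ε * (‖a'‖ ^ 2 + ‖b'‖ ^ 2) : ℝ) : ℂ) * cj a')‖ ≤ |ε| * (6 * R ^ 2 * d) := by
  have h := LOC_diff (ε := ε) hR hb ha hb' ha' h2 h1
  have e : -(((ε * (‖a‖ ^ 2 + ‖b‖ ^ 2) : ℝ) : ℂ) * cj a) -
      -(((ε * (‖a'‖ ^ 2 + ‖b'‖ ^ 2) : ℝ) : ℂ) * cj a') =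
      -(((ε * (‖b‖ ^ 2 + ‖a‖ ^ 2) : ℝ) : ℂ) * cj a -
      ((ε * (‖b'‖ ^ 2 + ‖a'‖ ^ 2) : ℝ) : ℂ) * cj a') := by
    rw [add_comm (‖a‖ ^ 2), add_comm (‖a'‖ ^ 2)]
    ring
  rw [e, norm_neg]
  exact h

/-- local contraction: a bounded solution of the integral system on the unit disc whose data lie in
the Wiener algebra lies in the Wiener algebra. -/
theorem LOC {A : Type} [NormedCommRing A] [NormedAlgebra ℂ A] [CompleteSpace A] (W : DW A)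
    (hbound : ∀ (F : ℂ → ℂ) (M : ℝ) (z : ℂ), Measurable F → (∀ w, ‖F w‖ ≤ M) →
      (∀ w, 1 < ‖w‖ → F w = 0) → ‖CT F z‖ ≤ 3 * M)
    (hadd : ∀ (F K : ℂ → ℂ) (M : ℝ) (z : ℂ), Measurable F → Measurable K → (∀ w, ‖F w‖ ≤ M) →
      (∀ w, ‖K w‖ ≤ M) → (∀ w, 1 < ‖w‖ → F w = 0) → (∀ w, 1 < ‖w‖ → K w = 0) →
      CT (fun w => F w + K w) z = CT F z + CT K z)
    (M : ℝ) (hM : 1 ≤ M) :
    ∃ ε₀ : ℝ, 0 < ε₀ ∧ ∀ (ε : ℝ), |ε| ≤ ε₀ → ∀ (a b : ℂ → ℂ) (x₁ x₂ : A), Measurable a →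
      Measurable b → (∀ z, ‖z‖ < 1 → ‖a z‖ ≤ M) → (∀ z, ‖z‖ < 1 → ‖b z‖ ≤ M) →
      ‖x₁‖ ≤ M → ‖x₂‖ ≤ M →
      (∀ z, ‖z‖ < 1 → a z = W.ev z x₁ + CT ((ball (0 : ℂ) 1).indicator fun w =>
        ((ε * (‖a w‖ ^ 2 + ‖b w‖ ^ 2) : ℝ) : ℂ) * cj (b w)) z) →
      (∀ z, ‖z‖ < 1 → b z = W.ev z x₂ + CT ((ball (0 : ℂ) 1).indicator fun w =>
        - (((ε * (‖a w‖ ^ 2 + ‖b w‖ ^ 2) : ℝ) : ℂ) * cj (a w))) z) →
      ∃ x y : A, (∀ z, ‖z‖ < 1 → a z = W.ev z (x₁ + W.T x)) ∧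
        (∀ z, ‖z‖ < 1 → b z = W.ev z (x₂ + W.T y)) ∧
        (∀ z, ‖z‖ < 1 → W.ev z x = ((ε * (‖a z‖ ^ 2 + ‖b z‖ ^ 2) : ℝ) : ℂ) * cj (b z)) ∧
        (∀ z, ‖z‖ < 1 → W.ev z y = - (((ε * (‖a z‖ ^ 2 + ‖b z‖ ^ 2) : ℝ) : ℂ) * cj (a z))) := by
  have hM0 : 0 < M := by linarith
  refine ⟨1 / (144 * M ^ 2), by positivity, ?_⟩
  intro ε hε a b x₁ x₂ hma hmb hba hbb hx1 hx2 hea heb
  obtain ⟨X, Y, hX, hY, hXe, hYe⟩ := LOC_fix W M hM ε hε x₁ x₂ hx1 hx2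
  have hε2 : |ε| * (144 * M ^ 2) ≤ 1 := by
    rw [le_div_iff₀ (by positivity)] at hε
    exact hε
  set x : A := (ε : ℂ) • ((X * W.cnj X + Y * W.cnj Y) * W.cnj Y) with hx
  set y : A := -((ε : ℂ) • ((X * W.cnj X + Y * W.cnj Y) * W.cnj X)) with hy
  set a' : ℂ → ℂ := fun z => W.ev z X with ha'
  set b' : ℂ → ℂ := fun z => W.ev z Y with hb'
  have hxe : ∀ z, ‖z‖ < 1 → W.ev z x = ((ε * (‖a' z‖ ^ 2 + ‖b' z‖ ^ 2) : ℝ) : ℂ) * cj (b' z) :=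
    fun z hz => LOC_ev W ε X Y z hz
  have hye : ∀ z, ‖z‖ < 1 → W.ev z y = -(((ε * (‖a' z‖ ^ 2 + ‖b' z‖ ^ 2) : ℝ) : ℂ) * cj (a' z)) :=
    fun z hz => LOC_ev' W ε X Y z hz
  have hba' : ∀ z, ‖z‖ < 1 → ‖a' z‖ ≤ 2 * M := fun z hz => (W.ev_bound z X hz.le).trans hX
  have hbb' : ∀ z, ‖z‖ < 1 → ‖b' z‖ ≤ 2 * M := fun z hz => (W.ev_bound z Y hz.le).trans hY
  have hR : (0 : ℝ) ≤ 2 * M := by positivity
  -- the four source terms
  set Fa : ℂ → ℂ := (ball (0 : ℂ) 1).indicator fun w =>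
        ((ε * (‖a w‖ ^ 2 + ‖b w‖ ^ 2) : ℝ) : ℂ) * cj (b w) with hFa
  set Fb : ℂ → ℂ := (ball (0 : ℂ) 1).indicator fun w =>
        - (((ε * (‖a w‖ ^ 2 + ‖b w‖ ^ 2) : ℝ) : ℂ) * cj (a w)) with hFb
  set Ga : ℂ → ℂ := (ball (0 : ℂ) 1).indicator fun w => W.ev w x with hGa
  set Gb : ℂ → ℂ := (ball (0 : ℂ) 1).indicator fun w => W.ev w y with hGb
  have hmFa : Measurable Fa := by
    refine Measurable.indicator ?_ measurableSet_ball
    have h1 : Measurable fun w => ((ε * (‖a w‖ ^ 2 + ‖b w‖ ^ 2) : ℝ) : ℂ) :=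
      Complex.measurable_ofReal.comp
        (measurable_const.mul ((hma.norm.pow_const 2).add (hmb.norm.pow_const 2)))
    exact h1.mul (Complex.continuous_conj.measurable.comp hmb)
  have hmFb : Measurable Fb := by
    refine Measurable.indicator ?_ measurableSet_ball
    have h1 : Measurable fun w => ((ε * (‖a w‖ ^ 2 + ‖b w‖ ^ 2) : ℝ) : ℂ) :=
      Complex.measurable_ofReal.comp
        (measurable_const.mul ((hma.norm.pow_const 2).add (hmb.norm.pow_const 2)))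
    exact (h1.mul (Complex.continuous_conj.measurable.comp hma)).neg
  have hmG : ∀ u : A, Measurable ((ball (0 : ℂ) 1).indicator fun w => W.ev w u) := by
    intro u
    classical
    rw [← Set.piecewise_eq_indicator]
    exact ContinuousOn.measurable_piecewise (W.smooth u).continuousOn continuousOn_const
      measurableSet_ball
  have hcb : ∀ (ε' : ℝ) (u v w : ℂ), ‖u‖ ≤ 2 * M → ‖v‖ ≤ 2 * M → ‖w‖ ≤ 2 * M →
      ‖((ε' * (‖u‖ ^ 2 + ‖v‖ ^ 2) : ℝ) : ℂ) * cj w‖ ≤ |ε'| * (2 * (2 * M) ^ 3) := by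
    intro ε' u v w hu hv hw
    rw [norm_mul, Complex.norm_real, Real.norm_eq_abs, abs_mul, RCLike.norm_conj,
      abs_of_nonneg (by positivity : 0 ≤ ‖u‖ ^ 2 + ‖v‖ ^ 2)]
    have h1 : ‖u‖ ^ 2 + ‖v‖ ^ 2 ≤ (2 * M) ^ 2 + (2 * M) ^ 2 :=
      add_le_add (pow_le_pow_left₀ (norm_nonneg _) hu 2) (pow_le_pow_left₀ (norm_nonneg _) hv 2)
    have h2 : (‖u‖ ^ 2 + ‖v‖ ^ 2) * ‖w‖ ≤ ((2 * M) ^ 2 + (2 * M) ^ 2) * (2 * M) :=
      mul_le_mul h1 hw (norm_nonneg _) (by positivity)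
    calc |ε'| * (‖u‖ ^ 2 + ‖v‖ ^ 2) * ‖w‖ = |ε'| * ((‖u‖ ^ 2 + ‖v‖ ^ 2) * ‖w‖) := by ring
      _ ≤ |ε'| * (((2 * M) ^ 2 + (2 * M) ^ 2) * (2 * M)) :=
          mul_le_mul_of_nonneg_left h2 (abs_nonneg _)
      _ = |ε'| * (2 * (2 * M) ^ 3) := by ring
  set B : ℝ := |ε| * (2 * (2 * M) ^ 3) with hB
  have hB0 : 0 ≤ B := by rw [hB]; positivity
  have hbFa : ∀ w, ‖Fa w‖ ≤ B := by
    intro w
    by_cases hw : w ∈ ball (0 : ℂ) 1
    · rw [hFa, indicator_of_mem hw]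
      have hw' : ‖w‖ < 1 := by simpa using hw
      exact hcb ε _ _ _ ((hba w hw').trans (by linarith)) ((hbb w hw').trans (by linarith))
        ((hbb w hw').trans (by linarith))
    · rw [hFa, indicator_of_notMem hw, norm_zero]
      exact hB0
  have hbFb : ∀ w, ‖Fb w‖ ≤ B := by
    intro w
    by_cases hw : w ∈ ball (0 : ℂ) 1
    · rw [hFb, indicator_of_mem hw]
      have hw' : ‖w‖ < 1 := by simpa using hw
      rw [norm_neg]
      exact hcb ε _ _ _ ((hba w hw').trans (by linarith)) ((hbb w hw').trans (by linarith))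
        ((hba w hw').trans (by linarith))
    · rw [hFb, indicator_of_notMem hw, norm_zero]
      exact hB0
  have hbGa : ∀ w, ‖Ga w‖ ≤ B := by
    intro w
    by_cases hw : w ∈ ball (0 : ℂ) 1
    · rw [hGa, indicator_of_mem hw]
      have hw' : ‖w‖ < 1 := by simpa using hw
      rw [hxe w hw']
      exact hcb ε _ _ _ (hba' w hw') (hbb' w hw') (hbb' w hw')
    · rw [hGa, indicator_of_notMem hw, norm_zero]
      exact hB0
  have hbGb : ∀ w, ‖Gb w‖ ≤ B := by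
    intro w
    by_cases hw : w ∈ ball (0 : ℂ) 1
    · rw [hGb, indicator_of_mem hw]
      have hw' : ‖w‖ < 1 := by simpa using hw
      rw [hye w hw', norm_neg]
      exact hcb ε _ _ _ (hba' w hw') (hbb' w hw') (hba' w hw')
    · rw [hGb, indicator_of_notMem hw, norm_zero]
      exact hB0
  have hout : ∀ (g : ℂ → ℂ) (w : ℂ), 1 < ‖w‖ → (ball (0 : ℂ) 1).indicator g w = 0 := by
    intro g w hw
    apply indicator_of_notMem
    simp only [mem_ball, dist_zero_right, not_lt]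
    exact hw.le
  -- general comparison
  have hcomp : ∀ (F G : ℂ → ℂ), Measurable F → Measurable G → (∀ w, ‖F w‖ ≤ B) →
      (∀ w, ‖G w‖ ≤ B) → (∀ w, 1 < ‖w‖ → F w = 0) → (∀ w, 1 < ‖w‖ → G w = 0) →
      ∀ (D : ℝ), (∀ w, ‖F w - G w‖ ≤ D) → ∀ z, ‖CT F z - CT G z‖ ≤ 3 * D := by
    intro F G hF hG hFB hGB hF0 hG0 D hD z
    have h1 := hadd G (fun w => F w - G w) (2 * B) z hG (hF.sub hG)
      (fun w => (hGB w).trans (by linarith))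
      (fun w => (norm_sub_le _ _).trans (by linarith [hFB w, hGB w])) hG0
      (fun w hw => by rw [hF0 w hw, hG0 w hw, sub_zero])
    have h2 : (fun w => G w + (F w - G w)) = F := by
      funext w
      ring
    rw [h2] at h1
    rw [h1, add_sub_cancel_left]
    exact hbound _ D z (hF.sub hG) hD (fun w hw => by rw [hF0 w hw, hG0 w hw, sub_zero])
  have hea' : ∀ z, ‖z‖ < 1 → a' z = W.ev z x₁ + CT Ga z := by
    intro z hz
    have : a' z = W.ev z (x₁ + W.T x) := by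
      rw [ha']
      simp only
      rw [← hXe]
    rw [this, map_add, W.T_ev z x hz]
  have heb' : ∀ z, ‖z‖ < 1 → b' z = W.ev z x₂ + CT Gb z := by
    intro z hz
    have : b' z = W.ev z (x₂ + W.T y) := by
      rw [hb']
      simp only
      rw [← hYe]
    rw [this, map_add, W.T_ev z y hz]
  have hstep : ∀ d : ℝ, 0 ≤ d → (∀ z, ‖z‖ < 1 → ‖a z - a' z‖ ≤ d ∧ ‖b z - b' z‖ ≤ d) →
      ∀ z, ‖z‖ < 1 → ‖a z - a' z‖ ≤ d / 2 ∧ ‖b z - b' z‖ ≤ d / 2 := by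
    intro d hd0 hd z hz
    have key : 3 * (|ε| * (6 * (2 * M) ^ 2 * d)) ≤ d / 2 := by
      have : 3 * (|ε| * (6 * (2 * M) ^ 2 * d)) = (|ε| * (144 * M ^ 2)) * (72 / 144 * d) := by ring
      rw [this]
      have : (|ε| * (144 * M ^ 2)) * (72 / 144 * d) ≤ 1 * (72 / 144 * d) :=
        mul_le_mul_of_nonneg_right hε2 (by positivity)
      linarith
    have hnn : 0 ≤ |ε| * (6 * (2 * M) ^ 2 * d) := by positivity
    have d1 : ∀ w, ‖Fa w - Ga w‖ ≤ |ε| * (6 * (2 * M) ^ 2 * d) := by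
      intro w
      by_cases hw : w ∈ ball (0 : ℂ) 1
      · rw [hFa, hGa, indicator_of_mem hw, indicator_of_mem hw]
        have hw' : ‖w‖ < 1 := by simpa using hw
        rw [hxe w hw']
        exact LOC_diff hR ((hba w hw').trans (by linarith)) ((hbb w hw').trans (by linarith))
          (hba' w hw') (hbb' w hw') (hd w hw').1 (hd w hw').2
      · rw [hFa, hGa, indicator_of_notMem hw, indicator_of_notMem hw, sub_zero, norm_zero]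
        exact hnn
    have d2 : ∀ w, ‖Fb w - Gb w‖ ≤ |ε| * (6 * (2 * M) ^ 2 * d) := by
      intro w
      by_cases hw : w ∈ ball (0 : ℂ) 1
      · rw [hFb, hGb, indicator_of_mem hw, indicator_of_mem hw]
        have hw' : ‖w‖ < 1 := by simpa using hw
        rw [hye w hw']
        exact LOC_diff' hR ((hba w hw').trans (by linarith)) ((hbb w hw').trans (by linarith))
          (hba' w hw') (hbb' w hw') (hd w hw').1 (hd w hw').2
      · rw [hFb, hGb, indicator_of_notMem hw, indicator_of_notMem hw, sub_zero, norm_zero]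
        exact hnn
    constructor
    · have h1 := hcomp Fa Ga hmFa (hmG x) hbFa hbGa (hout _) (hout _) _ d1 z
      rw [hea z hz, hea' z hz, add_sub_add_left_eq_sub]
      exact h1.trans key
    · have h1 := hcomp Fb Gb hmFb (hmG y) hbFb hbGb (hout _) (hout _) _ d2 z
      rw [heb z hz, heb' z hz, add_sub_add_left_eq_sub]
      exact h1.trans key
  have hiter : ∀ n : ℕ, ∀ z, ‖z‖ < 1 → ‖a z - a' z‖ ≤ 3 * M / 2 ^ n ∧
      ‖b z - b' z‖ ≤ 3 * M / 2 ^ n := by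
    intro n
    induction n with
    | zero =>
      intro z hz
      rw [pow_zero, div_one]
      exact ⟨(norm_sub_le _ _).trans (by linarith [hba z hz, hba' z hz]),
        (norm_sub_le _ _).trans (by linarith [hbb z hz, hbb' z hz])⟩
    | succ n ih =>
      have := hstep (3 * M / 2 ^ n) (by positivity) ih
      intro z hz
      have h2 := this z hz
      rw [pow_succ, ← div_div]
      exact h2
  have hlim : Filter.Tendsto (fun n : ℕ => 3 * M / 2 ^ n) Filter.atTop (nhds 0) := by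
    have h1 : Filter.Tendsto (fun n : ℕ => (3 * M) * (1 / 2 : ℝ) ^ n) Filter.atTop (nhds ((3 * M) * 0)) :=
      (tendsto_pow_atTop_nhds_zero_of_lt_one (by norm_num) (by norm_num)).const_mul _
    rw [mul_zero] at h1
    refine h1.congr (fun n => ?_)
    rw [one_div, inv_pow, div_eq_mul_inv]
  have haa : ∀ z, ‖z‖ < 1 → a z = a' z := by
    intro z hz
    have h1 : ‖a z - a' z‖ ≤ 0 := ge_of_tendsto' hlim (fun n => (hiter n z hz).1)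
    exact sub_eq_zero.mp (norm_le_zero_iff.mp h1)
  have hbb2 : ∀ z, ‖z‖ < 1 → b z = b' z := by
    intro z hz
    have h1 : ‖b z - b' z‖ ≤ 0 := ge_of_tendsto' hlim (fun n => (hiter n z hz).2)
    exact sub_eq_zero.mp (norm_le_zero_iff.mp h1)
  refine ⟨x, y, ?_, ?_, ?_, ?_⟩
  · intro z hz
    rw [haa z hz, ha']
    simp only
    rw [← hXe]
  · intro z hz
    rw [hbb2 z hz, hb']
    simp only
    rw [← hYe]
  · intro z hz
    rw [haa z hz, hbb2 z hz]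
    exact hxe z hz
  · intro z hz
    rw [haa z hz, hbb2 z hz]
    exact hye z hz


end Pool.Agent.Helper676.TL
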