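import Mathlib
import Pool.Agent.Helper676.TL.Defs
import Pool.Agent.Helper676.TL.Base
import Pool.Agent.Helper676.TL.DWD

set_option autoImplicit false

namespace Pool.Agent.Helper676.TL

open Set Metric
open scoped ContDiff



theorem dzb_hol {f : ℂ → ℂ} {z : ℂ} (h : DifferentiableAt ℂ f z) : dzb f z = 0 := by
  unfold dzb
  rw [h.fderiv_restrictScalars ℝ]
  simp only [ContinuousLinearMap.coe_restrictScalars']
  have h1 : (fderiv ℂ f z) Complex.I = Complex.I * (fderiv ℂ f z) 1 := by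
    rw [← smul_eq_mul, ← map_smul, smul_eq_mul, mul_one]
  rw [h1, ← mul_assoc, Complex.I_mul_I]
  ring

theorem dzb_add {f g : ℂ → ℂ} {z : ℂ} (hf : DifferentiableAt ℝ f z) (hg : DifferentiableAt ℝ g z) :
    dzb (fun w => f w + g w) z = dzb f z + dzb g z := by
  unfold dzb
  have h : fderiv ℝ (fun w => f w + g w) z = fderiv ℝ f z + fderiv ℝ g z :=
    (hf.hasFDerivAt.add hg.hasFDerivAt).fderiv
  rw [h]
  simp only [ContinuousLinearMap.add_apply]
  ring

theorem dzb_congr {f g : ℂ → ℂ} {z : ℂ} (h : f =ᶠ[nhds z] g) : dzb f z = dzb g z := by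
  unfold dzb
  rw [h.fderiv_eq]

theorem dzb_affine {f : ℂ → ℂ} (c : ℂ) (r : ℝ) (hr : 0 < r) (hf : DifferentiableAt ℝ f 0) :
    dzb (fun z => f ((z - c) / r)) c = dzb f 0 / r := by
  have hr0 : (r : ℂ) ≠ 0 := by exact_mod_cast hr.ne'
  have h1 : HasFDerivAt (𝕜 := ℝ) (fun z : ℂ => (z - c) / r)
      ((r⁻¹ : ℝ) • ContinuousLinearMap.id ℝ ℂ) c := by
    have h2 : (fun z : ℂ => (z - c) / r) = fun z : ℂ => (r⁻¹ : ℝ) • (z - c) := by
      funext z
      rw [Complex.real_smul, Complex.ofReal_inv, div_eq_inv_mul]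
    rw [h2]
    exact ((hasFDerivAt_id c).sub_const c).const_smul (r⁻¹ : ℝ)
  have h3 : HasFDerivAt (𝕜 := ℝ) f (fderiv ℝ f 0) ((c - c) / r) := by
    rw [sub_self, zero_div]; exact hf.hasFDerivAt
  have h4 := (h3.comp c h1).fderiv
  have h5 : (f ∘ fun z : ℂ => (z - c) / r) = fun z => f ((z - c) / r) := rfl
  rw [h5] at h4
  unfold dzb
  rw [h4]
  simp only [ContinuousLinearMap.comp_apply, ContinuousLinearMap.smul_apply,
    ContinuousLinearMap.id_apply, map_smul]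
  simp only [Complex.real_smul, Complex.ofReal_inv]
  field_simp

theorem conclude {A : Type} [NormedCommRing A] [NormedAlgebra ℂ A] (W : DW A) (c : ℂ) (r : ℝ)
    (hr : 0 < r) (a : ℂ → ℂ) (x₁ X : A) (cn : ℕ → ℂ) (hs : Summable fun n => ‖cn n‖)
    (hx1 : ∀ z : ℂ, ‖z‖ ≤ 1 → W.ev z x₁ = ∑' n, cn n * z ^ n)
    (ha : ∀ z : ℂ, ‖z‖ < 1 → a (c + r * z) = W.ev z (x₁ + W.T X)) :
    ContDiffAt ℝ ∞ a c ∧ dzb a c = W.ev 0 X / r := by
  have hr0 : (r : ℂ) ≠ 0 := by exact_mod_cast hr.ne'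
  have hev : a =ᶠ[nhds c] fun z => W.ev ((z - c) / r) (x₁ + W.T X) := by
    filter_upwards [Metric.ball_mem_nhds c hr] with z hz
    rw [mem_ball_iff_norm] at hz
    rw [← ha ((z - c) / r)]
    · congr 1
      field_simp
      ring
    · rw [norm_div, Complex.norm_real, Real.norm_eq_abs, abs_of_pos hr, div_lt_one hr]
      exact hz
  have hball : ball (0 : ℂ) 1 ∈ nhds (0 : ℂ) := Metric.ball_mem_nhds _ one_pos
  have hsm : ∀ x : A, ContDiffAt ℝ ∞ (fun z => W.ev z x) 0 := fun x =>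
    (W.smooth x).contDiffAt hball
  have haff : ContDiffAt ℝ ∞ (fun z : ℂ => (z - c) / r) c := by
    apply ContDiffAt.div_const
    exact contDiffAt_id.sub contDiffAt_const
  have hcomp : ContDiffAt ℝ ∞ (fun z => W.ev ((z - c) / r) (x₁ + W.T X)) c := by
    have h1 : ContDiffAt ℝ ∞ (fun z => W.ev z (x₁ + W.T X)) ((c - c) / r) := by
      rw [sub_self, zero_div]; exact hsm _
    exact h1.comp c haff
  have hdf : ∀ x : A, DifferentiableAt ℝ (fun z => W.ev z x) 0 := fun x =>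
    (hsm x).differentiableAt (by simp)
  refine ⟨hcomp.congr_of_eventuallyEq hev, ?_⟩
  rw [dzb_congr hev, dzb_affine (f := fun z => W.ev z (x₁ + W.T X)) c r hr (hdf _)]
  congr 1
  have h2 : (fun z => W.ev z (x₁ + W.T X)) = fun z => W.ev z x₁ + W.ev z (W.T X) := by
    funext z; rw [map_add]
  rw [h2, dzb_add (hdf _) (hdf _), W.dbar X 0 (by simp)]
  have h3 : dzb (fun z => W.ev z x₁) 0 = 0 := by
    have h4 : (fun z => W.ev z x₁) =ᶠ[nhds 0] fun z => ∑' n, cn n * z ^ n := by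
      filter_upwards [hball] with z hz
      rw [mem_ball_zero_iff] at hz
      exact hx1 z hz.le
    rw [dzb_congr h4]
    apply dzb_hol
    have h5 : DifferentiableOn ℂ (fun z : ℂ => ∑' n, cn n * z ^ n) (ball 0 1) := by
      apply Complex.differentiableOn_tsum_of_summable_norm hs
      · intro n
        fun_prop
      · exact isOpen_ball
      · intro n w hw
        rw [mem_ball_zero_iff] at hw
        rw [norm_mul, norm_pow]
        exact mul_le_of_le_one_right (norm_nonneg _) (pow_le_one₀ (norm_nonneg _) hw.le)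
    exact h5.differentiableAt hball
  rw [h3, zero_add]

theorem coeffs (g : ℂ → ℂ) (U : Set ℂ) (hg : DifferentiableOn ℂ g U) (c : ℂ) (R : ℝ)
    (hR : 0 < R) (hU : closedBall c (2 * R) ⊆ U) :
    ∃ p : ℕ → ℂ, Summable (fun n => ‖p n‖ * R ^ n) ∧
      ∀ y : ℂ, ‖y‖ < 2 * R → g (c + y) = ∑' n, p n * y ^ n := by
  lift R to NNReal using hR.le
  have h2R : (0 : NNReal) < 2 * R := by
    have : (0 : NNReal) < R := by exact_mod_cast hR
    positivity
  have h1 : HasFPowerSeriesOnBall g (cauchyPowerSeries g c ((2 * R : NNReal) : ℝ)) c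
      ((2 * R : NNReal) : ENNReal) := by
    apply DifferentiableOn.hasFPowerSeriesOnBall (hg.mono _) h2R
    push_cast
    exact hU
  refine ⟨fun n => (cauchyPowerSeries g c ((2 * R : NNReal) : ℝ)).coeff n, ?_, ?_⟩
  · have h3 := (cauchyPowerSeries g c ((2 * R : NNReal) : ℝ)).summable_norm_mul_pow (r := R) (by
      refine lt_of_lt_of_le ?_ h1.r_le
      have : R < 2 * R := by
        have : (0 : NNReal) < R := by exact_mod_cast hR
        rw [two_mul]
        exact lt_add_of_pos_left R this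
      exact_mod_cast this)
    simpa only [FormalMultilinearSeries.norm_apply_eq_norm_coef] using h3
  · intro y hy
    have h4 : y ∈ Metric.eball (0 : ℂ) ((2 * R : NNReal) : ENNReal) := by
      rw [Metric.mem_eball, edist_zero_right, ← ofReal_norm, ENNReal.ofReal_lt_coe_iff (norm_nonneg _)]
      exact_mod_cast hy
    have h5 := h1.hasSum h4
    rw [← h5.tsum_eq]
    congr 1
    funext n
    rw [FormalMultilinearSeries.apply_eq_prod_smul_coeff]
    simp [mul_comm]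

theorem CT_const (F : ℂ → ℂ) (r : ℂ) (z : ℂ) : r * CT F z = CT (fun w => r * F w) z := by
  unfold CT
  have : (fun w => r * F w / (z - w)) = fun w => r * (F w / (z - w)) := by
    funext w; rw [mul_div_assoc]
  rw [this, MeasureTheory.integral_const_mul]
  ring

/-- the hypotheses of REG used in the preparation step -/
theorem prep
    (hann : ∀ (F : ℂ → ℂ) (M ρ : ℝ), Measurable F → (∀ w, ‖F w‖ ≤ M) → 1 ≤ ρ →
      (∀ w, ρ < ‖w‖ → F w = 0) → (∀ w, ‖w‖ < 1 → F w = 0) →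
      ∃ c : ℕ → ℂ, Summable (fun n => ‖c n‖) ∧ (∑' n, ‖c n‖) ≤ 10 * M * ρ ∧
        ∀ z : ℂ, ‖z‖ < 1 → CT F z = ∑' n, c n * z ^ n)
    (hscale : ∀ (F : ℂ → ℂ) (c : ℂ) (r : ℝ), 0 < r → ∀ w : ℂ,
      CT F (c + r * w) = r * CT (fun w' => F (c + r * w')) w)
    (hadd : ∀ (F K : ℂ → ℂ) (M ρ M' ρ' : ℝ), Adm F M ρ → Adm K M' ρ' → ∀ z : ℂ,
      CT (fun w => F w + K w) z = CT F z + CT K z)
    (g F : ℂ → ℂ) (M ρ : ℝ) (hF : Adm F M ρ) (c : ℂ) (R : ℝ) (hR : 0 < R)
    (p : ℕ → ℂ) (hp : Summable (fun n => ‖p n‖ * R ^ n))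
    (hgp : ∀ y : ℂ, ‖y‖ < 2 * R → g (c + y) = ∑' n, p n * y ^ n)
    (r : ℝ) (hr : 0 < r) (hrR : r ≤ R) :
    ∃ cn : ℕ → ℂ, Summable (fun n => ‖cn n‖) ∧
      (∑' n, ‖cn n‖) ≤ (∑' n, ‖p n‖ * R ^ n) + 10 * M * (R + |ρ| + ‖c‖) ∧
      ∀ z : ℂ, ‖z‖ < 1 → g (c + r * z) + CT F (c + r * z) = ∑' n, cn n * z ^ n +
        CT ((ball (0 : ℂ) 1).indicator fun w => r * F (c + r * w)) z := by
  have hM : 0 ≤ M := (norm_nonneg _).trans (hF.2.1 0)
  set Fc : ℂ → ℂ := fun w => F (c + r * w) with hFc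
  have hFcm : Measurable Fc := hF.1.comp (by fun_prop)
  set ρ1 : ℝ := 1 + (|ρ| + ‖c‖) / r with hρ1
  have hρ1' : 1 ≤ ρ1 := by
    have : 0 ≤ (|ρ| + ‖c‖) / r := by positivity
    linarith
  have hFc0 : ∀ w, ρ1 < ‖w‖ → Fc w = 0 := by
    intro w hw
    apply hF.2.2
    have h1 : r * ‖w‖ ≤ ‖c + r * w‖ + ‖c‖ := by
      have h2 : ‖(r : ℂ) * w‖ ≤ ‖c + r * w‖ + ‖c‖ := by
        have h3 : (r : ℂ) * w = (c + r * w) - c := by ring
        rw [h3]
        have := norm_sub_le (c + r * w) c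
        have h4 : c + ((c + r * w) - c) = c + r * w := by ring
        simpa [h4] using this
      rwa [norm_mul, Complex.norm_real, Real.norm_eq_abs, abs_of_pos hr] at h2
    have h5 : r * ρ1 = r + (|ρ| + ‖c‖) := by
      rw [hρ1]; field_simp
    have h6 : r * ρ1 < r * ‖w‖ := mul_lt_mul_of_pos_left hw hr
    have h7 := le_abs_self ρ
    linarith
  have hPm : Adm ((ball (0 : ℂ) 1).indicator Fc) M ρ1 := by
    refine ⟨hFcm.indicator measurableSet_ball, ?_, ?_⟩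
    · intro w
      refine (norm_indicator_le_norm_self _ _).trans (hF.2.1 _)
    · intro w hw
      rw [indicator_apply_eq_zero]
      intro _
      exact hFc0 w hw
  have hQm : Adm ((ball (0 : ℂ) 1)ᶜ.indicator Fc) M ρ1 := by
    refine ⟨hFcm.indicator measurableSet_ball.compl, ?_, ?_⟩
    · intro w
      refine (norm_indicator_le_norm_self _ _).trans (hF.2.1 _)
    · intro w hw
      rw [indicator_apply_eq_zero]
      intro _
      exact hFc0 w hw
  obtain ⟨q, hq1, hq2, hq3⟩ := hann _ M ρ1 hQm.1 hQm.2.1 hρ1' hQm.2.2 (by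
    intro w hw
    apply indicator_of_notMem
    rw [mem_compl_iff, not_not, mem_ball_zero_iff]
    exact hw)
  have hpr : Summable (fun n => ‖p n * (r : ℂ) ^ n‖) := by
    refine Summable.of_nonneg_of_le (fun n => norm_nonneg _) (fun n => ?_) hp
    rw [norm_mul, norm_pow, Complex.norm_real, Real.norm_eq_abs, abs_of_pos hr]
    gcongr
  have hqr : Summable (fun n => ‖(r : ℂ) * q n‖) := by
    simp_rw [norm_mul]
    exact hq1.mul_left _
  have hsum : Summable (fun n => ‖p n * (r : ℂ) ^ n + r * q n‖) :=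
    Summable.of_nonneg_of_le (fun n => norm_nonneg _) (fun n => norm_add_le _ _) (hpr.add hqr)
  refine ⟨fun n => p n * (r : ℂ) ^ n + r * q n, hsum, ?_, ?_⟩
  · have h1 : (∑' n, ‖p n * (r : ℂ) ^ n + r * q n‖) ≤
        ∑' n, (‖p n * (r : ℂ) ^ n‖ + ‖(r : ℂ) * q n‖) :=
      hsum.tsum_le_tsum (fun n => norm_add_le _ _) (hpr.add hqr)
    rw [hpr.tsum_add hqr] at h1
    have h2 : (∑' n, ‖p n * (r : ℂ) ^ n‖) ≤ ∑' n, ‖p n‖ * R ^ n := by
      refine hpr.tsum_le_tsum (fun n => ?_) hp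
      rw [norm_mul, norm_pow, Complex.norm_real, Real.norm_eq_abs, abs_of_pos hr]
      gcongr
    have h3 : (∑' n, ‖(r : ℂ) * q n‖) = r * ∑' n, ‖q n‖ := by
      rw [← tsum_mul_left]
      congr 1
      funext n
      rw [norm_mul, Complex.norm_real, Real.norm_eq_abs, abs_of_pos hr]
    have h4 : r * ρ1 = r + (|ρ| + ‖c‖) := by
      rw [hρ1]; field_simp
    have h5 : r * (∑' n, ‖q n‖) ≤ 10 * M * (R + |ρ| + ‖c‖) := by
      calc r * (∑' n, ‖q n‖) ≤ r * (10 * M * ρ1) := mul_le_mul_of_nonneg_left hq2 hr.le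
        _ = 10 * M * (r * ρ1) := by ring
        _ ≤ 10 * M * (R + |ρ| + ‖c‖) := by
          rw [h4]
          apply mul_le_mul_of_nonneg_left _ (by positivity)
          linarith
    rw [h3] at h1
    linarith
  · intro z hz
    have hzr : ‖(r : ℂ) * z‖ < 2 * R := by
      rw [norm_mul, Complex.norm_real, Real.norm_eq_abs, abs_of_pos hr]
      nlinarith [norm_nonneg z]
    have hps : Summable (fun n => p n * (r : ℂ) ^ n * z ^ n) := by
      refine Summable.of_norm_bounded hpr (fun n => ?_)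
      rw [norm_mul _ (z ^ n), norm_pow z]
      exact mul_le_of_le_one_right (norm_nonneg _) (pow_le_one₀ (norm_nonneg _) hz.le)
    have hqs : Summable (fun n => (r : ℂ) * q n * z ^ n) := by
      refine Summable.of_norm_bounded hqr (fun n => ?_)
      rw [norm_mul _ (z ^ n), norm_pow z]
      exact mul_le_of_le_one_right (norm_nonneg _) (pow_le_one₀ (norm_nonneg _) hz.le)
    have h1 : (∑' n, (p n * (r : ℂ) ^ n + r * q n) * z ^ n) =
        (∑' n, p n * (r : ℂ) ^ n * z ^ n) + ∑' n, (r : ℂ) * q n * z ^ n := by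
      rw [← hps.tsum_add hqs]
      congr 1
      funext n
      ring
    have h2 : g (c + r * z) = ∑' n, p n * (r : ℂ) ^ n * z ^ n := by
      rw [hgp _ hzr]
      congr 1
      funext n
      rw [mul_pow]; ring
    have h3 : CT F (c + r * z) = r * (CT ((ball (0 : ℂ) 1).indicator Fc) z +
        CT ((ball (0 : ℂ) 1)ᶜ.indicator Fc) z) := by
      rw [hscale F c r hr z, ← hadd _ _ _ _ _ _ hPm hQm]
      congr 2
      funext w
      show Fc w = _
      have := congrFun (indicator_self_add_compl (ball (0 : ℂ) 1) Fc) w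
      simpa using this.symm
    have h4 : (∑' n, (r : ℂ) * q n * z ^ n) = r * ∑' n, q n * z ^ n := by
      rw [← tsum_mul_left]
      congr 1
      funext n
      ring
    have h5 : (r : ℂ) * CT ((ball (0 : ℂ) 1).indicator Fc) z =
        CT ((ball (0 : ℂ) 1).indicator fun w => r * F (c + r * w)) z := by
      rw [CT_const]
      congr 1
      funext w
      by_cases hw : w ∈ ball (0 : ℂ) 1
      · simp [indicator_of_mem hw, hFc]
      · simp [indicator_of_notMem hw]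
    rw [h1, h2, h3, hq3 z hz, mul_add, h5, h4]
    ring

/-- REG: bounded solutions of the integral system are smooth and solve the Dirac system. -/
theorem REG {A : Type} [NormedCommRing A] [NormedAlgebra ℂ A] [CompleteSpace A] (W : DW A)
    (hloc : ∀ M : ℝ, 1 ≤ M →
      ∃ ε₀ : ℝ, 0 < ε₀ ∧ ∀ (ε : ℝ), |ε| ≤ ε₀ → ∀ (a b : ℂ → ℂ) (x₁ x₂ : A), Measurable a →
      Measurable b → (∀ z, ‖z‖ < 1 → ‖a z‖ ≤ M) → (∀ z, ‖z‖ < 1 → ‖b z‖ ≤ M) →
      ‖x₁‖ ≤ M → ‖x₂‖ ≤ M →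
      (∀ z, ‖z‖ < 1 → a z = W.ev z x₁ + CT ((ball (0 : ℂ) 1).indicator fun w =>
        ((ε * (‖a w‖ ^ 2 + ‖b w‖ ^ 2) : ℝ) : ℂ) * cj (b w)) z) →
      (∀ z, ‖z‖ < 1 → b z = W.ev z x₂ + CT ((ball (0 : ℂ) 1).indicator fun w =>
        - (((ε * (‖a w‖ ^ 2 + ‖b w‖ ^ 2) : ℝ) : ℂ) * cj (a w))) z) →
      ∃ x y : A, (∀ z, ‖z‖ < 1 → a z = W.ev z (x₁ + W.T x)) ∧
        (∀ z, ‖z‖ < 1 → b z = W.ev z (x₂ + W.T y)) ∧
        (∀ z, ‖z‖ < 1 → W.ev z x = ((ε * (‖a z‖ ^ 2 + ‖b z‖ ^ 2) : ℝ) : ℂ) * cj (b z)) ∧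
        (∀ z, ‖z‖ < 1 → W.ev z y = - (((ε * (‖a z‖ ^ 2 + ‖b z‖ ^ 2) : ℝ) : ℂ) * cj (a z))))
    (hann : ∀ (F : ℂ → ℂ) (M ρ : ℝ), Measurable F → (∀ w, ‖F w‖ ≤ M) → 1 ≤ ρ →
      (∀ w, ρ < ‖w‖ → F w = 0) → (∀ w, ‖w‖ < 1 → F w = 0) →
      ∃ c : ℕ → ℂ, Summable (fun n => ‖c n‖) ∧ (∑' n, ‖c n‖) ≤ 10 * M * ρ ∧
        ∀ z : ℂ, ‖z‖ < 1 → CT F z = ∑' n, c n * z ^ n)
    (hscale : ∀ (F : ℂ → ℂ) (c : ℂ) (r : ℝ), 0 < r → ∀ w : ℂ,
      CT F (c + r * w) = r * CT (fun w' => F (c + r * w')) w)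
    (hbound : ∀ (F : ℂ → ℂ) (M ρ : ℝ), Adm F M ρ → 0 < ρ → ∀ z, ‖CT F z‖ ≤ 3 * ρ * M)
    (hadd : ∀ (F K : ℂ → ℂ) (M ρ M' ρ' : ℝ), Adm F M ρ → Adm K M' ρ' → ∀ z : ℂ,
      CT (fun w => F w + K w) z = CT F z + CT K z)
    (hcont : ∀ (F : ℂ → ℂ) (M ρ : ℝ), Adm F M ρ → Continuous (CT F))
    (a b g₁ g₂ F K : ℂ → ℂ) (U : Set ℂ) (hU : IsOpen U) (ε M ρ : ℝ) (hF : Adm F M ρ)
    (hK : Adm K M ρ) (hg₁ : DifferentiableOn ℂ g₁ U) (hg₂ : DifferentiableOn ℂ g₂ U)
    (ha : ∀ z ∈ U, a z = g₁ z + CT F z) (hb : ∀ z ∈ U, b z = g₂ z + CT K z)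
    (hFU : ∀ z ∈ U, F z = ((ε * (‖a z‖ ^ 2 + ‖b z‖ ^ 2) : ℝ) : ℂ) * cj (b z))
    (hKU : ∀ z ∈ U, K z = - (((ε * (‖a z‖ ^ 2 + ‖b z‖ ^ 2) : ℝ) : ℂ) * cj (a z))) :
    ContDiffOn ℝ ∞ a U ∧ ContDiffOn ℝ ∞ b U ∧ (∀ z ∈ U, dzb a z = F z) ∧
      (∀ z ∈ U, dzb b z = K z) := by
  have main : ∀ c ∈ U, (ContDiffAt ℝ ∞ a c ∧ dzb a c = F c) ∧ (ContDiffAt ℝ ∞ b c ∧ dzb b c = K c) := by
    intro c hc
    obtain ⟨δ, hδ, hδU⟩ := Metric.isOpen_iff.1 hU c hc
    set R : ℝ := δ / 3 with hRdef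
    have hR : 0 < R := by positivity
    have hRU : closedBall c (2 * R) ⊆ U :=
      (closedBall_subset_ball (by rw [hRdef]; linarith)).trans hδU
    have hM : 0 ≤ M := (norm_nonneg _).trans (hF.2.1 0)
    obtain ⟨p₁, hp₁, hgp₁⟩ := coeffs g₁ U hg₁ c R hR hRU
    obtain ⟨p₂, hp₂, hgp₂⟩ := coeffs g₂ U hg₂ c R hR hRU
    set B₁ : ℝ := ∑' n, ‖p₁ n‖ * R ^ n with hB₁
    set B₂ : ℝ := ∑' n, ‖p₂ n‖ * R ^ n with hB₂
    have hB₁0 : 0 ≤ B₁ := tsum_nonneg fun n => by positivity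
    have hB₂0 : 0 ≤ B₂ := tsum_nonneg fun n => by positivity
    set M' : ℝ := 1 + B₁ + B₂ + 10 * M * (R + |ρ| + ‖c‖) + 3 * (|ρ| + 1) * M with hM'
    have hn1 : 0 ≤ 10 * M * (R + |ρ| + ‖c‖) := by positivity
    have hn2 : 0 ≤ 3 * (|ρ| + 1) * M := by positivity
    have hM'1 : 1 ≤ M' := by linarith
    obtain ⟨ε₀, hε₀, hloc'⟩ := hloc M' hM'1
    set r : ℝ := min R (ε₀ / (|ε| + 1)) with hrdef
    have hr : 0 < r := lt_min hR (by positivity)
    have hrR : r ≤ R := min_le_left _ _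
    have hrε : |r * ε| ≤ ε₀ := by
      rw [abs_mul, abs_of_pos hr]
      have h1 : r ≤ ε₀ / (|ε| + 1) := min_le_right _ _
      have h2 : r * (|ε| + 1) ≤ ε₀ := (le_div_iff₀ (by positivity)).1 h1
      nlinarith [abs_nonneg ε]
    have hin : ∀ w : ℂ, ‖w‖ < 1 → c + r * w ∈ U := by
      intro w hw
      apply hδU
      rw [mem_ball_iff_norm, add_sub_cancel_left, norm_mul, Complex.norm_real, Real.norm_eq_abs,
        abs_of_pos hr]
      have : r * ‖w‖ ≤ r := mul_le_of_le_one_right hr.le hw.le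
      rw [hRdef] at hrR
      linarith
    have hgb : ∀ (g : ℂ → ℂ) (p : ℕ → ℂ), Summable (fun n => ‖p n‖ * R ^ n) →
        (∀ y : ℂ, ‖y‖ < 2 * R → g (c + y) = ∑' n, p n * y ^ n) → ∀ w : ℂ, ‖w‖ < 1 →
        ‖g (c + r * w)‖ ≤ ∑' n, ‖p n‖ * R ^ n := by
      intro g p hp hgp w hw
      have hwr : ‖(r : ℂ) * w‖ ≤ R := by
        rw [norm_mul, Complex.norm_real, Real.norm_eq_abs, abs_of_pos hr]
        nlinarith [norm_nonneg w]
      rw [hgp _ (by linarith)]
      refine tsum_of_norm_bounded hp.hasSum (fun n => ?_)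
      rw [norm_mul, norm_pow]
      gcongr
    obtain ⟨c₁, hc₁, hc₁b, hc₁e⟩ := prep hann hscale hadd g₁ F M ρ hF c R hR p₁ hp₁ hgp₁ r hr hrR
    obtain ⟨c₂, hc₂, hc₂b, hc₂e⟩ := prep hann hscale hadd g₂ K M ρ hK c R hR p₂ hp₂ hgp₂ r hr hrR
    obtain ⟨x₁, hx₁, hx₁e⟩ := W.hol c₁ hc₁
    obtain ⟨x₂, hx₂, hx₂e⟩ := W.hol c₂ hc₂
    -- the rescaled functions
    have hmeas : ∀ (g F : ℂ → ℂ), DifferentiableOn ℂ g U → Adm F M ρ →
        Measurable ((ball (0 : ℂ) 1).indicator fun w => g (c + r * w) + CT F (c + r * w)) := by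
      intro g F hg hF
      classical
      have h1 : ContinuousOn (fun w : ℂ => g (c + r * w) + CT F (c + r * w)) (ball (0 : ℂ) 1) := by
        apply ContinuousOn.add
        · refine hg.continuousOn.comp (by fun_prop) ?_
          intro w hw
          exact hin w (mem_ball_zero_iff.1 hw)
        · exact ((hcont F M ρ hF).comp (by fun_prop)).continuousOn
      have h2 := h1.measurable_piecewise (g := (0 : ℂ → ℂ)) continuous_zero.continuousOn
        measurableSet_ball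
      rwa [piecewise_eq_indicator] at h2
    have hadm : ∀ F : ℂ → ℂ, Adm F M ρ → Adm F M (|ρ| + 1) := by
      intro F hF
      refine ⟨hF.1, hF.2.1, fun w hw => hF.2.2 w ?_⟩
      have := le_abs_self ρ
      linarith
    have hρp : 0 < |ρ| + 1 := by positivity
    set ar : ℂ → ℂ := (ball (0 : ℂ) 1).indicator fun w => g₁ (c + r * w) + CT F (c + r * w) with har
    set br : ℂ → ℂ := (ball (0 : ℂ) 1).indicator fun w => g₂ (c + r * w) + CT K (c + r * w) with hbr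
    have hare : ∀ w : ℂ, ‖w‖ < 1 → ar w = a (c + r * w) := by
      intro w hw
      rw [har, indicator_of_mem (mem_ball_zero_iff.2 hw), ha _ (hin w hw)]
    have hbre : ∀ w : ℂ, ‖w‖ < 1 → br w = b (c + r * w) := by
      intro w hw
      rw [hbr, indicator_of_mem (mem_ball_zero_iff.2 hw), hb _ (hin w hw)]
    have harb : ∀ w : ℂ, ‖w‖ < 1 → ‖ar w‖ ≤ M' := by
      intro w hw
      rw [har, indicator_of_mem (mem_ball_zero_iff.2 hw)]
      have h1 := hgb g₁ p₁ hp₁ hgp₁ w hw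
      have h2 := hbound F M (|ρ| + 1) (hadm F hF) hρp (c + r * w)
      have h3 := norm_add_le (g₁ (c + r * w)) (CT F (c + r * w))
      linarith
    have hbrb : ∀ w : ℂ, ‖w‖ < 1 → ‖br w‖ ≤ M' := by
      intro w hw
      rw [hbr, indicator_of_mem (mem_ball_zero_iff.2 hw)]
      have h1 := hgb g₂ p₂ hp₂ hgp₂ w hw
      have h2 := hbound K M (|ρ| + 1) (hadm K hK) hρp (c + r * w)
      have h3 := norm_add_le (g₂ (c + r * w)) (CT K (c + r * w))
      linarith
    obtain ⟨x, y, hxa, hyb, hxe, hye⟩ := hloc' (r * ε) hrε ar br x₁ x₂ (hmeas g₁ F hg₁ hF)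
      (hmeas g₂ K hg₂ hK) harb hbrb (by linarith) (by linarith)
      (by
        intro z hz
        rw [har, indicator_of_mem (mem_ball_zero_iff.2 hz)]
        show g₁ (c + r * z) + CT F (c + r * z) = _
        rw [hc₁e z hz, hx₁e z hz.le]
        congr 2
        funext w
        by_cases hw : w ∈ ball (0 : ℂ) 1
        · have hw' := mem_ball_zero_iff.1 hw
          rw [indicator_of_mem hw, indicator_of_mem hw, ← har, hare w hw', hbre w hw',
            hFU _ (hin w hw')]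
          push_cast
          ring
        · rw [indicator_of_notMem hw, indicator_of_notMem hw])
      (by
        intro z hz
        rw [hbr, indicator_of_mem (mem_ball_zero_iff.2 hz)]
        show g₂ (c + r * z) + CT K (c + r * z) = _
        rw [hc₂e z hz, hx₂e z hz.le]
        congr 2
        funext w
        by_cases hw : w ∈ ball (0 : ℂ) 1
        · have hw' := mem_ball_zero_iff.1 hw
          rw [indicator_of_mem hw, indicator_of_mem hw, ← hbr, hare w hw', hbre w hw',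
            hKU _ (hin w hw')]
          push_cast
          ring
        · rw [indicator_of_notMem hw, indicator_of_notMem hw])
    have hr0 : (r : ℂ) ≠ 0 := by exact_mod_cast hr.ne'
    have h00 : ‖(0 : ℂ)‖ < 1 := by simp
    constructor
    · obtain ⟨h1, h2⟩ := conclude W c r hr a x₁ x c₁ hc₁ hx₁e (fun z hz => by
        rw [← hare z hz]; exact hxa z hz)
      refine ⟨h1, ?_⟩
      rw [h2, hxe 0 h00, hare 0 h00, hbre 0 h00, hFU c hc]
      simp only [mul_zero, add_zero]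
      push_cast
      field_simp
    · obtain ⟨h1, h2⟩ := conclude W c r hr b x₂ y c₂ hc₂ hx₂e (fun z hz => by
        rw [← hbre z hz]; exact hyb z hz)
      refine ⟨h1, ?_⟩
      rw [h2, hye 0 h00, hare 0 h00, hbre 0 h00, hKU c hc]
      simp only [mul_zero, add_zero]
      push_cast
      field_simp
  exact ⟨fun c hc => (main c hc).1.1.contDiffWithinAt, fun c hc => (main c hc).2.1.contDiffWithinAt,
    fun c hc => (main c hc).1.2, fun c hc => (main c hc).2.2⟩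


end Pool.Agent.Helper676.TL
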