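import Mathlib
import Pool.Agent.Helper676.TL.Defs
import Pool.Agent.Helper676.TL.Base
import Pool.Agent.Helper676.TL.A1
import Pool.Agent.Helper676.TL.A2
import Pool.Agent.Helper676.TL.A9
import Pool.Agent.Helper676.TL.A3
import Pool.Agent.Helper676.TL.A4
import Pool.Agent.Helper676.TL.W1
import Pool.Agent.Helper676.TL.W2
import Pool.Agent.Helper676.TL.W3
import Pool.Agent.Helper676.TL.FP0
import Pool.Agent.Helper676.TL.EST
import Pool.Agent.Helper676.TL.PER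
import Pool.Agent.Helper676.TL.PER2
import Pool.Agent.Helper676.TL.QOUT
import Pool.Agent.Helper676.TL.GE
import Pool.Agent.Helper676.TL.FP
import Pool.Agent.Helper676.TL.DBL

set_option autoImplicit false

namespace Pool.Agent.Helper676.TL

open Set Metric
open scoped ContDiff

theorem reg_all : ∀ (a b g₁ g₂ F K : ℂ → ℂ) (U : Set ℂ) (_ : IsOpen U) (ε M ρ : ℝ) (_ : Adm F M ρ)
      (_ : Adm K M ρ) (_ : DifferentiableOn ℂ g₁ U) (_ : DifferentiableOn ℂ g₂ U)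
      (_ : ∀ z ∈ U, a z = g₁ z + CT F z) (_ : ∀ z ∈ U, b z = g₂ z + CT K z)
      (_ : ∀ z ∈ U, F z = ((ε * (‖a z‖ ^ 2 + ‖b z‖ ^ 2) : ℝ) : ℂ) * cj (b z))
      (_ : ∀ z ∈ U, K z = - (((ε * (‖a z‖ ^ 2 + ‖b z‖ ^ 2) : ℝ) : ℂ) * cj (a z))),
      ContDiffOn ℝ ∞ a U ∧ ContDiffOn ℝ ∞ b U ∧ (∀ z ∈ U, dzb a z = F z) ∧
        (∀ z ∈ U, dzb b z = K z) := by
  have hb3 : ∀ (F : ℂ → ℂ) (M : ℝ) (z : ℂ), Measurable F → (∀ w, ‖F w‖ ≤ M) →
      (∀ w, 1 < ‖w‖ → F w = 0) → ‖CT F z‖ ≤ 3 * M := by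
    intro F M z h1 h2 h3
    have := CT_bound F M 1 ⟨h1, h2, h3⟩ one_pos z
    simpa using this
  have ha3 : ∀ (F K : ℂ → ℂ) (M : ℝ) (z : ℂ), Measurable F → Measurable K → (∀ w, ‖F w‖ ≤ M) →
      (∀ w, ‖K w‖ ≤ M) → (∀ w, 1 < ‖w‖ → F w = 0) → (∀ w, 1 < ‖w‖ → K w = 0) →
      CT (fun w => F w + K w) z = CT F z + CT K z := by
    intro F K M z h1 h2 h3 h4 h5 h6
    exact CT_add F K M 1 M 1 ⟨h1, h3, h5⟩ ⟨h2, h4, h6⟩ z
  obtain ⟨A, i1, i2, hc, ⟨W⟩⟩ := exists_DW (fun m n z hz => CT_monomial m n z hz) hb3 ha3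
  intro a b g₁ g₂ F K U hU ε M ρ hF hK hg₁ hg₂ ha hb hFU hKU
  exact REG W (fun M hM => LOC W hb3 ha3 M hM)
    (fun F M ρ h1 h2 h3 h4 h5 => CT_annulus F M ρ h1 h2 h3 h4 h5)
    (fun F c r hr w => CT_scale F c r hr w) (fun F M ρ h hρ z => CT_bound F M ρ h hρ z)
    (fun F K M ρ M' ρ' h h' z => CT_add F K M ρ M' ρ' h h' z)
    (fun F M ρ h => CT_cont F M ρ h) a b g₁ g₂ F K U hU ε M ρ hF hK hg₁ hg₂ ha hb hFU hKU

theorem partA : PartA := by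
  obtain ⟨C, t₁, hC, ht₁, ht₁', hFP⟩ := FP (fun S hS hne Ψ I L h1 h2 h3 =>
      contraction_param S hS hne Ψ I L h1 h2 h3)
    (fun F M ρ h hρ z => CT_bound F M ρ h hρ z)
    (fun F K M ρ M' ρ' h h' z => CT_add F K M ρ M' ρ' h h' z)
    (fun F M ρ h => CT_cont F M ρ h) (fun F M ρ h U hU h0 => CT_hol F M ρ h U hU h0)
    (fun F z => CT_neg F z) (fun F z => CT_cj F z)
  obtain ⟨C', t₂, hC', ht₂, hEST⟩ := EST (fun F M ρ h hρ z => CT_bound F M ρ h hρ z)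
    (fun F M ρ h z r hr => CT_interp F M ρ h z r hr)
    (fun F K M ρ M' ρ' h h' z => CT_add F K M ρ M' ρ' h h' z)
    (fun R hR z hz => CT_disc R hR z hz) C hC
  obtain ⟨t₃, ht₃, h31, h32, hPER⟩ := PER C C' t₁ t₂ hC hC' ht₁ ht₁' ht₂ hFP
    (fun t ht h hh u v α β hS ζ hζ => (hEST t ht h hh u v α β hS).2.1 ζ hζ)
  obtain ⟨Cg, hCg, hGE⟩ := GE
  obtain ⟨C'', t₄, hC'', ht₄, hQ⟩ := QOUT Cg hCg hGE (2 * C') (by linarith)
  refine ⟨2 * C' + C'' + 1, min t₃ (min t₄ (min (1 / (20 * C)) (1 / 200))), by positivity,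
    by positivity, ?_, ?_⟩
  · exact lt_of_le_of_lt (le_trans (min_le_right _ _) (le_trans (min_le_right _ _)
      (min_le_right _ _))) (by norm_num)
  intro t ht
  have ht0 : 0 < t := ht.1
  have ht3 : t < t₃ := lt_of_lt_of_le ht.2 (min_le_left _ _)
  have ht4 : t < t₄ := lt_of_lt_of_le ht.2 (le_trans (min_le_right _ _) (min_le_left _ _))
  have ht5 : t < 1 / (20 * C) := lt_of_lt_of_le ht.2
    (le_trans (min_le_right _ _) (le_trans (min_le_right _ _) (min_le_left _ _)))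
  have ht6 : t < 1 / 200 := lt_of_lt_of_le ht.2
    (le_trans (min_le_right _ _) (le_trans (min_le_right _ _) (min_le_right _ _)))
  obtain ⟨h, hh, u, v, α, β, hS, hint⟩ := hPER t ⟨ht0, ht3⟩
  have hCt : C * t < 1 / 10 := by
    have h1 : C * t < C * (1 / (20 * C)) := mul_lt_mul_of_pos_left ht5 hC
    have h2 : C * (1 / (20 * C)) = 1 / 20 := by field_simp
    rw [h2] at h1; linarith
  obtain ⟨hD, hrefl, hea, hob, hja, hjb⟩ := DBL reg_all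
    (fun F K M ρ M' ρ' h h' z => CT_add F K M ρ M' ρ' h h' z)
    (fun F M ρ h U hU h0 => CT_hol F M ρ h U hU h0)
    (fun t ht K M h1 h2 h3 ζ hζ => CT_inv t ht K M h1 h2 h3 ζ hζ)
    C t h hC ht0 (by linarith) hh.1 hh.2 hCt u v α β _ _ hS rfl rfl
  have hE := hEST t ⟨ht0, lt_of_lt_of_le ht3 h32⟩ h hh u v α β hS
  have hsqt : t ≤ Real.sqrt t := by
    have h1 : Real.sqrt t * Real.sqrt t = t := Real.mul_self_sqrt ht0.le
    have h2 : 0 < Real.sqrt t := Real.sqrt_pos.2 ht0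
    have h3 : Real.sqrt t ≤ 1 := by
      rw [Real.sqrt_le_one]; linarith
    nlinarith
  have hexa : ∀ ζ, t ≤ ‖ζ - 1‖ → t ≤ ‖ζ + 1‖ → ∀ a b : ℂ → ℂ, exa t a b ζ = a ζ := by
    intro ζ h1 h2 a b
    unfold exa
    rw [if_neg (not_lt.2 h1), if_neg (not_lt.2 h2)]
  -- outer annulus
  have hann : ∀ ζ : ℂ, 8 < ‖ζ‖ → ‖ζ‖ < 12 → 7 < ‖ζ - 1‖ ∧ 7 < ‖ζ + 1‖ := by
    intro ζ h1 h2
    constructor
    · have := norm_sub_norm_le ζ 1
      rw [norm_one] at this; linarith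
    · have := norm_sub_norm_le ζ (-1)
      rw [norm_neg, norm_one, sub_neg_eq_add] at this; linarith
  have hout : Dirac (t * h) (exa t (fa t u β) (fb t v α)) (exa t (fb t v α) (fa t u β))
      {ζ | 8 < ‖ζ‖ ∧ ‖ζ‖ < 12} := by
    have hsub : {ζ : ℂ | 8 < ‖ζ‖ ∧ ‖ζ‖ < 12} ⊆ Ut t := by
      rintro ζ ⟨h1, h2⟩
      obtain ⟨h3, h4⟩ := hann ζ h1 h2
      exact ⟨h2, by linarith, by linarith⟩
    exact ⟨hD.1.mono hsub, hD.2.1.mono hsub, fun ζ hζ => hD.2.2.1 ζ (hsub hζ),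
      fun ζ hζ => hD.2.2.2 ζ (hsub hζ)⟩
  have hQ' := hQ t ⟨ht0, ht4⟩ h hh _ _ hout
    (by
      intro ζ h1 h2
      obtain ⟨h3, h4⟩ := hann ζ h1 h2
      rw [hexa ζ (by linarith) (by linarith)]
      calc _ ≤ C' * t := hE.1 ζ
        _ ≤ 2 * C' * t := by nlinarith)
    (by
      intro ζ h1 h2
      obtain ⟨h3, h4⟩ := hann ζ h1 h2
      rw [hexa ζ (by linarith) (by linarith)]
      have h5 := hE.2.2 ζ ⟨by linarith, by linarith, by linarith⟩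
      have h6 : t / ‖ζ - 1‖ ≤ t / 7 := div_le_div_of_nonneg_left ht0.le (by norm_num) h3.le
      have h7 : t / ‖ζ + 1‖ ≤ t / 7 := div_le_div_of_nonneg_left ht0.le (by norm_num) h4.le
      calc _ ≤ C' * t * (Real.sqrt t + t / ‖ζ - 1‖ + t / ‖ζ + 1‖) := h5
        _ ≤ C' * t * (2 * Real.sqrt t) := by
            apply mul_le_mul_of_nonneg_left _ (by positivity); linarith
        _ = 2 * C' * t * Real.sqrt t := by ring)
  refine ⟨h, exa t (fa t u β) (fb t v α), exa t (fb t v α) (fa t u β), ?_⟩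
  refine ⟨ht0, hh.1, hh.2, hD, hrefl, hea, hob, hja, hjb, ?_, ?_, ?_, ?_, ?_⟩
  · have hp := PER2 C t h ht0 (by linarith) u v α β hS hint
    rw [← hp]
    apply intervalIntegral.integral_congr
    intro θ _
    have h1 : ‖(1 + t * Complex.exp (θ * Complex.I) : ℂ) - 1‖ = t := by
      rw [add_sub_cancel_left, norm_mul, Complex.norm_exp_ofReal_mul_I, mul_one,
        Complex.norm_real, Real.norm_eq_abs, abs_of_pos ht0]
    have h2 : t ≤ ‖(1 + t * Complex.exp (θ * Complex.I) : ℂ) + 1‖ := by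
      have h3 : ‖(2 : ℂ)‖ - ‖-(t * Complex.exp (θ * Complex.I) : ℂ)‖ ≤
          ‖(2 : ℂ) - -(t * Complex.exp (θ * Complex.I))‖ := norm_sub_norm_le _ _
      have h4 : ‖-(t * Complex.exp (θ * Complex.I) : ℂ)‖ = t := by
        rw [norm_neg, norm_mul, Complex.norm_exp_ofReal_mul_I, mul_one,
          Complex.norm_real, Real.norm_eq_abs, abs_of_pos ht0]
      rw [h4, Complex.norm_ofNat] at h3
      have h5 : (1 + t * Complex.exp (θ * Complex.I) : ℂ) + 1 =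
        (2 : ℂ) - -(t * Complex.exp (θ * Complex.I)) := by ring
      rw [h5]; linarith
    simp only
    rw [hexa _ h1.ge h2]
  · intro ζ hζ
    rw [hexa ζ hζ.2.1 hζ.2.2]
    calc _ ≤ C' * t := hE.1 ζ
      _ ≤ (2 * C' + C'' + 1) * t := by nlinarith
  · intro ζ hζ
    rw [hexa ζ hζ.2.1 hζ.2.2]
    have h5 := hE.2.2 ζ ⟨by linarith [hζ.1], hζ.2.1, hζ.2.2⟩
    have hnn : 0 ≤ Real.sqrt t + t / ‖ζ - 1‖ + t / ‖ζ + 1‖ := by positivity
    calc _ ≤ C' * t * (Real.sqrt t + t / ‖ζ - 1‖ + t / ‖ζ + 1‖) := h5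
      _ ≤ (2 * C' + C'' + 1) * t * (Real.sqrt t + t / ‖ζ - 1‖ + t / ‖ζ + 1‖) := by
          apply mul_le_mul_of_nonneg_right _ hnn
          nlinarith
  · intro ζ h1 h2
    calc _ ≤ C'' * t := (hQ' ζ h1 h2).1
      _ ≤ (2 * C' + C'' + 1) * t := by nlinarith
  · intro ζ h1 h2
    calc _ ≤ C'' * t * Real.sqrt t := (hQ' ζ h1 h2).2
      _ ≤ (2 * C' + C'' + 1) * t * Real.sqrt t := by
          apply mul_le_mul_of_nonneg_right _ (Real.sqrt_nonneg _)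
          nlinarith

end Pool.Agent.Helper676.TL
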