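import Mathlib
import Pool.Agent.Helper676.TL.Geo
import Pool.Agent.Helper676.TL.B12
import Pool.Agent.Helper306.TL.B6
import Pool.Agent.Helper785.TL.B34
import Pool.Agent.Helper785.TL5.B5

/-! Thin lens (MP_49383f_gt): assembly of part B. -/

set_option autoImplicit false

namespace Pool.Agent.Helper676.TL.PB

open Set Metric Pool.Agent.Helper676.TL Pool.Agent.Helper785.TL
open scoped ContDiff

theorem nonzero_a {C t h : ℝ} (hC : C * t < 1) {a b : ℂ → ℂ}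
    (hF : Fields C t h a b) (ζ : ℂ) (hζ : ζ ∈ Gc t) : a ζ ≠ 0 := by
  intro h0
  have h := hF.est_a ζ hζ
  rw [h0, zero_sub, norm_neg, norm_one] at h
  linarith

theorem nonzero_b {C t h : ℝ} (h1 : t < 1 / 100) (hC : C * t < 1) {a b : ℂ → ℂ}
    (hF : Fields C t h a b) (ζ : ℂ) (h2 : t / 2 < ‖ζ - 1‖) (h3 : ‖ζ - 1‖ < t) : b ζ ≠ 0 := by
  have ht := hF.ht
  have hn : 0 < ‖ζ - 1‖ := by linarith
  have hne : ζ - 1 ≠ 0 := norm_pos_iff.mp hn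
  rw [hF.refl ζ h2 (by linarith)]
  have hk : ‖(t:ℂ) ^ 2 / cj (ζ - 1)‖ = t ^ 2 / ‖ζ - 1‖ := by
    rw [norm_div, norm_pow, Complex.norm_real, Real.norm_eq_abs, abs_of_pos ht]
    congr 1
    exact RCLike.norm_conj _
  have hk1 : t < t ^ 2 / ‖ζ - 1‖ := by
    rw [lt_div_iff₀ hn]; nlinarith
  have hk2 : t ^ 2 / ‖ζ - 1‖ < 2 * t := by
    rw [div_lt_iff₀ hn]; nlinarith
  have hmem : (1 + (t:ℂ) ^ 2 / cj (ζ - 1)) ∈ Gc t := by
    refine ⟨?_, ?_, ?_⟩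
    · calc ‖1 + (t:ℂ) ^ 2 / cj (ζ - 1)‖ ≤ ‖(1:ℂ)‖ + ‖(t:ℂ) ^ 2 / cj (ζ - 1)‖ := norm_add_le _ _
        _ < 12 := by rw [hk, norm_one]; linarith
    · have : 1 + (t:ℂ) ^ 2 / cj (ζ - 1) - 1 = (t:ℂ) ^ 2 / cj (ζ - 1) := by ring
      rw [this, hk]; exact hk1.le
    · have e : (2:ℂ) = (1 + (t:ℂ) ^ 2 / cj (ζ - 1) + 1) - (t:ℂ) ^ 2 / cj (ζ - 1) := by ring
      have h4 : ‖(2:ℂ)‖ ≤ ‖1 + (t:ℂ) ^ 2 / cj (ζ - 1) + 1‖ + ‖(t:ℂ) ^ 2 / cj (ζ - 1)‖ := by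
        conv_lhs => rw [e]
        exact norm_sub_le _ _
      rw [hk] at h4
      have h5 : ‖(2:ℂ)‖ = 2 := by simp
      rw [h5] at h4
      linarith
  have ha := nonzero_a hC hF _ hmem
  refine mul_ne_zero ?_ (div_ne_zero ?_ hne)
  · exact (map_ne_zero (starRingEnd ℂ)).mpr ha
  · exact_mod_cast ht.ne'

theorem nonzero {C t h : ℝ} (h1 : t < 1 / 100) (hC : C * t < 1) {a b : ℂ → ℂ}
    (hF : Fields C t h a b) : ∀ ζ ∈ Ut t, a ζ ≠ 0 ∨ b ζ ≠ 0 := by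
  intro ζ hζ
  obtain ⟨hz, hm, hp⟩ := hζ
  rcases lt_or_ge ‖ζ - 1‖ t with h2 | h2
  · exact Or.inr (nonzero_b h1 hC hF ζ hm h2)
  · rcases lt_or_ge ‖ζ + 1‖ t with h3 | h3
    · right
      have e : ‖-ζ - 1‖ = ‖ζ + 1‖ := by
        rw [← norm_neg]; congr 1; ring
      have h4 := nonzero_b h1 hC hF (-ζ) (by rw [e]; exact hp) (by rw [e]; exact h3)
      rw [hF.ob ζ ⟨hz, hm, hp⟩] at h4
      exact neg_ne_zero.mp h4
    · exact Or.inl (nonzero_a hC hF ζ ⟨hz, h2, h3⟩)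


theorem partB : PartB := by
  rintro ⟨C, t₀, hC, ht₀, ht₀', H⟩
  obtain ⟨t₁, ht₁, ht₁', h34⟩ := b34 C hC.le
  obtain ⟨t₂, ht₂, ht₂', h5⟩ := Pool.Agent.Helper785.TL5.b5 C hC.le
  set t : ℝ := min (min t₀ t₁) (min t₂ (1 / (C + 1))) / 2 with htdef
  have hCp : (0 : ℝ) < 1 / (C + 1) := by positivity
  have hmin : 0 < min (min t₀ t₁) (min t₂ (1 / (C + 1))) :=
    lt_min (lt_min ht₀ ht₁) (lt_min ht₂ hCp)
  have ht : 0 < t := by rw [htdef]; linarith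
  have hlt : t < min (min t₀ t₁) (min t₂ (1 / (C + 1))) := by rw [htdef]; linarith
  have hlt0 : t < t₀ := lt_of_lt_of_le hlt ((min_le_left _ _).trans (min_le_left _ _))
  have hlt1 : t < t₁ := lt_of_lt_of_le hlt ((min_le_left _ _).trans (min_le_right _ _))
  have hlt2 : t < t₂ := lt_of_lt_of_le hlt ((min_le_right _ _).trans (min_le_left _ _))
  have hlt3 : t < 1 / (C + 1) := lt_of_lt_of_le hlt ((min_le_right _ _).trans (min_le_right _ _))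
  have hCt : C * t < 1 := by
    rw [lt_div_iff₀ (by positivity)] at hlt3
    nlinarith
  have ht100 : t < 1 / 100 := hlt0.trans ht₀'
  obtain ⟨h, a, b, hF⟩ := H t ⟨ht, hlt0⟩
  obtain ⟨f, z, hS, hrp, hrm, -, -⟩ := B12.b12 hF ht100
  obtain ⟨hinj, hpos⟩ := h34 t ht hlt1 h a b f z hF hS
  obtain ⟨ho1, ho2, hdec, hconv⟩ := h5 t ht hlt2 h a b f z hF hS hinj
  have n10 : ‖(10 : ℂ)‖ = 10 := by simp
  have n9 : ‖(10 : ℂ) - 1‖ = 9 := by norm_num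
  have n11 : ‖(10 : ℂ) + 1‖ = 11 := by norm_num
  have hz₀ : 0 < z 10 := by
    refine hpos 10 ⟨by rw [n10]; norm_num, by rw [n9]; linarith, by rw [n11]; linarith⟩
      (by rw [n10]; norm_num) (by rw [n9]; intro hh; linarith) (by rw [n11]; intro hh; linarith)
  have hcmc : CmcImmersion (Xmap f z) (Ut t) (t * h) :=
    B6.b6 (isOpen_Ut t) hF.dirac hS.cf hS.cz hS.dzf hS.dzbf hS.dzz (nonzero ht100 hCt hF)
  refine ⟨t, t * h, z 10, f, z, ⟨ht, ht100, ?_, hz₀, hcmc, hS.cf, hS.cz, hinj, hpos, hS.zero_p,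
    hS.zero_m, hrp, hrm, ho1, ho2, hdec, hconv⟩⟩
  have := hF.h1
  exact mul_ne_zero ht.ne' (by linarith)

end Pool.Agent.Helper676.TL.PB
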