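import Mathlib
import Pool.Agent.Helper676.TL.Geo
import Pool.Agent.Helper676.TL.PartA
import Pool.Agent.Helper676.TL.PartB
import Pool.Agent.Helper45.TL.C

/-! Thin lens (MP_49383f_gt): final assembly. -/

set_option autoImplicit false

namespace Pool.Agent.Helper676.TL

theorem final_all : Final := by
  obtain ⟨t, H, z₀, f, z, hL⟩ := PB.partB partA
  exact Pool.Agent.Helper45.TLC.partC t H z₀ f z hL

end Pool.Agent.Helper676.TL
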