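import Mathlib
import Pool.Agent.Helper676.TL.Defs
import Pool.Agent.Helper676.TL.Base

set_option autoImplicit false

namespace Pool.Agent.Helper676.TL

open Set Metric
open scoped ContDiff



theorem PER_pt (C C' t h : ℝ) (hC : 0 < C) (ht : 0 < t) (ht' : t < 1 / 100)
    (h1 : 1 / 2 ≤ h) (h2 : h ≤ 2) (u v α β : ℂ → ℂ) (hS : Sol C t h u v α β)
    (hE : ∀ ζ, ‖ζ‖ < 16 → ‖v ζ + ((t * h / 2 : ℝ) : ℂ) * cj ζ‖ ≤ C' * t * Real.sqrt t)
    (z : ℂ) (hz : ‖z - 1‖ = t) :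
    ‖α z * cj (β z) - ((t * (1 - h) / 2 : ℝ) : ℂ)‖ ≤ (C' + 2 + C + C ^ 2) * (t * Real.sqrt t) := by
  have hcs : ∀ a b : ℂ, cj (a - b) = cj a - cj b := fun a b => map_sub (starRingEnd ℂ) a b
  have hcn : ∀ a : ℂ, cj (-a) = -cj a := fun a => map_neg (starRingEnd ℂ) a
  have hc1 : cj 1 = 1 := map_one (starRingEnd ℂ)
  have hcr : ∀ r : ℝ, cj (r : ℂ) = (r : ℂ) := fun r => Complex.conj_ofReal r
  have hret : ret t z = z := by
    unfold ret
    rw [hz, max_self, div_self ht.ne']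
    simp
  have hw : 2 - t ≤ ‖z + 1‖ := by
    have e1 : ‖(2:ℂ)‖ ≤ ‖z + 1‖ + ‖z - 1‖ := by
      have : (2:ℂ) = (z + 1) - (z - 1) := by ring
      calc ‖(2:ℂ)‖ = ‖(z + 1) - (z - 1)‖ := by rw [← this]
        _ ≤ _ := norm_sub_le _ _
    rw [hz] at e1
    norm_num at e1
    linarith
  have hw0 : z + 1 ≠ 0 := by
    intro h0
    rw [h0, norm_zero] at hw
    linarith
  have hwn : 0 < ‖z + 1‖ := norm_pos_iff.2 hw0
  set T := tau t (-z) with hT
  have hTe : T = -((t : ℂ) / (z + 1)) := by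
    rw [hT]
    unfold tau
    have e1 : (-z - 1 : ℂ) = -(z + 1) := by ring
    rw [e1, norm_neg, max_eq_left (by linarith), hcn]
    have e2 := Complex.mul_conj' (z + 1)
    have e3 : ((‖z + 1‖ : ℝ) : ℂ) ≠ 0 := by exact_mod_cast hwn.ne'
    push_cast
    rw [mul_neg, neg_inj, div_mul_eq_mul_div, div_eq_div_iff (pow_ne_zero 2 e3) hw0, ← e2]
    ring
  set e3 := T + (t : ℂ) / 2 with he3
  have hn3 : ‖e3‖ ≤ t ^ 2 := by
    have : e3 = (t : ℂ) * (z - 1) / (2 * (z + 1)) := by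
      rw [he3, hTe]
      field_simp
      ring
    rw [this, norm_div, norm_mul, norm_mul, hz, Complex.norm_real, Real.norm_eq_abs, abs_of_pos ht]
    have : ‖(2:ℂ)‖ = 2 := by norm_num
    rw [this, div_le_iff₀ (by positivity)]
    nlinarith [mul_pos ht ht]
  have hTn : ‖T‖ ≤ t := by
    have : T = e3 - (t : ℂ) / 2 := by rw [he3]; ring
    rw [this]
    have h3 : ‖(t : ℂ) / 2‖ = t / 2 := by
      rw [norm_div, Complex.norm_real, Real.norm_eq_abs, abs_of_pos ht]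
      norm_num
    calc ‖e3 - (t : ℂ) / 2‖ ≤ ‖e3‖ + ‖(t : ℂ) / 2‖ := norm_sub_le _ _
      _ ≤ t ^ 2 + t / 2 := by rw [h3]; linarith
      _ ≤ t := by nlinarith
  set A := α (kap t (-z)) with hA
  have hAn : ‖A - 1‖ ≤ C * t := hS.bα _
  have hβ : β z = v z - cj A * T := by
    have := hS.hβ z
    rw [hret] at this
    exact this
  set e2 := v z + ((t * h / 2 : ℝ) : ℂ) * cj z with he2
  have hzn : ‖z‖ < 16 := by
    have : z = (z - 1) + 1 := by ring
    rw [this]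
    calc ‖(z - 1) + 1‖ ≤ ‖z - 1‖ + ‖(1:ℂ)‖ := norm_add_le _ _
      _ < 16 := by rw [hz, norm_one]; linarith
  have hn2 : ‖e2‖ ≤ C' * t * Real.sqrt t := hE z hzn
  have hs : t ≤ Real.sqrt t := by
    have := Real.sq_sqrt ht.le
    have h5 := Real.sqrt_nonneg t
    have h6 : Real.sqrt t ≤ 1 := by
      rw [Real.sqrt_le_one]
      linarith
    nlinarith
  have hb : ‖β z - ((t * (1 - h) / 2 : ℝ) : ℂ)‖ ≤ C' * t * Real.sqrt t + (2 + C) * t ^ 2 := by
    have e1 : β z - ((t * (1 - h) / 2 : ℝ) : ℂ) = e2 - ((t * h / 2 : ℝ) : ℂ) * cj (z - 1) - cj (A - 1) * T - e3 := by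
      rw [hβ, he2, he3, hcs, hcs, hc1]
      push_cast
      ring
    rw [e1]
    have e4 : ‖((t * h / 2 : ℝ) : ℂ) * cj (z - 1)‖ ≤ t ^ 2 := by
      rw [norm_mul, Complex.norm_real, Complex.norm_conj, hz, Real.norm_eq_abs,
        abs_of_pos (by positivity)]
      nlinarith [mul_pos ht ht]
    have e5 : ‖cj (A - 1) * T‖ ≤ C * t ^ 2 := by
      rw [norm_mul, Complex.norm_conj]
      calc ‖A - 1‖ * ‖T‖ ≤ (C * t) * t := mul_le_mul hAn hTn (norm_nonneg _) (by positivity)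
        _ = _ := by ring
    have e6 := norm_sub_le (e2 - ((t * h / 2 : ℝ) : ℂ) * cj (z - 1) - cj (A - 1) * T) e3
    have e7 := norm_sub_le (e2 - ((t * h / 2 : ℝ) : ℂ) * cj (z - 1)) (cj (A - 1) * T)
    have e8 := norm_sub_le e2 (((t * h / 2 : ℝ) : ℂ) * cj (z - 1))
    linarith
  have e9 : α z * cj (β z) - ((t * (1 - h) / 2 : ℝ) : ℂ) =
      cj (β z - ((t * (1 - h) / 2 : ℝ) : ℂ)) + (α z - 1) * cj (β z) := by
    rw [hcs, hcr]
    ring
  rw [e9]
  have e10 : ‖(α z - 1) * cj (β z)‖ ≤ C ^ 2 * t ^ 2 := by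
    rw [norm_mul, Complex.norm_conj]
    calc ‖α z - 1‖ * ‖β z‖ ≤ (C * t) * (C * t) :=
          mul_le_mul (hS.bα z) (hS.bβ z) (norm_nonneg _) (by positivity)
      _ = _ := by ring
  have e11 := norm_add_le (cj (β z - ((t * (1 - h) / 2 : ℝ) : ℂ))) ((α z - 1) * cj (β z))
  rw [Complex.norm_conj] at e11
  have e12 : t ^ 2 ≤ t * Real.sqrt t := by nlinarith
  calc _ ≤ _ := e11
    _ ≤ (C' * t * Real.sqrt t + (2 + C) * t ^ 2) + C ^ 2 * t ^ 2 := add_le_add hb e10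
    _ = C' * (t * Real.sqrt t) + (2 + C + C ^ 2) * t ^ 2 := by ring
    _ ≤ C' * (t * Real.sqrt t) + (2 + C + C ^ 2) * (t * Real.sqrt t) := by
        have := mul_le_mul_of_nonneg_left e12 (show (0:ℝ) ≤ 2 + C + C ^ 2 by positivity)
        linarith
    _ = _ := by ring


/-- solving the period problem by the intermediate value theorem -/
theorem PER (C C' t₁ t₂ : ℝ) (hC : 0 < C) (hC' : 0 < C') (ht₁ : 0 < t₁) (ht₁' : t₁ < 1 / 100)
    (ht₂ : 0 < t₂)
    (hFP : ∀ t ∈ Ioo 0 t₁, ∃ u v α β : ℝ → ℂ → ℂ,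
      ∀ h ∈ Icc (1 / 2 : ℝ) 2, Sol C t h (u h) (v h) (α h) (β h) ∧
        ∀ h' ∈ Icc (1 / 2 : ℝ) 2, ∀ ζ, ‖α h ζ - α h' ζ‖ ≤ C * |h - h'| ∧
          ‖β h ζ - β h' ζ‖ ≤ C * |h - h'|)
    (hEST : ∀ t ∈ Ioo 0 t₂, ∀ h ∈ Icc (1 / 2 : ℝ) 2, ∀ u v α β : ℂ → ℂ, Sol C t h u v α β →
      ∀ ζ, ‖ζ‖ < 16 → ‖v ζ + ((t * h / 2 : ℝ) : ℂ) * cj ζ‖ ≤ C' * t * Real.sqrt t) :
    ∃ t₀ : ℝ, 0 < t₀ ∧ t₀ ≤ t₁ ∧ t₀ ≤ t₂ ∧ ∀ t ∈ Ioo 0 t₀, ∃ h ∈ Icc (1 / 2 : ℝ) 2,
      ∃ u v α β : ℂ → ℂ, Sol C t h u v α β ∧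
        ∫ θ in (0 : ℝ)..(2 * Real.pi), α (1 + t * Complex.exp (θ * Complex.I)) *
          cj (β (1 + t * Complex.exp (θ * Complex.I))) = 0 := by
  set D : ℝ := C' + 2 + C + C ^ 2 with hD
  have hDpos : 0 < D := by positivity
  refine ⟨min (min t₁ t₂) ((1 / (4 * (D + 1))) ^ 2), by positivity,
    (min_le_left _ _).trans (min_le_left _ _), (min_le_left _ _).trans (min_le_right _ _), ?_⟩
  intro t ht
  obtain ⟨ht0, htlt⟩ := ht
  rw [lt_min_iff, lt_min_iff] at htlt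
  obtain ⟨⟨hta, htb⟩, htc⟩ := htlt
  have ht100 : t < 1 / 100 := hta.trans ht₁'
  have hsq : Real.sqrt t < 1 / (4 * (D + 1)) := (Real.sqrt_lt' (by positivity)).2 htc
  have hDs : D * Real.sqrt t < 1 / 4 := by
    have h1 : (D + 1) * Real.sqrt t < 1 / 4 := by
      rw [lt_div_iff₀ (by positivity)] at hsq
      linarith
    have := Real.sqrt_nonneg t
    linarith
  obtain ⟨u, v, α, β, hh⟩ := hFP t ⟨ht0, hta⟩
  let z : ℝ → ℂ := fun θ => 1 + t * Complex.exp (θ * Complex.I)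
  have hzc : Continuous z := by
    show Continuous (fun θ : ℝ => (1 : ℂ) + t * Complex.exp (θ * Complex.I))
    fun_prop
  have hz1 : ∀ θ, ‖z θ - 1‖ = t := by
    intro θ
    show ‖(1 : ℂ) + t * Complex.exp (θ * Complex.I) - 1‖ = t
    rw [add_sub_cancel_left, norm_mul, Complex.norm_exp_ofReal_mul_I, mul_one, Complex.norm_real,
      Real.norm_eq_abs, abs_of_pos ht0]
  let f : ℝ → ℝ → ℂ := fun h θ => α h (z θ) * cj (β h (z θ))
  have hfc : ∀ h ∈ Icc (1 / 2 : ℝ) 2, Continuous (f h) := by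
    intro h hmem
    exact ((hh h hmem).1.cα.comp hzc).mul (Complex.continuous_conj.comp ((hh h hmem).1.cβ.comp hzc))
  let Φ : ℝ → ℂ := fun h => ∫ θ in (0 : ℝ)..(2 * Real.pi), f h θ
  have hpi : 0 < 2 * Real.pi := by positivity
  have hpt : ∀ h ∈ Icc (1 / 2 : ℝ) 2, ∀ θ, ‖f h θ - ((t * (1 - h) / 2 : ℝ) : ℂ)‖ ≤ D * (t * Real.sqrt t) := by
    intro h hmem θ
    exact PER_pt C C' t h hC ht0 ht100 hmem.1 hmem.2 (u h) (v h) (α h) (β h) (hh h hmem).1
      (fun ζ hζ => hEST t ⟨ht0, htb⟩ h hmem (u h) (v h) (α h) (β h) (hh h hmem).1 ζ hζ) (z θ) (hz1 θ)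
  have hΦ : ∀ h ∈ Icc (1 / 2 : ℝ) 2, ‖Φ h - ((2 * Real.pi * (t * (1 - h) / 2) : ℝ) : ℂ)‖ ≤
      D * (t * Real.sqrt t) * (2 * Real.pi) := by
    intro h hmem
    have e1 : Φ h - ((2 * Real.pi * (t * (1 - h) / 2) : ℝ) : ℂ) =
        ∫ θ in (0 : ℝ)..(2 * Real.pi), (f h θ - ((t * (1 - h) / 2 : ℝ) : ℂ)) := by
      rw [intervalIntegral.integral_sub ((hfc h hmem).intervalIntegrable _ _)
        (intervalIntegrable_const), intervalIntegral.integral_const]
      show _ = Φ h - _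
      rw [sub_zero, Complex.real_smul]
      push_cast
      rfl
    rw [e1]
    have e2 := intervalIntegral.norm_integral_le_of_norm_le_const (a := (0:ℝ)) (b := 2 * Real.pi)
      (C := D * (t * Real.sqrt t)) (f := fun θ => f h θ - ((t * (1 - h) / 2 : ℝ) : ℂ))
      (fun x _ => hpt h hmem x)
    rw [sub_zero, abs_of_pos hpi] at e2
    exact e2
  have hre : ∀ h ∈ Icc (1 / 2 : ℝ) 2, |(Φ h).re - 2 * Real.pi * (t * (1 - h) / 2)| ≤
      D * (t * Real.sqrt t) * (2 * Real.pi) := by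
    intro h hmem
    have e1 := Complex.abs_re_le_norm (Φ h - ((2 * Real.pi * (t * (1 - h) / 2) : ℝ) : ℂ))
    rw [Complex.sub_re, Complex.ofReal_re] at e1
    exact e1.trans (hΦ h hmem)
  have him : ∀ h ∈ Icc (1 / 2 : ℝ) 2, (Φ h).im = 0 := by
    intro h hmem
    have hcz : ∀ θ : ℝ, z (2 * Real.pi - θ) = cj (z θ) := by
      intro θ
      show (1 : ℂ) + t * Complex.exp (((2 * Real.pi - θ : ℝ) : ℂ) * Complex.I) = (starRingEnd ℂ) (1 + t * Complex.exp (θ * Complex.I))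
      rw [map_add, map_mul, map_one, Complex.conj_ofReal, ← Complex.exp_conj, map_mul,
        Complex.conj_ofReal, Complex.conj_I]
      congr 2
      rw [show (((2 * Real.pi - θ : ℝ) : ℂ) * Complex.I) = (θ : ℂ) * -Complex.I + 2 * Real.pi * Complex.I by
        push_cast; ring, Complex.exp_add, Complex.exp_two_pi_mul_I, mul_one]
    have hcf : ∀ θ : ℝ, f h (2 * Real.pi - θ) = (starRingEnd ℂ) (f h θ) := by
      intro θ
      show α h (z (2 * Real.pi - θ)) * cj (β h (z (2 * Real.pi - θ))) = (starRingEnd ℂ) (α h (z θ) * cj (β h (z θ)))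
      rw [hcz, (hh h hmem).1.jα, (hh h hmem).1.jβ, map_mul]
    have e1 : Φ h = (starRingEnd ℂ) (Φ h) := by
      have e2 := intervalIntegral.integral_comp_sub_left (a := 0) (b := 2 * Real.pi) (f h) (2 * Real.pi)
      rw [sub_self, sub_zero] at e2
      have e3 : (∫ θ in (0:ℝ)..(2 * Real.pi), (starRingEnd ℂ) (f h θ)) = (starRingEnd ℂ) (Φ h) := by
        show _ = (starRingEnd ℂ) (∫ θ in (0:ℝ)..(2 * Real.pi), f h θ)
        rw [intervalIntegral.integral_of_le hpi.le, intervalIntegral.integral_of_le hpi.le,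
          integral_conj]
      rw [← e3]
      show (∫ θ in (0:ℝ)..(2 * Real.pi), f h θ) = _
      rw [← e2]
      exact intervalIntegral.integral_congr (fun θ _ => hcf θ)
    exact Complex.conj_eq_iff_im.1 e1.symm
  have hLip : ContinuousOn (fun h => (Φ h).re) (Icc (1 / 2 : ℝ) 2) := by
    set K : ℝ := ((1 + C * t) * C + C * (C * t)) * (2 * Real.pi) with hK
    have hK0 : 0 ≤ K := by positivity
    have hL : LipschitzOnWith ⟨K, hK0⟩ (fun h => (Φ h).re) (Icc (1 / 2 : ℝ) 2) := by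
      refine LipschitzOnWith.of_dist_le_mul (fun h hm h' hm' => ?_)
      rw [Real.dist_eq, Real.dist_eq]
      show |(Φ h).re - (Φ h').re| ≤ K * |h - h'|
      have e1 : Φ h - Φ h' = ∫ θ in (0 : ℝ)..(2 * Real.pi), (f h θ - f h' θ) := by
        rw [intervalIntegral.integral_sub ((hfc h hm).intervalIntegrable _ _)
          ((hfc h' hm').intervalIntegrable _ _)]
      have e2 : ∀ θ ∈ Set.uIoc (0:ℝ) (2 * Real.pi), ‖f h θ - f h' θ‖ ≤ ((1 + C * t) * C + C * (C * t)) * |h - h'| := by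
        intro θ _
        have a1 := ((hh h hm).2 h' hm' (z θ)).1
        have a2 := ((hh h hm).2 h' hm' (z θ)).2
        have a3 : ‖α h (z θ)‖ ≤ 1 + C * t := by
          have := (hh h hm).1.bα (z θ)
          have e : α h (z θ) = 1 + (α h (z θ) - 1) := by ring
          rw [e]
          calc ‖1 + (α h (z θ) - 1)‖ ≤ ‖(1:ℂ)‖ + ‖α h (z θ) - 1‖ := norm_add_le _ _
            _ ≤ 1 + C * t := by rw [norm_one]; linarith
        have a4 := (hh h' hm').1.bβ (z θ)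
        have e : f h θ - f h' θ = α h (z θ) * (starRingEnd ℂ) (β h (z θ) - β h' (z θ)) + (α h (z θ) - α h' (z θ)) * (starRingEnd ℂ) (β h' (z θ)) := by
          show α h (z θ) * (starRingEnd ℂ) (β h (z θ)) - α h' (z θ) * (starRingEnd ℂ) (β h' (z θ)) = _
          rw [map_sub]
          ring
        rw [e]
        calc _ ≤ ‖α h (z θ) * (starRingEnd ℂ) (β h (z θ) - β h' (z θ))‖ + ‖(α h (z θ) - α h' (z θ)) * (starRingEnd ℂ) (β h' (z θ))‖ := norm_add_le _ _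
          _ = ‖α h (z θ)‖ * ‖β h (z θ) - β h' (z θ)‖ + ‖α h (z θ) - α h' (z θ)‖ * ‖β h' (z θ)‖ := by
              rw [norm_mul, norm_mul, Complex.norm_conj, Complex.norm_conj]
          _ ≤ (1 + C * t) * (C * |h - h'|) + (C * |h - h'|) * (C * t) := by
              refine add_le_add (mul_le_mul a3 a2 (norm_nonneg _) (by positivity))
                (mul_le_mul a1 a4 (norm_nonneg _) (by positivity))
          _ = _ := by ring
      have e3 := intervalIntegral.norm_integral_le_of_norm_le_const e2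
      rw [← e1, sub_zero, abs_of_pos hpi] at e3
      have e4 := Complex.abs_re_le_norm (Φ h - Φ h')
      rw [Complex.sub_re] at e4
      refine e4.trans (e3.trans (le_of_eq ?_))
      rw [hK]; ring
    exact hL.continuousOn
  have hiv := intermediate_value_Icc' (show (1 / 2 : ℝ) ≤ 2 by norm_num) hLip
  have h0mem : (0 : ℝ) ∈ Icc ((Φ 2).re) ((Φ (1 / 2)).re) := by
    have hts : D * (t * Real.sqrt t) < t / 4 := by
      have := mul_lt_mul_of_pos_left hDs ht0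
      linarith
    have hpi' := Real.pi_pos
    constructor
    · have e1 := (abs_le.1 (hre 2 ⟨by norm_num, le_rfl⟩)).2
      nlinarith
    · have e1 := (abs_le.1 (hre (1 / 2) ⟨le_rfl, by norm_num⟩)).1
      nlinarith
  obtain ⟨h, hmem, hh0⟩ := hiv h0mem
  refine ⟨h, hmem, u h, v h, α h, β h, (hh h hmem).1, ?_⟩
  show Φ h = 0
  exact Complex.ext hh0 (him h hmem)

end Pool.Agent.Helper676.TL
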